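import Pool.Agent.Lib.MP_4dc748_co.TE.Geo
import Pool.Agent.Lib.MP_4dc748_co.TA.Defs

/-!
# From families of points to arcs in coordinates; collineations
-/

set_option autoImplicit false

open scoped Classical

namespace Pool.Agent.Lib.MP_4dc748_co.TE

open F4 Pool.Agent.Lib.MP_4dc748_co.TA

/-- A family of points (v, b) with at most 7 points on each line, for the Frobenius automorphism. -/
structure IsFam {ι : Type} [Fintype ι] (v b : ι → Fin 3 → F4) : Prop where
  ne : ∀ i, v i ≠ 0
  dist : ∀ i j, i ≠ j → ∀ c d : F4, ¬ (v j = c • v i ∧ b j = d • v i + frob c • b i)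
  line : ∀ a c : Fin 3 → F4, a ≠ 0 →
    (Finset.univ.filter (fun i => Inc frob a c (v i) (b i))).card ≤ 7

/-- u gives the numbers of points over the 21 classes for some family of 99 points with at most 7 points on each
line. -/
def US (u : Fin 21 → ℕ) : Prop :=
  ∃ (ι : Type) (_ : Fintype ι) (v b : ι → Fin 3 → F4), IsFam v b ∧ Fintype.card ι = 99 ∧
    ∀ x, (Finset.univ.filter (fun i => ∃ e : F4, v i = e • PT x)).card = u x

private theorem fam_norm : ∀ a b c : F4, ¬ (a = 0 ∧ b = 0 ∧ c = 0) →
    ∃ x : Fin 21, ∃ e : F4, e ≠ 0 ∧ a = e * PT x 0 ∧ b = e * PT x 1 ∧ c = e * PT x 2 := by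
  decide +kernel

private theorem fam_uniq : ∀ x y : Fin 21, ∀ e : F4,
    (PT x 0 = e * PT y 0 ∧ PT x 1 = e * PT y 1 ∧ PT x 2 = e * PT y 2) → x = y := by
  decide +kernel

private theorem fam_PT_ne : ∀ x : Fin 21, ¬ (PT x 0 = 0 ∧ PT x 1 = 0 ∧ PT x 2 = 0) := by
  decide +kernel

private theorem fam_dec : ∀ x : Fin 21, ∀ a b c : F4, ∃ d : F4, ∃ p : F4 × F4,
    a = d * PT x 0 + DEC x p 0 ∧ b = d * PT x 1 + DEC x p 1 ∧ c = d * PT x 2 + DEC x p 2 := by
  decide +kernel

private theorem fam_norm' (v : Fin 3 → F4) (hv : v ≠ 0) :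
    ∃ x : Fin 21, ∃ e : F4, e ≠ 0 ∧ v = e • PT x := by
  obtain ⟨x, e, he, h0, h1, h2⟩ := fam_norm (v 0) (v 1) (v 2) (by
    rintro ⟨h0, h1, h2⟩
    apply hv
    funext j
    fin_cases j
    · exact h0
    · exact h1
    · exact h2)
  refine ⟨x, e, he, ?_⟩
  funext j
  fin_cases j
  · exact h0
  · exact h1
  · exact h2

private theorem fam_PT_ne' (x : Fin 21) : PT x ≠ 0 := by
  intro h
  exact fam_PT_ne x ⟨congrFun h 0, congrFun h 1, congrFun h 2⟩

private theorem fam_uniq' {x y : Fin 21} {e : F4} (h : PT x = e • PT y) : x = y :=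
  fam_uniq x y e ⟨congrFun h 0, congrFun h 1, congrFun h 2⟩

private theorem fam_uniq2 {x y : Fin 21} {e f : F4} (he : e ≠ 0) (h : e • PT x = f • PT y) :
    x = y := by
  apply fam_uniq' (e := e⁻¹ * f)
  rw [mul_smul, ← h, smul_smul, inv_mul_cancel₀ he, one_smul]

private theorem fam_dec' (x : Fin 21) (b : Fin 3 → F4) :
    ∃ d : F4, ∃ p : F4 × F4, b = d • PT x + DEC x p := by
  obtain ⟨d, p, h0, h1, h2⟩ := fam_dec x (b 0) (b 1) (b 2)
  refine ⟨d, p, ?_⟩
  funext j
  fin_cases j
  · exact h0
  · exact h1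
  · exact h2

private theorem fam_dec2 (x : Fin 21) (e : F4) (he : e ≠ 0) (b : Fin 3 → F4) :
    ∃ d : F4, ∃ p : F4 × F4, b = d • PT x + frob e • DEC x p := by
  obtain ⟨d, p, h⟩ := fam_dec' x ((frob e)⁻¹ • b)
  have hf : frob e ≠ 0 := by
    intro h0
    exact he ((map_eq_zero frob).1 h0)
  refine ⟨frob e * d, p, ?_⟩
  have h2 : b = frob e • ((frob e)⁻¹ • b) := by
    rw [smul_smul, mul_inv_cancel₀ hf, one_smul]
  rw [h2, h, smul_add, smul_smul]

private theorem fam_add (a b : F4) : a + b = 0 ↔ a = b := by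
  revert a b
  decide

private theorem fam_frob_smul (e : F4) (v : Fin 3 → F4) :
    (frob ∘ (e • v) : Fin 3 → F4) = frob e • (frob ∘ v) := by
  funext j
  simp [Function.comp_apply]

/-- K x = the set of the p such that some member (v, b) of the family is the point (PT x, DEC x p), i.e. v = e PT x
and b = d PT x + frob e DEC x p for some e ≠ 0 and d. Each v ≠ 0 is e PT x for exactly one x, and each b is
d PT x + DEC x p for exactly one p. -/
theorem exists_CArc (u : Fin 21 → ℕ) (h : US u) : ∃ A : CArc, ∀ x, (A.K x).card = u x := by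
  obtain ⟨ι, hι, v, b, hF, hcard, hu⟩ := h
  choose X e he hv using fun i => fam_norm' (v i) (hF.ne i)
  choose d P hb using fun i => fam_dec2 (X i) (e i) (he i) (b i)
  have hX : ∀ x, (Finset.univ.filter (fun i => ∃ e : F4, v i = e • PT x)) =
      Finset.univ.filter (fun i => X i = x) := by
    intro x
    ext i
    simp only [Finset.mem_filter, Finset.mem_univ, true_and]
    constructor
    · rintro ⟨f, hf⟩
      exact fam_uniq2 (he i) ((hv i).symm.trans hf)
    · rintro rfl
      exact ⟨e i, hv i⟩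
  have hinj : ∀ i j, X i = X j → P i = P j → i = j := by
    intro i j h1 h2
    by_contra hne
    refine hF.dist i j hne (e j * (e i)⁻¹) ((d j - frob (e j * (e i)⁻¹) * d i) * (e i)⁻¹) ⟨?_, ?_⟩
    · rw [hv i, hv j, h1, smul_smul, mul_assoc, inv_mul_cancel₀ (he i), mul_one]
    · have hfe : frob (e j * (e i)⁻¹) * frob (e i) = frob (e j) := by
        rw [← map_mul, mul_assoc, inv_mul_cancel₀ (he i), mul_one]
      rw [hb j]
      conv_rhs => rw [hb i, hv i]
      rw [h1, h2, smul_add, smul_smul, smul_smul, smul_smul, hfe, mul_assoc,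
        inv_mul_cancel₀ (he i), mul_one, ← add_assoc, ← add_smul, sub_add_cancel]
  let K : Fin 21 → Finset (F4 × F4) := fun x => (Finset.univ.filter (fun i => X i = x)).image P
  have hKc : ∀ x, (K x).card = (Finset.univ.filter (fun i => X i = x)).card := by
    intro x
    refine Finset.card_image_of_injOn ?_
    intro i hi j hj hij
    have hi' : X i = x := by simpa using hi
    have hj' : X j = x := by simpa using hj
    exact hinj i j (hi'.trans hj'.symm) hij
  have hKu : ∀ x, (K x).card = u x := fun x => by rw [hKc x, ← hX x, hu x]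
  have htot : ∑ x, (K x).card = 99 := by
    rw [← hcard, ← Finset.card_univ, Finset.card_eq_sum_card_fiberwise (f := X)
      (t := Finset.univ) (fun i _ => Finset.mem_coe.2 (Finset.mem_univ _))]
    exact Finset.sum_congr rfl fun x _ => hKc x
  have hline : ∀ (l : Fin 21) (c : Fin 3 → F4), ∑ j : Fin 5, ((K (LP l j)).filter
      (fun p => dt (PT l) (DEC (LP l j) p) = dt c (frob ∘ PT (LP l j)))).card ≤ 7 := by
    intro l c
    have h7 := hF.line (PT l) c (fam_PT_ne' l)
    refine le_trans ?_ h7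
    have hle : ∀ j : Fin 5, ((K (LP l j)).filter
        (fun p => dt (PT l) (DEC (LP l j) p) = dt c (frob ∘ PT (LP l j)))).card ≤
        (Finset.univ.filter (fun i => X i = LP l j ∧ Inc frob (PT l) c (v i) (b i))).card := by
      intro j
      refine le_trans (Finset.card_le_card ?_) (Finset.card_image_le (f := P))
      intro p hp
      rw [Finset.mem_filter] at hp
      obtain ⟨hp1, hp2⟩ := hp
      obtain ⟨i, hi, rfl⟩ := Finset.mem_image.1 hp1
      have hi' : X i = LP l j := by simpa using hi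
      refine Finset.mem_image.2 ⟨i, Finset.mem_filter.2 ⟨Finset.mem_univ _, hi', ?_, ?_⟩, rfl⟩
      · rw [hv i, hi', dotProduct_smul, dt_eq, (inc_LP l (LP l j)).2 ⟨j, rfl⟩, smul_zero]
      · rw [hb i, hv i, hi', fam_frob_smul, dotProduct_add, dotProduct_smul, dotProduct_smul,
          dotProduct_smul, dt_eq, dt_eq, dt_eq, (inc_LP l (LP l j)).2 ⟨j, rfl⟩, smul_zero,
          zero_add, hp2, fam_add]
    refine le_trans (Finset.sum_le_sum fun j _ => hle j) ?_
    rw [← Finset.card_biUnion]
    · refine Finset.card_le_card ?_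
      intro i hi
      obtain ⟨j, _, hj⟩ := Finset.mem_biUnion.1 hi
      exact Finset.mem_filter.2 ⟨Finset.mem_univ _, (Finset.mem_filter.1 hj).2.2⟩
    · intro j _ j' _ hne
      refine Finset.disjoint_left.2 ?_
      intro i hi hi'
      exact hne (LP_inj l j j' ((Finset.mem_filter.1 hi).2.1.symm.trans
        (Finset.mem_filter.1 hi').2.1))
  exact ⟨⟨K, htot, hline⟩, hKu⟩

/-- The entry (r, c) of the matrix with the number n. -/
def mat (n : ℕ) (r c : Fin 3) : F4 := el (n / 4 ^ (3 * r.1 + c.1) % 4)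

/-- The identity or the Frobenius map. -/
def phi (ep : Bool) (t : F4) : F4 := if ep then fr t else t

private theorem fam_phi_add (ep : Bool) (a b : F4) : phi ep (a + b) = phi ep a + phi ep b := by
  revert ep a b
  decide

private theorem fam_phi_mul (ep : Bool) (a b : F4) : phi ep (a * b) = phi ep a * phi ep b := by
  revert ep a b
  decide

private theorem fam_phi_phi (ep : Bool) (a : F4) : phi ep (phi ep a) = a := by
  revert ep a
  decide

private theorem fam_phi_zero (ep : Bool) : phi ep 0 = 0 := by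
  revert ep
  decide

private theorem fam_phi_frob (ep : Bool) (a : F4) : phi ep (frob a) = frob (phi ep a) := by
  revert ep a
  decide

private theorem fam_phi_sum (ep : Bool) (f : Fin 3 → F4) :
    phi ep (∑ k, f k) = ∑ k, phi ep (f k) := by
  rw [Fin.sum_univ_three, Fin.sum_univ_three, fam_phi_add, fam_phi_add]

/-- The semilinear map. -/
private def famL (ep : Bool) (N : Matrix (Fin 3) (Fin 3) F4) (v : Fin 3 → F4) : Fin 3 → F4 :=
  fun r => phi ep (N.mulVec v r)

private theorem famL_add (ep : Bool) (N : Matrix (Fin 3) (Fin 3) F4) (v w : Fin 3 → F4) :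
    famL ep N (v + w) = famL ep N v + famL ep N w := by
  funext r
  simp only [famL, Matrix.mulVec_add, Pi.add_apply, fam_phi_add]

private theorem famL_smul (ep : Bool) (N : Matrix (Fin 3) (Fin 3) F4) (c : F4) (v : Fin 3 → F4) :
    famL ep N (c • v) = phi ep c • famL ep N v := by
  funext r
  simp only [famL, Matrix.mulVec_smul, Pi.smul_apply, smul_eq_mul, fam_phi_mul]

private theorem famL_inj (ep : Bool) {M N : Matrix (Fin 3) (Fin 3) F4} (h : M * N = 1)
    {v w : Fin 3 → F4} (hvw : famL ep N v = famL ep N w) : v = w := by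
  have h1 : N.mulVec v = N.mulVec w := by
    funext r
    have h2 := congrFun hvw r
    simp only [famL] at h2
    rw [← fam_phi_phi ep (N.mulVec v r), h2, fam_phi_phi]
  rw [← Matrix.one_mulVec v, ← Matrix.one_mulVec w, ← h, ← Matrix.mulVec_mulVec, h1,
    Matrix.mulVec_mulVec]

private theorem famL_zero (ep : Bool) (N : Matrix (Fin 3) (Fin 3) F4) : famL ep N 0 = 0 := by
  funext r
  simp [famL, fam_phi_zero]

/-- phi on vectors. -/
private def famP (ep : Bool) (v : Fin 3 → F4) : Fin 3 → F4 := fun r => phi ep (v r)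

private theorem fam_dot (ep : Bool) (N : Matrix (Fin 3) (Fin 3) F4) (a v : Fin 3 → F4) :
    a ⬝ᵥ famL ep N v = phi ep (Matrix.vecMul (famP ep a) N ⬝ᵥ v) := by
  rw [← Matrix.dotProduct_mulVec]
  simp only [dotProduct, fam_phi_sum, fam_phi_mul, famP, famL, fam_phi_phi]

private theorem fam_dot_frob (ep : Bool) (N : Matrix (Fin 3) (Fin 3) F4) (c v : Fin 3 → F4) :
    c ⬝ᵥ (frob ∘ famL ep N v) =
      phi ep (Matrix.vecMul (famP ep c) (N.map frob) ⬝ᵥ (frob ∘ v)) := by
  rw [← Matrix.dotProduct_mulVec]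
  have h1 : (N.map frob).mulVec (frob ∘ v) = frob ∘ (N.mulVec v) := by
    funext r
    simp only [Matrix.mulVec, dotProduct, Function.comp_apply, Matrix.map_apply, map_sum, map_mul]
  rw [h1]
  simp only [dotProduct, fam_phi_sum, fam_phi_mul, famP, famL, fam_phi_phi, Function.comp_apply,
    fam_phi_frob]

/-- The matrix number m is a left inverse of the matrix number n, and the semilinear map v ↦ phi (n v) maps the
vector PT (p x) to a multiple of PT x: then u o p is again in US (the new family is phi (n v), phi (n b)). -/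
theorem US_comp (u : Fin 21 → ℕ) (p : Fin 21 → Fin 21) (n m : ℕ) (ep : Bool)
    (h1 : ∀ r c : Fin 3, ∑ k, mat m r k * mat n k c = if r = c then 1 else 0)
    (h2 : ∀ x : Fin 21, ∃ e : F4, e ≠ 0 ∧ ∀ r, phi ep (∑ k, mat n r k * PT (p x) k) = e * PT x r)
    (h : US u) : US (fun x => u (p x)) := by
  obtain ⟨ι, hι, v, b, hF, hcard, hu⟩ := h
  have hMN : (Matrix.of (mat m)) * (Matrix.of (mat n)) = 1 := by
    ext r c
    rw [Matrix.mul_apply, Matrix.one_apply]
    exact h1 r c
  have hNM : (Matrix.of (mat n)) * (Matrix.of (mat m)) = 1 := mul_eq_one_comm.1 hMN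
  set N := Matrix.of (mat n) with hN
  set M := Matrix.of (mat m) with hM
  have hPT : ∀ x, ∃ e : F4, e ≠ 0 ∧ famL ep N (PT (p x)) = e • PT x := by
    intro x
    obtain ⟨e, he, h3⟩ := h2 x
    exact ⟨e, he, funext h3⟩
  refine ⟨ι, hι, fun i => famL ep N (v i), fun i => famL ep N (b i), ⟨?_, ?_, ?_⟩, hcard, ?_⟩
  · intro i h0
    exact hF.ne i (famL_inj ep hMN (h0.trans (famL_zero ep N).symm))
  · rintro i j hij c d ⟨h3, h4⟩
    refine hF.dist i j hij (phi ep c) (phi ep d) ⟨?_, ?_⟩
    · apply famL_inj ep hMN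
      rw [famL_smul, fam_phi_phi]
      exact h3
    · apply famL_inj ep hMN
      rw [famL_add, famL_smul, famL_smul, fam_phi_phi, fam_phi_frob, fam_phi_phi]
      exact h4
  · intro a c ha
    have ha' : Matrix.vecMul (famP ep a) N ≠ 0 := by
      intro h0
      apply ha
      have h5 : famP ep a = 0 := by
        rw [← Matrix.vecMul_one (famP ep a), ← hNM, ← Matrix.vecMul_vecMul, h0,
          Matrix.zero_vecMul]
      funext r
      have h6 := congrFun h5 r
      simp only [famP] at h6
      rw [← fam_phi_phi ep (a r), h6]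
      exact fam_phi_zero ep
    refine le_trans (Finset.card_le_card ?_) (hF.line (Matrix.vecMul (famP ep a) N)
      (Matrix.vecMul (famP ep c) (N.map frob)) ha')
    intro i hi
    rw [Finset.mem_filter] at hi ⊢
    refine ⟨Finset.mem_univ _, ?_, ?_⟩
    · have h6 := hi.2.1
      rw [fam_dot] at h6
      rw [← fam_phi_phi ep (Matrix.vecMul (famP ep a) N ⬝ᵥ v i), h6]
      exact fam_phi_zero ep
    · have h6 := hi.2.2
      rw [fam_dot, fam_dot_frob, ← fam_phi_add] at h6
      rw [← fam_phi_phi ep (Matrix.vecMul (famP ep a) N ⬝ᵥ b i +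
        Matrix.vecMul (famP ep c) (N.map frob) ⬝ᵥ (frob ∘ v i)), h6]
      exact fam_phi_zero ep
  · intro x
    refine Eq.trans ?_ (hu (p x))
    refine congrArg Finset.card ?_
    ext i
    simp only [Finset.mem_filter, Finset.mem_univ, true_and]
    obtain ⟨e, he, h3⟩ := hPT x
    constructor
    · rintro ⟨f, hf⟩
      refine ⟨phi ep (f * e⁻¹), ?_⟩
      apply famL_inj ep hMN
      rw [famL_smul, fam_phi_phi, h3, smul_smul, mul_assoc, inv_mul_cancel₀ he, mul_one]
      exact hf
    · rintro ⟨f, hf⟩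
      refine ⟨phi ep f * e, ?_⟩
      rw [hf, famL_smul, h3, smul_smul]

end Pool.Agent.Lib.MP_4dc748_co.TE
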