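import Pool.Agent.Lib.MP_4dc748_co.TE.PosBF

/-!
# The third exceptional structure (a unital) has no arc

H = the 9 classes 2, 3, 4, 6, 7, 11, 12, 16, 17 (exactly one coordinate of PT x is 0), with 7 points; the 12 other
classes have 3 points. The lines 0, 1, 5, 8, 9, 10, 13, 14, 15, 18, 19, 20 are secants (3 classes of H), the 9 others
(2, 3, 4, 6, 7, 11, 12, 16, 17) tangents (1 class of H).
Proof. For a class x let beta x = sum over p in K x of p (in F4 x F4, characteristic 2), fl l j (beta x) =
dt (PT l) (DEC x (beta x)), x = LP l j.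
(1) By cap_mx the vectors on a secant are 2221 at the classes of H and 1110 at the others; by the strip condition the
five deficient segments cover the affine plane, so they are concurrent, and beta is good on the secants (PosBC).
(2) Translation by a function n which is good on all lines (PosBA).
(3) Linear algebra over F4 (PosBB): a function which is good on the secants is good on all lines (it is the function of
a 3 x 3 matrix, by propagation of zeros). So we may assume that beta x = 0 for all x.
(4) Then for x in H there are 3 possible vectors in the tangent direction, and for the other classes 6 possible sets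
(PosBF). The searches are in PosBD, their soundness in PosBE.
-/

set_option autoImplicit false

namespace Pool.Agent.Lib.MP_4dc748_co.TE

open F4

/-- The numbers of points of the classes of the third structure. -/
def uB : Fin 21 → ℕ := ![3, 3, 7, 7, 7, 3, 7, 7, 3, 3, 3, 7, 7, 3, 3, 3, 7, 7, 3, 3, 3]

open PosBA PosBB PosBC PosBD PosBE PosBF in
private theorem noB_zero (A : CArc) (h : ∀ x, (A.K x).card = uu x) (hb : ∀ x, beta A x = 0) :
    False := by
  have hex : ∀ x, ∃ a : ℕ, uu x = 3 → a < 6 ∧ A.K x = optS x a := by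
    intro x
    by_cases hx : uu x = 3
    · obtain ⟨a, ha⟩ := optN A h hb x hx
      exact ⟨a.1, fun _ => ⟨a.2, ha⟩⟩
    · exact ⟨0, fun hc => absurd hc hx⟩
  choose O hO using hex
  have t6 : tb (TT 6) (O 1 + 6 * O 8 + 36 * O 9 + 216 * O 10) = true := by
    have e := line_tb A h hb O hO 6 (by decide)
    have e2 : ∑ j : Fin 5, WT 6 j * O (LP 6 j) = O 1 + 6 * O 8 + 36 * O 9 + 216 * O 10 := by
      rw [Fin.sum_univ_five]
      change 1 * O 1 + 0 * O 6 + 6 * O 8 + 36 * O 9 + 216 * O 10 = _
      ring
    rwa [e2] at e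
  have t12 : tb (TT 12) (O 0 + 6 * O 9 + 36 * O 15 + 216 * O 18) = true := by
    have e := line_tb A h hb O hO 12 (by decide)
    have e2 : ∑ j : Fin 5, WT 12 j * O (LP 12 j) = O 0 + 6 * O 9 + 36 * O 15 + 216 * O 18 := by
      rw [Fin.sum_univ_five]
      change 1 * O 0 + 6 * O 9 + 36 * O 15 + 0 * O 17 + 216 * O 18 = _
      ring
    rwa [e2] at e
  have t7 : tb (TT 7) (O 0 + 6 * O 8 + 36 * O 14 + 216 * O 20) = true := by
    have e := line_tb A h hb O hO 7 (by decide)
    have e2 : ∑ j : Fin 5, WT 7 j * O (LP 7 j) = O 0 + 6 * O 8 + 36 * O 14 + 216 * O 20 := by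
      rw [Fin.sum_univ_five]
      change 1 * O 0 + 0 * O 7 + 6 * O 8 + 36 * O 14 + 216 * O 20 = _
      ring
    rwa [e2] at e
  have t11 : tb (TT 11) (O 1 + 6 * O 18 + 36 * O 19 + 216 * O 20) = true := by
    have e := line_tb A h hb O hO 11 (by decide)
    have e2 : ∑ j : Fin 5, WT 11 j * O (LP 11 j) = O 1 + 6 * O 18 + 36 * O 19 + 216 * O 20 := by
      rw [Fin.sum_univ_five]
      change 1 * O 1 + 0 * O 16 + 6 * O 18 + 36 * O 19 + 216 * O 20 = _
      ring
    rwa [e2] at e
  have t16 : tb (TT 16) (O 1 + 6 * O 13 + 36 * O 14 + 216 * O 15) = true := by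
    have e := line_tb A h hb O hO 16 (by decide)
    have e2 : ∑ j : Fin 5, WT 16 j * O (LP 16 j) = O 1 + 6 * O 13 + 36 * O 14 + 216 * O 15 := by
      rw [Fin.sum_univ_five]
      change 1 * O 1 + 0 * O 11 + 6 * O 13 + 36 * O 14 + 216 * O 15 = _
      ring
    rwa [e2] at e
  have t17 : tb (TT 17) (O 0 + 6 * O 10 + 36 * O 13 + 216 * O 19) = true := by
    have e := line_tb A h hb O hO 17 (by decide)
    have e2 : ∑ j : Fin 5, WT 17 j * O (LP 17 j) = O 0 + 6 * O 10 + 36 * O 13 + 216 * O 19 := by
      rw [Fin.sum_univ_five]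
      change 1 * O 0 + 6 * O 10 + 0 * O 12 + 36 * O 13 + 216 * O 19 = _
      ring
    rwa [e2] at e
  have t2 : tb (TT 2) (O 5 + 6 * O 8 + 36 * O 13 + 216 * O 18) = true := by
    have e := line_tb A h hb O hO 2 (by decide)
    have e2 : ∑ j : Fin 5, WT 2 j * O (LP 2 j) = O 5 + 6 * O 8 + 36 * O 13 + 216 * O 18 := by
      rw [Fin.sum_univ_five]
      change 0 * O 2 + 1 * O 5 + 6 * O 8 + 36 * O 13 + 216 * O 18 = _
      ring
    rwa [e2] at e
  have t3 : tb (TT 3) (O 5 + 6 * O 10 + 36 * O 15 + 216 * O 20) = true := by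
    have e := line_tb A h hb O hO 3 (by decide)
    have e2 : ∑ j : Fin 5, WT 3 j * O (LP 3 j) = O 5 + 6 * O 10 + 36 * O 15 + 216 * O 20 := by
      rw [Fin.sum_univ_five]
      change 0 * O 4 + 1 * O 5 + 6 * O 10 + 36 * O 15 + 216 * O 20 = _
      ring
    rwa [e2] at e
  have t4 : tb (TT 4) (O 5 + 6 * O 9 + 36 * O 14 + 216 * O 19) = true := by
    have e := line_tb A h hb O hO 4 (by decide)
    have e2 : ∑ j : Fin 5, WT 4 j * O (LP 4 j) = O 5 + 6 * O 9 + 36 * O 14 + 216 * O 19 := by
      rw [Fin.sum_univ_five]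
      change 0 * O 3 + 1 * O 5 + 6 * O 9 + 36 * O 14 + 216 * O 19 = _
      ring
    rwa [e2] at e
  have h6 : ∀ x, uu x = 3 → O x < 6 := fun x hx => (hO x hx).1
  have hs := srch_true
  unfold srch at hs
  have a1 := all6_spec hs (O 8) (h6 8 (by decide))
  have a2 := all6_spec a1 (O 10) (h6 10 (by decide))
  have a3 := all6_spec a2 (O 9) (h6 9 (by decide))
  have a4 := all6_spec a3 (O 1) (h6 1 (by decide))
  have a5 := all6_spec (orr a4 t6) (O 0) (h6 0 (by decide))
  have a6 := all6_spec a5 (O 18) (h6 18 (by decide))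
  have a7 := all6_spec a6 (O 15) (h6 15 (by decide))
  have a8 := all6_spec (orr a7 t12) (O 14) (h6 14 (by decide))
  have a9 := all6_spec a8 (O 20) (h6 20 (by decide))
  have a10 := all6_spec (orr a9 t7) (O 19) (h6 19 (by decide))
  have a11 := all6_spec (orr a10 t11) (O 13) (h6 13 (by decide))
  simp only [t16, t17, Bool.not_true, Bool.false_or, Bool.or_self] at a11
  have a12 := all6_spec a11 (O 5) (h6 5 (by decide))
  simp only [t2, t3, t4, Bool.not_true, Bool.or_self] at a12
  exact Bool.false_ne_true a12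

open PosBA PosBB PosBC in
theorem noB (A : CArc) (h : ∀ x, (A.K x).card = uB x) : False := by
  have hu : ∀ x, uB x = uu x := by decide
  have h' : ∀ x, (A.K x).card = uu x := fun x => (h x).trans (hu x)
  have hg : ∀ l, Good l (beta A) := good_all fun l hl => good_sec A h' l hl
  have hodd : ∀ x, (A.K x).card % 2 = 1 := by
    intro x
    rcases uu_cases x with hx | hx <;> rw [h', hx]
  exact noB_zero (tr A (beta A) hg) (fun x => (tr_card A (beta A) hg x).trans (h' x))
    (fun x => tr_beta A hg hodd x)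

end Pool.Agent.Lib.MP_4dc748_co.TE
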