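import Pool.Agent.Lib.MP_4dc748_co.TE.Uni
import Pool.Agent.Lib.MP_4dc748_co.TE.Fam

/-!
# The unitals of the plane of order 4 are in the table, and equivalent to the standard one
-/

set_option autoImplicit false
set_option maxHeartbeats 4000000

namespace Pool.Agent.Lib.MP_4dc748_co.TE

open F4

/-- The entry x of the packed permutation. -/
def pof (c : ℕ) (x : Fin 21) : Fin 21 := ⟨c / 32 ^ x.1 % 32 % 21, Nat.mod_lt _ (by decide)⟩

/-- The entry x of the packed scalars. -/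
def eof (c : ℕ) (x : Fin 21) : F4 := el (c / 4 ^ x.1 % 4)

/-- The standard unital. -/
def HB : Fin 21 → Bool := fun x => decide (x.1 ∈ [2, 3, 4, 6, 7, 11, 12, 16, 17])

theorem UT_inv : ∀ t ∈ UT, ∀ r c : Fin 3,
    mat t.2.2.1 r 0 * mat t.2.1 0 c + mat t.2.2.1 r 1 * mat t.2.1 1 c + mat t.2.2.1 r 2 * mat t.2.1 2 c =
      if r = c then 1 else 0 := by
  decide +kernel

theorem UT_map : ∀ t ∈ UT, ∀ x : Fin 21, eof t.2.2.2.2 x ≠ 0 ∧ ∀ r : Fin 3,
    mat t.2.1 r 0 * PT (pof t.2.2.2.1 x) 0 + mat t.2.1 r 1 * PT (pof t.2.2.2.1 x) 1 +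
      mat t.2.1 r 2 * PT (pof t.2.2.2.1 x) 2 = eof t.2.2.2.2 x * PT x r := by
  decide +kernel

theorem UT_mask : ∀ t ∈ UT, ∀ x : Fin 21,
    Nat.testBit t.1 (pof t.2.2.2.1 x).1 = HB x := by
  decide +kernel

theorem sum21 (f : Fin 21 → ℕ) :
    f 0 + (f 1 + (f 2 + (f 3 + (f 4 + (f 5 + (f 6 + (f 7 + (f 8 + (f 9 + (f 10 + (f 11 + (f 12 + (f 13 + (f 14 +
        (f 15 + (f 16 + (f 17 + (f 18 + (f 19 + f 20))))))))))))))))))) = ∑ x, f x := by
  rw [Fin.sum_univ_def]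
  simp [List.finRange]

theorem ob21 (b : Fin 21 → Bool) :
    Nat.add (Nat.mul 1 (b 0).toNat) (Nat.add (Nat.mul 2 (b 1).toNat) (Nat.add (Nat.mul 4 (b 2).toNat) (Nat.add
        (Nat.mul 8 (b 3).toNat) (Nat.add (Nat.mul 16 (b 4).toNat) (Nat.add (Nat.mul 32 (b 5).toNat) (Nat.add
        (Nat.mul 64 (b 6).toNat) (Nat.add (Nat.mul 128 (b 7).toNat) (Nat.add (Nat.mul 256 (b 8).toNat) (Nat.add
        (Nat.mul 512 (b 9).toNat) (Nat.add (Nat.mul 1024 (b 10).toNat) (Nat.add (Nat.mul 2048 (b 11).toNat)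
        (Nat.add (Nat.mul 4096 (b 12).toNat) (Nat.add (Nat.mul 8192 (b 13).toNat) (Nat.add (Nat.mul 16384 (b
        14).toNat) (Nat.add (Nat.mul 32768 (b 15).toNat) (Nat.add (Nat.mul 65536 (b 16).toNat) (Nat.add (Nat.mul
        131072 (b 17).toNat) (Nat.add (Nat.mul 262144 (b 18).toNat) (Nat.add (Nat.mul 524288 (b 19).toNat)
        (Nat.mul 1048576 (b 20).toNat)))))))))))))))))))) = Nat.ofBits b := by
  simp only [Nat.ofBits_succ, Nat.ofBits_zero, Function.comp_def, Nat.add_eq, Nat.mul_eq]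
  change _ = 2 * (2 * (2 * (2 * (2 * (2 * (2 * (2 * (2 * (2 * (2 * (2 * (2 * (2 * (2 * (2 * (2 * (2 * (2 * (2 *
      (2 * 0 + (b 20).toNat) + (b 19).toNat) + (b 18).toNat) + (b 17).toNat) + (b 16).toNat) + (b 15).toNat) +
      (b 14).toNat) + (b 13).toNat) + (b 12).toNat) + (b 11).toNat) + (b 10).toNat) + (b 9).toNat) + (b
      8).toNat) + (b 7).toNat) + (b 6).toNat) + (b 5).toNat) + (b 4).toNat) + (b 3).toNat) + (b 2).toNat) + (b
      1).toNat) + (b 0).toNat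
  ring

theorem beq_of_eq {m n : ℕ} (h : m = n) : Nat.beq m n = true := by
  subst h
  exact Nat.beq_refl m

/-- A set of 9 points which meets all lines in 0, 1 or 3 points is in the table. -/
theorem uni_table (b : Fin 21 → Bool)
    (hl : ∀ l, ok5 (b (LP l 0)) (b (LP l 1)) (b (LP l 2)) (b (LP l 3)) (b (LP l 4)) = true)
    (h9 : ∑ x, (b x).toNat = 9) : ∃ t ∈ UT, ∀ x : Fin 21, Nat.testBit t.1 x.1 = b x := by
  have h := uni_aux (b 6) (b 1) (b 10) (b 8) (b 9) (hl 6) (b 20) (b 11) (b 12) (b 2) (hl 18) (b 16) (b 7) (b 13)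
      (b 4) (hl 14) (b 15) (b 14) (hl 16) (b 5) (hl 3) (b 17) (hl 0) (hl 13) (b 0) (hl 1) (hl 7) (b 18) (hl 2)
      (hl 9) (hl 12) (b 19) (hl 8) (hl 11) (hl 17) (hl 19) (b 3) (hl 4) (hl 5) (hl 10) (hl 15) (hl 20)
  have h1 := h (beq_of_eq ((sum21 (fun x => (b x).toNat)).trans h9))
  obtain ⟨t, ht, h2⟩ := List.any_eq_true.1 h1
  refine ⟨t, ht, fun x => ?_⟩
  have h3 : t.1 = Nat.ofBits b := (Nat.eq_of_beq_eq_true h2).trans (ob21 b)
  rw [h3, Nat.testBit_ofBits_lt _ _ x.2]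

/-- A set of 9 points which meets all lines in 0, 1 or 3 points is mapped to the standard unital by a matrix. -/
theorem uni_std (b : Fin 21 → Bool)
    (hl : ∀ l, ok5 (b (LP l 0)) (b (LP l 1)) (b (LP l 2)) (b (LP l 3)) (b (LP l 4)) = true)
    (h9 : ∑ x, (b x).toNat = 9) : ∃ (p : Fin 21 → Fin 21) (n m : ℕ),
      (∀ r c : Fin 3, ∑ k, mat m r k * mat n k c = if r = c then 1 else 0) ∧
      (∀ x : Fin 21, ∃ e : F4, e ≠ 0 ∧ ∀ r, phi false (∑ k, mat n r k * PT (p x) k) = e * PT x r) ∧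
      ∀ x, b (p x) = HB x := by
  obtain ⟨t, ht, h1⟩ := uni_table b hl h9
  refine ⟨pof t.2.2.2.1, t.2.1, t.2.2.1, ?_, ?_, ?_⟩
  · intro r c
    rw [Fin.sum_univ_three]
    exact UT_inv t ht r c
  · intro x
    refine ⟨eof t.2.2.2.2 x, (UT_map t ht x).1, fun r => ?_⟩
    rw [Fin.sum_univ_three]
    exact (UT_map t ht x).2 r
  · intro x
    rw [← h1, UT_mask t ht x]

end Pool.Agent.Lib.MP_4dc748_co.TE
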