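import Pool.Agent.Lib.MP_4dc748_co.TE.Cls7B
import Pool.Agent.Lib.MP_4dc748_co.TE.UniM
import Pool.Agent.Lib.MP_4dc748_co.TE.PosB

/-!
# Arcs with a class of 7 points and no class of 8 points: the classes with 7 points form a unital
-/

set_option autoImplicit false

namespace Pool.Agent.Lib.MP_4dc748_co.TE

open F4

/-- Two points on two lines. -/
theorem two_pts (l l' : Fin 21) (j1 j2 j1' j2' : Fin 5) (h1 : LP l j1 = LP l' j1') (h2 : LP l j2 = LP l' j2')
    (h : LP l j1 ≠ LP l j2) : l = l' := by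
  have e1 : PL (LP l j1) (KK l j1) = l := (PL_LP l j1).1
  have e2 : PL (LP l j1) (KK l' j1') = l' := by
    rw [h1]
    exact (PL_LP l' j1').1
  have h3 : LP (PL (LP l j1) (KK l j1)) j2 = LP (PL (LP l j1) (KK l' j1')) j2' := by
    rw [e1, e2]
    exact h2
  rcases meet (LP l j1) _ _ _ _ h3 with h4 | h4
  · rw [← e1, ← e2, h4]
  · rw [e1] at h4
    exact absurd h4.symm h

private theorem five_aux (f : Fin 5 → ℕ) (j0 j1 : Fin 5) (hs : ∑ j, f j = 19) (h0 : f j0 = 7)
    (h1 : ¬ (f j1 = 3 ∨ f j1 = 7)) (h : ∀ j, j ≠ j1 → f j = 3 ∨ f j = 7) : False := by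
  rw [Fin.sum_univ_five] at hs
  have g0 := h 0
  have g1 := h 1
  have g2 := h 2
  have g3 := h 3
  have g4 := h 4
  fin_cases j0 <;> fin_cases j1 <;> simp at * <;> omega

/-- All classes have 3 or 7 points. -/
theorem all37 (A : CArc) (hle : ∀ x, (A.K x).card ≤ 7) (h7 : ∃ x, (A.K x).card = 7) :
    ∀ y, (A.K y).card = 3 ∨ (A.K y).card = 7 := by
  obtain ⟨x, hx⟩ := h7
  obtain ⟨k0, hT, hF⟩ := class7 A x hx
  obtain ⟨k1, hk1⟩ : ∃ k1 : Fin 5, k1 ≠ k0 := exists_ne k0
  -- another class with 7 points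
  obtain ⟨j1, hj1, hq⟩ : ∃ j1, LP (PL x k1) j1 ≠ x ∧ (A.K (LP (PL x k1) j1)).card = 7 := by
    by_contra hno
    push Not at hno
    have h1 : ∀ j, j ≠ JJ x k1 → (A.K (LP (PL x k1) j)).card = 3 := by
      intro j hj
      rcases class7_line A hle x hx k1 (hF k1 hk1).1 (hF k1 hk1).2 j with h | h
      · exact h
      · refine absurd h (hno j fun h2 => hj ?_)
        refine LP_inj (PL x k1) j (JJ x k1) (h2.trans (LP_PL x k1).1.symm)
    have h2 := (hF k1 hk1).1
    unfold CArc.W at h2
    rw [← Finset.add_sum_erase _ _ (Finset.mem_univ (JJ x k1)), (LP_PL x k1).1, hx,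
      Finset.sum_congr rfl (fun j hj => h1 j (Finset.ne_of_mem_erase hj)), Finset.sum_const,
      Finset.card_erase_of_mem (Finset.mem_univ _), Finset.card_univ, Fintype.card_fin] at h2
    simp at h2
  obtain ⟨m0, hT', hF'⟩ := class7 A (LP (PL x k1) j1) hq
  -- the classes on no line with 27 points of the second class
  have hbad : ∀ y, ¬ ((A.K y).card = 3 ∨ (A.K y).card = 7) → ∃ j, LP (PL (LP (PL x k1) j1) m0) j = y := by
    intro y hy
    have hne : LP (PL x k1) j1 ≠ y := by
      rintro rfl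
      exact hy (Or.inr hq)
    obtain ⟨k, j, hkj⟩ := join _ _ hne
    by_cases hk : k = m0
    · rw [hk] at hkj
      exact ⟨j, hkj⟩
    · refine absurd ?_ hy
      rw [← hkj]
      exact class7_line A hle _ hq k (hF' k hk).1 (hF' k hk).2 j
  intro y
  by_contra hy
  have hne : x ≠ y := by
    rintro rfl
    exact hy (Or.inr hx)
  obtain ⟨k, j, hkj⟩ := join x y hne
  by_cases hk : k = k0
  · subst hk
    have hgood : ∀ j', j' ≠ j → (A.K (LP (PL x k) j')).card = 3 ∨ (A.K (LP (PL x k) j')).card = 7 := by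
      intro j' hj'
      by_contra hb
      obtain ⟨i1, hi1⟩ := hbad _ hb
      obtain ⟨i2, hi2⟩ := hbad y hy
      have hl : PL x k = PL (LP (PL x k1) j1) m0 :=
        two_pts _ _ j' j i1 i2 hi1.symm (hkj.trans hi2.symm) (fun h => hj' (LP_inj _ _ _ h))
      have h5 : LP (PL x k) (JJ (LP (PL x k1) j1) m0) = LP (PL x k1) j1 := by
        rw [hl]
        exact (LP_PL _ _).1
      rcases meet x _ _ _ _ h5 with h6 | h6
      · exact hk1 h6.symm
      · rw [h5] at h6
        exact hj1 h6
    refine five_aux (fun j => (A.K (LP (PL x k) j)).card) (JJ x k) j hT ?_ ?_ hgood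
    · show (A.K (LP (PL x k) (JJ x k))).card = 7
      rw [(LP_PL x k).1]
      exact hx
    · show ¬ ((A.K (LP (PL x k) j)).card = 3 ∨ (A.K (LP (PL x k) j)).card = 7)
      rw [hkj]
      exact hy
  · refine absurd ?_ hy
    rw [← hkj]
    exact class7_line A hle x hx k (hF k hk).1 (hF k hk).2 j

private theorem ok5_of : ∀ b0 b1 b2 b3 b4 : Bool, (b0.toNat + b1.toNat + b2.toNat + b3.toNat + b4.toNat = 0 ∨
    b0.toNat + b1.toNat + b2.toNat + b3.toNat + b4.toNat = 1 ∨
    b0.toNat + b1.toNat + b2.toNat + b3.toNat + b4.toNat = 3) → ok5 b0 b1 b2 b3 b4 = true := by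
  decide

private theorem uB_HB : ∀ x, uB x = 3 + 4 * (HB x).toNat := by
  decide

/-- If some class has 7 points and no class has 8 points then the numbers of points are those of the third
exceptional structure, up to a collineation. -/
theorem cls7 (A : CArc) (hle : ∀ x, (A.K x).card ≤ 7) (h7 : ∃ x, (A.K x).card = 7) :
    ∃ (p : Fin 21 → Fin 21) (n m : ℕ),
      (∀ r c : Fin 3, ∑ k, mat m r k * mat n k c = if r = c then 1 else 0) ∧
      (∀ x : Fin 21, ∃ e : F4, e ≠ 0 ∧ ∀ r, phi false (∑ k, mat n r k * PT (p x) k) = e * PT x r) ∧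
      (fun x => (A.K (p x)).card) = uB := by
  have h37 := all37 A hle h7
  have hb : ∀ x, (A.K x).card = 3 + 4 * (decide ((A.K x).card = 7)).toNat := by
    intro x
    rcases h37 x with h | h <;> rw [h] <;> decide
  have h9 : ∑ x, (decide ((A.K x).card = 7)).toNat = 9 := by
    have h1 := A.total
    rw [Finset.sum_congr rfl (fun x _ => hb x), Finset.sum_add_distrib, ← Finset.mul_sum, Finset.sum_const,
      Finset.card_univ, Fintype.card_fin, smul_eq_mul] at h1
    omega
  have hl : ∀ l, ok5 (decide ((A.K (LP l 0)).card = 7)) (decide ((A.K (LP l 1)).card = 7))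
      (decide ((A.K (LP l 2)).card = 7)) (decide ((A.K (LP l 3)).card = 7))
      (decide ((A.K (LP l 4)).card = 7)) = true := by
    intro l
    refine ok5_of _ _ _ _ _ ?_
    have hW : A.W l = 15 + 4 * ((decide ((A.K (LP l 0)).card = 7)).toNat +
        (decide ((A.K (LP l 1)).card = 7)).toNat + (decide ((A.K (LP l 2)).card = 7)).toNat +
        (decide ((A.K (LP l 3)).card = 7)).toNat + (decide ((A.K (LP l 4)).card = 7)).toNat) := by
      unfold CArc.W
      rw [Fin.sum_univ_five]
      have g0 := hb (LP l 0)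
      have g1 := hb (LP l 1)
      have g2 := hb (LP l 2)
      have g3 := hb (LP l 3)
      have g4 := hb (LP l 4)
      omega
    by_cases hex : ∃ j, (A.K (LP l j)).card = 7
    · obtain ⟨j, hj⟩ := hex
      obtain ⟨k0, hT, hF⟩ := class7 A (LP l j) hj
      have hW2 : A.W l = 19 ∨ A.W l = 27 := by
        by_cases hk : KK l j = k0
        · left
          rw [← hk, (PL_LP l j).1] at hT
          exact hT
        · right
          have h2 := (hF _ hk).1
          rw [(PL_LP l j).1] at h2
          exact h2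
      rw [hW] at hW2
      omega
    · left
      push Not at hex
      simp [hex]
  obtain ⟨p, n, m, h1, h2, h3⟩ := uni_std (fun x => decide ((A.K x).card = 7)) hl h9
  refine ⟨p, n, m, h1, h2, ?_⟩
  funext x
  have h4 : decide ((A.K (p x)).card = 7) = HB x := h3 x
  show (A.K (p x)).card = uB x
  rw [hb (p x), uB_HB, h4]

end Pool.Agent.Lib.MP_4dc748_co.TE
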