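import Pool.Agent.Lib.MP_4dc748_co.TE.ChkW
import Pool.Agent.Lib.MP_4dc748_co.TE.D6

/-!
# Weight functions: the checks of the context D6, by the kernel
-/

set_option autoImplicit false
set_option maxRecDepth 100000

namespace Pool.Agent.Lib.MP_4dc748_co.TE

theorem w6_0 : wkRow (leafOK D6.ctx) 0 = true := by decide +kernel

theorem w6_1 : wkRow (leafOK D6.ctx) 1 = true := by decide +kernel

theorem w6_2 : wkRow (leafOK D6.ctx) 2 = true := by decide +kernel

theorem w6_3 : wkRow (leafOK D6.ctx) 3 = true := by decide +kernel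

theorem w6_4 : wkRow (leafOK D6.ctx) 4 = true := by decide +kernel

theorem w6_5 : wkRow (leafOK D6.ctx) 5 = true := by decide +kernel

theorem w6_6 : wkRow (leafOK D6.ctx) 6 = true := by decide +kernel

theorem w6_7 : wkRow (leafOK D6.ctx) 7 = true := by decide +kernel

theorem w6_8 : wkRow (leafOK D6.ctx) 8 = true := by decide +kernel

theorem w6_9 : wkRow (leafOK D6.ctx) 9 = true := by decide +kernel

theorem w6_10 : wkRow (leafOK D6.ctx) 10 = true := by decide +kernel

theorem w6_11 : wkRow (leafOK D6.ctx) 11 = true := by decide +kernel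

theorem w6_12 : wkRow (leafOK D6.ctx) 12 = true := by decide +kernel

theorem w6_13 : wkRow (leafOK D6.ctx) 13 = true := by decide +kernel

theorem w6_14 : wkRow (leafOK D6.ctx) 14 = true := by decide +kernel

theorem w6_15 : wkRow (leafOK D6.ctx) 15 = true := by decide +kernel

theorem w6_16 : wkRow (leafOK D6.ctx) 16 = true := by decide +kernel

theorem w6_17 : wkRow (leafOK D6.ctx) 17 = true := by decide +kernel

theorem w6_18 : wkRow (leafOK D6.ctx) 18 = true := by decide +kernel

theorem w6_19 : wkRow (leafOK D6.ctx) 19 = true := by decide +kernel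

theorem w6_20 : wkRow (leafOK D6.ctx) 20 = true := by decide +kernel

theorem w6_21 : wkRow (leafOK D6.ctx) 21 = true := by decide +kernel

theorem w6_22 : wkRow (leafOK D6.ctx) 22 = true := by decide +kernel

theorem w6 : walk (leafOK D6.ctx) = true := by
  refine walk_mk _ fun k hk => ?_
  interval_cases k
  exacts [w6_0, w6_1, w6_2, w6_3, w6_4, w6_5, w6_6, w6_7, w6_8, w6_9, w6_10, w6_11, w6_12, w6_13, w6_14, w6_15, w6_16, w6_17, w6_18, w6_19, w6_20, w6_21, w6_22]

theorem a6_0 : aOK D6.ctx D6.p0 = true := by decide +kernel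

theorem a6_1 : aOK D6.ctx D6.p1 = true := by decide +kernel

theorem a6_2 : aOK D6.ctx D6.p2 = true := by decide +kernel

theorem a6_3 : aOK D6.ctx D6.p3 = true := by decide +kernel

theorem a6_4 : aOK D6.ctx D6.p4 = true := by decide +kernel

theorem a6_5 : aOK D6.ctx D6.p5 = true := by decide +kernel

theorem a6_6 : aOK D6.ctx D6.p6 = true := by decide +kernel

theorem a6_7 : aOK D6.ctx D6.p7 = true := by decide +kernel

theorem a6_8 : aOK D6.ctx D6.p8 = true := by decide +kernel

theorem a6_9 : aOK D6.ctx D6.p9 = true := by decide +kernel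

theorem a6_10 : aOK D6.ctx D6.p10 = true := by decide +kernel

theorem a6_11 : aOK D6.ctx D6.p11 = true := by decide +kernel

theorem a6 : D6.ctx.pots.all (aOK D6.ctx) = true := by
  rw [List.all_eq_true]
  intro p hp
  have h : D6.ctx.pots = [D6.p0, D6.p1, D6.p2, D6.p3, D6.p4, D6.p5, D6.p6, D6.p7, D6.p8, D6.p9, D6.p10, D6.p11] := rfl
  rw [h] at hp
  simp only [List.mem_cons, List.not_mem_nil, or_false] at hp
  rcases hp with rfl | rfl | rfl | rfl | rfl | rfl | rfl | rfl | rfl | rfl | rfl | rfl
  exacts [a6_0, a6_1, a6_2, a6_3, a6_4, a6_5, a6_6, a6_7, a6_8, a6_9, a6_10, a6_11]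

theorem x6 : xvOK D6.ctx = true := by decide +kernel

theorem s6 : stripsOK D6.ctx = true := by decide +kernel

/-- All checks of the context D6.ctx. -/
theorem okc6 : OKC D6.ctx where
  xv := x6
  a := a6
  walk := w6
  strips := s6
  m0 := by decide +kernel

end Pool.Agent.Lib.MP_4dc748_co.TE
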