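import Pool.Agent.Lib.MP_4dc748_co.TE.ChkW
import Pool.Agent.Lib.MP_4dc748_co.TE.D6b

/-!
# Weight functions: the checks of the context D6b, by the kernel
-/

set_option autoImplicit false
set_option maxRecDepth 100000

namespace Pool.Agent.Lib.MP_4dc748_co.TE

theorem w6b_0 : wkRow (leafOK D6b.ctx) 0 = true := by decide +kernel

theorem w6b_1 : wkRow (leafOK D6b.ctx) 1 = true := by decide +kernel

theorem w6b_2 : wkRow (leafOK D6b.ctx) 2 = true := by decide +kernel

theorem w6b_3 : wkRow (leafOK D6b.ctx) 3 = true := by decide +kernel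

theorem w6b_4 : wkRow (leafOK D6b.ctx) 4 = true := by decide +kernel

theorem w6b_5 : wkRow (leafOK D6b.ctx) 5 = true := by decide +kernel

theorem w6b_6 : wkRow (leafOK D6b.ctx) 6 = true := by decide +kernel

theorem w6b_7 : wkRow (leafOK D6b.ctx) 7 = true := by decide +kernel

theorem w6b_8 : wkRow (leafOK D6b.ctx) 8 = true := by decide +kernel

theorem w6b_9 : wkRow (leafOK D6b.ctx) 9 = true := by decide +kernel

theorem w6b_10 : wkRow (leafOK D6b.ctx) 10 = true := by decide +kernel

theorem w6b_11 : wkRow (leafOK D6b.ctx) 11 = true := by decide +kernel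

theorem w6b_12 : wkRow (leafOK D6b.ctx) 12 = true := by decide +kernel

theorem w6b_13 : wkRow (leafOK D6b.ctx) 13 = true := by decide +kernel

theorem w6b_14 : wkRow (leafOK D6b.ctx) 14 = true := by decide +kernel

theorem w6b_15 : wkRow (leafOK D6b.ctx) 15 = true := by decide +kernel

theorem w6b_16 : wkRow (leafOK D6b.ctx) 16 = true := by decide +kernel

theorem w6b_17 : wkRow (leafOK D6b.ctx) 17 = true := by decide +kernel

theorem w6b_18 : wkRow (leafOK D6b.ctx) 18 = true := by decide +kernel

theorem w6b_19 : wkRow (leafOK D6b.ctx) 19 = true := by decide +kernel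

theorem w6b_20 : wkRow (leafOK D6b.ctx) 20 = true := by decide +kernel

theorem w6b_21 : wkRow (leafOK D6b.ctx) 21 = true := by decide +kernel

theorem w6b_22 : wkRow (leafOK D6b.ctx) 22 = true := by decide +kernel

theorem w6b : walk (leafOK D6b.ctx) = true := by
  refine walk_mk _ fun k hk => ?_
  interval_cases k
  exacts [w6b_0, w6b_1, w6b_2, w6b_3, w6b_4, w6b_5, w6b_6, w6b_7, w6b_8, w6b_9, w6b_10, w6b_11, w6b_12, w6b_13, w6b_14, w6b_15, w6b_16, w6b_17, w6b_18, w6b_19, w6b_20, w6b_21, w6b_22]

theorem a6b_0 : aOK D6b.ctx D6b.p0 = true := by decide +kernel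

theorem a6b : D6b.ctx.pots.all (aOK D6b.ctx) = true := by
  rw [List.all_eq_true]
  intro p hp
  have h : D6b.ctx.pots = [D6b.p0] := rfl
  rw [h] at hp
  simp only [List.mem_cons, List.not_mem_nil, or_false] at hp
  subst hp
  exact a6b_0

theorem x6b : xvOK D6b.ctx = true := by decide +kernel

theorem s6b : stripsOK D6b.ctx = true := by decide +kernel

/-- All checks of the context D6b.ctx. -/
theorem okc6b : OKC D6b.ctx where
  xv := x6b
  a := a6b
  walk := w6b
  strips := s6b
  m0 := by decide +kernel

end Pool.Agent.Lib.MP_4dc748_co.TE
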