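import Pool.Agent.Lib.MP_4dc748_co.TE.ChkW
import Pool.Agent.Lib.MP_4dc748_co.TE.D6c

/-!
# Weight functions: the checks of the context D6c, by the kernel
-/

set_option autoImplicit false
set_option maxRecDepth 100000

namespace Pool.Agent.Lib.MP_4dc748_co.TE

theorem w6c_0 : wkRow (leafOK D6c.ctx) 0 = true := by decide +kernel

theorem w6c_1 : wkRow (leafOK D6c.ctx) 1 = true := by decide +kernel

theorem w6c_2 : wkRow (leafOK D6c.ctx) 2 = true := by decide +kernel

theorem w6c_3 : wkRow (leafOK D6c.ctx) 3 = true := by decide +kernel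

theorem w6c_4 : wkRow (leafOK D6c.ctx) 4 = true := by decide +kernel

theorem w6c_5 : wkRow (leafOK D6c.ctx) 5 = true := by decide +kernel

theorem w6c_6 : wkRow (leafOK D6c.ctx) 6 = true := by decide +kernel

theorem w6c_7 : wkRow (leafOK D6c.ctx) 7 = true := by decide +kernel

theorem w6c_8 : wkRow (leafOK D6c.ctx) 8 = true := by decide +kernel

theorem w6c_9 : wkRow (leafOK D6c.ctx) 9 = true := by decide +kernel

theorem w6c_10 : wkRow (leafOK D6c.ctx) 10 = true := by decide +kernel

theorem w6c_11 : wkRow (leafOK D6c.ctx) 11 = true := by decide +kernel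

theorem w6c_12 : wkRow (leafOK D6c.ctx) 12 = true := by decide +kernel

theorem w6c_13 : wkRow (leafOK D6c.ctx) 13 = true := by decide +kernel

theorem w6c_14 : wkRow (leafOK D6c.ctx) 14 = true := by decide +kernel

theorem w6c_15 : wkRow (leafOK D6c.ctx) 15 = true := by decide +kernel

theorem w6c_16 : wkRow (leafOK D6c.ctx) 16 = true := by decide +kernel

theorem w6c_17 : wkRow (leafOK D6c.ctx) 17 = true := by decide +kernel

theorem w6c_18 : wkRow (leafOK D6c.ctx) 18 = true := by decide +kernel

theorem w6c_19 : wkRow (leafOK D6c.ctx) 19 = true := by decide +kernel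

theorem w6c_20 : wkRow (leafOK D6c.ctx) 20 = true := by decide +kernel

theorem w6c_21 : wkRow (leafOK D6c.ctx) 21 = true := by decide +kernel

theorem w6c_22 : wkRow (leafOK D6c.ctx) 22 = true := by decide +kernel

theorem w6c : walk (leafOK D6c.ctx) = true := by
  refine walk_mk _ fun k hk => ?_
  interval_cases k
  exacts [w6c_0, w6c_1, w6c_2, w6c_3, w6c_4, w6c_5, w6c_6, w6c_7, w6c_8, w6c_9, w6c_10, w6c_11, w6c_12, w6c_13, w6c_14, w6c_15, w6c_16, w6c_17, w6c_18, w6c_19, w6c_20, w6c_21, w6c_22]

theorem a6c_0 : aOK D6c.ctx D6c.p0 = true := by decide +kernel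

theorem a6c : D6c.ctx.pots.all (aOK D6c.ctx) = true := by
  rw [List.all_eq_true]
  intro p hp
  have h : D6c.ctx.pots = [D6c.p0] := rfl
  rw [h] at hp
  simp only [List.mem_cons, List.not_mem_nil, or_false] at hp
  subst hp
  exact a6c_0

theorem x6c : xvOK D6c.ctx = true := by decide +kernel

theorem s6c : stripsOK D6c.ctx = true := by decide +kernel

/-- All checks of the context D6c.ctx. -/
theorem okc6c : OKC D6c.ctx where
  xv := x6c
  a := a6c
  walk := w6c
  strips := s6c
  m0 := by decide +kernel

end Pool.Agent.Lib.MP_4dc748_co.TE
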