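import Pool.Agent.Lib.MP_4dc748_co.TE.ChkW
import Pool.Agent.Lib.MP_4dc748_co.TE.D7

/-!
# Weight functions: the checks of the context D7, by the kernel
-/

set_option autoImplicit false
set_option maxRecDepth 100000

namespace Pool.Agent.Lib.MP_4dc748_co.TE

theorem w7_0 : wkRow (leafOK D7.ctx) 0 = true := by decide +kernel

theorem w7_1 : wkRow (leafOK D7.ctx) 1 = true := by decide +kernel

theorem w7_2 : wkRow (leafOK D7.ctx) 2 = true := by decide +kernel

theorem w7_3 : wkRow (leafOK D7.ctx) 3 = true := by decide +kernel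

theorem w7_4 : wkRow (leafOK D7.ctx) 4 = true := by decide +kernel

theorem w7_5 : wkRow (leafOK D7.ctx) 5 = true := by decide +kernel

theorem w7_6 : wkRow (leafOK D7.ctx) 6 = true := by decide +kernel

theorem w7_7 : wkRow (leafOK D7.ctx) 7 = true := by decide +kernel

theorem w7_8 : wkRow (leafOK D7.ctx) 8 = true := by decide +kernel

theorem w7_9 : wkRow (leafOK D7.ctx) 9 = true := by decide +kernel

theorem w7_10 : wkRow (leafOK D7.ctx) 10 = true := by decide +kernel

theorem w7_11 : wkRow (leafOK D7.ctx) 11 = true := by decide +kernel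

theorem w7_12 : wkRow (leafOK D7.ctx) 12 = true := by decide +kernel

theorem w7_13 : wkRow (leafOK D7.ctx) 13 = true := by decide +kernel

theorem w7_14 : wkRow (leafOK D7.ctx) 14 = true := by decide +kernel

theorem w7_15 : wkRow (leafOK D7.ctx) 15 = true := by decide +kernel

theorem w7_16 : wkRow (leafOK D7.ctx) 16 = true := by decide +kernel

theorem w7_17 : wkRow (leafOK D7.ctx) 17 = true := by decide +kernel

theorem w7_18 : wkRow (leafOK D7.ctx) 18 = true := by decide +kernel

theorem w7_19 : wkRow (leafOK D7.ctx) 19 = true := by decide +kernel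

theorem w7_20 : wkRow (leafOK D7.ctx) 20 = true := by decide +kernel

theorem w7_21 : wkRow (leafOK D7.ctx) 21 = true := by decide +kernel

theorem w7_22 : wkRow (leafOK D7.ctx) 22 = true := by decide +kernel

theorem w7 : walk (leafOK D7.ctx) = true := by
  refine walk_mk _ fun k hk => ?_
  interval_cases k
  exacts [w7_0, w7_1, w7_2, w7_3, w7_4, w7_5, w7_6, w7_7, w7_8, w7_9, w7_10, w7_11, w7_12, w7_13, w7_14, w7_15, w7_16, w7_17, w7_18, w7_19, w7_20, w7_21, w7_22]

theorem a7_0 : aOK D7.ctx D7.p0 = true := by decide +kernel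

theorem a7_1 : aOK D7.ctx D7.p1 = true := by decide +kernel

theorem a7 : D7.ctx.pots.all (aOK D7.ctx) = true := by
  rw [List.all_eq_true]
  intro p hp
  have h : D7.ctx.pots = [D7.p0, D7.p1] := rfl
  rw [h] at hp
  simp only [List.mem_cons, List.not_mem_nil, or_false] at hp
  rcases hp with rfl | rfl
  exacts [a7_0, a7_1]

theorem x7 : xvOK D7.ctx = true := by decide +kernel

theorem s7 : stripsOK D7.ctx = true := by decide +kernel

/-- All checks of the context D7.ctx. -/
theorem okc7 : OKC D7.ctx where
  xv := x7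
  a := a7
  walk := w7
  strips := s7
  m0 := by decide +kernel

end Pool.Agent.Lib.MP_4dc748_co.TE
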