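import Pool.Agent.Lib.MP_4dc748_co.TE.ChkW
import Pool.Agent.Lib.MP_4dc748_co.TE.D8

/-!
# Weight functions: the checks of the context D8, by the kernel
-/

set_option autoImplicit false
set_option maxRecDepth 100000

namespace Pool.Agent.Lib.MP_4dc748_co.TE

theorem w8_0 : wkRow (leafOK D8.ctx) 0 = true := by decide +kernel

theorem w8_1 : wkRow (leafOK D8.ctx) 1 = true := by decide +kernel

theorem w8_2 : wkRow (leafOK D8.ctx) 2 = true := by decide +kernel

theorem w8_3 : wkRow (leafOK D8.ctx) 3 = true := by decide +kernel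

theorem w8_4 : wkRow (leafOK D8.ctx) 4 = true := by decide +kernel

theorem w8_5 : wkRow (leafOK D8.ctx) 5 = true := by decide +kernel

theorem w8_6 : wkRow (leafOK D8.ctx) 6 = true := by decide +kernel

theorem w8_7 : wkRow (leafOK D8.ctx) 7 = true := by decide +kernel

theorem w8_8 : wkRow (leafOK D8.ctx) 8 = true := by decide +kernel

theorem w8_9 : wkRow (leafOK D8.ctx) 9 = true := by decide +kernel

theorem w8_10 : wkRow (leafOK D8.ctx) 10 = true := by decide +kernel

theorem w8_11 : wkRow (leafOK D8.ctx) 11 = true := by decide +kernel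

theorem w8_12 : wkRow (leafOK D8.ctx) 12 = true := by decide +kernel

theorem w8_13 : wkRow (leafOK D8.ctx) 13 = true := by decide +kernel

theorem w8_14 : wkRow (leafOK D8.ctx) 14 = true := by decide +kernel

theorem w8_15 : wkRow (leafOK D8.ctx) 15 = true := by decide +kernel

theorem w8_16 : wkRow (leafOK D8.ctx) 16 = true := by decide +kernel

theorem w8_17 : wkRow (leafOK D8.ctx) 17 = true := by decide +kernel

theorem w8_18 : wkRow (leafOK D8.ctx) 18 = true := by decide +kernel

theorem w8_19 : wkRow (leafOK D8.ctx) 19 = true := by decide +kernel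

theorem w8_20 : wkRow (leafOK D8.ctx) 20 = true := by decide +kernel

theorem w8_21 : wkRow (leafOK D8.ctx) 21 = true := by decide +kernel

theorem w8_22 : wkRow (leafOK D8.ctx) 22 = true := by decide +kernel

theorem w8 : walk (leafOK D8.ctx) = true := by
  refine walk_mk _ fun k hk => ?_
  interval_cases k
  exacts [w8_0, w8_1, w8_2, w8_3, w8_4, w8_5, w8_6, w8_7, w8_8, w8_9, w8_10, w8_11, w8_12, w8_13, w8_14, w8_15, w8_16, w8_17, w8_18, w8_19, w8_20, w8_21, w8_22]

theorem a8_0 : aOK D8.ctx D8.p0 = true := by decide +kernel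

theorem a8 : D8.ctx.pots.all (aOK D8.ctx) = true := by
  rw [List.all_eq_true]
  intro p hp
  have h : D8.ctx.pots = [D8.p0] := rfl
  rw [h] at hp
  simp only [List.mem_cons, List.not_mem_nil, or_false] at hp
  subst hp
  exact a8_0

theorem x8 : xvOK D8.ctx = true := by decide +kernel

theorem s8 : stripsOK D8.ctx = true := by decide +kernel

/-- All checks of the context D8.ctx. -/
theorem okc8 : OKC D8.ctx where
  xv := x8
  a := a8
  walk := w8
  strips := s8
  m0 := by decide +kernel

end Pool.Agent.Lib.MP_4dc748_co.TE
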