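import Pool.Agent.Lib.MP_4dc748_co.TE.CtxD

/-!
# Weight functions: the walk, row by row
-/

set_option autoImplicit false

namespace Pool.Agent.Lib.MP_4dc748_co.TE

/-- One row of the walk. -/
def wkRow (f : ℕ → ℕ → ℕ → ℕ → ℕ → Bool) (i0 : ℕ) : Bool :=
  cond (cbit i0 0 0 0 0)
    (allLe (fun i1 => cond (cbit i0 i1 0 0 0)
      (allLe (fun i2 => cond (cbit i0 i1 i2 0 0)
        (allLe (fun i3 => cond (cbit i0 i1 i2 i3 0)
          (allLe (fun i4 => cond (cbit i0 i1 i2 i3 i4) (f i0 i1 i2 i3 i4) true) i3) true) i2) true) i1) true) i0)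
      true

theorem allLe_mk (f : ℕ → Bool) : ∀ n : ℕ, (∀ k ≤ n, f k = true) → allLe f n = true
  | 0, h => h 0 le_rfl
  | n + 1, h => by
    rw [allLe, h (n + 1) le_rfl, allLe_mk f n fun k hk => h k (Nat.le_succ_of_le hk)]
    rfl

theorem walk_mk (f : ℕ → ℕ → ℕ → ℕ → ℕ → Bool) (h : ∀ k ≤ 22, wkRow f k = true) : walk f = true :=
  allLe_mk (wkRow f) 22 h

end Pool.Agent.Lib.MP_4dc748_co.TE
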