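import Pool.Agent.Lib.MP_4dc748_co.TE.TypeL

/-!
# Classes and strips of an arc: elementary facts
-/

set_option autoImplicit false

namespace Pool.Agent.Lib.MP_4dc748_co.TE

open F4

/-- The vector of the class x in direction k. -/
def CArc.V' (A : CArc) (x : Fin 21) (k : Fin 5) : ℕ := vecOf (D (A.K x) k)

/-- The number of points of the arc over the line l. -/
def CArc.W (A : CArc) (l : Fin 21) : ℕ := ∑ j : Fin 5, (A.K (LP l j)).card

private theorem fk_card : ∀ (k : Fin 5) (t : F4),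
    (Finset.univ.filter (fun p : F4 × F4 => fk k p = t)).card = 4 := by
  decide +kernel

private theorem fk_inj : ∀ (j j' : Fin 5), j' ≠ j → ∀ (p q : F4 × F4), fk j p = fk j q → fk j' p = fk j' q →
    p = q := by
  decide +kernel

private theorem fk_surj : ∀ (j j' : Fin 5), j' ≠ j → ∀ (t t' : F4), ∃ p : F4 × F4, fk j p = t ∧ fk j' p = t' := by
  decide +kernel

private theorem sum_F4 (g : F4 → ℕ) : ∑ t : F4, g t = g o + g i + g w + g z := by
  have h : (Finset.univ : Finset F4) = {o, i, w, z} := by decide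
  rw [h, Finset.sum_insert (by decide), Finset.sum_insert (by decide), Finset.sum_insert (by decide),
    Finset.sum_singleton]
  ring

theorem D_le (K : Finset (F4 × F4)) (k : Fin 5) (t : F4) : D K k t ≤ 4 := by
  rw [← fk_card k t]
  exact Finset.card_le_card (Finset.filter_subset_filter _ (Finset.subset_univ _))

theorem D_sum (K : Finset (F4 × F4)) (k : Fin 5) :
    D K k o + D K k i + D K k w + D K k z = K.card := by
  rw [← sum_F4]
  exact (Finset.card_eq_sum_card_fiberwise (fun _ _ => Finset.mem_coe.2 (Finset.mem_univ _))).symm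

theorem G_eq (A : CArc) (l : Fin 21) (j : Fin 5) (t : F4) :
    A.G l j t = D (A.K (LP l j)) (KK l j) ((SC (LP l j) (KK l j))⁻¹ * (RR l j * tau l t)) := by
  unfold CArc.G D
  congr 1
  refine Finset.filter_congr fun p _ => ?_
  have h := dir_eq (LP l j) (KK l j) p.1 p.2
  rw [(PL_LP l j).1] at h
  have h1 : dt (PT l) (DEC (LP l j) p) = SC (LP l j) (KK l j) * fk (KK l j) p := h
  rw [h1, eq_inv_mul_iff_mul_eq₀ (SC_ne _ _)]

theorem G_le (A : CArc) (l : Fin 21) (j : Fin 5) (t : F4) : A.G l j t ≤ 4 := by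
  rw [G_eq]
  exact D_le _ _ _

private theorem tau_inj (l : Fin 21) : Function.Injective (tau l) := by
  intro a b h
  unfold tau at h
  split at h
  · exact frob.injective h
  · exact h

private theorem sig_bij (l : Fin 21) (j : Fin 5) :
    Function.Bijective (fun t : F4 => (SC (LP l j) (KK l j))⁻¹ * (RR l j * tau l t)) := by
  refine Finite.injective_iff_bijective.1 fun a b h => ?_
  have h1 : RR l j * tau l a = RR l j * tau l b :=
    mul_left_cancel₀ (inv_ne_zero (SC_ne (LP l j) (KK l j))) h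
  exact tau_inj l (mul_left_cancel₀ (RR_ne l j) h1)

theorem G_sum (A : CArc) (l : Fin 21) (j : Fin 5) :
    A.G l j o + A.G l j i + A.G l j w + A.G l j z = (A.K (LP l j)).card := by
  rw [← sum_F4, ← D_sum (A.K (LP l j)) (KK l j), ← sum_F4]
  simp only [G_eq]
  exact (sig_bij l j).sum_comp (D (A.K (LP l j)) (KK l j))

private theorem vid_perm : ∀ a b c d : Fin 5,
    vid a.1 b.1 d.1 c.1 = vid a.1 b.1 c.1 d.1 ∧ vid a.1 c.1 b.1 d.1 = vid a.1 b.1 c.1 d.1 ∧
    vid a.1 c.1 d.1 b.1 = vid a.1 b.1 c.1 d.1 ∧ vid a.1 d.1 b.1 c.1 = vid a.1 b.1 c.1 d.1 ∧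
    vid a.1 d.1 c.1 b.1 = vid a.1 b.1 c.1 d.1 := by
  decide +kernel

private theorem vid_perm' {a b c d : ℕ} (ha : a ≤ 4) (hb : b ≤ 4) (hc : c ≤ 4) (hd : d ≤ 4) :
    vid a b d c = vid a b c d ∧ vid a c b d = vid a b c d ∧
    vid a c d b = vid a b c d ∧ vid a d b c = vid a b c d ∧ vid a d c b = vid a b c d :=
  vid_perm ⟨a, by omega⟩ ⟨b, by omega⟩ ⟨c, by omega⟩ ⟨d, by omega⟩

/-- The six values of the permutation. -/
private theorem six : ∀ (s r : F4), s ≠ 0 → r ≠ 0 → ∀ b : Bool,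
    let f : F4 → F4 := fun t => s⁻¹ * (r * (if b then fr t else t))
    f o = o ∧ ((f i = i ∧ f w = w ∧ f z = z) ∨ (f i = i ∧ f w = z ∧ f z = w) ∨ (f i = w ∧ f w = i ∧ f z = z) ∨
      (f i = w ∧ f w = z ∧ f z = i) ∨ (f i = z ∧ f w = i ∧ f z = w) ∨ (f i = z ∧ f w = w ∧ f z = i)) := by
  decide

private theorem six' (l : Fin 21) (j : Fin 5) :
    let f : F4 → F4 := fun t => (SC (LP l j) (KK l j))⁻¹ * (RR l j * tau l t)
    f o = o ∧ ((f i = i ∧ f w = w ∧ f z = z) ∨ (f i = i ∧ f w = z ∧ f z = w) ∨ (f i = w ∧ f w = i ∧ f z = z) ∨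
      (f i = w ∧ f w = z ∧ f z = i) ∨ (f i = z ∧ f w = i ∧ f z = w) ∨ (f i = z ∧ f w = w ∧ f z = i)) := by
  have h := six (SC (LP l j) (KK l j)) (RR l j) (SC_ne _ _) (RR_ne _ _) (decide (TAUL.getD l.1 0 = 1))
  simpa [tau] using h

/-- The map t ↦ SC^-1 RR tau(t) is a permutation of F4 which fixes 0, and vid does not depend on the order. -/
theorem V_eq (A : CArc) (l : Fin 21) (j : Fin 5) : A.V l j = A.V' (LP l j) (KK l j) := by
  unfold CArc.V CArc.V' vecOf
  rw [G_eq, G_eq, G_eq, G_eq]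
  obtain ⟨h0, h1⟩ := six' l j
  have hp := vid_perm' (D_le (A.K (LP l j)) (KK l j) o) (D_le (A.K (LP l j)) (KK l j) i)
    (D_le (A.K (LP l j)) (KK l j) w) (D_le (A.K (LP l j)) (KK l j) z)
  obtain ⟨p1, p2, p3, p4, p5⟩ := hp
  simp only [] at h0
  rw [h0]
  rcases h1 with ⟨a, b, c⟩ | ⟨a, b, c⟩ | ⟨a, b, c⟩ | ⟨a, b, c⟩ | ⟨a, b, c⟩ | ⟨a, b, c⟩
  all_goals
    simp only [] at a b c
    rw [a, b, c]
  · exact p1
  · exact p2
  · exact p3
  · exact p4
  · exact p5

theorem V'_eq (A : CArc) (x : Fin 21) (k : Fin 5) : A.V' x k = A.V (PL x k) (JJ x k) := by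
  rw [V_eq, (LP_PL x k).1, (LP_PL x k).2]

theorem mx_G (A : CArc) (l : Fin 21) (j : Fin 5) :
    mx (A.G l j) = mx (D (A.K (LP l j)) (KK l j)) := by
  unfold mx
  rw [G_eq, G_eq, G_eq, G_eq]
  obtain ⟨h0, h1⟩ := six' l j
  simp only [] at h0
  rw [h0]
  rcases h1 with ⟨a, b, c⟩ | ⟨a, b, c⟩ | ⟨a, b, c⟩ | ⟨a, b, c⟩ | ⟨a, b, c⟩ | ⟨a, b, c⟩
  all_goals
    simp only [] at a b c
    rw [a, b, c]
  all_goals omega

/-- The flags. -/
private def flagE : Fin 21 × Fin 5 ≃ Fin 21 × Fin 5 where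
  toFun q := (LP q.1 q.2, KK q.1 q.2)
  invFun q := (PL q.1 q.2, JJ q.1 q.2)
  left_inv q := by
    ext1
    · exact (PL_LP q.1 q.2).1
    · exact (PL_LP q.1 q.2).2
  right_inv q := by
    ext1
    · exact (LP_PL q.1 q.2).1
    · exact (LP_PL q.1 q.2).2

/-- Double counting of the flags. -/
theorem sum_flags (φ : Fin 21 → Fin 5 → ℤ) :
    ∑ x, ∑ k, φ x k = ∑ l, ∑ j, φ (LP l j) (KK l j) := by
  rw [← Fintype.sum_prod_type', ← Fintype.sum_prod_type']
  exact (Equiv.sum_comp flagE (fun q => φ q.1 q.2)).symm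

private theorem inc_count : ∀ x y : Fin 21, ∑ k : Fin 5, ∑ j : Fin 5, (if LP (PL x k) j = y then 1 else 0) =
    (if x = y then 5 else 1 : ℕ) := by
  decide +kernel

private theorem count_aux (f : Fin 5 → Fin 5 → Fin 21) (c : Fin 21 → ℕ) :
    ∑ k : Fin 5, ∑ j : Fin 5, c (f k j) =
      ∑ u : Fin 21, (∑ k : Fin 5, ∑ j : Fin 5, (if f k j = u then 1 else 0)) * c u := by
  have h1 : ∀ y : Fin 21, c y = ∑ u : Fin 21, (if y = u then 1 else 0) * c u := by
    intro y
    simp
  have h2 : ∀ k : Fin 5, ∑ j : Fin 5, c (f k j) =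
      ∑ u : Fin 21, (∑ j : Fin 5, (if f k j = u then 1 else 0)) * c u := by
    intro k
    rw [Finset.sum_congr rfl fun j _ => h1 (f k j), Finset.sum_comm]
    exact Finset.sum_congr rfl fun u _ => (Finset.sum_mul _ _ _).symm
  rw [Finset.sum_congr rfl fun k _ => h2 k, Finset.sum_comm]
  exact Finset.sum_congr rfl fun u _ => (Finset.sum_mul _ _ _).symm

private theorem count_aux2 (c : Fin 21 → ℕ) (x : Fin 21) :
    ∑ u : Fin 21, (if x = u then 5 else 1) * c u = ∑ u, c u + 4 * c x := by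
  have h3 : ∀ u : Fin 21, (if x = u then 5 else 1) * c u = c u + (if x = u then 4 * c u else 0) := by
    intro u
    split <;> ring
  rw [Finset.sum_congr rfl fun u _ => h3 u, Finset.sum_add_distrib, Finset.sum_ite_eq,
    if_pos (Finset.mem_univ x)]

/-- The other points are on exactly one line through x. -/
theorem W_sum (A : CArc) (x : Fin 21) : ∑ k, A.W (PL x k) = 99 + 4 * (A.K x).card := by
  have h := count_aux (fun k j => LP (PL x k) j) (fun u => (A.K u).card)
  have h2 := count_aux2 (fun u => (A.K u).card) x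
  have h3 : ∑ u : Fin 21, (∑ k : Fin 5, ∑ j : Fin 5, (if LP (PL x k) j = u then 1 else 0)) * (A.K u).card =
      ∑ u : Fin 21, (if x = u then 5 else 1) * (A.K u).card :=
    Finset.sum_congr rfl fun u _ => by rw [inc_count x u]
  rw [← A.total]
  exact h.trans (h3.trans h2)

/-- Sum of the four strip inequalities of the lines through the segment t of the class LP l j. -/
theorem cap (A : CArc) (l : Fin 21) (j : Fin 5) (t : F4) :
    4 * A.G l j t + A.W l ≤ 28 + (A.K (LP l j)).card := by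
  set S : Finset (F4 × F4) := Finset.univ.filter (fun p => fk j p = t) with hS
  have hSc : S.card = 4 := fk_card j t
  have h1 : ∑ p ∈ S, ∑ j' : Fin 5, A.G l j' (fk j' p) ≤ 28 := by
    calc ∑ p ∈ S, ∑ j' : Fin 5, A.G l j' (fk j' p) ≤ ∑ _p ∈ S, 7 :=
          Finset.sum_le_sum fun p _ => A.strip l p.1 p.2
      _ = 28 := by rw [Finset.sum_const, hSc]; rfl
  rw [Finset.sum_comm] at h1
  have h2 : ∀ j' : Fin 5, j' ≠ j → ∑ p ∈ S, A.G l j' (fk j' p) = (A.K (LP l j')).card := by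
    intro j' hj
    rw [← G_sum, ← sum_F4]
    refine Finset.sum_nbij (fk j') (fun _ _ => Finset.mem_univ _) ?_ ?_ (fun _ _ => rfl)
    · intro p hp q hq h
      have hp' := (Finset.mem_filter.1 (Finset.mem_coe.1 hp)).2
      have hq' := (Finset.mem_filter.1 (Finset.mem_coe.1 hq)).2
      exact fk_inj j j' hj p q (hp'.trans hq'.symm) h
    · intro t' _
      obtain ⟨p, hp, hp'⟩ := fk_surj j j' hj t t'
      exact ⟨p, Finset.mem_coe.2 (Finset.mem_filter.2 ⟨Finset.mem_univ _, hp⟩), hp'⟩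
  have h3 : ∑ p ∈ S, A.G l j (fk j p) = 4 * A.G l j t := by
    rw [Finset.sum_congr rfl (g := fun _ => A.G l j t) (fun p hp => by rw [(Finset.mem_filter.1 hp).2]),
      Finset.sum_const, hSc, smul_eq_mul]
  rw [← Finset.add_sum_erase _ _ (Finset.mem_univ j), h3,
    Finset.sum_congr rfl fun j' hj' => h2 j' (Finset.ne_of_mem_erase hj')] at h1
  have h4 : A.W l = (A.K (LP l j)).card + ∑ j' ∈ Finset.univ.erase j, (A.K (LP l j')).card :=
    (Finset.add_sum_erase _ _ (Finset.mem_univ j)).symm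
  omega

theorem cap_mx (A : CArc) (l : Fin 21) (j : Fin 5) :
    4 * mx (A.G l j) + A.W l ≤ 28 + (A.K (LP l j)).card := by
  have h1 := cap A l j o
  have h2 := cap A l j i
  have h3 := cap A l j w
  have h4 := cap A l j z
  unfold mx
  omega

/-- From type_lem: the sum over k of cap_mx at the five lines through x, and W_sum. -/
theorem type_of (A : CArc) (x : Fin 21) : ∃ t ∈ TYL, t.1 = (A.K x).card ∧
    (Finset.univ.val.map (A.V' x) : Multiset ℕ) = (t.2 : Multiset ℕ) := by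
  refine type_lem (A.K x) ?_
  have h1 : ∀ k : Fin 5, 4 * mx (D (A.K x) k) + A.W (PL x k) ≤ 28 + (A.K x).card := by
    intro k
    have h := cap_mx A (PL x k) (JJ x k)
    rw [mx_G, (LP_PL x k).1, (LP_PL x k).2] at h
    exact h
  have h2 := Finset.sum_le_sum (fun k (_ : k ∈ (Finset.univ : Finset (Fin 5))) => h1 k)
  rw [Finset.sum_add_distrib, W_sum, ← Finset.mul_sum, Finset.sum_const, Finset.card_univ, Fintype.card_fin,
    smul_eq_mul] at h2
  omega

end Pool.Agent.Lib.MP_4dc748_co.TE
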