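import Pool.Agent.Lib.MP_4dc748_co.TE.Cls

/-!
# Strips with 27 points through a class with 7 points
-/

set_option autoImplicit false

namespace Pool.Agent.Lib.MP_4dc748_co.TE

open F4

/-- The points of the line fk j = s of the affine plane, numbered by a. -/
def pp (j : Fin 5) (s a : F4) : F4 × F4 := if j = 4 then (s, a) else (a, s + el j.1 * a)

theorem fk_pp : ∀ (j : Fin 5) (s a : F4), fk j (pp j s a) = s := by
  decide

theorem pp_inj : ∀ (j : Fin 5) (s a b : F4), pp j s a = pp j s b → a = b := by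
  decide

theorem pp_fk : ∀ (j : Fin 5) (x y : F4), ∃ a, pp j (fk j (x, y)) a = (x, y) := by
  decide

theorem fk_bij : ∀ (j j' : Fin 5) (s a b : F4), j' ≠ j → fk j' (pp j s a) = fk j' (pp j s b) → a = b := by
  decide

theorem fk_surj (j j' : Fin 5) (s t : F4) (h : j' ≠ j) : ∃ a, fk j' (pp j s a) = t := by
  revert j j' s t
  decide

variable {G : Fin 5 → F4 → ℕ}

/-- The number of points on the line q of the strip. -/
def SG (G : Fin 5 → F4 → ℕ) (q : F4 × F4) : ℕ := ∑ j, G j (fk j q)

/-- The number of points in the class j. -/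
def UG (G : Fin 5 → F4 → ℕ) (j : Fin 5) : ℕ := ∑ t, G j t

theorem pencil (G : Fin 5 → F4 → ℕ) (j : Fin 5) (s : F4) :
    ∑ a, SG G (pp j s a) + UG G j = 4 * G j s + ∑ i, UG G i := by
  unfold SG
  rw [Finset.sum_comm, ← Finset.add_sum_erase _ _ (Finset.mem_univ j),
    ← Finset.add_sum_erase _ (fun i => UG G i) (Finset.mem_univ j)]
  have h1 : ∑ a : F4, G j (fk j (pp j s a)) = 4 * G j s := by
    simp only [fk_pp]
    rw [Finset.sum_const, smul_eq_mul]
    rfl
  have h2 : ∀ i ∈ Finset.univ.erase j, ∑ a : F4, G i (fk i (pp j s a)) = UG G i := by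
    intro i hi
    have h3 : Function.Bijective (fun a => fk i (pp j s a)) :=
      ⟨fun a b hab => fk_bij j i s a b (Finset.ne_of_mem_erase hi) hab,
        fun t => fk_surj j i s t (Finset.ne_of_mem_erase hi)⟩
    exact Fintype.sum_bijective _ h3 _ _ (fun _ => rfl)
  rw [h1, Finset.sum_congr rfl h2]
  ring

theorem sum_F4 (f : F4 → ℕ) : ∑ t, f t = f o + f i + f w + f z := by
  have : (Finset.univ : Finset F4) = {o, i, w, z} := by decide
  rw [this, Finset.sum_insert (by decide), Finset.sum_insert (by decide), Finset.sum_insert (by decide),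
    Finset.sum_singleton]
  ring

theorem forall_F4 (P : F4 → Prop) : (∀ x, P x) ↔ P o ∧ P i ∧ P w ∧ P z :=
  ⟨fun h => ⟨h o, h i, h w, h z⟩, fun h x => by
    cases x
    exacts [h.1, h.2.1, h.2.2.1, h.2.2.2]⟩

/-- On a strip with 27 points through a class with 7 points with the vector 2221 (the other classes have at most 7
points) all classes have 3 or 7 points. -/
theorem strip7 (hS : ∀ q, SG G q ≤ 7) (hU : ∀ j, UG G j ≤ 7) (hW : ∑ j, UG G j = 27) (j0 : Fin 5)
    (h0 : UG G j0 = 7) (t0 : F4) (ht0 : G j0 t0 = 1) (ht : ∀ t, t ≠ t0 → G j0 t = 2) :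
    ∀ j, UG G j = 3 ∨ UG G j = 7 := by
  -- the lines off the pencil t0 are full
  have hfull : ∀ q, fk j0 q ≠ t0 → SG G q = 7 := by
    intro q hq
    obtain ⟨a, ha⟩ := pp_fk j0 q.1 q.2
    have h1 := pencil G j0 (fk j0 q)
    rw [hW, h0, ht _ hq, sum_F4] at h1
    have h2 := fun a => hS (pp j0 (fk j0 q) a)
    have h3 := h2 o
    have h4 := h2 i
    have h5 := h2 w
    have h6 := h2 z
    have h7 : SG G (pp j0 (fk j0 q) a) = 7 := by
      cases a <;> omega
    rw [← h7, ha]
  -- the capacity inequality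
  have hcap : ∀ j s, 4 * G j s ≤ 1 + UG G j := by
    intro j s
    have h1 := pencil G j s
    rw [hW, sum_F4] at h1
    have h3 := hS (pp j s o)
    have h4 := hS (pp j s i)
    have h5 := hS (pp j s w)
    have h6 := hS (pp j s z)
    omega
  have hsum : ∀ j, UG G j = G j o + G j i + G j w + G j z := fun j => sum_F4 _
  have hval : ∀ j, UG G j = 0 ∨ UG G j = 3 ∨ UG G j = 4 ∨ UG G j = 7 := by
    intro j
    have h1 := hcap j o
    have h2 := hcap j i
    have h3 := hcap j w
    have h4 := hcap j z
    have h5 := hsum j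
    have h6 := hU j
    omega
  intro j
  by_contra hj
  have hj1 : UG G j = 0 ∨ UG G j = 4 := by
    rcases hval j with h | h | h | h <;> omega
  have hc : ∀ s, 4 * G j s = UG G j := by
    have h1 := hcap j o
    have h2 := hcap j i
    have h3 := hcap j w
    have h4 := hcap j z
    have h5 := hsum j
    rw [forall_F4]
    omega
  have hjne : j ≠ j0 := by
    rintro rfl
    omega
  -- some other class has 3 or 7 points
  obtain ⟨k, hk0, hk⟩ : ∃ k, k ≠ j0 ∧ (UG G k = 3 ∨ UG G k = 7) := by
    by_contra hno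
    have h1 : ∀ k ∈ Finset.univ.erase j0, UG G k ≤ 4 := by
      intro k hk
      have h2 : ¬ (UG G k = 3 ∨ UG G k = 7) := fun h3 => hno ⟨k, Finset.ne_of_mem_erase hk, h3⟩
      rcases hval k with h | h | h | h <;> omega
    have h2 := Finset.sum_le_card_nsmul _ _ 4 h1
    have h3 : UG G j0 + (Finset.univ.erase j0).sum (UG G) = 27 :=
      (Finset.add_sum_erase Finset.univ (UG G) (Finset.mem_univ j0)).trans hW
    rw [Finset.card_erase_of_mem (Finset.mem_univ j0), Finset.card_univ, Fintype.card_fin] at h2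
    simp only [smul_eq_mul] at h2
    have h4 : (Finset.univ.erase j0).sum (UG G) ≤ (5 - 1) * 4 := h2
    omega
  -- the deficient segment of k
  obtain ⟨s', hs'⟩ : ∃ s', 4 * G k s' + 3 ≤ UG G k := by
    by_contra hno
    push Not at hno
    have h1 := hno o
    have h2 := hno i
    have h3 := hno w
    have h4 := hno z
    have h5 := hsum k
    have g1 := hcap k o
    have g2 := hcap k i
    have g3 := hcap k w
    have g4 := hcap k z
    omega
  obtain ⟨a0, ha0⟩ := fk_surj k j0 s' t0 (Ne.symm hk0)
  have hP : SG G (pp k s' a0) ≤ 3 := by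
    have h1 := pencil G k s'
    rw [hW, sum_F4] at h1
    have h2 : ∀ a, a ≠ a0 → SG G (pp k s' a) = 7 := by
      intro a ha
      refine hfull _ fun h3 => ha ?_
      exact fk_bij k j0 s' a a0 (Ne.symm hk0) (h3.trans ha0.symm)
    cases a0
    · have e1 := h2 i (by decide)
      have e2 := h2 w (by decide)
      have e3 := h2 z (by decide)
      omega
    · have e1 := h2 o (by decide)
      have e2 := h2 w (by decide)
      have e3 := h2 z (by decide)
      omega
    · have e1 := h2 o (by decide)
      have e2 := h2 i (by decide)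
      have e3 := h2 z (by decide)
      omega
    · have e1 := h2 o (by decide)
      have e2 := h2 i (by decide)
      have e3 := h2 w (by decide)
      omega
  obtain ⟨a1, ha1⟩ := pp_fk j (pp k s' a0).1 (pp k s' a0).2
  have h1 := pencil G j (fk j (pp k s' a0))
  have h2 := hc (fk j (pp k s' a0))
  rw [hW, sum_F4] at h1
  have h3 : SG G (pp j (fk j (pp k s' a0)) a1) ≤ 3 := by rw [ha1]; exact hP
  have g1 := hS (pp j (fk j (pp k s' a0)) o)
  have g2 := hS (pp j (fk j (pp k s' a0)) i)
  have g3 := hS (pp j (fk j (pp k s' a0)) w)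
  have g4 := hS (pp j (fk j (pp k s' a0)) z)
  cases a1 <;> omega

end Pool.Agent.Lib.MP_4dc748_co.TE
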