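import Pool.Agent.Lib.MP_4dc748_co.TE.Cls7A

/-!
# Arcs with a class of 7 points and no class of 8 points: all classes have 3 or 7 points
-/

set_option autoImplicit false

namespace Pool.Agent.Lib.MP_4dc748_co.TE

open F4

private theorem vid13 : ∀ a b c d : Fin 5, vid a.1 b.1 c.1 d.1 = 13 →
    (a.1 = 1 ∧ b.1 = 2 ∧ c.1 = 2 ∧ d.1 = 2) ∨ (a.1 = 2 ∧ b.1 = 1 ∧ c.1 = 2 ∧ d.1 = 2) ∨
    (a.1 = 2 ∧ b.1 = 2 ∧ c.1 = 1 ∧ d.1 = 2) ∨ (a.1 = 2 ∧ b.1 = 2 ∧ c.1 = 2 ∧ d.1 = 1) := by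
  decide +kernel

private theorem vid21 : ∀ a b c d : Fin 5, vid a.1 b.1 c.1 d.1 = 21 →
    a.1 = 4 ∨ b.1 = 4 ∨ c.1 = 4 ∨ d.1 = 4 := by
  decide +kernel

theorem vec13 (g : F4 → ℕ) (hg : ∀ t, g t ≤ 4) (h : vecOf g = 13) :
    mx g = 2 ∧ ∃ t0, g t0 = 1 ∧ ∀ t, t ≠ t0 → g t = 2 := by
  have h1 := vid13 ⟨g o, by have := hg o; omega⟩ ⟨g i, by have := hg i; omega⟩
    ⟨g w, by have := hg w; omega⟩ ⟨g z, by have := hg z; omega⟩ h
  simp only [] at h1
  unfold mx
  refine ⟨by omega, ?_⟩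
  rcases h1 with ⟨a, b, c, d⟩ | ⟨a, b, c, d⟩ | ⟨a, b, c, d⟩ | ⟨a, b, c, d⟩
  · refine ⟨o, a, fun t ht => ?_⟩
    cases t
    exacts [absurd rfl ht, b, c, d]
  · refine ⟨i, b, fun t ht => ?_⟩
    cases t
    exacts [a, absurd rfl ht, c, d]
  · refine ⟨w, c, fun t ht => ?_⟩
    cases t
    exacts [a, b, absurd rfl ht, d]
  · refine ⟨z, d, fun t ht => ?_⟩
    cases t
    exacts [a, b, c, absurd rfl ht]

theorem vec21 (g : F4 → ℕ) (hg : ∀ t, g t ≤ 4) (h : vecOf g = 21) : 4 ≤ mx g := by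
  have h1 := vid21 ⟨g o, by have := hg o; omega⟩ ⟨g i, by have := hg i; omega⟩
    ⟨g w, by have := hg w; omega⟩ ⟨g z, by have := hg z; omega⟩ h
  simp only [] at h1
  unfold mx
  omega

private theorem TYL7 : ∀ t ∈ TYL, t.1 = 7 → t.2 = [13, 13, 13, 13, 21] := by
  decide

private theorem TYL7' (f : Fin 5 → ℕ) (h : (Finset.univ.val.map f : Multiset ℕ) =
    (([13, 13, 13, 13, 21] : List ℕ) : Multiset ℕ)) : ∃ k0, f k0 = 21 ∧ ∀ k, k ≠ k0 → f k = 13 := by
  have h1 : ∀ k, f k = 13 ∨ f k = 21 := by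
    intro k
    have h2 : f k ∈ (Finset.univ.val.map f : Multiset ℕ) :=
      Multiset.mem_map_of_mem f (Finset.mem_univ k)
    rw [h] at h2
    simpa using h2
  have h2 : ((Finset.univ.val.map f : Multiset ℕ)).count 21 = 1 := by
    rw [h]
    decide
  rw [Multiset.count_map] at h2
  obtain ⟨k0, hk0⟩ := Multiset.card_eq_one.1 h2
  have hm : k0 ∈ Multiset.filter (fun a => 21 = f a) Finset.univ.val := by
    rw [hk0]
    exact Multiset.mem_singleton_self k0
  refine ⟨k0, (Multiset.mem_filter.1 hm).2.symm, fun k hk => ?_⟩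
  rcases h1 k with h3 | h3
  · exact h3
  · have h4 : k ∈ Multiset.filter (fun a => 21 = f a) Finset.univ.val :=
      Multiset.mem_filter.2 ⟨Finset.mem_univ k, h3.symm⟩
    rw [hk0] at h4
    exact absurd (Multiset.mem_singleton.1 h4) hk

/-- The lines through a class with 7 points: one tangent with 19 points and four lines with 27 points. -/
theorem class7 (A : CArc) (x : Fin 21) (hx : (A.K x).card = 7) : ∃ k0 : Fin 5, A.W (PL x k0) = 19 ∧
    ∀ k, k ≠ k0 → A.W (PL x k) = 27 ∧ A.V (PL x k) (JJ x k) = 13 := by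
  obtain ⟨t, ht, h1, h2⟩ := type_of A x
  rw [hx] at h1
  rw [TYL7 t ht h1] at h2
  obtain ⟨k0, hk0, hk⟩ := TYL7' _ h2
  have hV : ∀ k, k ≠ k0 → A.V (PL x k) (JJ x k) = 13 := by
    intro k hkk
    rw [← V'_eq]
    exact hk k hkk
  have hcap : ∀ k, 4 * mx (A.G (PL x k) (JJ x k)) + A.W (PL x k) ≤ 35 := by
    intro k
    have h := cap_mx A (PL x k) (JJ x k)
    rw [(LP_PL x k).1, hx] at h
    exact h
  have hle : ∀ k, k ≠ k0 → A.W (PL x k) ≤ 27 := by
    intro k hkk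
    have h3 := hcap k
    have h4 := (vec13 _ (G_le A _ _) (hV k hkk)).1
    omega
  have hle0 : A.W (PL x k0) ≤ 19 := by
    have h3 := hcap k0
    have h4 : vecOf (A.G (PL x k0) (JJ x k0)) = 21 := by
      have h5 := V'_eq A x k0
      rw [hk0] at h5
      exact h5.symm
    have h6 := vec21 _ (G_le A _ _) h4
    omega
  have hsum := W_sum A x
  rw [hx, ← Finset.add_sum_erase _ _ (Finset.mem_univ k0)] at hsum
  have hcard : (Finset.univ.erase k0).card = 4 := by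
    rw [Finset.card_erase_of_mem (Finset.mem_univ k0), Finset.card_univ, Fintype.card_fin]
  have hS : ∑ k ∈ Finset.univ.erase k0, A.W (PL x k) ≤ 108 := by
    have h3 := Finset.sum_le_card_nsmul (Finset.univ.erase k0) (fun k => A.W (PL x k)) 27
      (fun k hkk => hle k (Finset.ne_of_mem_erase hkk))
    rw [hcard] at h3
    exact h3
  refine ⟨k0, by omega, fun k hkk => ⟨?_, hV k hkk⟩⟩
  by_contra hne
  have h3 : A.W (PL x k) < 27 := lt_of_le_of_ne (hle k hkk) hne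
  have h4 : ∑ k ∈ Finset.univ.erase k0, A.W (PL x k) < ∑ _k ∈ Finset.univ.erase k0, 27 :=
    Finset.sum_lt_sum (fun k hkk => hle k (Finset.ne_of_mem_erase hkk))
      ⟨k, Finset.mem_erase.2 ⟨hkk, Finset.mem_univ k⟩, h3⟩
  rw [Finset.sum_const, hcard, smul_eq_mul] at h4
  omega

theorem UG_card (A : CArc) (l : Fin 21) (j : Fin 5) : UG (A.G l) j = (A.K (LP l j)).card := by
  rw [← G_sum]
  exact sum_F4 _

/-- The classes on the lines with 27 points through a class with 7 points. -/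
theorem class7_line (A : CArc) (hle : ∀ x, (A.K x).card ≤ 7) (x : Fin 21) (hx : (A.K x).card = 7) (k : Fin 5)
    (hW : A.W (PL x k) = 27) (hV : A.V (PL x k) (JJ x k) = 13) (j : Fin 5) :
    (A.K (LP (PL x k) j)).card = 3 ∨ (A.K (LP (PL x k) j)).card = 7 := by
  obtain ⟨-, t0, ht0, ht⟩ := vec13 _ (G_le A _ _) hV
  have h := strip7 (G := A.G (PL x k)) (fun q => A.strip (PL x k) q.1 q.2)
    (fun j => by rw [UG_card]; exact hle _) (by simp only [UG_card]; exact hW) (JJ x k)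
    (by rw [UG_card, (LP_PL x k).1]; exact hx) t0 ht0 ht j
  rw [UG_card] at h
  exact h

theorem join : ∀ x y : Fin 21, x ≠ y → ∃ k j, LP (PL x k) j = y := by
  decide +kernel

theorem meet : ∀ (x : Fin 21) (k k' j j' : Fin 5), LP (PL x k) j = LP (PL x k') j' → k = k' ∨ LP (PL x k) j = x := by
  decide +kernel

end Pool.Agent.Lib.MP_4dc748_co.TE
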