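import Pool.Agent.Lib.MP_4dc748_co.LL.Main
import Pool.Agent.Lib.MP_4dc748_co.TE.Geo

/-!
# From the functions of a strip to the label functions of LL
-/

set_option autoImplicit false

namespace Pool.Agent.Lib.MP_4dc748_co.TE

/-- The identification of the two fields. -/
def cbPhi : RS.F4 → F4
  | RS.F4.o => F4.o
  | RS.F4.i => F4.i
  | RS.F4.w => F4.w
  | RS.F4.v => F4.z

theorem cbPhi_add : ∀ s t : RS.F4, cbPhi (s + t) = cbPhi s + cbPhi t := by decide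

theorem cbPhi_w : ∀ s t : RS.F4, cbPhi (s + RS.F4.w * t) = cbPhi s + F4.w * cbPhi t := by decide

theorem cbPhi_v : ∀ s t : RS.F4, cbPhi (s + RS.F4.v * t) = cbPhi s + F4.z * cbPhi t := by decide

theorem cb_fk0 (a b : F4) : fk 0 (a, b) = b := by revert a b; decide
theorem cb_fk1 (a b : F4) : fk 1 (a, b) = b + a := by revert a b; decide
theorem cb_fk2 (a b : F4) : fk 2 (a, b) = b + F4.w * a := by revert a b; decide
theorem cb_fk3 (a b : F4) : fk 3 (a, b) = b + F4.z * a := by revert a b; decide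
theorem cb_fk4 (a b : F4) : fk 4 (a, b) = a := by revert a b; decide

/-- The strip condition becomes Ok. -/
theorem cb_ok {G : Fin 5 → F4 → ℕ} (h : ∀ a b, ∑ j : Fin 5, G j (fk j (a, b)) ≤ 7) :
    LL.Ok (G 4 ∘ cbPhi) (G 0 ∘ cbPhi) (G 1 ∘ cbPhi) (G 2 ∘ cbPhi) (G 3 ∘ cbPhi) := by
  intro s t
  have h1 := h (cbPhi t) (cbPhi s)
  rw [Fin.sum_univ_five, cb_fk0, cb_fk1, cb_fk2, cb_fk3, cb_fk4, ← cbPhi_add, ← cbPhi_w, ← cbPhi_v] at h1
  simp only [Function.comp_apply]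
  omega

/-- The permutations of the field. -/
def cbPm : List (RS.F4 × RS.F4 × RS.F4 × RS.F4) :=
  [(.o, .i, .w, .v), (.o, .i, .v, .w), (.o, .w, .i, .v), (.o, .w, .v, .i), (.o, .v, .i, .w), (.o, .v, .w, .i),
   (.i, .o, .w, .v), (.i, .o, .v, .w), (.i, .w, .o, .v), (.i, .w, .v, .o), (.i, .v, .o, .w), (.i, .v, .w, .o),
   (.w, .o, .i, .v), (.w, .o, .v, .i), (.w, .i, .o, .v), (.w, .i, .v, .o), (.w, .v, .o, .i), (.w, .v, .i, .o),
   (.v, .o, .i, .w), (.v, .o, .w, .i), (.v, .i, .o, .w), (.v, .i, .w, .o), (.v, .w, .o, .i), (.v, .w, .i, .o)]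

/-- A quadruple as a function. -/
def cbAp (e : RS.F4 × RS.F4 × RS.F4 × RS.F4) : RS.F4 → RS.F4
  | RS.F4.o => e.1
  | RS.F4.i => e.2.1
  | RS.F4.w => e.2.2.1
  | RS.F4.v => e.2.2.2

theorem cbAp_inj : ∀ e ∈ cbPm, ∀ x y : RS.F4, cbAp e x = cbAp e y → x = y := by decide +kernel

/-- The check of one quadruple. -/
def cbPt (x y z u : ℕ) : Bool :=
  Nat.blt 22 (vid x y z u) || cbPm.any fun e =>
    Nat.beq x (LL.pf (vid x y z u) e.1) && (Nat.beq y (LL.pf (vid x y z u) e.2.1) &&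
      (Nat.beq z (LL.pf (vid x y z u) e.2.2.1) && Nat.beq u (LL.pf (vid x y z u) e.2.2.2)))

theorem cbPt_chk : LL.upTo (fun x => LL.upTo (fun y => LL.upTo (fun z => LL.upTo (cbPt x y z) 4) 4) 4) 4 = true := by
  decide +kernel

/-- The pattern of the function g has the number vecOf g. -/
theorem cb_isPat {g : F4 → ℕ} (h4 : ∀ t, g t ≤ 4) {c : ℕ} (hc : vecOf g = c) (hc22 : c < 23) :
    LL.IsPat c (g ∘ cbPhi) := by
  have h := LL.upTo_true (LL.upTo_true (LL.upTo_true (LL.upTo_true cbPt_chk (h4 F4.o)) (h4 F4.i)) (h4 F4.w)) (h4 F4.z)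
  unfold cbPt at h
  have e : vid (g F4.o) (g F4.i) (g F4.w) (g F4.z) = c := hc
  rw [e, Bool.or_eq_true] at h
  rcases h with h | h
  · exfalso
    have : 22 < c := Nat.le_of_ble_eq_true h
    omega
  · rw [List.any_eq_true] at h
    obtain ⟨p, hp, h⟩ := h
    rw [Bool.and_eq_true, Bool.and_eq_true, Bool.and_eq_true] at h
    obtain ⟨h0, h1, h2, h3⟩ := h
    refine ⟨cbAp p, fun x y => cbAp_inj p hp x y, fun x => ?_⟩
    cases x
    · exact Nat.eq_of_beq_eq_true h0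
    · exact Nat.eq_of_beq_eq_true h1
    · exact Nat.eq_of_beq_eq_true h2
    · exact Nat.eq_of_beq_eq_true h3

/-- The codes of the vectors of a strip are realisable. -/
theorem cb_rz {V : Fin 5 → ℕ} (hV : ∀ j, V j < 23)
    (h : ∃ G : Fin 5 → F4 → ℕ, (∀ j t, G j t ≤ 4) ∧ (∀ j, vecOf (G j) = V j) ∧
      ∀ a b, ∑ j : Fin 5, G j (fk j (a, b)) ≤ 7) :
    LL.Rz (V 0) (V 1) (V 2) (V 3) (V 4) := by
  obtain ⟨G, h4, hv, hs⟩ := h
  have h1 : LL.Rz (V 4) (V 0) (V 1) (V 2) (V 3) :=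
    ⟨_, _, _, _, _, cb_ok hs, cb_isPat (h4 4) (hv 4) (hV 4), cb_isPat (h4 0) (hv 0) (hV 0),
      cb_isPat (h4 1) (hv 1) (hV 1), cb_isPat (h4 2) (hv 2) (hV 2), cb_isPat (h4 3) (hv 3) (hV 3)⟩
  exact h1.swap0.swap1.swap2.swap3

end Pool.Agent.Lib.MP_4dc748_co.TE
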