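import Pool.Agent.Lib.MP_4dc748_co.TE.CmpB2

/-!
# The compatible multisets: the kernel check (about 30 seconds) and the result
-/

set_option autoImplicit false

namespace Pool.Agent.Lib.MP_4dc748_co.TE

theorem cb_all : LL.upTo cbCh 22 = true := by decide +kernel

theorem cbIv_lt : ∀ i < 23, cbIv i < 23 := by decide

/-- The statement of Cmp_bit for the copies of the definitions. -/
theorem cb_cmp_bit (I : Fin 5 → ℕ) (hv : ∀ j, I j < 23) (h10 : I 1 ≤ I 0) (h21 : I 2 ≤ I 1) (h32 : I 3 ≤ I 2)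
    (h43 : I 4 ≤ I 3) (h : ∃ G : Fin 5 → F4 → ℕ, (∀ j t, G j t ≤ 4) ∧ (∀ j, vecOf (G j) = cbIv (I j)) ∧
      ∀ a b, ∑ j : Fin 5, G j (fk j (a, b)) ≤ 7) :
    cbBit (I 0) (I 1) (I 2) (I 3) (I 4) = true :=
  cb_bit_of (fun _ hi => LL.upTo_true cb_all (Nat.le_of_lt_succ hi)) (hv 0) h10 h21 h32 h43
    (cb_rz (V := fun j => cbIv (I j)) (fun j => cbIv_lt _ (hv j)) h)

end Pool.Agent.Lib.MP_4dc748_co.TE
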