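import Pool.Agent.Lib.MP_4dc748_co.TE.Geo

/-!
# The symmetric group on the five directions

Every transposition of two neighbouring directions is induced by a semilinear permutation of the cells, together with
the permutations t to c t^2 of F4.
-/

set_option autoImplicit false

namespace Pool.Agent.Lib.MP_4dc748_co.TE

open F4

private theorem vid_iw : ∀ a < 5, ∀ b < 5, ∀ c < 5, ∀ d < 5, vid a c b d = vid a b c d := by
  decide +kernel

private theorem vid_iz : ∀ a < 5, ∀ b < 5, ∀ c < 5, ∀ d < 5, vid a d c b = vid a b c d := by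
  decide +kernel

private theorem vid_wz : ∀ a < 5, ∀ b < 5, ∀ c < 5, ∀ d < 5, vid a b d c = vid a b c d := by
  decide +kernel

/-- The vector does not change under the maps t to c t^2. -/
theorem vecOf_tw (c : F4) (hc : c ≠ 0) (g : F4 → ℕ) (hg : ∀ t, g t ≤ 4) :
    vecOf (fun t => g (c * fr t)) = vecOf g := by
  have h : ∀ t, g t < 5 := fun t => Nat.lt_succ_of_le (hg t)
  cases c
  · exact absurd rfl hc
  · exact vid_wz _ (h o) _ (h i) _ (h w) _ (h z)
  · exact vid_iw _ (h o) _ (h i) _ (h w) _ (h z)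
  · exact vid_iz _ (h o) _ (h i) _ (h w) _ (h z)

/-- The cells for the transposition k, k + 1. -/
private def ph : Fin 4 → F4 × F4 → F4 × F4
  | 0, p => (fr p.1, fr p.1 + fr p.2)
  | 1, p => (fr p.1, w * fr p.2)
  | 2, p => (fr p.1, fr p.2)
  | 3, p => (fr p.1 + z * fr p.2, w * fr p.2)

/-- The scalars for the transposition k, k + 1. -/
private def cc : Fin 4 → Fin 5 → F4
  | 0, _ => i
  | 1, j => if j = 4 then i else w
  | 2, _ => i
  | 3, j => if j = 0 then w else if j = 1 then i else z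

private theorem cc_ne : ∀ (k : Fin 4) (j : Fin 5), cc k j ≠ 0 := by decide

private theorem cell : ∀ (k : Fin 4) (j : Fin 5) (a b : F4),
    cc k j * fr (fk j (a, b)) = fk (Equiv.swap k.castSucc k.succ j) (ph k (a, b)) := by
  decide

private theorem swap_aux (V : Fin 5 → ℕ) (k : Fin 4)
    (h : ∃ G : Fin 5 → F4 → ℕ, (∀ j t, G j t ≤ 4) ∧ (∀ j, vecOf (G j) = V j) ∧
      ∀ a b, ∑ j : Fin 5, G j (fk j (a, b)) ≤ 7) :
    ∃ G : Fin 5 → F4 → ℕ, (∀ j t, G j t ≤ 4) ∧
      (∀ j, vecOf (G j) = V (Equiv.swap k.castSucc k.succ j)) ∧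
      ∀ a b, ∑ j : Fin 5, G j (fk j (a, b)) ≤ 7 := by
  obtain ⟨G, h1, h2, h3⟩ := h
  refine ⟨fun j t => G (Equiv.swap k.castSucc k.succ j) (cc k j * fr t), fun j t => h1 _ _, fun j => ?_,
    fun a b => ?_⟩
  · rw [← h2 (Equiv.swap k.castSucc k.succ j)]
    exact vecOf_tw (cc k j) (cc_ne k j) (G (Equiv.swap k.castSucc k.succ j)) (h1 _)
  · have e : ∑ j : Fin 5, G (Equiv.swap k.castSucc k.succ j) (cc k j * fr (fk j (a, b)))
        = ∑ j : Fin 5, G j (fk j (ph k (a, b))) := by
      rw [← Equiv.sum_comp (Equiv.swap k.castSucc k.succ) (fun j => G j (fk j (ph k (a, b))))]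
      exact Finset.sum_congr rfl fun j _ => by rw [cell k j a b]
    rw [e]
    exact h3 _ _

/-- The existence of the functions does not depend on the order of the classes. -/
theorem perm_aux (V : Fin 5 → ℕ) (s : Equiv.Perm (Fin 5))
    (h : ∃ G : Fin 5 → F4 → ℕ, (∀ j t, G j t ≤ 4) ∧ (∀ j, vecOf (G j) = V j) ∧
      ∀ a b, ∑ j : Fin 5, G j (fk j (a, b)) ≤ 7) :
    ∃ G : Fin 5 → F4 → ℕ, (∀ j t, G j t ≤ 4) ∧ (∀ j, vecOf (G j) = V (s j)) ∧
      ∀ a b, ∑ j : Fin 5, G j (fk j (a, b)) ≤ 7 := by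
  have hs : s ∈ Submonoid.closure (Set.range fun i : Fin 4 => Equiv.swap i.castSucc i.succ) := by
    rw [Equiv.Perm.mclosure_swap_castSucc_succ]
    exact Submonoid.mem_top s
  induction hs using Submonoid.closure_induction generalizing V with
  | mem x hx =>
    obtain ⟨k, rfl⟩ := hx
    exact swap_aux V k h
  | one => exact h
  | mul x y _ _ hx hy => exact hy (fun j => V (x j)) (hx V h)

end Pool.Agent.Lib.MP_4dc748_co.TE
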