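import Pool.Agent.Lib.MP_4dc748_co.TE.Cls
import Pool.Agent.Lib.MP_4dc748_co.TE.Cmp

/-!
# Weight functions (LP duality certificates): definitions and checks

All functions are evaluated by the kernel, so they use structural recursion and the basic operations on ℕ. Vectors are
given by their place i < 23 in the order ORD, see Cmp.lean.
-/

set_option autoImplicit false

namespace Pool.Agent.Lib.MP_4dc748_co.TE


/-- Binary search trees with values. -/
inductive BT
  | nil : BT
  | nd : BT → ℕ → ℕ → BT → BT

/-- The value of a key, or 0. -/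
def BT.get : BT → ℕ → ℕ
  | BT.nil, _ => 0
  | BT.nd l k v r, x => cond (Nat.blt x k) (l.get x) (cond (Nat.blt k x) (r.get x) v)

/-- The bit number i of n. -/
def bt (n i : ℕ) : Bool := Nat.beq (Nat.mod (Nat.shiftRight n i) 2) 1

/-- The field number i of 24 bits of n. -/
def f24 (n i : ℕ) : ℕ := Nat.mod (Nat.shiftRight n (Nat.mul 24 i)) 16777216

/-- A weight function: the value of the vector i on a strip with w points is the field i (16 bits) of row w of P; A u
bounds the sum over a class with u points plus lam u; M bounds from below the sum over a strip whose classes have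
the numbers of points u0 ≥ ... ≥ u4 (field rk u0 ... u4), m is the same for the partial states (field number of the
key). -/
structure Pot where
  lam : ℕ
  P : List ℕ
  A : List ℕ
  As : ℕ
  M : ℕ
  m : ℕ

/-- A context: at most um points on a class, at most mw points on a strip, the strip with rank ex is excluded; XV are
the possible vectors on a strip with w points, SB the possible strips, RB the ranges of the number of points of a strip
(lo + 32 hi) for the partial states, KB the numbers of the keys. -/
structure Ctx where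
  um : ℕ
  mw : ℕ
  ex : ℕ
  XV : List ℕ
  SB : ℕ
  RB : BT
  KB : BT
  pots : List Pot

/-- The value of the weight function. -/
def pv (p : Pot) (i w : ℕ) : ℕ := Nat.mod (Nat.shiftRight (p.P.getD w 0) (Nat.mul 16 i)) 65536

/-- The number of points of the vector i. -/
def iu (i : ℕ) : ℕ := IU.getD i 0

/-- The maximum of the vector i. -/
def im (i : ℕ) : ℕ := ([0, 1, 1, 2, 1, 2, 3, 1, 2, 2, 3, 4, 2, 2, 3, 3, 2, 2, 3, 2, 4, 2, 4] : List ℕ).getD i 0

/-- The 16 types, with the vectors given by their places. -/
def TYI : List (ℕ × List ℕ) :=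
  [(0, [0, 0, 0, 0, 0]), (1, [1, 1, 1, 1, 1]), (2, [2, 2, 2, 2, 3]), (3, [4, 4, 4, 4, 6]), (3, [4, 4, 5, 5, 5]),
   (4, [7, 7, 7, 7, 11]), (4, [7, 7, 9, 9, 9]), (4, [7, 8, 8, 8, 10]), (4, [8, 8, 8, 8, 9]),
   (5, [12, 12, 13, 13, 15]), (5, [12, 13, 13, 13, 14]), (5, [13, 13, 13, 13, 13]), (6, [16, 16, 16, 17, 18]),
   (6, [17, 17, 17, 17, 17]), (7, [19, 19, 19, 19, 20]), (8, [21, 21, 21, 21, 22])]

/-- The largest possible number of points of a strip through a class with u points on which the class has the
vector i. -/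
def capw (c : Ctx) (u i : ℕ) : ℕ := min c.mw (28 + u - 4 * im i)

/-- The sum of the capw. -/
def scap (c : Ctx) (t : ℕ × List ℕ) : ℕ := (t.2.map (capw c t.1)).sum

/-- All d ≤ n satisfy f. -/
def allLe (f : ℕ → Bool) : ℕ → Bool
  | 0 => f 0
  | n + 1 => f (n + 1) && allLe f n

/-- The check of XV. -/
def xvOK (c : Ctx) : Bool :=
  TYI.all fun t => cond (Nat.blt c.um t.1 || Nat.blt (scap c t) (99 + 4 * t.1)) true
    (t.2.all fun i => allLe (fun d => cond (Nat.blt (capw c t.1 i) d) true
      (bt (c.XV.getD (capw c t.1 i - d) 0) i)) (scap c t - (99 + 4 * t.1)))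

/-- The maximum of the sums a + b over two lists. -/
def mxz : List ℕ → List ℕ → ℕ
  | a :: L, b :: R => max (a + b) (mxz L R)
  | _, _ => 0

/-- The max-plus convolution of L with F (R is the reversed part of F which was used). -/
def cv : List ℕ → List ℕ → List ℕ → List ℕ
  | _, [], _ => []
  | L, f :: F, R => mxz L (f :: R) :: cv L F (f :: R)

/-- The list f 0, ..., f n. -/
def lst (f : ℕ → ℕ) (n : ℕ) : List ℕ := (List.range (n + 1)).map f

/-- The value of the weight function with slack d. -/
def pd (c : Ctx) (p : Pot) (u i d : ℕ) : ℕ :=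
  cond (Nat.blt (capw c u i) d) 0 (pv p i (capw c u i - d))

/-- The best value for the list of vectors, as a function of the total slack. -/
def best (c : Ctx) (p : Pot) (u D : ℕ) : List ℕ → List ℕ
  | [] => [0]
  | i :: is => cv (best c p u D is) (lst (pd c p u i) D) []

/-- The check of A. -/
def aOK (c : Ctx) (p : Pot) : Bool :=
  TYI.all fun t => cond (Nat.blt c.um t.1 || Nat.blt (scap c t) (99 + 4 * t.1)) true
    (Nat.ble ((best c p t.1 (scap c t - (99 + 4 * t.1)) t.2).getD (scap c t - (99 + 4 * t.1)) 0 + p.lam * t.1)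
      (p.A.getD t.1 0) && Nat.ble (p.A.getD t.1 0) p.As)

/-- The check for one compatible multiset of vectors. -/
def leafOK (c : Ctx) (i0 i1 i2 i3 i4 : ℕ) : Bool :=
  let w := iu i0 + iu i1 + iu i2 + iu i3 + iu i4
  let x := c.XV.getD w 0
  let r := rk (iu i0) (iu i1) (iu i2) (iu i3) (iu i4)
  cond (Nat.blt c.mw w || Nat.blt c.um (iu i0)) true
    (cond (bt x i0 && bt x i1 && bt x i2 && bt x i3 && bt x i4)
      (cond (Nat.beq r c.ex) true
        (bt c.SB r && c.pots.all fun p =>
          Nat.ble (f24 p.M r) (pv p i0 w + pv p i1 w + pv p i2 w + pv p i3 w + pv p i4 w))) true)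

/-- The walk through the compatible multisets. -/
def walk (f : ℕ → ℕ → ℕ → ℕ → ℕ → Bool) : Bool :=
  allLe (fun i0 => cond (cbit i0 0 0 0 0)
    (allLe (fun i1 => cond (cbit i0 i1 0 0 0)
      (allLe (fun i2 => cond (cbit i0 i1 i2 0 0)
        (allLe (fun i3 => cond (cbit i0 i1 i2 i3 0)
          (allLe (fun i4 => cond (cbit i0 i1 i2 i3 i4) (f i0 i1 i2 i3 i4) true) i3) true) i2) true) i1) true) i0)
      true) 22

/-- All sublists: f holds for c + the sum of 8^v over the sublist. -/
def sall (f : ℕ → Bool) : List ℕ → ℕ → Bool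
  | [], c => f c
  | v :: L, c => sall f L c && sall f L (c + 8 ^ v)

/-- The check of the partial state with code k for a strip with w points and rank r. -/
def partOK (c : Ctx) (w r k : ℕ) : Bool :=
  let g := c.RB.get k
  let a := c.KB.get (k + 134217728 * 31)
  let b := c.KB.get (k + 134217728 * w)
  Nat.ble (g % 32) w && Nat.ble w (g / 32) &&
    cond (Nat.beq a 0) true (c.pots.all fun p => Nat.ble (f24 p.m a) (f24 p.M r)) &&
    cond (Nat.beq b 0) true (c.pots.all fun p => Nat.ble (f24 p.m b) (f24 p.M r))

/-- The check of the ranges and of the fields m. -/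
def stripsOK (c : Ctx) : Bool :=
  allLe (fun u0 => allLe (fun u1 => allLe (fun u2 => allLe (fun u3 => allLe (fun u4 =>
    cond (bt c.SB (rk u0 u1 u2 u3 u4) && Nat.ble (u0 + u1 + u2 + u3 + u4) c.mw)
      (sall (partOK c (u0 + u1 + u2 + u3 + u4) (rk u0 u1 u2 u3 u4)) [u0, u1, u2, u3, u4] 0) true)
    u3) u2) u1) u0) c.um

/-- The field 0 of m is 0. -/
def m0OK (c : Ctx) : Bool := c.pots.all fun p => Nat.beq (f24 p.m 0) 0

end Pool.Agent.Lib.MP_4dc748_co.TE
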