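import Pool.Agent.Lib.MP_4dc748_co.TE.CtxL

/-!
# Weight functions: the bound over a strip
-/

set_option autoImplicit false

namespace Pool.Agent.Lib.MP_4dc748_co.TE

private theorem iu_mono' : ∀ a b : Fin 23, a ≤ b → iu a.1 ≤ iu b.1 := by
  decide

private theorem iu_mono {a b : ℕ} (hb : b < 23) (h : a ≤ b) : iu a ≤ iu b :=
  iu_mono' ⟨a, lt_of_le_of_lt h hb⟩ ⟨b, hb⟩ h

private theorem blt_false {a b : ℕ} (h : b ≤ a) : Nat.blt a b = false := by
  cases hb : Nat.blt a b with
  | false => rfl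
  | true =>
    have h1 : Nat.ble (a + 1) b = true := hb
    have h2 := Nat.le_of_ble_eq_true h1
    omega

private theorem beq_false' {a b : ℕ} (h : a ≠ b) : Nat.beq a b = false := by
  cases hb : Nat.beq a b with
  | false => rfl
  | true => exact absurd (Nat.eq_of_beq_eq_true hb) h

private theorem sort5 (f : Fin 5 → ℕ) (h10 : f 1 ≤ f 0) (h21 : f 2 ≤ f 1) (h32 : f 3 ≤ f 2) (h43 : f 4 ≤ f 3) :
    (Finset.univ.val.map f : Multiset ℕ).sort (· ≥ ·) = [f 0, f 1, f 2, f 3, f 4] := by
  refine List.Perm.eq_of_pairwise' (r := (· ≥ ·)) (Multiset.pairwise_sort _ _) ?_ ?_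
  · simp only [List.pairwise_cons, List.mem_cons, List.not_mem_nil, or_false, forall_eq_or_imp,
      forall_eq, IsEmpty.forall_iff, implies_true, List.Pairwise.nil, and_true, ge_iff_le]
    omega
  · rw [← Multiset.coe_eq_coe, Multiset.sort_eq, Fin.univ_val_map]
    rfl

/-- The check leafOK at the strip l: sort the places; the numbers of points iu are then sorted too (iu is monotone in the
place), so that the rank is rkM (lm A.u l). All flags pass the test of XV by xv_flag. -/
theorem l_bound (c : Ctx) (h : walk (leafOK c) = true) (hx : xvOK c = true) (A : CArc) (hA : InC c A.u)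
    (l : Fin 21) : bt c.SB (rkM (lm A.u l)) = true ∧ ∀ p ∈ c.pots,
      f24 p.M (rkM (lm A.u l)) ≤ ∑ j, pv p (A.I (LP l j) (KK l j)) (A.W l) := by
  obtain ⟨s, hs⟩ : ∃ s : Equiv.Perm (Fin 5), ∀ a b : Fin 5, a ≤ b →
      A.I (LP l (s b)) (KK l (s b)) ≤ A.I (LP l (s a)) (KK l (s a)) := by
    refine ⟨Tuple.sort (fun j => OrderDual.toDual (A.I (LP l j) (KK l j))), fun a b hab => ?_⟩
    exact Tuple.monotone_sort (fun j => OrderDual.toDual (A.I (LP l j) (KK l j))) hab
  have hl : ∀ j, A.I (LP l (s j)) (KK l (s j)) < 23 := fun j => (I_spec A _ _).1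
  have hiu : ∀ j, iu (A.I (LP l (s j)) (KK l (s j))) = A.u (LP l (s j)) := fun j => (I_spec A _ _).2.2
  have h10 := hs 0 1 (by decide)
  have h21 := hs 1 2 (by decide)
  have h32 := hs 2 3 (by decide)
  have h43 := hs 3 4 (by decide)
  have hw := walk_sound (leafOK c) h (fun j => A.I (LP l (s j)) (KK l (s j))) hl h10 h21 h32 h43 (cmp_strip A l s)
  have hx' : ∀ j, bt (c.XV.getD (A.W l) 0) (A.I (LP l (s j)) (KK l (s j))) = true := by
    intro j
    have h1 := xv_flag c hx A hA.um (fun l' => hA.mw l') (LP l (s j)) (KK l (s j))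
    rwa [(PL_LP l (s j)).1] at h1
  have hW : A.W l = A.u (LP l (s 0)) + A.u (LP l (s 1)) + A.u (LP l (s 2)) + A.u (LP l (s 3)) +
      A.u (LP l (s 4)) := by
    have h1 : A.W l = ∑ j, A.u (LP l (s j)) := (Equiv.sum_comp s (fun j => A.u (LP l j))).symm
    rw [h1, Fin.sum_univ_five]
  have hr : rkM (lm A.u l) = rk (A.u (LP l (s 0))) (A.u (LP l (s 1))) (A.u (LP l (s 2))) (A.u (LP l (s 3)))
      (A.u (LP l (s 4))) := by
    have h1 : lm A.u l = (Finset.univ.val.map (fun j => A.u (LP l (s j))) : Multiset ℕ) := by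
      have h2 := Multiset.map_univ_val_equiv s
      unfold lm
      conv_lhs => rw [← h2]
      rw [Multiset.map_map]
      rfl
    have h3 := sort5 (fun j => A.u (LP l (s j)))
      (by rw [← hiu, ← hiu]; exact iu_mono (hl _) h10) (by rw [← hiu, ← hiu]; exact iu_mono (hl _) h21)
      (by rw [← hiu, ← hiu]; exact iu_mono (hl _) h32) (by rw [← hiu, ← hiu]; exact iu_mono (hl _) h43)
    unfold rkM
    rw [h1, h3]
    rfl
  have hmw : A.W l ≤ c.mw := hA.mw l
  have hum : A.u (LP l (s 0)) ≤ c.um := hA.um _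
  have hex : rkM (lm A.u l) ≠ c.ex := hA.ex l
  simp only [leafOK, hiu] at hw
  rw [← hW, ← hr, blt_false hmw, blt_false hum, beq_false' hex] at hw
  simp only [hx', Bool.or_self, Bool.and_self, cond_true, cond_false, Bool.and_eq_true, List.all_eq_true] at hw
  refine ⟨hw.1, fun p hp => ?_⟩
  have h1 := Nat.le_of_ble_eq_true (hw.2 p hp)
  rw [← Equiv.sum_comp s, Fin.sum_univ_five]
  exact h1

end Pool.Agent.Lib.MP_4dc748_co.TE
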