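import Pool.Agent.Lib.MP_4dc748_co.TE.CtxD

/-!
# Weight functions: partial states
-/

set_option autoImplicit false

namespace Pool.Agent.Lib.MP_4dc748_co.TE

private theorem allLe_of {f : ℕ → Bool} : ∀ {n : ℕ}, allLe f n = true → ∀ k ≤ n, f k = true
  | 0, h, k, hk => by
    rw [Nat.le_zero.1 hk]
    exact h
  | n + 1, h, k, hk => by
    have h' : (f (n + 1) && allLe f n) = true := h
    rw [Bool.and_eq_true] at h'
    rcases Nat.lt_or_ge n k with h1 | h1
    · rw [le_antisymm hk h1]
      exact h'.1
    · exact allLe_of h'.2 k h1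

/-- The function sall runs through all sublists. -/
theorem sall_sound (f : ℕ → Bool) (L : List ℕ) (c : ℕ) (h : sall f L c = true) (l : List ℕ) (hl : l.Sublist L) :
    f (c + (l.map (fun v => 8 ^ v)).sum) = true := by
  induction L generalizing c l with
  | nil =>
    rw [List.sublist_nil.1 hl]
    exact h
  | cons v L ih =>
    have h' : (sall f L c && sall f L (c + 8 ^ v)) = true := h
    rw [Bool.and_eq_true] at h'
    cases hl with
    | cons _ h1 => exact ih c h'.1 l h1
    | cons_cons _ h1 =>
      rw [List.map_cons, List.sum_cons, ← add_assoc]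
      exact ih _ h'.2 _ h1

/-- Soundness of stripsOK: t is the multiset of a strip, s a part of it. -/
theorem strips_sound (c : Ctx) (h : stripsOK c = true) (s t : Multiset ℕ) (ht : t.card = 5)
    (hu : ∀ v ∈ t, v ≤ c.um) (hsb : bt c.SB (rkM t) = true) (hw : t.sum ≤ c.mw) (hs : s ≤ t) :
    partOK c t.sum (rkM t) (code s) = true := by
  have hlen : (t.sort (· ≥ ·)).length = 5 := by rw [Multiset.length_sort, ht]
  have hsrt : (t.sort (· ≥ ·)).Pairwise (· ≥ ·) := Multiset.pairwise_sort t (· ≥ ·)
  have hmk : ((t.sort (· ≥ ·) : List ℕ) : Multiset ℕ) = t := Multiset.sort_eq t (· ≥ ·)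
  unfold rkM at hsb ⊢
  generalize t.sort (· ≥ ·) = L at *
  match L, hlen with
  | [u0, u1, u2, u3, u4], _ =>
    subst hmk
    simp only [List.getD_cons_zero, List.getD_cons_succ] at hsb ⊢
    have hsum : ((([u0, u1, u2, u3, u4] : List ℕ) : Multiset ℕ)).sum = u0 + u1 + u2 + u3 + u4 := by
      rw [Multiset.sum_coe]
      simp only [List.sum_cons, List.sum_nil]
      omega
    rw [hsum] at hw ⊢
    simp only [List.pairwise_cons, List.mem_cons, List.not_mem_nil, or_false, forall_eq_or_imp,
      forall_eq] at hsrt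
    have h0 : u0 ≤ c.um := hu u0 (by simp)
    have k0 := allLe_of h u0 h0
    have k1 := allLe_of k0 u1 (by omega)
    have k2 := allLe_of k1 u2 (by omega)
    have k3 := allLe_of k2 u3 (by omega)
    have k4 := allLe_of k3 u4 (by omega)
    have hb : (bt c.SB (rk u0 u1 u2 u3 u4) && Nat.ble (u0 + u1 + u2 + u3 + u4) c.mw) = true := by
      rw [Bool.and_eq_true]
      exact ⟨hsb, Nat.ble_eq_true_of_le hw⟩
    simp only [hb, cond_true] at k4
    obtain ⟨s', rfl⟩ := Quot.exists_rep s
    obtain ⟨l, hl1, hl2⟩ := Multiset.coe_le.1 hs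
    have k5 := sall_sound _ _ _ k4 l hl2
    rw [zero_add] at k5
    have hc : code (Quot.mk _ s') = (l.map (fun v => 8 ^ v)).sum := by
      have e : (Quot.mk _ s' : Multiset ℕ) = (l : Multiset ℕ) := (Multiset.coe_eq_coe.2 hl1).symm
      rw [e]
      unfold code
      rw [Multiset.map_coe, Multiset.sum_coe]
    rw [hc]
    exact k5

end Pool.Agent.Lib.MP_4dc748_co.TE
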