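import Pool.Agent.Lib.MP_4dc748_co.TE.CtxXB
import Pool.Agent.Lib.MP_4dc748_co.TE.CtxLB
import Pool.Agent.Lib.MP_4dc748_co.TE.CtxP

/-!
# Weight functions: the consequences for the numbers of points
-/

set_option autoImplicit false

namespace Pool.Agent.Lib.MP_4dc748_co.TE

/-- What the weight functions of the context c say about the numbers u of points over the classes. -/
structure Bnd (c : Ctx) (u : Fin 21 → ℕ) : Prop where
  um : ∀ x, u x ≤ c.um
  mw : ∀ l, wl u l ≤ c.mw
  ws : ∀ x, ∑ k, wl u (PL x k) = 99 + 4 * u x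
  sb : ∀ l, bt c.SB (rkM (lm u l)) = true
  rb : ∀ l, ∀ s ≤ lm u l, c.RB.get (code s) % 32 ≤ wl u l ∧ wl u l ≤ c.RB.get (code s) / 32
  as : ∀ p ∈ c.pots, ∀ x, p.A.getD (u x) 0 ≤ p.As
  pt : ∀ p ∈ c.pots, ∀ s : Fin 21 → Multiset ℕ, (∀ l, s l ≤ lm u l) → ∀ b : Fin 21 → Bool,
    p.lam * 99 + ∑ l, f24 p.m (c.KB.get (code (s l) + 134217728 * (cond (b l) (wl u l) 31))) ≤
      ∑ x, p.A.getD (u x) 0

theorem lm_card (u : Fin 21 → ℕ) (l : Fin 21) : (lm u l).card = 5 := by
  simp [lm]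

theorem lm_sum (u : Fin 21 → ℕ) (l : Fin 21) : (lm u l).sum = wl u l := rfl

theorem sum_flags_nat (φ : Fin 21 → Fin 5 → ℕ) :
    ∑ x, ∑ k, φ x k = ∑ l, ∑ j, φ (LP l j) (KK l j) := by
  have h := sum_flags (fun x k => (φ x k : ℤ))
  exact_mod_cast h

theorem sum_u (A : CArc) : ∑ x, A.u x = 99 := A.total

theorem bnd (c : Ctx) (h : OKC c) (A : CArc) (hA : InC c A.u) : Bnd c A.u := by
  have hW : ∀ l, A.W l = wl A.u l := fun l => rfl
  have hmw : ∀ l, A.W l ≤ c.mw := fun l => by rw [hW]; exact hA.mw l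
  have hst : ∀ l, ∀ s ≤ lm A.u l, partOK c (wl A.u l) (rkM (lm A.u l)) (code s) = true := by
    intro l s hs
    have := strips_sound c h.strips s (lm A.u l) (lm_card _ _) ?_ (l_bound c h.walk h.xv A hA l).1 ?_ hs
    · rwa [lm_sum] at this
    · intro v hv
      obtain ⟨j, -, rfl⟩ := Multiset.mem_map.1 hv
      exact hA.um _
    · rw [lm_sum]; exact hA.mw l
  have hxb : ∀ p ∈ c.pots, ∀ x, (∑ k, pv p (A.I x k) (A.W (PL x k))) + p.lam * A.u x ≤ p.A.getD (A.u x) 0 ∧
      p.A.getD (A.u x) 0 ≤ p.As := fun p hp x =>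
    x_bound c p (List.all_eq_true.1 h.a p hp) A hA.um hmw x
  refine ⟨hA.um, hA.mw, W_sum A, fun l => (l_bound c h.walk h.xv A hA l).1, ?_, fun p hp x => (hxb p hp x).2, ?_⟩
  · intro l s hs
    have := hst l s hs
    simp only [partOK, Bool.and_eq_true] at this
    exact ⟨Nat.le_of_ble_eq_true this.1.1.1, Nat.le_of_ble_eq_true this.1.1.2⟩
  · intro p hp s hs b
    have h1 : ∀ l, f24 p.m (c.KB.get (code (s l) + 134217728 * (cond (b l) (wl A.u l) 31))) ≤
        ∑ j, pv p (A.I (LP l j) (KK l j)) (A.W l) := by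
      intro l
      refine le_trans ?_ ((l_bound c h.walk h.xv A hA l).2 p hp)
      have h2 := hst l (s l) (hs l)
      simp only [partOK, Bool.and_eq_true] at h2
      have h3 : ∀ a : ℕ, (cond (Nat.beq a 0) true (c.pots.all fun p => Nat.ble (f24 p.m a)
          (f24 p.M (rkM (lm A.u l))))) = true → f24 p.m a ≤ f24 p.M (rkM (lm A.u l)) := by
        intro a ha
        by_cases ha0 : a = 0
        · subst ha0
          have h0 := List.all_eq_true.1 h.m0 p hp
          rw [Nat.eq_of_beq_eq_true h0]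
          exact Nat.zero_le _
        · have : Nat.beq a 0 = false := by
            cases hb : Nat.beq a 0
            · rfl
            · exact absurd (Nat.eq_of_beq_eq_true hb) ha0
          rw [this] at ha
          exact Nat.le_of_ble_eq_true (List.all_eq_true.1 ha p hp)
      cases hb : b l
      · exact h3 _ h2.1.2
      · exact h3 _ h2.2
    calc p.lam * 99 + ∑ l, f24 p.m (c.KB.get (code (s l) + 134217728 * (cond (b l) (wl A.u l) 31)))
        ≤ p.lam * 99 + ∑ l, ∑ j, pv p (A.I (LP l j) (KK l j)) (A.W l) := by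
          exact Nat.add_le_add_left (Finset.sum_le_sum fun l _ => h1 l) _
      _ = p.lam * ∑ x, A.u x + ∑ x, ∑ k, pv p (A.I x k) (A.W (PL x k)) := by
          rw [sum_u, sum_flags_nat (fun x k => pv p (A.I x k) (A.W (PL x k)))]
          have e : ∀ l : Fin 21, ∑ j, pv p (A.I (LP l j) (KK l j)) (A.W l) =
              ∑ j, pv p (A.I (LP l j) (KK l j)) (A.W (PL (LP l j) (KK l j))) := fun l =>
            Finset.sum_congr rfl fun j _ => by rw [(PL_LP l j).1]
          rw [Finset.sum_congr rfl fun l _ => e l]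
      _ = ∑ x, ((∑ k, pv p (A.I x k) (A.W (PL x k))) + p.lam * A.u x) := by
          rw [Finset.sum_add_distrib, Finset.mul_sum, add_comm]
      _ ≤ ∑ x, p.A.getD (A.u x) 0 := Finset.sum_le_sum fun x _ => (hxb p hp x).1

end Pool.Agent.Lib.MP_4dc748_co.TE
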