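import Pool.Agent.Lib.MP_4dc748_co.TE.Ctx

/-!
# Weight functions: the meaning of the checks
-/

set_option autoImplicit false

namespace Pool.Agent.Lib.MP_4dc748_co.TE

/-- The numbers of points of the classes of an arc. -/
def CArc.u (A : CArc) (x : Fin 21) : ℕ := (A.K x).card

/-- The place (in the order ORD) of the vector of the class x in direction k. -/
def CArc.I (A : CArc) (x : Fin 21) (k : Fin 5) : ℕ := ORD.idxOf (A.V' x k)

/-- The multiset of the numbers of points of the classes on the line l. -/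
def lm (u : Fin 21 → ℕ) (l : Fin 21) : Multiset ℕ := Finset.univ.val.map (fun j : Fin 5 => u (LP l j))

/-- The number of points over the line l. -/
def wl (u : Fin 21 → ℕ) (l : Fin 21) : ℕ := ∑ j : Fin 5, u (LP l j)

/-- The rank of a multiset with 5 elements. -/
def rkM (s : Multiset ℕ) : ℕ :=
  rk ((s.sort (· ≥ ·)).getD 0 0) ((s.sort (· ≥ ·)).getD 1 0) ((s.sort (· ≥ ·)).getD 2 0)
    ((s.sort (· ≥ ·)).getD 3 0) ((s.sort (· ≥ ·)).getD 4 0)

/-- The code of a partial state. -/
def code (s : Multiset ℕ) : ℕ := (s.map (fun v => 8 ^ v)).sum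

/-- u belongs to the context c. -/
structure InC (c : Ctx) (u : Fin 21 → ℕ) : Prop where
  um : ∀ x, u x ≤ c.um
  mw : ∀ l, wl u l ≤ c.mw
  ex : ∀ l, rkM (lm u l) ≠ c.ex

/-- All checks of a context. -/
structure OKC (c : Ctx) : Prop where
  xv : xvOK c = true
  a : c.pots.all (aOK c) = true
  walk : walk (leafOK c) = true
  strips : stripsOK c = true
  m0 : m0OK c = true

end Pool.Agent.Lib.MP_4dc748_co.TE
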