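import Pool.Agent.Lib.MP_4dc748_co.TE.CtxX

/-!
# Weight functions: the strips
-/

set_option autoImplicit false

namespace Pool.Agent.Lib.MP_4dc748_co.TE

private theorem cl_allLe (f : ℕ → Bool) : ∀ n : ℕ, allLe f n = true → ∀ d ≤ n, f d = true
  | 0, h, d, hd => by
    obtain rfl : d = 0 := by omega
    exact h
  | n + 1, h, d, hd => by
    have h' : (f (n + 1) && allLe f n) = true := h
    rw [Bool.and_eq_true] at h'
    rcases Nat.lt_or_ge n d with h2 | h2
    · obtain rfl : d = n + 1 := by omega
      exact h'.1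
    · exact cl_allLe f n h'.2 d h2

private theorem cl_vec0 : vecOf (fun _ => 0) = 0 := by decide +kernel

private theorem cl_iv0 : iv 0 = 0 := rfl

/-- Classes may be replaced by empty classes. -/
private theorem cl_pad (V : Fin 5 → ℕ) (m : Fin 5 → Bool) (h : Cmp V) :
    Cmp (fun j => cond (m j) (V j) 0) := by
  obtain ⟨G, h1, h2, h3⟩ := h
  refine ⟨fun j t => cond (m j) (G j t) 0, fun j t => ?_, fun j => ?_, fun a b => ?_⟩
  · beta_reduce
    cases m j
    · exact Nat.zero_le _
    · exact h1 j t
  · beta_reduce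
    cases m j
    · exact cl_vec0
    · exact h2 j
  · refine le_trans (Finset.sum_le_sum fun j _ => ?_) (h3 a b)
    beta_reduce
    cases m j
    · exact Nat.zero_le _
    · exact le_rfl

private theorem cl_step {c : Bool} {a : Bool} (hc : c = true) (h : cond c a true = true) : a = true := by
  subst hc
  exact h

/-- Soundness of the walk: every compatible tuple of places in decreasing order satisfies f. The prefixes padded with 0
(iv 0 = 0 is the vector 0000) are compatible as well, so that all the tests of bits succeed (Cmp_bit). -/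
theorem walk_sound (f : ℕ → ℕ → ℕ → ℕ → ℕ → Bool) (h : walk f = true) (I : Fin 5 → ℕ) (hv : ∀ j, I j < 23)
    (h10 : I 1 ≤ I 0) (h21 : I 2 ≤ I 1) (h32 : I 3 ≤ I 2) (h43 : I 4 ≤ I 3)
    (hc : Cmp (fun j => iv (I j))) : f (I 0) (I 1) (I 2) (I 3) (I 4) = true := by
  have b : ∀ m : Fin 5 → Bool, (m 1 = true → m 0 = true) → (m 2 = true → m 1 = true) →
      (m 3 = true → m 2 = true) → (m 4 = true → m 3 = true) →
      cbit (cond (m 0) (I 0) 0) (cond (m 1) (I 1) 0) (cond (m 2) (I 2) 0) (cond (m 3) (I 3) 0)
        (cond (m 4) (I 4) 0) = true := by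
    intro m g1 g2 g3 g4
    have mono : ∀ (p q : Bool) (x y : ℕ), (q = true → p = true) → y ≤ x →
        cond q y 0 ≤ cond p x 0 := by
      intro p q x y hqp hyx
      cases q
      · exact Nat.zero_le _
      · rw [hqp rfl]
        exact hyx
    refine Cmp_bit (fun j => cond (m j) (I j) 0) (fun j => ?_) (mono _ _ _ _ g1 h10) (mono _ _ _ _ g2 h21)
      (mono _ _ _ _ g3 h32) (mono _ _ _ _ g4 h43) ?_
    · cases m j
      · exact Nat.succ_pos _
      · exact hv j
    · have e : (fun j => iv (cond (m j) (I j) 0)) = fun j => cond (m j) (iv (I j)) 0 := by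
        funext j
        cases m j
        · exact cl_iv0
        · rfl
      rw [e]
      exact cl_pad _ m hc
  have b1 : cbit (I 0) 0 0 0 0 = true :=
    b ![true, false, false, false, false] (fun _ => rfl) (fun h => h) (fun h => h) (fun h => h)
  have b2 : cbit (I 0) (I 1) 0 0 0 = true :=
    b ![true, true, false, false, false] (fun _ => rfl) (fun _ => rfl) (fun h => h) (fun h => h)
  have b3 : cbit (I 0) (I 1) (I 2) 0 0 = true :=
    b ![true, true, true, false, false] (fun _ => rfl) (fun _ => rfl) (fun _ => rfl) (fun h => h)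
  have b4 : cbit (I 0) (I 1) (I 2) (I 3) 0 = true :=
    b ![true, true, true, true, false] (fun _ => rfl) (fun _ => rfl) (fun _ => rfl) (fun _ => rfl)
  have b5 : cbit (I 0) (I 1) (I 2) (I 3) (I 4) = true :=
    b ![true, true, true, true, true] (fun _ => rfl) (fun _ => rfl) (fun _ => rfl) (fun _ => rfl)
  unfold walk at h
  have a0 := cl_step b1 (cl_allLe _ _ h (I 0) (Nat.le_of_lt_succ (hv 0)))
  have a1 := cl_step b2 (cl_allLe _ _ a0 (I 1) h10)
  have a2 := cl_step b3 (cl_allLe _ _ a1 (I 2) h21)
  have a3 := cl_step b4 (cl_allLe _ _ a2 (I 3) h32)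
  exact cl_step b5 (cl_allLe _ _ a3 (I 4) h43)

/-- The vectors of a strip of an arc are compatible (CArc.strip, G_le), in every order (Cmp_perm). -/
theorem cmp_strip (A : CArc) (l : Fin 21) (s : Equiv.Perm (Fin 5)) :
    Cmp (fun j => iv (A.I (LP l (s j)) (KK l (s j)))) := by
  refine Cmp_perm (fun j => iv (A.I (LP l j) (KK l j))) s
    ⟨A.G l, G_le A l, fun j => ?_, A.strip l⟩
  exact (V_eq A l j).trans (I_spec A (LP l j) (KK l j)).2.1.symm

end Pool.Agent.Lib.MP_4dc748_co.TE
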