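import Pool.Agent.Lib.MP_4dc748_co.TE.CtxD

/-!
# Weight functions: the classes
-/

set_option autoImplicit false

namespace Pool.Agent.Lib.MP_4dc748_co.TE

private theorem cx_TYI : TYI = TYL.map (fun t => (t.1, t.2.map ORD.idxOf)) := by
  decide +kernel

private theorem cx_TYL : ∀ t ∈ TYL, ∀ v ∈ t.2,
    ORD.idxOf v < 23 ∧ iv (ORD.idxOf v) = v ∧ iu (ORD.idxOf v) = t.1 ∧ v < 23 := by
  decide +kernel

private theorem cx_mx : ∀ a b c d : Fin 5, vid a.1 b.1 c.1 d.1 < 23 →
    im (ORD.idxOf (vid a.1 b.1 c.1 d.1)) = max (max a.1 b.1) (max c.1 d.1) := by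
  decide +kernel

private theorem cx_blt_false (a b : ℕ) : Nat.blt a b = false ↔ b ≤ a := by
  constructor
  · intro h
    by_contra h2
    have h3 : Nat.blt a b = true := Nat.ble_eq_true_of_le (by omega : a + 1 ≤ b)
    rw [h] at h3
    exact Bool.false_ne_true h3
  · intro h
    cases h2 : Nat.blt a b
    · rfl
    · exfalso
      have h3 : a + 1 ≤ b := Nat.le_of_ble_eq_true h2
      omega

private theorem cx_allLe (f : ℕ → Bool) : ∀ n : ℕ, allLe f n = true → ∀ d ≤ n, f d = true
  | 0, h, d, hd => by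
    obtain rfl : d = 0 := by omega
    exact h
  | n + 1, h, d, hd => by
    have h' : (f (n + 1) && allLe f n) = true := h
    rw [Bool.and_eq_true] at h'
    rcases Nat.lt_or_ge n d with h2 | h2
    · obtain rfl : d = n + 1 := by omega
      exact h'.1
    · exact cx_allLe f n h'.2 d h2

private theorem cx_V (A : CArc) (x : Fin 21) (k : Fin 5) :
    A.I x k < 23 ∧ iv (A.I x k) = A.V' x k ∧ iu (A.I x k) = A.u x ∧ A.V' x k < 23 := by
  obtain ⟨t, ht, h1, h2⟩ := type_of A x
  have hm : A.V' x k ∈ t.2 := by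
    have h3 : A.V' x k ∈ Finset.univ.val.map (A.V' x) :=
      Multiset.mem_map.2 ⟨k, Finset.mem_univ k, rfl⟩
    rw [h2] at h3
    exact Multiset.mem_coe.1 h3
  have h4 := cx_TYL t ht _ hm
  refine ⟨h4.1, h4.2.1, ?_, h4.2.2.2⟩
  rw [h1] at h4
  exact h4.2.2.1

/-- The five vectors of a class, by places, form one of the types of TYI (from type_of; TYI is TYL with the vectors
replaced by their places, check by decide). -/
theorem type_I (A : CArc) (x : Fin 21) : ∃ t ∈ TYI, t.1 = A.u x ∧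
    (Finset.univ.val.map (A.I x) : Multiset ℕ) = (t.2 : Multiset ℕ) := by
  obtain ⟨t, ht, h1, h2⟩ := type_of A x
  refine ⟨(t.1, t.2.map ORD.idxOf), ?_, h1, ?_⟩
  · rw [cx_TYI]
    exact List.mem_map.2 ⟨t, ht, rfl⟩
  · have h3 : (Finset.univ.val.map (A.I x) : Multiset ℕ) =
        (Finset.univ.val.map (A.V' x)).map ORD.idxOf := by
      rw [Multiset.map_map]
      rfl
    rw [h3, h2, Multiset.map_coe]

/-- The place is a place, and the vector has as many points as the class. -/
theorem I_spec (A : CArc) (x : Fin 21) (k : Fin 5) :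
    A.I x k < 23 ∧ iv (A.I x k) = A.V' x k ∧ iu (A.I x k) = A.u x :=
  ⟨(cx_V A x k).1, (cx_V A x k).2.1, (cx_V A x k).2.2.1⟩

/-- cap_mx in terms of places. -/
theorem cap_I (A : CArc) (x : Fin 21) (k : Fin 5) :
    4 * im (A.I x k) + A.W (PL x k) ≤ 28 + A.u x := by
  have h := cap_mx A (PL x k) (JJ x k)
  rw [mx_G, (LP_PL x k).1, (LP_PL x k).2] at h
  have h2 := (cx_V A x k).2.2.2
  have h3 : im (A.I x k) = mx (D (A.K x) k) :=
    cx_mx ⟨D (A.K x) k F4.o, Nat.lt_succ_of_le (D_le _ _ _)⟩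
      ⟨D (A.K x) k F4.i, Nat.lt_succ_of_le (D_le _ _ _)⟩
      ⟨D (A.K x) k F4.w, Nat.lt_succ_of_le (D_le _ _ _)⟩
      ⟨D (A.K x) k F4.z, Nat.lt_succ_of_le (D_le _ _ _)⟩ h2
  rw [h3]
  exact h

/-- The vector is one of the possible vectors: the number w of points of the strip is at most capw, and the sum of the
five w is 99 + 4 u, so w is at least capw - (scap - (99 + 4 u)). -/
theorem xv_flag (c : Ctx) (h : xvOK c = true) (A : CArc) (hu : ∀ x, A.u x ≤ c.um) (hw : ∀ l, A.W l ≤ c.mw)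
    (x : Fin 21) (k : Fin 5) : bt (c.XV.getD (A.W (PL x k)) 0) (A.I x k) = true := by
  obtain ⟨t, ht, h1, h2⟩ := type_I A x
  have hle : ∀ k' : Fin 5, A.W (PL x k') ≤ capw c (A.u x) (A.I x k') := by
    intro k'
    have h3 := cap_I A x k'
    exact le_min (hw _) (by omega)
  have hs : scap c t = ∑ k' : Fin 5, capw c (A.u x) (A.I x k') := by
    have h3 : (t.2.map (capw c t.1)).sum =
        ((t.2 : Multiset ℕ).map (capw c t.1)).sum := by
      rw [Multiset.map_coe, Multiset.sum_coe]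
    unfold scap
    rw [h3, ← h2, h1, Multiset.map_map]
    rfl
  have hsum : ∑ k', A.W (PL x k') = 99 + 4 * A.u x := W_sum A x
  have hd : ∑ k' : Fin 5, (capw c (A.u x) (A.I x k') - A.W (PL x k')) =
      scap c t - (99 + 4 * A.u x) := by
    rw [hs, ← hsum, Finset.sum_tsub_distrib _ (fun k' _ => hle k')]
  have hdk : capw c (A.u x) (A.I x k) - A.W (PL x k) ≤ scap c t - (99 + 4 * A.u x) := by
    rw [← hd]
    exact Finset.single_le_sum (f := fun k' => capw c (A.u x) (A.I x k') - A.W (PL x k'))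
      (fun _ _ => Nat.zero_le _) (Finset.mem_univ k)
  have hge : 99 + 4 * A.u x ≤ scap c t := by
    rw [hs, ← hsum]
    exact Finset.sum_le_sum fun k' _ => hle k'
  have hm : A.I x k ∈ t.2 := by
    have h3 : A.I x k ∈ Finset.univ.val.map (A.I x) :=
      Multiset.mem_map.2 ⟨k, Finset.mem_univ k, rfl⟩
    rw [h2] at h3
    exact Multiset.mem_coe.1 h3
  have h4 := List.all_eq_true.1 h t ht
  have hb1 : Nat.blt c.um t.1 = false := by
    rw [h1]
    have := hu x
    rw [cx_blt_false] 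
    exact this
  have hb2 : Nat.blt (scap c t) (99 + 4 * t.1) = false := by
    rw [h1, cx_blt_false]
    exact hge
  rw [hb1, hb2] at h4
  have h5 : (t.2.all fun i => allLe (fun d => cond (Nat.blt (capw c t.1 i) d) true
      (bt (c.XV.getD (capw c t.1 i - d) 0) i)) (scap c t - (99 + 4 * t.1))) = true := h4
  have h6 := List.all_eq_true.1 h5 _ hm
  rw [h1] at h6
  have h7 := cx_allLe _ _ h6 _ hdk
  have hb3 : Nat.blt (capw c (A.u x) (A.I x k)) (capw c (A.u x) (A.I x k) - A.W (PL x k)) = false := by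
    rw [cx_blt_false]
    omega
  simp only [hb3, cond_false] at h7
  have h8 : capw c (A.u x) (A.I x k) - (capw c (A.u x) (A.I x k) - A.W (PL x k)) =
      A.W (PL x k) := by
    have := hle k
    omega
  rw [h8] at h7
  exact h7

end Pool.Agent.Lib.MP_4dc748_co.TE
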