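import Pool.Agent.Lib.MP_4dc748_co.TE.CtxX

/-!
# Weight functions: the bound over a class
-/

set_option autoImplicit false

namespace Pool.Agent.Lib.MP_4dc748_co.TE

private theorem mxz_ge : ∀ (L R : List ℕ) (a : ℕ), a < L.length → a < R.length →
    L.getD a 0 + R.getD a 0 ≤ mxz L R := by
  intro L
  induction L with
  | nil => intro R a h; simp at h
  | cons b L ih =>
    intro R a h1 h2
    cases R with
    | nil => simp at h2
    | cons r R =>
      cases a with
      | zero =>
        simp only [mxz, List.getD_cons_zero]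
        exact le_max_left _ _
      | succ a =>
        simp only [mxz, List.getD_cons_succ]
        exact (ih R a (by simpa using h1) (by simpa using h2)).trans (le_max_right _ _)

private theorem cv_length (L : List ℕ) : ∀ (F R : List ℕ), (cv L F R).length = F.length := by
  intro F
  induction F with
  | nil => intro R; rfl
  | cons f F ih => intro R; simp only [cv, List.length_cons, ih]

private theorem cv_getD (L : List ℕ) : ∀ (F R : List ℕ) (s : ℕ), s < F.length →
    (cv L F R).getD s 0 = mxz L ((F.take (s + 1)).reverse ++ R) := by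
  intro F
  induction F with
  | nil => intro R s h; simp at h
  | cons f F ih =>
    intro R s h
    cases s with
    | zero => simp [cv]
    | succ s =>
      rw [cv, List.getD_cons_succ, ih _ _ (by simpa using h), List.take_succ_cons, List.reverse_cons,
        List.append_assoc]
      rfl

private theorem lst_getD (f : ℕ → ℕ) {n a : ℕ} (h : a ≤ n) : (lst f n).getD a 0 = f a := by
  unfold lst
  rw [List.getD_eq_getElem?_getD, List.getElem?_map, List.getElem?_range (by omega)]
  rfl

private theorem lst_length (f : ℕ → ℕ) (n : ℕ) : (lst f n).length = n + 1 := by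
  simp [lst]

private theorem cv_ge (L : List ℕ) (f : ℕ → ℕ) (D a d : ℕ) (ha : a < L.length) (hd : a + d ≤ D) :
    L.getD a 0 + f d ≤ (cv L (lst f D) []).getD (d + a) 0 := by
  rw [cv_getD _ _ _ _ (by rw [lst_length]; omega), List.append_nil]
  have hl : ((lst f D).take (d + a + 1)).reverse.length = d + a + 1 := by
    rw [List.length_reverse, List.length_take, lst_length]
    omega
  have h1 := mxz_ge L ((lst f D).take (d + a + 1)).reverse a ha (by rw [hl]; omega)
  have h2 : (((lst f D).take (d + a + 1)).reverse).getD a 0 = f d := by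
    rw [List.getD_eq_getElem?_getD, List.getElem?_reverse (by
      rw [List.length_take, lst_length]; omega), List.length_take, lst_length,
      List.getElem?_take_of_lt (by omega)]
    have h3 : min (d + a + 1) (D + 1) - 1 - a = d := by omega
    rw [h3, ← List.getD_eq_getElem?_getD, lst_getD f (by omega)]
  rw [h2] at h1
  exact h1

private theorem best_ge (c : Ctx) (p : Pot) (u D : ℕ) : ∀ L : List (ℕ × ℕ), (L.map Prod.snd).sum ≤ D →
    (L.map Prod.snd).sum < (best c p u D (L.map Prod.fst)).length ∧
    (L.map (fun q => pd c p u q.1 q.2)).sum ≤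
      (best c p u D (L.map Prod.fst)).getD (L.map Prod.snd).sum 0 := by
  intro L
  induction L with
  | nil => intro _; simp [best]
  | cons q L ih =>
    intro h
    simp only [List.map_cons, List.sum_cons] at h ⊢
    obtain ⟨h1, h2⟩ := ih (by omega)
    refine ⟨?_, ?_⟩
    · rw [best, cv_length, lst_length]
      omega
    · rw [best]
      have h3 := cv_ge (best c p u D (L.map Prod.fst)) (pd c p u q.1) D (L.map Prod.snd).sum q.2 h1
        (by omega)
      omega

private theorem exists_lift {α β : Type} (f : α → β) : ∀ (l : List β) (s : Multiset α),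
    s.map f = (l : Multiset β) → ∃ l' : List α, (l' : Multiset α) = s ∧ l'.map f = l := by
  intro l
  induction l with
  | nil =>
    intro s h
    have h0 : s = 0 := by simpa using h
    exact ⟨[], by rw [h0]; rfl, rfl⟩
  | cons b l ih =>
    intro s h
    have hb : b ∈ s.map f := by rw [h]; simp
    obtain ⟨a, ha, hab⟩ := Multiset.mem_map.1 hb
    obtain ⟨s', rfl⟩ := Multiset.exists_cons_of_mem ha
    rw [Multiset.map_cons, hab, ← Multiset.cons_coe, Multiset.cons_inj_right] at h
    obtain ⟨l', h1, h2⟩ := ih s' h
    exact ⟨a :: l', by rw [← Multiset.cons_coe, h1], by rw [List.map_cons, h2, hab]⟩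

private theorem sum_lift (l' : List (Fin 5)) (h : (l' : Multiset (Fin 5)) = Finset.univ.val)
    (g : Fin 5 → ℕ) : (l'.map g).sum = ∑ k, g k := by
  show _ = (Finset.univ.val.map g).sum
  rw [← h, Multiset.map_coe, Multiset.sum_coe]

/-- The bound for the sum over a class: put the five directions in the order of the list t.2 of the type; the slacks
d = capw - w have the sum scap - (99 + 4 u); induction over the list for best (a max-plus convolution). -/
theorem x_bound (c : Ctx) (p : Pot) (h : aOK c p = true) (A : CArc) (hu : ∀ x, A.u x ≤ c.um)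
    (hw : ∀ l, A.W l ≤ c.mw) (x : Fin 21) :
    (∑ k, pv p (A.I x k) (A.W (PL x k))) + p.lam * A.u x ≤ p.A.getD (A.u x) 0 ∧
      p.A.getD (A.u x) 0 ≤ p.As := by
  obtain ⟨t, ht, htu, htm⟩ := type_I A x
  obtain ⟨l', hl', hlt⟩ := exists_lift (A.I x) t.2 Finset.univ.val htm
  have hcap : ∀ k : Fin 5, A.W (PL x k) ≤ capw c (A.u x) (A.I x k) := by
    intro k
    have h1 := cap_I A x k
    have h2 := hw (PL x k)
    unfold capw
    omega
  have hsc : scap c t = ∑ k, capw c (A.u x) (A.I x k) := by
    unfold scap
    rw [← hlt, htu, List.map_map, ← sum_lift l' hl']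
    rfl
  have hws : ∑ k, A.W (PL x k) = 99 + 4 * A.u x := W_sum A x
  have hge : 99 + 4 * t.1 ≤ scap c t := by
    rw [hsc, htu, ← hws]
    exact Finset.sum_le_sum fun k _ => hcap k
  have hd : ∑ k, (capw c (A.u x) (A.I x k) - A.W (PL x k)) = scap c t - (99 + 4 * t.1) := by
    have h1 : ∑ k, (capw c (A.u x) (A.I x k) - A.W (PL x k)) + ∑ k, A.W (PL x k) = scap c t := by
      rw [← Finset.sum_add_distrib, hsc]
      exact Finset.sum_congr rfl fun k _ => Nat.sub_add_cancel (hcap k)
    rw [hws] at h1
    rw [htu]
    omega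
  -- the check
  have h0 := List.all_eq_true.1 h t ht
  have hum : Nat.blt c.um t.1 = false := by
    rw [← Bool.not_eq_true, Nat.blt_eq, htu]
    exact Nat.not_lt.2 (hu x)
  have hsb : Nat.blt (scap c t) (99 + 4 * t.1) = false := by
    rw [← Bool.not_eq_true, Nat.blt_eq]
    exact Nat.not_lt.2 hge
  rw [hum, hsb] at h0
  simp only [Bool.or_self, cond_false, Bool.and_eq_true, Nat.ble_eq] at h0
  obtain ⟨h3, h4⟩ := h0
  rw [htu] at h4
  refine ⟨?_, h4⟩
  -- the list of the directions with their slacks
  have h5 := best_ge c p t.1 (scap c t - (99 + 4 * t.1))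
    (l'.map fun k => (A.I x k, capw c (A.u x) (A.I x k) - A.W (PL x k)))
  simp only [List.map_map] at h5
  have h6 : (l'.map (Prod.snd ∘ fun k => (A.I x k, capw c (A.u x) (A.I x k) - A.W (PL x k)))).sum
      = scap c t - (99 + 4 * t.1) := by
    rw [← hd, ← sum_lift l' hl']
    rfl
  have h7 : l'.map (Prod.fst ∘ fun k => (A.I x k, capw c (A.u x) (A.I x k) - A.W (PL x k))) = t.2 := by
    rw [← hlt]
    rfl
  have h8 : (l'.map ((fun q : ℕ × ℕ => pd c p t.1 q.1 q.2) ∘
      fun k => (A.I x k, capw c (A.u x) (A.I x k) - A.W (PL x k)))).sum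
      = ∑ k, pv p (A.I x k) (A.W (PL x k)) := by
    rw [← sum_lift l' hl']
    congr 1
    refine List.map_congr_left fun k _ => ?_
    have h9 := hcap k
    show pd c p t.1 (A.I x k) (capw c (A.u x) (A.I x k) - A.W (PL x k)) = _
    unfold pd
    rw [htu]
    have h10 : Nat.blt (capw c (A.u x) (A.I x k)) (capw c (A.u x) (A.I x k) - A.W (PL x k)) = false := by
      rw [← Bool.not_eq_true, Nat.blt_eq]
      omega
    rw [h10, cond_false, Nat.sub_sub_self h9]
  rw [h6, h7, h8] at h5
  have h11 := (h5 le_rfl).2
  rw [htu] at h3 h11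
  omega

end Pool.Agent.Lib.MP_4dc748_co.TE
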