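import Mathlib

/-!
# The field with four elements, as an inductive type
-/

set_option autoImplicit false

namespace Pool.Agent.Lib.MP_4dc748_co.TE

/-- The field with four elements 0, 1, w, z = w^2 = w + 1. -/
inductive F4
  | o
  | i
  | w
  | z
  deriving DecidableEq, Fintype

namespace F4

/-- Addition. -/
def add : F4 → F4 → F4
  | o, y => y
  | i, o => i
  | i, i => o
  | i, w => z
  | i, z => w
  | w, o => w
  | w, i => z
  | w, w => o
  | w, z => i
  | z, o => z
  | z, i => w
  | z, w => i
  | z, z => o

/-- Multiplication. -/
def mul : F4 → F4 → F4
  | o, _ => o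
  | i, y => y
  | w, o => o
  | w, i => w
  | w, w => z
  | w, z => i
  | z, o => o
  | z, i => z
  | z, w => i
  | z, z => w

/-- Inverse. -/
def inv : F4 → F4
  | o => o
  | i => i
  | w => z
  | z => w

instance : Add F4 := ⟨add⟩
instance : Mul F4 := ⟨mul⟩
instance : Zero F4 := ⟨o⟩
instance : One F4 := ⟨i⟩
instance : Neg F4 := ⟨id⟩
instance : Inv F4 := ⟨inv⟩

instance : Field F4 where
  add := (· + ·)
  mul := (· * ·)
  zero := 0
  one := 1
  neg := Neg.neg
  inv := Inv.inv
  add_assoc := by decide
  zero_add := by decide
  add_zero := by decide
  add_comm := by decide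
  mul_assoc := by decide
  one_mul := by decide
  mul_one := by decide
  left_distrib := by decide
  right_distrib := by decide
  zero_mul := by decide
  mul_zero := by decide
  mul_comm := by decide
  neg_add_cancel := by decide
  exists_pair_ne := ⟨o, i, by decide⟩
  mul_inv_cancel := by decide
  inv_zero := by decide
  nsmul := nsmulRec
  zsmul := zsmulRec
  nnqsmul := _
  qsmul := _

/-- The Frobenius map. -/
def fr : F4 → F4
  | o => o
  | i => i
  | w => z
  | z => w

/-- The Frobenius automorphism. -/
def frob : F4 ≃+* F4 where
  toFun := fr
  invFun := fr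
  left_inv := by intro x; cases x <;> rfl
  right_inv := by intro x; cases x <;> rfl
  map_mul' := by decide
  map_add' := by decide

theorem card_F4 : Fintype.card F4 = 4 := rfl

theorem natCard_F4 : Nat.card F4 = 4 := by rw [Nat.card_eq_fintype_card, card_F4]

instance : CharP F4 2 where
  cast_eq_zero_iff := by
    have h2 : (2 : F4) = 0 := by
      have : (2 : F4) = 1 + 1 := by norm_num
      rw [this]; decide
    intro n
    constructor
    · intro h
      by_contra hn
      have h1 : n % 2 = 1 := by omega
      have h3 : (n : F4) = ((2 * (n / 2) + n % 2 : ℕ) : F4) := by rw [Nat.div_add_mod]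
      rw [h1] at h3
      push_cast at h3
      rw [h2, zero_mul, zero_add, h] at h3
      exact absurd h3 (by decide)
    · rintro ⟨k, rfl⟩
      push_cast
      rw [h2, zero_mul]

/-- The only automorphisms are the identity and the Frobenius automorphism. -/
theorem aut_eq (s : F4 ≃+* F4) : s = RingEquiv.refl F4 ∨ s = frob := by
  have h0 : s o = o := map_zero s
  have h1 : s i = i := map_one s
  have hinj := s.injective
  rcases hw : s w with _ | _ | _ | _
  · exact absurd (hinj (hw.trans h0.symm)) (by decide)
  · exact absurd (hinj (hw.trans h1.symm)) (by decide)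
  · left
    have hz : s z = z := by
      have : (z : F4) = w * w := by decide
      rw [this, map_mul, hw]
    ext x
    cases x
    · exact h0
    · exact h1
    · exact hw
    · exact hz
  · right
    have hz : s z = w := by
      have : (z : F4) = w * w := by decide
      rw [this, map_mul, hw]
      decide
    ext x
    cases x
    · exact h0
    · exact h1
    · exact hw
    · exact hz

end F4

end Pool.Agent.Lib.MP_4dc748_co.TE
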