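import Pool.Agent.Lib.MP_4dc748_co.TE.TreeR
import Pool.Agent.Lib.MP_4dc748_co.TE.TreeTD
import Pool.Agent.Lib.MP_4dc748_co.TE.D6
import Pool.Agent.Lib.MP_4dc748_co.TE.D6b
import Pool.Agent.Lib.MP_4dc748_co.TE.D6c
import Pool.Agent.Lib.MP_4dc748_co.TE.D7
import Pool.Agent.Lib.MP_4dc748_co.TE.D8

/-!
# The reduction of all cases to the roots of the certificates
-/

set_option autoImplicit false
set_option maxRecDepth 100000

namespace Pool.Agent.Lib.MP_4dc748_co.TE

theorem trOK : (trL.all fun L => L.all gOK) = true := by decide +kernel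

/-- The list trL is transitive on the pairs of points (images of 1 and 5). -/
def trChk : Bool :=
  allLe (fun x => allLe (fun y => Nat.beq x y ||
    (trL.getD x []).any fun g => Nat.beq (gp g 1) x && Nat.beq (gp g 5) y) 20) 20

theorem trChk_true : trChk = true := by decide +kernel

theorem trans2 (x y : Fin 21) (hxy : x ≠ y) : ∃ g, GV g ∧ gpF g 1 = x ∧ gpF g 5 = y := by
  have h := trChk_true
  simp only [trChk, allLe_iff] at h
  have h1 := h x.1 (by omega) y.1 (by omega)
  rw [Bool.or_eq_true] at h1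
  rcases h1 with h1 | h1
  · exact absurd (Fin.ext (Nat.eq_of_beq_eq_true h1)) hxy
  · obtain ⟨g, hg, h2⟩ := List.any_eq_true.1 h1
    rw [Bool.and_eq_true] at h2
    have hx : x.1 < trL.length := x.2
    have hL : trL.getD x.1 [] ∈ trL := by
      rw [List.getD_eq_getElem _ _ hx]
      exact List.getElem_mem hx
    have hgv := gOK_sound g (List.all_eq_true.1 (List.all_eq_true.1 trOK _ hL) g hg)
    refine ⟨g, hgv, Fin.ext ?_, Fin.ext ?_⟩
    · rw [← hgv.pv]; exact Nat.eq_of_beq_eq_true h2.1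
    · rw [← hgv.pv]; exact Nat.eq_of_beq_eq_true h2.2

/-- A check for all decreasing tuples. -/
def tupChk (um : ℕ) (f : ℕ → ℕ → ℕ → ℕ → ℕ → Bool) : Bool :=
  allLe (fun u0 => allLe (fun u1 => allLe (fun u2 => allLe (fun u3 => allLe (fun u4 =>
    f u0 u1 u2 u3 u4) u3) u2) u1) u0) um

theorem tup_sound (um : ℕ) (f : ℕ → ℕ → ℕ → ℕ → ℕ → Bool) (h : tupChk um f = true) (t : Multiset ℕ)
    (ht : t.card = 5) (hu : ∀ v ∈ t, v ≤ um) : ∃ u0 u1 u2 u3 u4, t = {u0, u1, u2, u3, u4} ∧
      rkM t = rk u0 u1 u2 u3 u4 ∧ f u0 u1 u2 u3 u4 = true := by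
  have hlen : (t.sort (· ≥ ·)).length = 5 := by rw [Multiset.length_sort, ht]
  have hsrt : (t.sort (· ≥ ·)).Pairwise (· ≥ ·) := Multiset.pairwise_sort t (· ≥ ·)
  have hmk : ((t.sort (· ≥ ·) : List ℕ) : Multiset ℕ) = t := Multiset.sort_eq t (· ≥ ·)
  unfold rkM
  generalize t.sort (· ≥ ·) = L at *
  match L, hlen with
  | [u0, u1, u2, u3, u4], _ =>
    subst hmk
    simp only [List.getD_cons_zero, List.getD_cons_succ]
    simp only [List.pairwise_cons, List.mem_cons, List.not_mem_nil, or_false, forall_eq_or_imp,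
      forall_eq] at hsrt
    have h0 : u0 ≤ um := hu u0 (by simp)
    simp only [tupChk, allLe_iff] at h
    exact ⟨u0, u1, u2, u3, u4, rfl, rfl,
      h u0 h0 u1 (by omega) u2 (by omega) u3 (by omega) u4 (by omega)⟩

/-- The classes of an arc have at most 8 points and the strips at most 28. -/
theorem US_le (u : Fin 21 → ℕ) (hu : US u) : (∀ x, u x ≤ 8) ∧ ∀ l, wl u l ≤ 28 := by
  obtain ⟨A, hA⟩ := exists_CArc u hu
  have : A.u = u := funext hA
  subst this
  constructor
  · intro x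
    obtain ⟨t, ht, h1, -⟩ := type_of A x
    have h2 : ∀ t ∈ TYL, t.1 ≤ 8 := by decide
    have h3 := h2 t ht
    rw [h1] at h3
    exact h3
  · intro l
    have h1 := cap_mx A l 0
    have h2 := G_sum A l 0
    have h3 : A.G l 0 F4.o + A.G l 0 F4.i + A.G l 0 F4.w + A.G l 0 F4.z ≤ 4 * mx (A.G l 0) := by
      unfold mx; omega
    have h4 : wl A.u l = A.W l := rfl
    omega

theorem rk_lt : tupChk 8 (fun a b c d e => Nat.blt (rk a b c d e) 9999) = true := by decide +kernel

theorem rkM_lt (u : Fin 21 → ℕ) (hu : ∀ x, u x ≤ 8) (l : Fin 21) : rkM (lm u l) < 9999 := by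
  obtain ⟨a, b, c, d, e, -, h1, h2⟩ := tup_sound 8 _ rk_lt (lm u l) (lm_card u l) (by
    intro v hv
    obtain ⟨j, -, rfl⟩ := Multiset.mem_map.1 hv
    exact hu _)
  rw [h1]
  exact Nat.le_of_ble_eq_true h2

theorem sb8 : tupChk 7 (fun a b c d e => cond (bt D8.sb (rk a b c d e)) (Nat.ble (a + b + c + d + e) 27) true) =
    true := by decide +kernel

theorem sb7 : tupChk 6 (fun a b c d e => cond (bt D7.sb (rk a b c d e)) (Nat.ble (a + b + c + d + e) 26) true) =
    true := by decide +kernel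

theorem sb6 : tupChk 6 (fun a b c d e => cond (bt D6.sb (rk a b c d e)) (Nat.ble (a + b + c + d + e) 25 ||
    (Nat.beq a 6 && Nat.beq b 6 && Nat.beq c 6 && Nat.beq d 6 && Nat.beq e 2) ||
    (Nat.beq a 6 && Nat.beq b 6 && Nat.beq c 6 && Nat.beq d 4 && Nat.beq e 4)) true) = true := by decide +kernel

theorem ex6 : tupChk 6 (fun a b c d e => cond (Nat.beq (rk a b c d e) 457)
    (Nat.beq a 6 && Nat.beq b 6 && Nat.beq c 6 && Nat.beq d 6 && Nat.beq e 2) true) = true := by decide +kernel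

end Pool.Agent.Lib.MP_4dc748_co.TE
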