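import Pool.Agent.Lib.MP_4dc748_co.TE.FinA

/-!
# The reduction of all cases to the roots of the certificates (2)
-/

set_option autoImplicit false
set_option maxRecDepth 100000

namespace Pool.Agent.Lib.MP_4dc748_co.TE

theorem single (c : Ctx) (s v : ℕ) (hs1 : ∀ y : Fin 21, fU s y.1 = if y = 1 then v + 1 else 0)
    (hs2 : ∀ l : Fin 21, fW s l.1 = 0) (hcl : Cl c s) (u : Fin 21 → ℕ) (hu : UC c u) (x : Fin 21) (hx : u x = v) :
    False := by
  obtain ⟨y, hy⟩ : ∃ y : Fin 21, x ≠ y := exists_ne x |>.imp fun y h => h.symm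
  obtain ⟨g, hg, h1, -⟩ := trans2 x y hy
  refine hcl _ (UC_comp c u g hg hu) ⟨fun z => ?_, fun l => Or.inl (hs2 l)⟩
  rw [hs1]
  split
  · next h =>
    right
    subst h
    change v + 1 = u (gpF g 1) + 1
    rw [h1, hx]
  · exact Or.inl rfl

theorem cnt (f : Fin 5 → ℕ) (v : ℕ) :
    (Finset.univ.filter (fun j => f j = v)).card = (Finset.univ.val.map f).count v := by
  rw [Multiset.count_map]
  simp only [eq_comm]
  rfl

theorem line_unique : ∀ l l' : Fin 21, ∀ j0 j1 : Fin 5, j0 ≠ j1 → (∃ i0, LP l' i0 = LP l j0) →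
    (∃ i1, LP l' i1 = LP l j1) → l' = l := by
  decide +kernel

theorem mem_line (g : ℕ) (hg : GV g) (l : Fin 21) (j : Fin 5) (y : Fin 21) (i : Fin 5) (hy : LP 0 i = y)
    (h : gpF g y = LP l j) : ∃ i0, LP (glF g 0) i0 = LP l j := by
  have h1 := hg.ln (fun z => if z = LP l j then 1 else 0) 0
  have h2 : 1 ∈ lm (fun x => if gpF g x = LP l j then 1 else 0) 0 := by
    refine Multiset.mem_map.2 ⟨i, by simp, ?_⟩
    simp only [hy, if_pos h]
  rw [h1] at h2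
  obtain ⟨i0, -, h3⟩ := Multiset.mem_map.1 h2
  refine ⟨i0, ?_⟩
  by_contra h4
  simp only [if_neg h4] at h3
  exact absurd h3 (by decide)

theorem line0 (g : ℕ) (hg : GV g) (l : Fin 21) (j0 j1 : Fin 5) (h01 : j0 ≠ j1) (h1 : gpF g 1 = LP l j0)
    (h5 : gpF g 5 = LP l j1) : glF g 0 = l :=
  line_unique l (glF g 0) j0 j1 h01 (mem_line g hg l j0 1 0 rfl h1) (mem_line g hg l j1 5 1 rfl h5)

theorem five_one (f : Fin 5 → ℕ) (h : Finset.univ.val.map f = ({6, 6, 6, 6, 2} : Multiset ℕ)) :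
    ∃ j0, ∀ j, (f j = 2 ↔ j = j0) ∧ (j ≠ j0 → f j = 6) := by
  have h1 : (Finset.univ.filter (fun j => f j = 2)).card = 1 := by rw [cnt, h]; decide
  obtain ⟨j0, hj0⟩ := Finset.card_eq_one.1 h1
  have h2 : ∀ j, f j = 2 ↔ j = j0 := by
    intro j
    have : j ∈ Finset.univ.filter (fun j => f j = 2) ↔ j ∈ ({j0} : Finset (Fin 5)) := by rw [hj0]
    simpa using this
  refine ⟨j0, fun j => ⟨h2 j, fun hj => ?_⟩⟩
  have h3 : f j ∈ ({6, 6, 6, 6, 2} : Multiset ℕ) := h ▸ Multiset.mem_map_of_mem f (Finset.mem_univ j)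
  simp only [Multiset.insert_eq_cons, Multiset.mem_cons, Multiset.mem_singleton] at h3
  have h4 := mt (h2 j).1 hj
  omega

theorem five_two (f : Fin 5 → ℕ) (h : Finset.univ.val.map f = ({6, 6, 6, 4, 4} : Multiset ℕ)) :
    ∃ j0 j1, j0 ≠ j1 ∧ ∀ j, (f j = 4 ↔ j = j0 ∨ j = j1) ∧ (f j ≠ 4 → f j = 6) := by
  have h1 : (Finset.univ.filter (fun j => f j = 4)).card = 2 := by rw [cnt, h]; decide
  obtain ⟨j0, j1, h01, hj⟩ := Finset.card_eq_two.1 h1
  have h2 : ∀ j, f j = 4 ↔ j = j0 ∨ j = j1 := by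
    intro j
    have : j ∈ Finset.univ.filter (fun j => f j = 4) ↔ j ∈ ({j0, j1} : Finset (Fin 5)) := by rw [hj]
    simpa using this
  refine ⟨j0, j1, h01, fun j => ⟨h2 j, fun hj => ?_⟩⟩
  have h3 : f j ∈ ({6, 6, 6, 4, 4} : Multiset ℕ) := h ▸ Multiset.mem_map_of_mem f (Finset.mem_univ j)
  simp only [Multiset.insert_eq_cons, Multiset.mem_cons, Multiset.mem_singleton] at h3
  omega

theorem case6 (r6 : Cl D6.ctx 0x700007000070700030) (u : Fin 21 → ℕ) (hu : UC D6.ctx u) (l : Fin 21)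
    (hl : lm u l = {6, 6, 6, 6, 2}) : False := by
  obtain ⟨j0, hj⟩ := five_one (fun j => u (LP l j)) hl
  obtain ⟨j1, hj1⟩ : ∃ j1 : Fin 5, j0 ≠ j1 := exists_ne j0 |>.imp fun y h => h.symm
  have hne : LP l j0 ≠ LP l j1 := by
    intro he
    have h1 := (hj j0).1.2 rfl
    have h2 := (hj j1).2 hj1.symm
    simp only [he] at h1
    omega
  obtain ⟨g, hg, h1, h5⟩ := trans2 _ _ hne
  have h0 := line0 g hg l j0 j1 hj1 h1 h5
  have hv : lm (fun x => u (gpF g x)) 0 = {6, 6, 6, 6, 2} := by rw [hg.ln, h0, hl]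
  obtain ⟨k0, hk⟩ := five_one (fun j => u (gpF g (LP 0 j))) hv
  have hk0 : (0 : Fin 5) = k0 := by
    refine (hk 0).1.1 ?_
    change u (gpF g 1) = 2
    rw [h1]
    exact (hj j0).1.2 rfl
  subst hk0
  refine r6 _ (UC_comp _ u g hg hu) ⟨fun z => ?_, ?_⟩
  · have hs : ∀ y : Fin 21, fU 0x700007000070700030 y.1 = 0 ∨ (y = LP 0 0 ∧ fU 0x700007000070700030 y.1 = 3) ∨
        ∃ j : Fin 5, j ≠ 0 ∧ y = LP 0 j ∧ fU 0x700007000070700030 y.1 = 7 := by decide +kernel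
    rcases hs z with h | ⟨h, h'⟩ | ⟨j, hj0, h, h'⟩
    · exact Or.inl h
    · right
      rw [h', h]
      have := (hk 0).1.2 rfl
      simp only at this ⊢
      omega
    · right
      rw [h', h]
      have := (hk j).2 hj0
      simp only at this ⊢
      omega
  · have hs : ∀ l : Fin 21, fW 0x700007000070700030 l.1 = 0 := by decide +kernel
    exact fun l => Or.inl (hs l)

theorem case6b (r6 : Cl D6b.ctx 0x700007000070500050) (u : Fin 21 → ℕ) (hu : UC D6b.ctx u) (l : Fin 21)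
    (hl : lm u l = {6, 6, 6, 4, 4}) : False := by
  obtain ⟨j0, j1, hj01, hj⟩ := five_two (fun j => u (LP l j)) hl
  have hne : LP l j0 ≠ LP l j1 := by
    have : ∀ l : Fin 21, ∀ j0 j1 : Fin 5, j0 ≠ j1 → LP l j0 ≠ LP l j1 := by decide +kernel
    exact this l j0 j1 hj01
  obtain ⟨g, hg, h1, h5⟩ := trans2 _ _ hne
  have h0 := line0 g hg l j0 j1 hj01 h1 h5
  have hv : lm (fun x => u (gpF g x)) 0 = {6, 6, 6, 4, 4} := by rw [hg.ln, h0, hl]
  obtain ⟨k0, k1, hk01, hk⟩ := five_two (fun j => u (gpF g (LP 0 j))) hv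
  have e0 : u (gpF g (LP 0 0)) = 4 := by
    change u (gpF g 1) = 4
    rw [h1]
    exact (hj j0).1.2 (Or.inl rfl)
  have e1 : u (gpF g (LP 0 1)) = 4 := by
    change u (gpF g 5) = 4
    rw [h5]
    exact (hj j1).1.2 (Or.inr rfl)
  have e2 : ∀ j : Fin 5, j ≠ 0 → j ≠ 1 → u (gpF g (LP 0 j)) = 6 := by
    intro j ha hb
    refine (hk j).2 fun h4 => ?_
    have a0 := (hk 0).1.1 e0
    have a1 := (hk 1).1.1 e1
    have a2 := (hk j).1.1 h4
    have h01 : (0 : Fin 5) ≠ 1 := by decide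
    rcases a0 with a0 | a0 <;> rcases a1 with a1 | a1 <;> rcases a2 with a2 | a2 <;>
      first
      | exact h01 (a0.trans a1.symm)
      | exact ha (a2.trans a0.symm)
      | exact hb (a2.trans a1.symm)
  refine r6 _ (UC_comp _ u g hg hu) ⟨fun z => ?_, ?_⟩
  · have hs : ∀ y : Fin 21, fU 0x700007000070500050 y.1 = 0 ∨
        ((y = LP 0 0 ∨ y = LP 0 1) ∧ fU 0x700007000070500050 y.1 = 5) ∨
        ∃ j : Fin 5, j ≠ 0 ∧ j ≠ 1 ∧ y = LP 0 j ∧ fU 0x700007000070500050 y.1 = 7 := by decide +kernel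
    rcases hs z with h | ⟨h | h, h'⟩ | ⟨j, hj0, hj1, h, h'⟩
    · exact Or.inl h
    · right; rw [h', h]; simp only at e0 ⊢; omega
    · right; rw [h', h]; simp only at e1 ⊢; omega
    · right; rw [h', h]; have := e2 j hj0 hj1; simp only at this ⊢; omega
  · have hs : ∀ l : Fin 21, fW 0x700007000070500050 l.1 = 0 := by decide +kernel
    exact fun l => Or.inl (hs l)

theorem mem_lm (u : Fin 21 → ℕ) (m : ℕ) (hu : ∀ x, u x ≤ m) (l : Fin 21) : ∀ v ∈ lm u l, v ≤ m := by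
  intro v hv
  obtain ⟨j, -, rfl⟩ := Multiset.mem_map.1 hv
  exact hu _

theorem sum_five (a b c d e : ℕ) : ({a, b, c, d, e} : Multiset ℕ).sum = a + b + c + d + e := by
  simp only [Multiset.insert_eq_cons, Multiset.sum_cons, Multiset.sum_singleton]
  omega

theorem beq5 (a b : ℕ) : (Nat.beq a b = true) = (a = b) :=
  propext ⟨Nat.eq_of_beq_eq_true, fun h => by rw [h]; exact Nat.beq_refl b⟩

/-- No family of 99 points, given the roots of the certificates. -/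
theorem noUS_aux (o8 : OKC D8.ctx) (o7 : OKC D7.ctx) (o6 : OKC D6.ctx) (r8 : Cl D8.ctx 0x90)
    (r7 : Cl D7.ctx 0x80) (r6 : Cl D6.ctx 0x700007000070700030) (r6b : Cl D6b.ctx 0x700007000070500050)
    (r6c : Cl D6c.ctx 0x0) (u : Fin 21 → ℕ) (hu : US u) : False := by
  obtain ⟨h8, h28⟩ := US_le u hu
  have hrk := rkM_lt u h8
  have c8 : UC D8.ctx u := ⟨hu, h8, h28, fun l => (hrk l).ne⟩
  have b8 := bndU _ o8 u c8
  have h7 : ∀ x, u x ≤ 7 := by
    intro x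
    by_contra hx
    have hx8 : u x = 8 := by have := h8 x; omega
    exact single D8.ctx 0x90 8 (by decide +kernel) (by decide +kernel) r8 u c8 x hx8
  have w27 : ∀ l, wl u l ≤ 27 := by
    intro l
    obtain ⟨a, b, c, d, e, ht, hr, hf⟩ := tup_sound 7 _ sb8 (lm u l) (lm_card u l) (mem_lm u 7 h7 l)
    have hb : bt D8.sb (rk a b c d e) = true := by rw [← hr]; exact b8.sb l
    rw [hb] at hf
    rw [← lm_sum, ht, sum_five]
    exact Nat.le_of_ble_eq_true hf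
  have c7 : UC D7.ctx u := ⟨hu, h7, w27, fun l => (hrk l).ne⟩
  have b7 := bndU _ o7 u c7
  have h6 : ∀ x, u x ≤ 6 := by
    intro x
    by_contra hx
    have hx7 : u x = 7 := by have := h7 x; omega
    exact single D7.ctx 0x80 7 (by decide +kernel) (by decide +kernel) r7 u c7 x hx7
  have w26 : ∀ l, wl u l ≤ 26 := by
    intro l
    obtain ⟨a, b, c, d, e, ht, hr, hf⟩ := tup_sound 6 _ sb7 (lm u l) (lm_card u l) (mem_lm u 6 h6 l)
    have hb : bt D7.sb (rk a b c d e) = true := by rw [← hr]; exact b7.sb l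
    rw [hb] at hf
    rw [← lm_sum, ht, sum_five]
    exact Nat.le_of_ble_eq_true hf
  have c6 : UC D6.ctx u := ⟨hu, h6, w26, fun l => (hrk l).ne⟩
  have b6 := bndU _ o6 u c6
  have n6 : ∀ l, lm u l ≠ {6, 6, 6, 6, 2} := fun l hl => case6 r6 u c6 l hl
  have c6b : UC D6b.ctx u := by
    refine ⟨hu, h6, w26, fun l hl => ?_⟩
    obtain ⟨a, b, c, d, e, ht, hr, hf⟩ := tup_sound 6 _ ex6 (lm u l) (lm_card u l) (mem_lm u 6 h6 l)
    have hb : Nat.beq (rk a b c d e) 457 = true := by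
      rw [← hr, hl]
      rfl
    rw [hb] at hf
    simp only [cond_true, Bool.and_eq_true, beq5] at hf
    obtain ⟨⟨⟨⟨rfl, rfl⟩, rfl⟩, rfl⟩, rfl⟩ := hf
    exact n6 l ht
  have n6b : ∀ l, lm u l ≠ {6, 6, 6, 4, 4} := fun l hl => case6b r6b u c6b l hl
  have w25 : ∀ l, wl u l ≤ 25 := by
    intro l
    obtain ⟨a, b, c, d, e, ht, hr, hf⟩ := tup_sound 6 _ sb6 (lm u l) (lm_card u l) (mem_lm u 6 h6 l)
    have hb : bt D6.sb (rk a b c d e) = true := by rw [← hr]; exact b6.sb l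
    rw [hb] at hf
    simp only [cond_true, Bool.or_eq_true, Bool.and_eq_true, beq5] at hf
    rcases hf with (hf | hf) | hf
    · rw [← lm_sum, ht, sum_five]
      exact Nat.le_of_ble_eq_true hf
    · obtain ⟨⟨⟨⟨rfl, rfl⟩, rfl⟩, rfl⟩, rfl⟩ := hf
      exact absurd ht (n6 l)
    · obtain ⟨⟨⟨⟨rfl, rfl⟩, rfl⟩, rfl⟩, rfl⟩ := hf
      exact absurd ht (n6b l)
  have c6c : UC D6c.ctx u := ⟨hu, h6, w25, fun l => (hrk l).ne⟩
  have z1 : ∀ x : Fin 21, fU 0x0 x.1 = 0 := by decide +kernel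
  have z2 : ∀ x : Fin 21, fW 0x0 x.1 = 0 := by decide +kernel
  exact r6c u c6c ⟨fun x => Or.inl (z1 x), fun l => Or.inl (z2 l)⟩

end Pool.Agent.Lib.MP_4dc748_co.TE
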