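import Pool.Agent.Lib.MP_4dc748_co.TE.TreeR
import Pool.Agent.Lib.MP_4dc748_co.TE.Chk6
import Pool.Agent.Lib.MP_4dc748_co.TE.Tree6D

/-!
# Certificate of the context D6, checked by the kernel in blocks
-/

set_option autoImplicit false
set_option maxRecDepth 100000

namespace Pool.Agent.Lib.MP_4dc748_co.TE

theorem gs6 : D6.gs.all gOK = true := by decide +kernel

theorem runAll_append (c : Ctx) (gs : List ℕ) : ∀ (L M : List (ℕ × List ℕ)) (cl : List ℕ),
    runAll c gs L cl = true → runAll c gs M ((L.map Prod.fst).reverse ++ cl) = true → runAll c gs (L ++ M) cl = true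
  | [], M, cl, _, h => by simpa using h
  | e :: L, M, cl, h1, h2 => by
    simp only [runAll, Bool.and_eq_true, List.cons_append] at h1 ⊢
    refine ⟨h1.1, runAll_append c gs L M (e.1 :: cl) h1.2 ?_⟩
    simpa using h2

/-- The certificates a, ..., a + n - 1 hold, the states before them being closed. -/
def blk (a n : ℕ) : Prop :=
  runAll D6.ctx D6.gs ((D6.lems.drop a).take n) (((D6.lems.take a).map Prod.fst).reverse ++ cl0) = true

theorem blk_step (a n : ℕ) (h : runAll D6.ctx D6.gs (D6.lems.take a) cl0 = true) (h' : blk a n) :
    runAll D6.ctx D6.gs (D6.lems.take (a + n)) cl0 = true := by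
  rw [List.take_add]
  exact runAll_append _ _ _ _ _ h h'

theorem blk0 : blk 0 13 := by unfold blk; decide +kernel

theorem blk1 : blk 13 16 := by unfold blk; decide +kernel

theorem blk2 : blk 29 32 := by unfold blk; decide +kernel

theorem blk3 : blk 61 38 := by unfold blk; decide +kernel

theorem blk4 : blk 99 8 := by unfold blk; decide +kernel

theorem blk5 : blk 107 1 := by unfold blk; decide +kernel

theorem blk6 : blk 108 4 := by unfold blk; decide +kernel

theorem blk7 : blk 112 10 := by unfold blk; decide +kernel

theorem blk8 : blk 122 11 := by unfold blk; decide +kernel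

theorem blk9 : blk 133 13 := by unfold blk; decide +kernel

theorem blk10 : blk 146 41 := by unfold blk; decide +kernel

theorem blk11 : blk 187 28 := by unfold blk; decide +kernel

theorem blk12 : blk 215 1 := by unfold blk; decide +kernel

theorem run6 : runAll D6.ctx D6.gs D6.lems cl0 = true := by
  have h := (blk_step 215 1 (blk_step 187 28 (blk_step 146 41 (blk_step 133 13 (blk_step 122 11 (blk_step 112 10 (blk_step 108 4 (blk_step 107 1 (blk_step 99 8 (blk_step 61 38 (blk_step 29 32 (blk_step 13 16 (blk_step 0 13 (by rfl) blk0) blk1) blk2) blk3) blk4) blk5) blk6) blk7) blk8) blk9) blk10) blk11) blk12)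
  rwa [List.take_of_length_le (by decide)] at h

/-- The root state is closed. -/
theorem root6 : Cl D6.ctx 0x700007000070700030 :=
  cert D6.ctx okc6 (by decide) (by decide) D6.gs gs6 D6.lems run6 (0x700007000070700030, D6.t215) (nth_mem _ 215 _ rfl)

end Pool.Agent.Lib.MP_4dc748_co.TE
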