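import Pool.Agent.Lib.MP_4dc748_co.TE.TreeR
import Pool.Agent.Lib.MP_4dc748_co.TE.Chk6b
import Pool.Agent.Lib.MP_4dc748_co.TE.Tree6bD

/-!
# Certificate of the context D6b, checked by the kernel
-/

set_option autoImplicit false
set_option maxRecDepth 100000

namespace Pool.Agent.Lib.MP_4dc748_co.TE

theorem gs6b : D6b.gs.all gOK = true := by decide +kernel

theorem run6b : runAll D6b.ctx D6b.gs D6b.lems cl0 = true := by decide +kernel

/-- The root state is closed. -/
theorem root6b : Cl D6b.ctx 0x700007000070500050 :=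
  cert D6b.ctx okc6b (by decide) (by decide) D6b.gs gs6b D6b.lems run6b (0x700007000070500050, D6b.t0) (nth_mem _ 0 _ rfl)

end Pool.Agent.Lib.MP_4dc748_co.TE
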