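import Pool.Agent.Lib.MP_4dc748_co.TE.TreeD

/-!
# Certificate data: context c6c
-/

set_option autoImplicit false

namespace Pool.Agent.Lib.MP_4dc748_co.TE.D6c

/-- The collineations. -/
def gs : List ℕ :=
  []

/-- Certificate. -/
def t0 : List ℕ :=
  [0]

/-- The closed states with their certificates. -/
def lems : List (ℕ × List ℕ) :=
  [(0x0, t0)]

end Pool.Agent.Lib.MP_4dc748_co.TE.D6c
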