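import Pool.Agent.Lib.MP_4dc748_co.TE.TreeR
import Pool.Agent.Lib.MP_4dc748_co.TE.Chk6c
import Pool.Agent.Lib.MP_4dc748_co.TE.Tree6cD

/-!
# Certificate of the context D6c, checked by the kernel
-/

set_option autoImplicit false
set_option maxRecDepth 100000

namespace Pool.Agent.Lib.MP_4dc748_co.TE

theorem gs6c : D6c.gs.all gOK = true := by decide +kernel

theorem run6c : runAll D6c.ctx D6c.gs D6c.lems cl0 = true := by decide +kernel

/-- The root state is closed. -/
theorem root6c : Cl D6c.ctx 0x0 :=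
  cert D6c.ctx okc6c (by decide) (by decide) D6c.gs gs6c D6c.lems run6c (0x0, D6c.t0) (nth_mem _ 0 _ rfl)

end Pool.Agent.Lib.MP_4dc748_co.TE
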