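import Pool.Agent.Lib.MP_4dc748_co.TE.TreeR
import Pool.Agent.Lib.MP_4dc748_co.TE.Chk7
import Pool.Agent.Lib.MP_4dc748_co.TE.Tree7D

/-!
# Certificate of the context D7, checked by the kernel
-/

set_option autoImplicit false
set_option maxRecDepth 100000

namespace Pool.Agent.Lib.MP_4dc748_co.TE

theorem gs7 : D7.gs.all gOK = true := by decide +kernel

theorem run7 : runAll D7.ctx D7.gs D7.lems cl0 = true := by decide +kernel

/-- The root state is closed. -/
theorem root7 : Cl D7.ctx 0x80 :=
  cert D7.ctx okc7 (by decide) (by decide) D7.gs gs7 D7.lems run7 (0x80, D7.t12) (nth_mem _ 12 _ rfl)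

end Pool.Agent.Lib.MP_4dc748_co.TE
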