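import Pool.Agent.Lib.MP_4dc748_co.TE.TreeR
import Pool.Agent.Lib.MP_4dc748_co.TE.Chk8
import Pool.Agent.Lib.MP_4dc748_co.TE.Tree8D

/-!
# Certificate of the context D8, checked by the kernel
-/

set_option autoImplicit false
set_option maxRecDepth 100000

namespace Pool.Agent.Lib.MP_4dc748_co.TE

theorem gs8 : D8.gs.all gOK = true := by decide +kernel

theorem run8 : runAll D8.ctx D8.gs D8.lems cl0 = true := by decide +kernel

/-- The root state is closed. -/
theorem root8 : Cl D8.ctx 0x90 :=
  cert D8.ctx okc8 (by decide) (by decide) D8.gs gs8 D8.lems run8 (0x90, D8.t15) (nth_mem _ 15 _ rfl)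

end Pool.Agent.Lib.MP_4dc748_co.TE
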