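import Pool.Agent.Lib.MP_4dc748_co.TE.FinB
import Pool.Agent.Lib.MP_4dc748_co.TE.Tree6C
import Pool.Agent.Lib.MP_4dc748_co.TE.Tree6bC
import Pool.Agent.Lib.MP_4dc748_co.TE.Tree6cC
import Pool.Agent.Lib.MP_4dc748_co.TE.Tree7C
import Pool.Agent.Lib.MP_4dc748_co.TE.Tree8C

/-!
# There is no family of 99 points with at most 7 points on each line
-/

set_option autoImplicit false

namespace Pool.Agent.Lib.MP_4dc748_co.TE

theorem noUS (u : Fin 21 → ℕ) (hu : US u) : False :=
  noUS_aux okc8 okc7 okc6 root8 root7 root6 root6b root6c u hu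

end Pool.Agent.Lib.MP_4dc748_co.TE
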