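import Pool.Agent.Lib.MP_4dc748_co.TE.F4
import Pool.Agent.Lib.MP_4dc748_co.TA.Defs

/-!
# The arc with 99 points: the commutative ring of order 16 and characteristic 2
-/

set_option autoImplicit false

open scoped Classical

namespace Pool.Agent.Lib.MP_4dc748_co.TE

open Pool.Agent.Lib.MP_4dc748_co.TA

/-- The points (v, b) = (v0, v1, v2, b0, b1, b2); the numbers 0, 1, 2, 3 are the elements 0, 1, w, z. -/
def arcL : List (ℕ × ℕ × ℕ × ℕ × ℕ × ℕ) :=
  [
   (1, 0, 0, 0, 3, 0), (1, 0, 0, 0, 2, 2), (1, 0, 0, 0, 0, 3), (0, 1, 0, 1, 0, 0),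
   (0, 1, 0, 3, 0, 1), (0, 1, 0, 2, 0, 3), (1, 1, 0, 0, 1, 0), (1, 1, 0, 0, 3, 0),
   (1, 1, 0, 0, 1, 1), (1, 1, 0, 0, 3, 1), (1, 1, 0, 0, 1, 2), (1, 1, 0, 0, 3, 2),
   (1, 1, 0, 0, 1, 3), (1, 3, 0, 0, 1, 0), (1, 3, 0, 0, 0, 3), (1, 3, 0, 0, 1, 3),
   (1, 3, 0, 0, 0, 1), (1, 3, 0, 0, 1, 1), (1, 3, 0, 0, 0, 2), (1, 3, 0, 0, 1, 2),
   (1, 2, 0, 0, 1, 0), (1, 2, 0, 0, 2, 0), (1, 2, 0, 0, 1, 2), (1, 2, 0, 0, 1, 3),
   (1, 2, 0, 0, 2, 3), (1, 2, 0, 0, 1, 1), (1, 2, 0, 0, 2, 1), (0, 0, 1, 0, 1, 0),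
   (0, 0, 1, 3, 2, 0), (0, 0, 1, 1, 3, 0), (1, 0, 1, 0, 0, 1), (1, 0, 1, 0, 0, 3),
   (1, 0, 1, 0, 1, 3), (1, 0, 1, 0, 2, 1), (1, 0, 1, 0, 2, 3), (1, 0, 1, 0, 3, 1),
   (1, 0, 1, 0, 3, 3), (1, 0, 3, 0, 0, 2), (1, 0, 3, 0, 0, 3), (1, 0, 3, 0, 3, 2),
   (1, 0, 3, 0, 3, 3), (1, 0, 3, 0, 1, 2), (1, 0, 3, 0, 2, 2), (1, 0, 3, 0, 2, 3),
   (1, 0, 2, 0, 0, 0), (1, 0, 2, 0, 0, 3), (1, 0, 2, 0, 2, 0), (1, 0, 2, 0, 2, 3),
   (1, 0, 2, 0, 3, 0), (1, 0, 2, 0, 3, 3), (1, 0, 2, 0, 1, 0), (0, 1, 1, 0, 0, 0),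
   (0, 1, 1, 1, 0, 0), (0, 1, 1, 2, 0, 0), (0, 1, 1, 3, 0, 0), (0, 1, 1, 0, 0, 2),
   (0, 1, 1, 1, 0, 2), (0, 1, 1, 3, 0, 2), (1, 1, 1, 0, 1, 0), (1, 1, 1, 0, 2, 3),
   (1, 1, 1, 0, 2, 0), (1, 3, 3, 0, 2, 2), (1, 3, 3, 0, 3, 3), (1, 3, 3, 0, 2, 3),
   (1, 2, 2, 0, 2, 0), (1, 2, 2, 0, 3, 1), (1, 2, 2, 0, 2, 1), (0, 1, 3, 0, 0, 2),
   (0, 1, 3, 3, 0, 2), (0, 1, 3, 2, 0, 2), (0, 1, 3, 0, 0, 3), (0, 1, 3, 3, 0, 3),
   (0, 1, 3, 1, 0, 3), (0, 1, 3, 2, 0, 3), (1, 2, 1, 0, 1, 0), (1, 2, 1, 0, 2, 2),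
   (1, 2, 1, 0, 2, 0), (1, 1, 3, 0, 1, 3), (1, 1, 3, 0, 2, 3), (1, 1, 3, 0, 1, 1),
   (1, 3, 2, 0, 2, 3), (1, 3, 2, 0, 0, 2), (1, 3, 2, 0, 0, 3), (0, 1, 2, 0, 0, 1),
   (0, 1, 2, 2, 0, 1), (0, 1, 2, 3, 0, 1), (0, 1, 2, 1, 0, 1), (0, 1, 2, 0, 0, 2),
   (0, 1, 2, 2, 0, 2), (0, 1, 2, 1, 0, 2), (1, 3, 1, 0, 3, 3), (1, 3, 1, 0, 3, 0),
   (1, 3, 1, 0, 1, 3), (1, 2, 3, 0, 1, 2), (1, 2, 3, 0, 1, 0), (1, 2, 3, 0, 0, 2),
   (1, 1, 2, 0, 2, 2), (1, 1, 2, 0, 2, 1), (1, 1, 2, 0, 0, 2)]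

namespace LowS

/-- The element of F4 with the number n. -/
private def cd : ℕ → F4
  | 0 => F4.o
  | 1 => F4.i
  | 2 => F4.w
  | _ => F4.z

/-- Test for zero. -/
private def isO : F4 → Bool
  | F4.o => true
  | _ => false

private theorem isO_iff (x : F4) : isO x = true ↔ x = 0 := by
  cases x <;> decide

/-- Test for equality. -/
private def eqb (x y : F4) : Bool := isO (F4.add x y)

private theorem eqb_of_eq {x y : F4} (h : x = y) : eqb x y = true := by
  subst h; cases x <;> rfl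

/-- Six elements of F4. -/
private structure P6 where
  x : F4
  y : F4
  t : F4
  p : F4
  q : F4
  r : F4

private def P6.v (P : P6) : Fin 3 → F4 := ![P.x, P.y, P.t]

private def P6.b (P : P6) : Fin 3 → F4 := ![P.p, P.q, P.r]

private def mk6 (m : ℕ × ℕ × ℕ × ℕ × ℕ × ℕ) : P6 :=
  ⟨cd m.1, cd m.2.1, cd m.2.2.1, cd m.2.2.2.1, cd m.2.2.2.2.1, cd m.2.2.2.2.2⟩

private def all4 (f : F4 → Bool) : Bool := f F4.o && (f F4.i && (f F4.w && f F4.z))

private theorem all4_spec {f : F4 → Bool} (h : all4 f = true) (x : F4) : f x = true := by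
  simp only [all4, Bool.and_eq_true] at h
  obtain ⟨h0, h1, h2, h3⟩ := h
  cases x
  · exact h0
  · exact h1
  · exact h2
  · exact h3

private def dt (a b c x y t : F4) : F4 := F4.add (F4.add (F4.mul a x) (F4.mul b y)) (F4.mul c t)

private theorem dt_eq (a : Fin 3 → F4) (x y t : F4) :
    a ⬝ᵥ ![x, y, t] = dt (a 0) (a 1) (a 2) x y t := by
  rw [dotProduct, Fin.sum_univ_three]
  rfl

private def onl (a b c : F4) (P : P6) : Bool := isO (dt a b c P.x P.y P.t)

private def inl (a b c e f g : F4) (P : P6) : Bool :=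
  isO (F4.add (dt a b c P.p P.q P.r) (dt e f g P.x P.y P.t))

private theorem inc_iff (a c : Fin 3 → F4) (P : P6) :
    Inc (RingEquiv.refl F4) a c P.v P.b ↔
      onl (a 0) (a 1) (a 2) P = true ∧ inl (a 0) (a 1) (a 2) (c 0) (c 1) (c 2) P = true := by
  have h1 : (RingEquiv.refl F4) ∘ P.v = P.v := rfl
  rw [Inc, h1, onl, inl, isO_iff, isO_iff, P6.v, P6.b, dt_eq, dt_eq, dt_eq]
  rfl

/-- At most n elements of the list satisfy f. -/
private def cl (f : P6 → Bool) : List P6 → ℕ → Bool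
  | [], _ => true
  | x :: l, 0 => bif f x then false else cl f l 0
  | x :: l, m + 1 => bif f x then cl f l m else cl f l (m + 1)

private theorem cl_spec (f : P6 → Bool) : ∀ (l : List P6) (n : ℕ), cl f l n = true → l.countP f ≤ n
  | [], n, _ => by simp
  | x :: l, 0, h => by
      rw [cl] at h
      by_cases hf : f x = true
      · rw [hf, cond_true] at h
        exact absurd h (by simp)
      · have hf' : f x = false := by simpa using hf
        rw [hf', cond_false] at h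
        rw [List.countP_cons_of_neg hf]
        exact cl_spec f l 0 h
  | x :: l, m + 1, h => by
      rw [cl] at h
      by_cases hf : f x = true
      · rw [hf, cond_true] at h
        rw [List.countP_cons_of_pos hf]
        exact Nat.succ_le_succ (cl_spec f l m h)
      · have hf' : f x = false := by simpa using hf
        rw [hf', cond_false] at h
        rw [List.countP_cons_of_neg hf]
        exact cl_spec f l (m + 1) h

private def pl : List P6 := arcL.map mk6

private def chA (a b c : F4) (l : List P6) : Bool :=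
  all4 fun e => all4 fun f => all4 fun g => cl (inl a b c e f g) l 7

private def ch : Bool :=
  all4 fun a => all4 fun b => all4 fun c =>
    (isO a && (isO b && isO c)) || chA a b c (pl.filter (onl a b c))

private theorem ch_true : ch = true := by decide +kernel

private theorem count_le (a c : Fin 3 → F4) (ha : a ≠ 0) :
    pl.countP (fun P => onl (a 0) (a 1) (a 2) P && inl (a 0) (a 1) (a 2) (c 0) (c 1) (c 2) P) ≤ 7 := by
  have h := all4_spec (all4_spec (all4_spec ch_true (a 0)) (a 1)) (a 2)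
  rw [Bool.or_eq_true] at h
  rcases h with h | h
  · exfalso
    simp only [Bool.and_eq_true, isO_iff] at h
    apply ha
    funext k
    fin_cases k
    · exact h.1
    · exact h.2.1
    · exact h.2.2
  · have h2 := all4_spec (all4_spec (all4_spec h (c 0)) (c 1)) (c 2)
    have h3 := cl_spec _ _ _ h2
    rw [List.countP_filter] at h3
    refine le_trans (le_of_eq ?_) h3
    congr 1
    funext P
    rw [Bool.and_comm]

/-- The two points are the same point of the plane. -/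
private def rel (P Q : P6) : Bool :=
  !(all4 fun c => !(eqb Q.x (F4.mul c P.x) && (eqb Q.y (F4.mul c P.y) && (eqb Q.t (F4.mul c P.t) &&
    !(all4 fun d => !(eqb Q.p (F4.add (F4.mul d P.x) (F4.mul c P.p)) &&
      (eqb Q.q (F4.add (F4.mul d P.y) (F4.mul c P.q)) &&
        eqb Q.r (F4.add (F4.mul d P.t) (F4.mul c P.r)))))))))

private theorem rel_of (P Q : P6) (c d : F4) (h1 : Q.v = c • P.v)
    (h2 : Q.b = d • P.v + RingEquiv.refl F4 c • P.b) : rel P Q = true := by
  rw [rel, Bool.not_eq_true']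
  by_contra hn
  rw [Bool.not_eq_false] at hn
  have h3 := all4_spec hn c
  rw [Bool.not_eq_true'] at h3
  have e0 : eqb Q.x (F4.mul c P.x) = true := eqb_of_eq (congrFun h1 0)
  have e1 : eqb Q.y (F4.mul c P.y) = true := eqb_of_eq (congrFun h1 1)
  have e2 : eqb Q.t (F4.mul c P.t) = true := eqb_of_eq (congrFun h1 2)
  rw [e0, e1, e2, Bool.true_and, Bool.true_and, Bool.true_and, Bool.not_eq_false'] at h3
  have h4 := all4_spec h3 d
  have f0 : eqb Q.p (F4.add (F4.mul d P.x) (F4.mul c P.p)) = true := eqb_of_eq (congrFun h2 0)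
  have f1 : eqb Q.q (F4.add (F4.mul d P.y) (F4.mul c P.q)) = true := eqb_of_eq (congrFun h2 1)
  have f2 : eqb Q.r (F4.add (F4.mul d P.t) (F4.mul c P.r)) = true := eqb_of_eq (congrFun h2 2)
  rw [f0, f1, f2] at h4
  exact absurd h4 (by decide)

private def pw : List P6 → Bool
  | [] => true
  | x :: l => (l.all fun y => !rel x y && !rel y x) && pw l

private theorem pw_spec : ∀ l : List P6, pw l = true →
    l.Pairwise (fun x y => rel x y = false ∧ rel y x = false)
  | [], _ => List.Pairwise.nil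
  | x :: l, h => by
      rw [pw, Bool.and_eq_true] at h
      refine List.Pairwise.cons ?_ (pw_spec l h.2)
      intro y hy
      have := List.all_eq_true.mp h.1 y hy
      simpa using this

private theorem pw_true : pw pl = true := by decide +kernel

private def nz (P : P6) : Bool := !(isO P.x && (isO P.y && isO P.t))

private theorem nz_true : pl.all nz = true := by decide +kernel

private theorem len : pl.length = 99 := by decide +kernel

end LowS

open LowS in
/-- There is a family of 99 points with at most 7 points on each line (identity automorphism). The points are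
those of arcL. -/
theorem low_S : ∃ (ι : Type) (_ : Fintype ι) (v b : ι → Fin 3 → F4), Fintype.card ι = 99 ∧
    (∀ i, v i ≠ 0) ∧
    (∀ i j, i ≠ j → ∀ c d : F4, ¬ (v j = c • v i ∧ b j = d • v i + RingEquiv.refl F4 c • b i)) ∧
    (∀ a c : Fin 3 → F4, a ≠ 0 →
      (Finset.univ.filter (fun i => Inc (RingEquiv.refl F4) a c (v i) (b i))).card ≤ 7) := by
  classical
  refine ⟨Fin pl.length, inferInstance, fun i => (pl.get i).v, fun i => (pl.get i).b, ?_, ?_, ?_, ?_⟩
  · rw [Fintype.card_fin, len]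
  · intro i h
    have h1 := List.all_eq_true.mp nz_true (pl.get i) (List.get_mem pl i)
    have e0 : isO (pl.get i).x = true := (isO_iff _).mpr (congrFun h 0)
    have e1 : isO (pl.get i).y = true := (isO_iff _).mpr (congrFun h 1)
    have e2 : isO (pl.get i).t = true := (isO_iff _).mpr (congrFun h 2)
    rw [nz, e0, e1, e2] at h1
    exact absurd h1 (by decide)
  · intro i j hij c d h
    have h1 : rel (pl.get i) (pl.get j) = true := rel_of _ _ c d h.1 h.2
    have hp := pw_spec pl pw_true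
    rw [List.pairwise_iff_get] at hp
    rcases lt_or_gt_of_ne hij with h2 | h2
    · rw [(hp i j h2).1] at h1
      exact absurd h1 (by decide)
    · rw [(hp j i h2).2] at h1
      exact absurd h1 (by decide)
  · intro a c ha
    have h1 := count_le a c ha
    refine le_trans (le_of_eq ?_) h1
    have h2 : (Finset.univ : Finset (Fin pl.length)).val.map pl.get = (pl : Multiset P6) := by
      rw [Fin.univ_val_map, List.ofFn_get]
    have h3 : pl.countP (fun P => onl (a 0) (a 1) (a 2) P &&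
        inl (a 0) (a 1) (a 2) (c 0) (c 1) (c 2) P) = Multiset.countP (fun P => (onl (a 0) (a 1) (a 2) P &&
        inl (a 0) (a 1) (a 2) (c 0) (c 1) (c 2) P) = true) (pl : Multiset P6) := by
      rw [Multiset.coe_countP]
      simp only [Bool.decide_eq_true]
    rw [Finset.card_def, Finset.filter_val, h3, ← h2, Multiset.countP_map]
    congr 1
    apply Multiset.filter_congr
    intro i _
    rw [inc_iff, Bool.and_eq_true]

end Pool.Agent.Lib.MP_4dc748_co.TE
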