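import Pool.Agent.Lib.MP_4dc748_co.TE.F4
import Pool.Agent.Lib.MP_4dc748_co.TA.St
import Pool.Agent.Lib.MP_4dc748_co.TA.PlaneA

/-!
# The two rings of order 16 and characteristic 2 with residue field F_4

Tw s is the ring F[X; s] / (X^2): the elements are the pairs (a, b) = a + b X, and X c = s(c) X, so
(a + b X) (c + d X) = a c + (a d + b s(c)) X.
-/

set_option autoImplicit false

namespace Pool.Agent.Lib.MP_4dc748_co.TE

open Pool.Agent.Lib.MP_4dc748_co.TA

/-- The truncated skew polynomial ring F[X; s] / (X^2): the element a + b X is the structure (a, b). -/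
structure Tw (F : Type) [Field F] (s : F ≃+* F) where
  a : F
  b : F

variable {F : Type} [Field F] {s : F ≃+* F}

namespace Tw

instance : Add (Tw F s) := ⟨fun x y => ⟨x.a + y.a, x.b + y.b⟩⟩
instance : Mul (Tw F s) := ⟨fun x y => ⟨x.a * y.a, x.a * y.b + x.b * s y.a⟩⟩
instance : Zero (Tw F s) := ⟨⟨0, 0⟩⟩
instance : One (Tw F s) := ⟨⟨1, 0⟩⟩
instance : Neg (Tw F s) := ⟨fun x => ⟨-x.a, -x.b⟩⟩

private theorem tw_ext {x y : Tw F s} (h1 : x.a = y.a) (h2 : x.b = y.b) : x = y := by
  cases x
  cases y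
  cases h1
  cases h2
  rfl

private theorem tw_zero_mul (x : Tw F s) : (0 : Tw F s) * x = 0 := by
  refine tw_ext ?_ ?_
  · change 0 * x.a = 0
    exact zero_mul _
  · change 0 * x.b + 0 * s x.a = 0
    rw [zero_mul, zero_mul, zero_add]

private theorem tw_mul_zero (x : Tw F s) : x * (0 : Tw F s) = 0 := by
  refine tw_ext ?_ ?_
  · change x.a * 0 = 0
    exact mul_zero _
  · change x.a * 0 + x.b * s 0 = 0
    rw [map_zero s, mul_zero, mul_zero, zero_add]

private theorem tw_one_mul (x : Tw F s) : (1 : Tw F s) * x = x := by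
  refine tw_ext ?_ ?_
  · change 1 * x.a = x.a
    exact one_mul _
  · change 1 * x.b + 0 * s x.a = x.b
    rw [one_mul, zero_mul, add_zero]

private theorem tw_mul_one (x : Tw F s) : x * (1 : Tw F s) = x := by
  refine tw_ext ?_ ?_
  · change x.a * 1 = x.a
    exact mul_one _
  · change x.a * 0 + x.b * s 1 = x.b
    rw [map_one s, mul_zero, mul_one, zero_add]

private theorem tw_mul_assoc (x y z : Tw F s) : x * y * z = x * (y * z) := by
  refine tw_ext ?_ ?_
  · change x.a * y.a * z.a = x.a * (y.a * z.a)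
    exact mul_assoc _ _ _
  · change x.a * y.a * z.b + (x.a * y.b + x.b * s y.a) * s z.a =
      x.a * (y.a * z.b + y.b * s z.a) + x.b * s (y.a * z.a)
    rw [map_mul s]
    ring

private theorem tw_left_distrib (x y z : Tw F s) : x * (y + z) = x * y + x * z := by
  refine tw_ext ?_ ?_
  · change x.a * (y.a + z.a) = x.a * y.a + x.a * z.a
    exact mul_add _ _ _
  · change x.a * (y.b + z.b) + x.b * s (y.a + z.a) =
      (x.a * y.b + x.b * s y.a) + (x.a * z.b + x.b * s z.a)
    rw [map_add s]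
    ring

private theorem tw_right_distrib (x y z : Tw F s) : (x + y) * z = x * z + y * z := by
  refine tw_ext ?_ ?_
  · change (x.a + y.a) * z.a = x.a * z.a + y.a * z.a
    exact add_mul _ _ _
  · change (x.a + y.a) * z.b + (x.b + y.b) * s z.a =
      (x.a * z.b + x.b * s z.a) + (y.a * z.b + y.b * s z.a)
    ring

/-- The ring structure; addition and multiplication must be the ones given above. -/
instance : Ring (Tw F s) where
  add := (· + ·)
  mul := (· * ·)
  zero := 0
  one := 1
  neg := Neg.neg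
  add_assoc := fun x y z => tw_ext (add_assoc x.a y.a z.a) (add_assoc x.b y.b z.b)
  zero_add := fun x => tw_ext (zero_add x.a) (zero_add x.b)
  add_zero := fun x => tw_ext (add_zero x.a) (add_zero x.b)
  add_comm := fun x y => tw_ext (add_comm x.a y.a) (add_comm x.b y.b)
  mul_assoc := tw_mul_assoc
  one_mul := tw_one_mul
  mul_one := tw_mul_one
  left_distrib := tw_left_distrib
  right_distrib := tw_right_distrib
  zero_mul := tw_zero_mul
  mul_zero := tw_mul_zero
  neg_add_cancel := fun x => tw_ext (neg_add_cancel x.a) (neg_add_cancel x.b)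
  nsmul := nsmulRec
  zsmul := zsmulRec

/-- The coordinates. -/
theorem coord : Nonempty (Coord (Tw F s) F s) :=
  ⟨{ e :=
      { toFun := fun x => (x.a, x.b)
        invFun := fun p => ⟨p.1, p.2⟩
        left_inv := fun _ => rfl
        right_inv := fun _ => rfl
        map_add' := fun _ _ => rfl }
     e_one := rfl
     e_mul := fun _ _ => rfl }⟩

private def tw_equiv : Tw F s ≃ F × F where
  toFun := fun x => (x.a, x.b)
  invFun := fun p => ⟨p.1, p.2⟩
  left_inv := fun _ => rfl
  right_inv := fun _ => rfl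

theorem finite [Finite F] : Finite (Tw F s) := Finite.of_equiv _ (tw_equiv (F := F) (s := s)).symm

theorem natCard [Finite F] : Nat.card (Tw F s) = Nat.card F ^ 2 := by
  rw [Nat.card_congr (tw_equiv (F := F) (s := s)), Nat.card_prod, sq]

private def tw_incl : F →+* Tw F s where
  toFun := fun c => ⟨c, 0⟩
  map_one' := rfl
  map_mul' := fun c d => tw_ext rfl (by
    change (0 : F) = c * 0 + 0 * s d
    rw [mul_zero, zero_mul, zero_add])
  map_zero' := rfl
  map_add' := fun c d => tw_ext rfl (by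
    change (0 : F) = 0 + 0
    rw [zero_add])

theorem charP {p : ℕ} [CharP F p] : CharP (Tw F s) p :=
  charP_of_injective_ringHom (f := tw_incl (F := F) (s := s)) (fun _ _ h => congrArg Tw.a h) p

private def tw_proj : Tw F s →+* F where
  toFun := fun x => x.a
  map_one' := rfl
  map_mul' := fun _ _ => rfl
  map_zero' := rfl
  map_add' := fun _ _ => rfl

private theorem tw_left_inv {x : Tw F s} (hx : x.a ≠ 0) : ∃ y : Tw F s, y * x = 1 := by
  have hs : s x.a ≠ 0 := fun h => hx (s.map_eq_zero_iff.mp h)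
  refine ⟨⟨x.a⁻¹, -(x.a⁻¹ * x.b) / s x.a⟩, tw_ext ?_ ?_⟩
  · change x.a⁻¹ * x.a = 1
    exact inv_mul_cancel₀ hx
  · change x.a⁻¹ * x.b + -(x.a⁻¹ * x.b) / s x.a * s x.a = 0
    rw [div_mul_cancel₀ _ hs]
    ring

private theorem tw_right_inv {x : Tw F s} (hx : x.a ≠ 0) : ∃ y : Tw F s, x * y = 1 := by
  refine ⟨⟨x.a⁻¹, x.a⁻¹ * -(x.b * s x.a⁻¹)⟩, tw_ext ?_ ?_⟩
  · change x.a * x.a⁻¹ = 1
    exact mul_inv_cancel₀ hx
  · change x.a * (x.a⁻¹ * -(x.b * s x.a⁻¹)) + x.b * s x.a⁻¹ = 0
    rw [← mul_assoc, mul_inv_cancel₀ hx]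
    ring

private theorem tw_left_top {I : Submodule (Tw F s) (Tw F s)} {x : Tw F s} (hx : x ∈ I)
    (h : x.a ≠ 0) : I = ⊤ := by
  obtain ⟨y, hy⟩ := tw_left_inv h
  rw [Submodule.eq_top_iff']
  intro z
  have h1 : (z * y) • x ∈ I := I.smul_mem _ hx
  rwa [smul_eq_mul, mul_assoc, hy, mul_one] at h1

private theorem tw_right_top {I : Submodule (Tw F s)ᵐᵒᵖ (Tw F s)} {x : Tw F s} (hx : x ∈ I)
    (h : x.a ≠ 0) : I = ⊤ := by
  obtain ⟨y, hy⟩ := tw_right_inv h
  rw [Submodule.eq_top_iff']
  intro z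
  have h1 : MulOpposite.op (y * z) • x ∈ I := I.smul_mem _ hx
  rwa [op_smul_eq_mul, ← mul_assoc, hy, one_mul] at h1

private theorem tw_left_rad {I : Submodule (Tw F s) (Tw F s)} {x : Tw F s} (hx : x ∈ I)
    (h : x ≠ 0) {y : Tw F s} (hy : y.a = 0) : y ∈ I := by
  by_cases h0 : x.a = 0
  · have hb : x.b ≠ 0 := fun hb => h (tw_ext h0 hb)
    have h1 : (⟨y.b / x.b, 0⟩ : Tw F s) • x ∈ I := I.smul_mem _ hx
    have h2 : (⟨y.b / x.b, 0⟩ : Tw F s) • x = y := by
      refine tw_ext ?_ ?_
      · change y.b / x.b * x.a = y.a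
        rw [h0, hy, mul_zero]
      · change y.b / x.b * x.b + 0 * s x.a = y.b
        rw [div_mul_cancel₀ _ hb, zero_mul, add_zero]
    rwa [h2] at h1
  · rw [tw_left_top hx h0]
    exact Submodule.mem_top

private theorem tw_right_rad {I : Submodule (Tw F s)ᵐᵒᵖ (Tw F s)} {x : Tw F s} (hx : x ∈ I)
    (h : x ≠ 0) {y : Tw F s} (hy : y.a = 0) : y ∈ I := by
  by_cases h0 : x.a = 0
  · have hb : x.b ≠ 0 := fun hb => h (tw_ext h0 hb)
    have h1 : MulOpposite.op (⟨s.symm (y.b / x.b), 0⟩ : Tw F s) • x ∈ I := I.smul_mem _ hx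
    have h2 : MulOpposite.op (⟨s.symm (y.b / x.b), 0⟩ : Tw F s) • x = y := by
      refine tw_ext ?_ ?_
      · change x.a * s.symm (y.b / x.b) = y.a
        rw [h0, hy, zero_mul]
      · change x.a * 0 + x.b * s (s.symm (y.b / x.b)) = y.b
        rw [s.apply_symm_apply, mul_div_cancel₀ _ hb, mul_zero, zero_add]
    rwa [h2] at h1
  · rw [tw_right_top hx h0]
    exact Submodule.mem_top

/-- The one-sided ideals are 0, F X and the whole ring. -/
theorem isChain : IsChainRing (Tw F s) := by
  constructor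
  · intro I J
    by_cases hI : ∃ x ∈ I, x.a ≠ 0
    · obtain ⟨x, hx, h⟩ := hI
      right
      rw [tw_left_top hx h]
      exact le_top
    · by_cases hJ : ∃ x ∈ J, x ≠ 0
      · obtain ⟨x, hx, h⟩ := hJ
        left
        intro y hy
        exact tw_left_rad hx h (by
          by_contra hya
          exact hI ⟨y, hy, hya⟩)
      · right
        intro y hy
        have h0 : y = 0 := by
          by_contra hy0
          exact hJ ⟨y, hy, hy0⟩
        rw [h0]
        exact I.zero_mem
  · intro I J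
    by_cases hI : ∃ x ∈ I, x.a ≠ 0
    · obtain ⟨x, hx, h⟩ := hI
      right
      rw [tw_right_top hx h]
      exact le_top
    · by_cases hJ : ∃ x ∈ J, x ≠ 0
      · obtain ⟨x, hx, h⟩ := hJ
        left
        intro y hy
        exact tw_right_rad hx h (by
          by_contra hya
          exact hI ⟨y, hy, hya⟩)
      · right
        intro y hy
        have h0 : y = 0 := by
          by_contra hy0
          exact hJ ⟨y, hy, hy0⟩
        rw [h0]
        exact I.zero_mem

private theorem tw_le_ker {I : Ideal (Tw F s)} (hI : I ≠ ⊤) :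
    I ≤ RingHom.ker (tw_proj (F := F) (s := s)) := by
  intro x hx
  rw [RingHom.mem_ker]
  by_contra h
  exact hI (tw_left_top hx h)

private theorem tw_ker_ne_top : RingHom.ker (tw_proj (F := F) (s := s)) ≠ ⊤ := by
  intro h
  have h1 : (1 : Tw F s) ∈ RingHom.ker (tw_proj (F := F) (s := s)) := by
    rw [h]
    exact Submodule.mem_top
  rw [RingHom.mem_ker, map_one] at h1
  exact one_ne_zero h1

private theorem tw_jacobson :
    Ring.jacobson (Tw F s) = RingHom.ker (tw_proj (F := F) (s := s)) := by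
  rw [Ring.jacobson_eq_sInf_isMaximal]
  apply le_antisymm
  · apply sInf_le
    change Ideal.IsMaximal _
    refine ⟨⟨tw_ker_ne_top, fun J hJ => ?_⟩⟩
    by_contra hJt
    exact absurd (tw_le_ker hJt) (not_le_of_gt hJ)
  · apply le_sInf
    intro J hJ
    have hJ' : J.IsMaximal := hJ
    have h1 : J = RingHom.ker (tw_proj (F := F) (s := s)) :=
      hJ'.eq_of_le tw_ker_ne_top (tw_le_ker hJ'.ne_top)
    rw [h1]

theorem residue : Nonempty ((Tw F s ⧸ Ring.jacobson (Tw F s)) ≃+* F) := by
  have hsurj : Function.Surjective (tw_proj (F := F) (s := s)) := fun c => ⟨⟨c, 0⟩, rfl⟩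
  exact ⟨(Ideal.quotEquivOfEq tw_jacobson).trans (RingHom.quotientKerEquivOfSurjective hsurj)⟩

/-- The first ring is commutative and the second one is not. -/
theorem not_iso : IsEmpty (Tw F4 (RingEquiv.refl F4) ≃+* Tw F4 F4.frob) := by
  constructor
  intro φ
  have hc : ∀ x y : Tw F4 (RingEquiv.refl F4), x * y = y * x := by
    intro x y
    refine tw_ext (mul_comm x.a y.a) ?_
    change x.a * y.b + x.b * y.a = y.a * x.b + y.b * x.a
    ring
  have h1 : (⟨0, 1⟩ : Tw F4 F4.frob) * ⟨F4.w, 0⟩ = ⟨F4.w, 0⟩ * ⟨0, 1⟩ := by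
    apply φ.symm.injective
    rw [map_mul, map_mul]
    exact hc _ _
  have h2 := congrArg Tw.b h1
  exact absurd h2 (by decide)

end Tw

end Pool.Agent.Lib.MP_4dc748_co.TE
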