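import Pool.Agent.Lib.MP_4dc748_co.TE.FinC
import Pool.Agent.Lib.MP_4dc748_co.TE.Ring
import Pool.Agent.Lib.MP_4dc748_co.TE.LowS
import Pool.Agent.Lib.MP_4dc748_co.TC.Arc

/-!
# m_7 of the two chain rings of order 16 and characteristic 2
-/

set_option autoImplicit false

open scoped Classical

namespace Pool.Agent.Lib.MP_4dc748_co.TE

open Pool.Agent.Lib.MP_4dc748_co.TA Pool.Agent.Lib.MP_4dc748_co.TC F4 Tw

/-- A family with at most 7 points on each line has at most 98 points (Frobenius automorphism). -/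
theorem upper98 (ι : Type) [Fintype ι] (v b : ι → Fin 3 → F4) (hv : ∀ i, v i ≠ 0)
    (hd : ∀ i j, i ≠ j → ∀ c d : F4, ¬ (v j = c • v i ∧ b j = d • v i + frob c • b i))
    (hl : ∀ a c : Fin 3 → F4, a ≠ 0 →
      (Finset.univ.filter (fun i => Inc frob a c (v i) (b i))).card ≤ 7) : Fintype.card ι ≤ 98 := by
  by_contra h
  obtain ⟨S, -, hS⟩ := Finset.exists_subset_card_eq (s := (Finset.univ : Finset ι)) (n := 99)
    (by rw [Finset.card_univ]; omega)
  refine noUS (fun x => (Finset.univ.filter (fun i : S => ∃ e : F4, v i = e • PT x)).card)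
    ⟨S, inferInstance, fun i => v i, fun i => b i, ⟨fun i => hv i, fun i j hij => ?_, fun a c ha => ?_⟩,
      by rw [Fintype.card_coe, hS], fun x => rfl⟩
  · exact hd i j fun h => hij (Subtype.ext h)
  · refine le_trans ?_ (hl a c ha)
    rw [← Finset.card_map ⟨Subtype.val, Subtype.val_injective⟩]
    refine Finset.card_le_card fun i hi => ?_
    obtain ⟨j, hj, rfl⟩ := Finset.mem_map.1 hi
    exact Finset.mem_filter.2 ⟨Finset.mem_univ _, (Finset.mem_filter.1 hj).2⟩

/-- The upper bound for F_4[X; frob]/(X^2). -/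
theorem arcMax_T : arcMax (Tw F4 frob) 7 ≤ 98 := by
  have : Finite (Tw F4 frob) := finite
  obtain ⟨C⟩ := coord (F := F4) (s := frob)
  refine csSup_le ⟨_, ∅, ⟨by simp, by simp⟩, rfl⟩ ?_
  rintro k ⟨K, hK, rfl⟩
  exact coord_upper C (fun ι _ v b hv hd hl => upper98 ι v b hv hd (by convert hl)) hK

/-- The lower bound for F_4[X]/(X^2). -/
theorem arcMax_S : 99 ≤ arcMax (Tw F4 (RingEquiv.refl F4)) 7 := by
  have : Finite (Tw F4 (RingEquiv.refl F4)) := finite
  have hfin : Finite (Submodule (Tw F4 (RingEquiv.refl F4))ᵐᵒᵖ (Fin 3 → Tw F4 (RingEquiv.refl F4))) := plane_finite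
  obtain ⟨C⟩ := coord (F := F4) (s := RingEquiv.refl F4)
  obtain ⟨ι, hι, v, b, hc, hv, hd, hl⟩ := low_S
  obtain ⟨K, hK, hKc⟩ := coord_lower C (n := 7) hv hd (by convert hl)
  refine le_csSup ⟨Nat.card (Submodule (Tw F4 (RingEquiv.refl F4))ᵐᵒᵖ (Fin 3 → Tw F4 (RingEquiv.refl F4))), ?_⟩
    ⟨K, hK, hKc.trans hc⟩
  rintro k ⟨K, -, rfl⟩
  rw [← Set.ncard_univ]
  exact Set.ncard_le_ncard (Set.subset_univ _) (Set.toFinite _)

end Pool.Agent.Lib.MP_4dc748_co.TE
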