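import Pool.Agent.Lib.MP_4dc748_co.TE.Cls

/-!
# Translations of arcs and the linear algebra of the third structure
-/

set_option autoImplicit false

namespace Pool.Agent.Lib.MP_4dc748_co.TE

open F4

theorem PosBA.add_self (y : F4) : y + y = 0 := by revert y; decide

theorem PosBA.nsmul_eq (n : ℕ) (y : F4) : n • y = if n % 2 = 1 then y else 0 := by
  induction n using Nat.twoStepInduction with
  | zero => simp
  | one => simp
  | more n ih _ =>
    have : (n + 2) • y = n • y + (y + y) := by rw [add_nsmul, two_nsmul]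
    rw [this, PosBA.add_self, add_zero, ih]
    have h2 : (n + 2) % 2 = n % 2 := by omega
    rw [h2]

theorem PosBA.dt_add_left (a b c : Fin 3 → F4) : dt (a + b) c = dt a c + dt b c := by
  simp only [dt, Pi.add_apply]; ring

theorem PosBA.dt_add_right (a b c : Fin 3 → F4) : dt a (b + c) = dt a b + dt a c := by
  simp only [dt, Pi.add_apply]; ring

theorem PosBA.dt_zero_right (a : Fin 3 → F4) : dt a 0 = 0 := by
  simp [dt]

theorem PosBA.DEC_add (x : Fin 21) (p q : F4 × F4) : DEC x (p + q) = DEC x p + DEC x q := by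
  unfold DEC
  split <;> (ext i; fin_cases i <;> simp)

theorem PosBA.DEC_zero (x : Fin 21) : DEC x 0 = 0 := by
  unfold DEC
  split <;> (ext i; fin_cases i <;> simp)

/-- The functional of the line l at its class LP l j. -/
def PosBA.fl (l : Fin 21) (j : Fin 5) (p : F4 × F4) : F4 := dt (PT l) (DEC (LP l j) p)

theorem PosBA.fl_add (l : Fin 21) (j : Fin 5) (p q : F4 × F4) :
    PosBA.fl l j (p + q) = PosBA.fl l j p + PosBA.fl l j q := by
  unfold PosBA.fl
  rw [PosBA.DEC_add, PosBA.dt_add_right]

theorem PosBA.fl_zero (l : Fin 21) (j : Fin 5) : PosBA.fl l j 0 = 0 := by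
  unfold PosBA.fl
  rw [PosBA.DEC_zero, PosBA.dt_zero_right]

theorem PosBA.fl_sum (l : Fin 21) (j : Fin 5) (K : Finset (F4 × F4)) :
    PosBA.fl l j (∑ p ∈ K, p) = ∑ p ∈ K, PosBA.fl l j p := by
  classical
  induction K using Finset.induction_on with
  | empty => simp [PosBA.fl_zero]
  | insert a s ha ih => rw [Finset.sum_insert ha, Finset.sum_insert ha, PosBA.fl_add, ih]

/-- The vectors of n on the line l are given by a linear functional. -/
def PosBA.Good (l : Fin 21) (n : Fin 21 → F4 × F4) : Prop :=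
  ∃ c : Fin 3 → F4, ∀ j, PosBA.fl l j (n (LP l j)) = dt c (frob ∘ PT (LP l j))

theorem PosBA.Good_add {l : Fin 21} {n n' : Fin 21 → F4 × F4} (h : PosBA.Good l n)
    (h' : PosBA.Good l n') : PosBA.Good l (n + n') := by
  obtain ⟨c, hc⟩ := h
  obtain ⟨c', hc'⟩ := h'
  refine ⟨c + c', fun j => ?_⟩
  rw [Pi.add_apply, PosBA.fl_add, hc, hc', PosBA.dt_add_left]

/-- The translated arc. -/
def PosBA.tr (A : CArc) (n : Fin 21 → F4 × F4) (hn : ∀ l, PosBA.Good l n) : CArc where
  K x := (A.K x).map (Equiv.addRight (n x)).toEmbedding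
  total := by
    simp only [Finset.card_map]
    exact A.total
  line l c := by
    obtain ⟨c', hc'⟩ := hn l
    have h := A.line l (c + c')
    refine le_of_eq_of_le (Finset.sum_congr rfl fun j _ => ?_) h
    rw [Finset.filter_map, Finset.card_map]
    congr 1
    ext p
    simp only [Finset.mem_filter, Function.comp_apply, Equiv.coe_toEmbedding, Equiv.coe_addRight]
    refine and_congr_right fun _ => ?_
    have h1 := PosBA.fl_add l j p (n (LP l j))
    rw [hc' j] at h1
    unfold PosBA.fl at h1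
    rw [h1, PosBA.dt_add_left]
    constructor
    · intro h2
      rw [← h2, add_assoc, PosBA.add_self, add_zero]
    · intro h2
      rw [h2, add_assoc, PosBA.add_self, add_zero]

theorem PosBA.tr_K (A : CArc) (n : Fin 21 → F4 × F4) (hn : ∀ l, PosBA.Good l n) (x : Fin 21) :
    (PosBA.tr A n hn).K x = (A.K x).map (Equiv.addRight (n x)).toEmbedding := rfl

theorem PosBA.tr_card (A : CArc) (n : Fin 21 → F4 × F4) (hn : ∀ l, PosBA.Good l n) (x : Fin 21) :
    ((PosBA.tr A n hn).K x).card = (A.K x).card := by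
  rw [PosBA.tr_K, Finset.card_map]

/-- The sum of the points of a class. -/
def PosBA.beta (A : CArc) (x : Fin 21) : F4 × F4 := ∑ p ∈ A.K x, p

theorem PosBA.tr_beta (A : CArc) (hn : ∀ l, PosBA.Good l (PosBA.beta A))
    (hodd : ∀ x, (A.K x).card % 2 = 1) (x : Fin 21) :
    PosBA.beta (PosBA.tr A (PosBA.beta A) hn) x = 0 := by
  unfold PosBA.beta
  rw [PosBA.tr_K, Finset.sum_map]
  simp only [Equiv.coe_toEmbedding, Equiv.coe_addRight]
  rw [Finset.sum_add_distrib, Finset.sum_const]
  have h : ∀ (n : ℕ) (q : F4 × F4), n % 2 = 1 → q + n • q = 0 := by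
    intro n q hq
    ext
    · rw [Prod.fst_add, Prod.smul_fst, PosBA.nsmul_eq, if_pos hq, PosBA.add_self]; rfl
    · rw [Prod.snd_add, Prod.smul_snd, PosBA.nsmul_eq, if_pos hq, PosBA.add_self]; rfl
  exact h _ _ (hodd x)

end Pool.Agent.Lib.MP_4dc748_co.TE
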