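import Pool.Agent.Lib.MP_4dc748_co.TE.PosBA

/-!
# The linear algebra of the third structure: the sums of the points of the classes come from a matrix
-/

set_option autoImplicit false

namespace Pool.Agent.Lib.MP_4dc748_co.TE

open F4

namespace PosBB

open PosBA

/-- The secants. -/
def sec : Fin 21 → Bool :=
  ![true, true, false, false, false, true, false, false, true, true, true, false, false, true, true,
    true, false, false, true, true, true]

theorem comb : ∀ (l : Fin 21) (j1 j2 : Fin 5), j1 ≠ j2 → ∀ j : Fin 5, ∃ a d : F4,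
    PT (LP l j) 0 = a * PT (LP l j1) 0 + d * PT (LP l j2) 0 ∧
    PT (LP l j) 1 = a * PT (LP l j1) 1 + d * PT (LP l j2) 1 ∧
    PT (LP l j) 2 = a * PT (LP l j1) 2 + d * PT (LP l j2) 2 := by
  decide +kernel

theorem zl {g : Fin 21 → F4 × F4} (hg : ∀ l, sec l = true → Good l g) (l : Fin 21) (j1 j2 : Fin 5)
    (hs : sec l = true) (hne : j1 ≠ j2) (h1 : fl l j1 (g (LP l j1)) = 0)
    (h2 : fl l j2 (g (LP l j2)) = 0) (j : Fin 5) : fl l j (g (LP l j)) = 0 := by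
  obtain ⟨c, hc⟩ := hg l hs
  rw [hc] at h1 h2 ⊢
  obtain ⟨a, d, e0, e1, e2⟩ := comb l j1 j2 hne j
  have : dt c (frob ∘ PT (LP l j)) = frob a * dt c (frob ∘ PT (LP l j1)) +
      frob d * dt c (frob ∘ PT (LP l j2)) := by
    simp only [dt, Function.comp_apply, e0, e1, e2, map_add, map_mul]
    ring
  rw [this, h1, h2, mul_zero, mul_zero, add_zero]

theorem zp {g : Fin 21 → F4 × F4} (l : Fin 21) (j : Fin 5) (h : g (LP l j) = 0) :
    fl l j (g (LP l j)) = 0 := by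
  rw [h, fl_zero]

theorem fl_dir (x : Fin 21) (k : Fin 5) (p : F4 × F4) :
    fl (PL x k) (JJ x k) p = SC x k * fk k p := by
  unfold fl
  rw [(LP_PL x k).1]
  exact dir_eq x k p.1 p.2

theorem fk_two : ∀ (k1 k2 : Fin 5), k1 ≠ k2 → ∀ p : F4 × F4, fk k1 p = 0 → fk k2 p = 0 → p = 0 := by
  decide

theorem zx {g : Fin 21 → F4 × F4} (x : Fin 21) (k1 k2 : Fin 5) (hne : k1 ≠ k2)
    (h1 : fl (PL x k1) (JJ x k1) (g x) = 0) (h2 : fl (PL x k2) (JJ x k2) (g x) = 0) : g x = 0 := by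
  rw [fl_dir] at h1 h2
  have h1' := (mul_eq_zero.mp h1).resolve_left (SC_ne x k1)
  have h2' := (mul_eq_zero.mp h2).resolve_left (SC_ne x k2)
  exact fk_two k1 k2 hne _ h1' h2'

/-- The normalised representative of the vector v modulo PT x. -/
def ENC (x : Fin 21) (v : Fin 3 → F4) : F4 × F4 :=
  match pivL.getD x.1 0 with
  | 0 => (v 1 + v 0 * PT x 1, v 2 + v 0 * PT x 2)
  | 1 => (v 0, v 2 + v 1 * PT x 2)
  | _ => (v 0, v 1)

theorem enc_aux : ∀ (l : Fin 21) (j : Fin 5) (a b c : F4),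
    fl l j (ENC (LP l j) ![a, b, c]) = dt (PT l) ![a, b, c] := by
  decide +kernel

theorem fl_ENC (l : Fin 21) (j : Fin 5) (v : Fin 3 → F4) :
    fl l j (ENC (LP l j) v) = dt (PT l) v := by
  have h : v = ![v 0, v 1, v 2] := by
    ext i; fin_cases i <;> rfl
  rw [h]
  exact enc_aux l j _ _ _

/-- The translation vectors of the matrix N. -/
def nv (N : Fin 3 → Fin 3 → F4) (x : Fin 21) : F4 × F4 :=
  ENC x (fun i => dt (N i) (frob ∘ PT x))

theorem Good_nv (N : Fin 3 → Fin 3 → F4) (l : Fin 21) : Good l (nv N) := by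
  refine ⟨fun k => PT l 0 * N 0 k + PT l 1 * N 1 k + PT l 2 * N 2 k, fun j => ?_⟩
  unfold nv
  rw [fl_ENC]
  simp only [dt]
  ring

theorem nv0 (N : Fin 3 → Fin 3 → F4) : nv N 0 = (N 1 0, N 2 0) := by
  have hp : frob ∘ PT 0 = ![1, 0, 0] := by decide
  have h : nv N 0 = (dt (N 1) (frob ∘ PT 0) + dt (N 0) (frob ∘ PT 0) * PT 0 1,
    dt (N 2) (frob ∘ PT 0) + dt (N 0) (frob ∘ PT 0) * PT 0 2) := rfl
  have h1 : PT 0 1 = 0 := by decide
  have h2 : PT 0 2 = 0 := by decide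
  rw [h, hp, h1, h2]
  simp [dt]

theorem nv1 (N : Fin 3 → Fin 3 → F4) : nv N 1 = (N 0 1, N 2 1) := by
  have hp : frob ∘ PT 1 = ![0, 1, 0] := by decide
  have h : nv N 1 = (dt (N 0) (frob ∘ PT 1),
    dt (N 2) (frob ∘ PT 1) + dt (N 1) (frob ∘ PT 1) * PT 1 2) := rfl
  have h2 : PT 1 2 = 0 := by decide
  rw [h, hp, h2]
  simp [dt]

theorem nv5 (N : Fin 3 → Fin 3 → F4) : nv N 5 = (N 0 2, N 1 2) := by
  have hp : frob ∘ PT 5 = ![0, 0, 1] := by decide
  have h : nv N 5 = (dt (N 0) (frob ∘ PT 5), dt (N 1) (frob ∘ PT 5)) := rfl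
  rw [h, hp]
  simp [dt]

theorem nv2 (N : Fin 3 → Fin 3 → F4) :
    (nv N 2).1 = N 1 0 + N 1 1 + (N 0 0 + N 0 1) := by
  have hp : frob ∘ PT 2 = ![1, 1, 0] := by decide
  have h : (nv N 2).1 = dt (N 1) (frob ∘ PT 2) + dt (N 0) (frob ∘ PT 2) * PT 2 1 := rfl
  have h1 : PT 2 1 = 1 := by decide
  rw [h, hp, h1]
  simp [dt]

theorem nv3 (N : Fin 3 → Fin 3 → F4) :
    (nv N 3).1 = N 1 0 + N 1 1 * z + (N 0 0 + N 0 1 * z) * w := by
  have hp : frob ∘ PT 3 = ![1, z, 0] := by decide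
  have h : (nv N 3).1 = dt (N 1) (frob ∘ PT 3) + dt (N 0) (frob ∘ PT 3) * PT 3 1 := rfl
  have h1 : PT 3 1 = w := by decide
  rw [h, hp, h1]
  simp [dt]

theorem nv6 (N : Fin 3 → Fin 3 → F4) :
    (nv N 6).2 = N 2 0 + N 2 2 + (N 0 0 + N 0 2) := by
  have hp : frob ∘ PT 6 = ![1, 0, 1] := by decide
  have h : (nv N 6).2 = dt (N 2) (frob ∘ PT 6) + dt (N 0) (frob ∘ PT 6) * PT 6 2 := rfl
  have h1 : PT 6 2 = 1 := by decide
  rw [h, hp, h1]
  simp [dt]

theorem allzero {g : Fin 21 → F4 × F4} (hg : ∀ l, sec l = true → Good l g)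
    (g0 : g 0 = 0) (g1 : g 1 = 0) (g5 : g 5 = 0) (y2 : fl (PL 2 4) (JJ 2 4) (g 2) = 0)
    (y3 : fl (PL 3 4) (JJ 3 4) (g 3) = 0) (z6 : fl (PL 6 0) (JJ 6 0) (g 6) = 0) :
    ∀ x, g x = 0 := by
  have l0 := zl hg 0 0 1 (by decide) (by decide) (zp 0 0 g1) (zp 0 1 g5)
  have l1 := zl hg 1 0 1 (by decide) (by decide) (zp 1 0 g0) (zp 1 1 g5)
  have l5 := zl hg 5 0 1 (by decide) (by decide) (zp 5 0 g0) (zp 5 1 g1)
  have g2 := zx (g := g) 2 0 4 (by decide) (l5 2) y2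
  have g3 := zx (g := g) 3 0 4 (by decide) (l5 3) y3
  have g6 := zx (g := g) 6 0 4 (by decide) z6 (l1 2)
  have l8 := zl hg 8 0 1 (by decide) (by decide) (zp 8 0 g2) (zp 8 1 g6)
  have l10 := zl hg 10 0 1 (by decide) (by decide) (zp 10 0 g3) (zp 10 1 g6)
  have g7 := zx (g := g) 7 1 4 (by decide) (l8 2) (l0 2)
  have g17 := zx (g := g) 17 1 4 (by decide) (l10 3) (l0 4)
  have l13 := zl hg 13 0 4 (by decide) (by decide) (zp 13 0 g2) (zp 13 4 g17)
  have l20 := zl hg 20 0 1 (by decide) (by decide) (zp 20 0 g3) (zp 20 1 g7)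
  have g10 := zx (g := g) 10 1 3 (by decide) (l20 2) (l13 1)
  have g11 := zx (g := g) 11 1 4 (by decide) (l20 3) (l1 3)
  have g16 := zx (g := g) 16 3 4 (by decide) (l13 3) (l1 4)
  have l14 := zl hg 14 1 4 (by decide) (by decide) (zp 14 1 g7) (zp 14 4 g16)
  have l15 := zl hg 15 0 4 (by decide) (by decide) (zp 15 0 g3) (zp 15 4 g16)
  have l18 := zl hg 18 0 2 (by decide) (by decide) (zp 18 0 g2) (zp 18 2 g11)
  have l19 := zl hg 19 2 3 (by decide) (by decide) (zp 19 2 g11) (zp 19 3 g17)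
  have g4 := zx (g := g) 4 0 1 (by decide) (l5 4) (l14 0)
  have g8 := zx (g := g) 8 2 3 (by decide) (l15 1) (l19 1)
  have g9 := zx (g := g) 9 1 2 (by decide) (l14 2) (l18 1)
  have g12 := zx (g := g) 12 2 3 (by decide) (l18 3) (l15 2)
  have g13 := zx (g := g) 13 1 3 (by decide) (l14 3) (l10 2)
  have g15 := zx (g := g) 15 1 2 (by decide) (l8 3) (l15 3)
  have g19 := zx (g := g) 19 1 3 (by decide) (l8 4) (l19 4)
  have g20 := zx (g := g) 20 2 3 (by decide) (l18 4) (l10 4)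
  have l9 := zl hg 9 0 1 (by decide) (by decide) (zp 9 0 g4) (zp 9 1 g6)
  have g14 := zx (g := g) 14 2 3 (by decide) (l9 3) (l13 2)
  have g18 := zx (g := g) 18 1 2 (by decide) (l20 4) (l9 4)
  intro x
  fin_cases x
  all_goals assumption

theorem norm_aux2 : ∀ (s t a b y2 y3 : F4), y2 + a + b = s → y3 + a + b = t →
    y2 + (a + (s + (t + z * s)) + ((t + z * s) + b)) = 0 ∧
    y3 + (a + (s + (t + z * s)) * z + ((t + z * s) + b * z) * w) = 0 := by
  decide +kernel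

/-- Goodness on the secants implies goodness on all lines. -/
theorem good_all {b : Fin 21 → F4 × F4} (hb : ∀ l, sec l = true → Good l b) (l : Fin 21) :
    Good l b := by
  obtain ⟨s, hs⟩ : ∃ s, s = (b 2).1 + (b 0).1 + (b 1).1 := ⟨_, rfl⟩
  obtain ⟨t, ht⟩ : ∃ t, t = (b 3).1 + (b 0).1 + (b 1).1 := ⟨_, rfl⟩
  let N : Fin 3 → Fin 3 → F4 :=
    ![![t + z * s, (b 1).1, (b 5).1], ![(b 0).1, s + (t + z * s), (b 5).2],
      ![(b 0).2, (b 1).2, (b 6).2 + (b 0).2 + (t + z * s) + (b 5).1]]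
  have hz : ∀ x, (b + nv N) x = 0 := by
    apply allzero
    · exact fun l hl => Good_add (hb l hl) (Good_nv N l)
    · rw [Pi.add_apply, nv0]
      exact Prod.ext (add_self _) (add_self _)
    · rw [Pi.add_apply, nv1]
      exact Prod.ext (add_self _) (add_self _)
    · rw [Pi.add_apply, nv5]
      exact Prod.ext (add_self _) (add_self _)
    · rw [fl_dir]
      have h1 : fk 4 ((b + nv N) 2) = (b 2).1 + (nv N 2).1 := rfl
      rw [h1, nv2]
      have h2 := (norm_aux2 s t (b 0).1 (b 1).1 (b 2).1 (b 3).1 hs.symm ht.symm).1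
      have h3 : (b 2).1 + (N 1 0 + N 1 1 + (N 0 0 + N 0 1)) = 0 := h2
      rw [h3, mul_zero]
    · rw [fl_dir]
      have h1 : fk 4 ((b + nv N) 3) = (b 3).1 + (nv N 3).1 := rfl
      rw [h1, nv3]
      have h2 := (norm_aux2 s t (b 0).1 (b 1).1 (b 2).1 (b 3).1 hs.symm ht.symm).2
      have h3 : (b 3).1 + (N 1 0 + N 1 1 * z + (N 0 0 + N 0 1 * z) * w) = 0 := h2
      rw [h3, mul_zero]
    · rw [fl_dir]
      have h1 : fk 0 ((b + nv N) 6) = (b 6).2 + (nv N 6).2 + o * ((b + nv N) 6).1 := rfl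
      have h0 : ∀ y : F4, o * y = 0 := by decide
      rw [h1, nv6, h0, add_zero]
      have h2 : ∀ p q r u : F4, p + (q + (p + q + r + u) + (r + u)) = 0 := by decide +kernel
      have h3 : (b 6).2 + (N 2 0 + N 2 2 + (N 0 0 + N 0 2)) = 0 := h2 _ _ _ _
      rw [h3, mul_zero]
  have hbn : b = nv N := by
    funext x
    have h := hz x
    rw [Pi.add_apply] at h
    have e1 : ∀ p q : F4 × F4, p + q = 0 → p = q := by decide
    exact e1 _ _ h
  rw [hbn]
  exact Good_nv N l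

end PosBB

end Pool.Agent.Lib.MP_4dc748_co.TE
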