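import Pool.Agent.Lib.MP_4dc748_co.TE.PosBB

/-!
# The strips of the secants of the third structure
-/

set_option autoImplicit false

namespace Pool.Agent.Lib.MP_4dc748_co.TE

open F4

namespace PosBC

open PosBA PosBB

/-- The numbers of points of the classes of the third structure (a copy). -/
def uu : Fin 21 → ℕ := ![3, 3, 7, 7, 7, 3, 7, 7, 3, 3, 3, 7, 7, 3, 3, 3, 7, 7, 3, 3, 3]

/-- The upper bound on the segments of a class on a secant. -/
def cc (l : Fin 21) (j : Fin 5) : ℕ := if uu (LP l j) = 7 then 2 else 1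

theorem uu_cases : ∀ x, uu x = 7 ∨ uu x = 3 := by decide

theorem sumW : ∀ l, sec l = true → ∑ j : Fin 5, uu (LP l j) = 27 := by decide

theorem sumcc : ∀ l, sec l = true → ∑ j : Fin 5, cc l j = 8 := by decide

theorem W_eq (A : CArc) (h : ∀ x, (A.K x).card = uu x) (l : Fin 21) :
    A.W l = ∑ j : Fin 5, uu (LP l j) := by
  unfold CArc.W
  exact Finset.sum_congr rfl fun j _ => h _

theorem le_mx (g : F4 → ℕ) (t : F4) : g t ≤ mx g := by
  unfold mx
  cases t
  · exact le_trans (le_max_left _ _) (le_max_left _ _)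
  · exact le_trans (le_max_right _ _) (le_max_left _ _)
  · exact le_trans (le_max_left _ _) (le_max_right _ _)
  · exact le_trans (le_max_right _ _) (le_max_right _ _)

theorem mexists (g : F4 → ℕ) (c : ℕ) (h4 : g o + g i + g w + g z + 1 = 4 * c)
    (hc : ∀ t, g t ≤ c) : ∃ m, ∀ t, g t + (if t = m then 1 else 0) = c := by
  have h0 := hc o
  have h1 := hc i
  have h2 := hc w
  have h3 := hc z
  have : (g o + 1 = c ∧ g i = c ∧ g w = c ∧ g z = c) ∨ (g o = c ∧ g i + 1 = c ∧ g w = c ∧ g z = c) ∨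
      (g o = c ∧ g i = c ∧ g w + 1 = c ∧ g z = c) ∨ (g o = c ∧ g i = c ∧ g w = c ∧ g z + 1 = c) := by
    omega
  rcases this with ⟨a, b, c', d⟩ | ⟨a, b, c', d⟩ | ⟨a, b, c', d⟩ | ⟨a, b, c', d⟩
  · refine ⟨o, fun t => ?_⟩
    cases t <;> simp [a, b, c', d]
  · refine ⟨i, fun t => ?_⟩
    cases t <;> simp [a, b, c', d]
  · refine ⟨w, fun t => ?_⟩
    cases t <;> simp [a, b, c', d]
  · refine ⟨z, fun t => ?_⟩
    cases t <;> simp [a, b, c', d]

/-- The vectors on a secant. -/
theorem vec (A : CArc) (h : ∀ x, (A.K x).card = uu x) (l : Fin 21) (hs : sec l = true)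
    (j : Fin 5) : ∃ m, ∀ t, A.G l j t + (if t = m then 1 else 0) = cc l j := by
  have h1 := cap_mx A l j
  rw [W_eq A h, sumW l hs, h] at h1
  have h2 := G_sum A l j
  rw [h] at h2
  unfold cc
  rcases uu_cases (LP l j) with hu | hu
  · rw [if_pos hu]
    refine mexists _ 2 (by omega) fun t => ?_
    have := le_mx (A.G l j) t
    omega
  · rw [if_neg (by omega)]
    refine mexists _ 1 (by omega) fun t => ?_
    have := le_mx (A.G l j) t
    omega

theorem cover2 : ∀ m0 m1 : F4, ∃ p : F4 × F4, m0 = fk 0 p ∧ m1 = fk 1 p := by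
  decide +kernel

theorem cover1 : ∀ (p : F4 × F4) (m2 m3 m4 : F4),
    (∀ q : F4 × F4, fk 0 q = fk 0 p ∨ fk 1 q = fk 1 p ∨ fk 2 q = m2 ∨ fk 3 q = m3 ∨ fk 4 q = m4) →
    m2 = fk 2 p ∧ m3 = fk 3 p ∧ m4 = fk 4 p := by
  decide +kernel

theorem cover (m0 m1 m2 m3 m4 : F4)
    (h : ∀ p : F4 × F4, fk 0 p = m0 ∨ fk 1 p = m1 ∨ fk 2 p = m2 ∨ fk 3 p = m3 ∨ fk 4 p = m4) :
    ∃ p : F4 × F4, m0 = fk 0 p ∧ m1 = fk 1 p ∧ m2 = fk 2 p ∧ m3 = fk 3 p ∧ m4 = fk 4 p := by
  obtain ⟨p, rfl, rfl⟩ := cover2 m0 m1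
  exact ⟨p, rfl, rfl, cover1 p m2 m3 m4 h⟩

theorem conc (A : CArc) (h : ∀ x, (A.K x).card = uu x) (l : Fin 21) (hs : sec l = true) :
    ∃ a b : F4, ∀ j t, A.G l j t + (if t = fk j (a, b) then 1 else 0) = cc l j := by
  choose m hm using vec A h l hs
  have hc : ∀ a b : F4, ∃ j, fk j (a, b) = m j := by
    intro a b
    by_contra hcon
    push Not at hcon
    have h1 := A.strip l a b
    have h2 : ∑ j : Fin 5, A.G l j (fk j (a, b)) = ∑ j : Fin 5, cc l j := by
      refine Finset.sum_congr rfl fun j _ => ?_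
      have := hm j (fk j (a, b))
      rw [if_neg (hcon j)] at this
      simpa using this
    rw [h2, sumcc l hs] at h1
    omega
  obtain ⟨⟨a, b⟩, h0, h1, h2, h3, h4⟩ := cover (m 0) (m 1) (m 2) (m 3) (m 4) (by
    rintro ⟨a, b⟩
    obtain ⟨j, hj⟩ := hc a b
    fin_cases j
    · exact Or.inl hj
    · exact Or.inr (Or.inl hj)
    · exact Or.inr (Or.inr (Or.inl hj))
    · exact Or.inr (Or.inr (Or.inr (Or.inl hj)))
    · exact Or.inr (Or.inr (Or.inr (Or.inr hj))))
  refine ⟨a, b, fun j t => ?_⟩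
  have hmj : m j = fk j (a, b) := by
    fin_cases j
    · exact h0
    · exact h1
    · exact h2
    · exact h3
    · exact h4
  rw [← hmj]
  exact hm j t

theorem tau_bij (l : Fin 21) : Function.Bijective (tau l) := by
  unfold tau
  by_cases hl : TAUL.getD l.1 0 = 1
  · simp only [hl, if_true]
    exact frob.bijective
  · simp only [hl, if_false]
    exact Function.bijective_id

/-- The sum of the functional over the points of a class, by segments. -/
theorem fl_beta (A : CArc) (l : Fin 21) (j : Fin 5) :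
    fl l j (beta A (LP l j)) = ∑ t : F4, A.G l j t • (RR l j * tau l t) := by
  unfold beta
  rw [fl_sum]
  have hb : Function.Bijective (fun t => RR l j * tau l t) := by
    have h1 : Function.Bijective (fun y : F4 => RR l j * y) :=
      mulLeft_bijective₀ _ (RR_ne l j)
    exact h1.comp (tau_bij l)
  let e := Equiv.ofBijective _ hb
  rw [← Finset.sum_fiberwise (A.K (LP l j)) (fun p => fl l j p) (fun p => fl l j p)]
  rw [← Equiv.sum_comp e]
  refine Finset.sum_congr rfl fun t _ => ?_
  have he : e t = RR l j * tau l t := rfl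
  rw [he]
  rw [Finset.sum_congr rfl (g := fun _ => RR l j * tau l t)
    (fun p hp => (Finset.mem_filter.mp hp).2), Finset.sum_const]
  rfl

theorem sum_def (ρ : F4) (f : F4 → F4) (g : F4 → ℕ) (c : ℕ) (m : F4)
    (hf : f = id ∨ f = fr) (hg : ∀ t, g t + (if t = m then 1 else 0) = c) :
    ∑ t : F4, g t • (ρ * f t) = ρ * f m := by
  have key : ∀ (ρ : F4) (m : F4) (b : Bool) (b' : Bool),
      (∑ t : F4, (if (if t = m then xor b true else b) then
        (ρ * (if b' then fr t else t)) else 0)) = ρ * (if b' then fr m else m) := by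
    decide +kernel
  have hk : ∀ t, g t • (ρ * f t) = if (if t = m then xor (decide (c % 2 = 1)) true else
      decide (c % 2 = 1)) then (ρ * f t) else 0 := by
    intro t
    rw [nsmul_eq]
    have := hg t
    by_cases htm : t = m
    · rw [if_pos htm] at this ⊢
      by_cases hc : c % 2 = 1
      · rw [if_neg (by omega)]
        simp [hc]
      · rw [if_pos (by omega)]
        simp [hc]
    · rw [if_neg htm] at this ⊢
      by_cases hc : c % 2 = 1
      · rw [if_pos (by omega)]
        simp [hc]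
      · rw [if_neg (by omega)]
        simp [hc]
  rw [Finset.sum_congr rfl fun t _ => hk t]
  rcases hf with rfl | rfl
  · exact key ρ m _ false
  · exact key ρ m _ true

theorem tau_cases (l : Fin 21) : tau l = id ∨ tau l = fr := by
  by_cases hl : TAUL.getD l.1 0 = 1
  · right
    funext t
    simp only [tau, hl, if_true]
  · left
    funext t
    simp only [tau, hl, if_false, id]

theorem good_sec (A : CArc) (h : ∀ x, (A.K x).card = uu x) (l : Fin 21) (hs : sec l = true) :
    Good l (beta A) := by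
  obtain ⟨a, b, hab⟩ := conc A h l hs
  refine ⟨CV l a b, fun j => ?_⟩
  rw [fl_beta, sum_def (RR l j) (tau l) (A.G l j) (cc l j) (fk j (a, b)) (tau_cases l) (hab j),
    strip_eq]

end PosBC

end Pool.Agent.Lib.MP_4dc748_co.TE
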