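import Pool.Agent.Lib.MP_4dc748_co.TE.PosBD

/-!
# Soundness of the searches for the third structure
-/

set_option autoImplicit false

namespace Pool.Agent.Lib.MP_4dc748_co.TE

open F4

namespace PosBE

open PosBA PosBB PosBC PosBD

theorem allL_spec {f : ℕ → Bool} {L : List ℕ} (h : allL f L = true) {a : ℕ} (ha : a ∈ L) :
    f a = true := by
  induction L with
  | nil => exact absurd ha (by simp)
  | cons b L ih =>
    simp only [allL, Bool.and_eq_true] at h
    rcases List.mem_cons.mp ha with rfl | h1
    · exact h.1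
    · exact ih h.2 h1

theorem packL_add (f g : F4 × F4 → ℕ) (ps : List (F4 × F4)) :
    packL f ps + packL g ps = packL (fun p => f p + g p) ps := by
  induction ps with
  | nil => rfl
  | cons p ps ih =>
    simp only [packL]
    rw [← ih]
    ring

theorem packL_lt (f : F4 × F4 → ℕ) (hf : ∀ p, f p ≤ 7) (ps : List (F4 × F4)) :
    packL f ps < 32 ^ ps.length := by
  induction ps with
  | nil => simp [packL]
  | cons p ps ih =>
    simp only [packL, List.length_cons, pow_succ]
    have := hf p
    omega

/-- Bits 3 and 4 of n digits. -/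
def maskN : ℕ → ℕ
  | 0 => 0
  | n + 1 => 24 + 32 * maskN n

theorem mask_eq : maskN 16 = MASK := by decide +kernel

theorem packL_land (f : F4 × F4 → ℕ) (hf : ∀ p, f p ≤ 7) (ps : List (F4 × F4)) (X : ℕ) :
    Nat.land (packL f ps + 32 ^ ps.length * X) (maskN ps.length) = 0 := by
  induction ps with
  | nil => exact Nat.and_zero _
  | cons p ps ih =>
    simp only [packL, List.length_cons, maskN, pow_succ]
    have h1 : f p + 32 * packL f ps + 32 ^ ps.length * 32 * X =
        2 ^ 5 * (packL f ps + 32 ^ ps.length * X) + f p := by ring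
    have h2 : 24 + 32 * maskN ps.length = 2 ^ 5 * maskN ps.length + 24 := by ring
    rw [h1, h2]
    apply Nat.eq_of_testBit_eq
    intro k
    have hp := hf p
    have e1 := Nat.testBit_two_pow_mul_add (packL f ps + 32 ^ ps.length * X)
      (b := f p) (i := 5) (by omega) k
    have e2 := Nat.testBit_two_pow_mul_add (maskN ps.length) (b := 24) (i := 5) (by norm_num) k
    have e3 : (Nat.land (2 ^ 5 * (packL f ps + 32 ^ ps.length * X) + f p)
        (2 ^ 5 * maskN ps.length + 24)).testBit k =
        ((2 ^ 5 * (packL f ps + 32 ^ ps.length * X) + f p).testBit k &&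
          (2 ^ 5 * maskN ps.length + 24).testBit k) := Nat.testBit_and _ _ _
    rw [e3, e1, e2, Nat.zero_testBit]
    by_cases hk : k < 5
    · rw [if_pos hk, if_pos hk]
      have : ∀ v : Fin 8, ∀ k : Fin 5, (v.1.testBit k.1 && Nat.testBit 24 k.1) = false := by
        decide
      exact this ⟨f p, by omega⟩ ⟨k, hk⟩
    · rw [if_neg hk, if_neg hk, ← Nat.testBit_and]
      have : (packL f ps + 32 ^ ps.length * X) &&& maskN ps.length = 0 := ih
      rw [this, Nat.zero_testBit]

theorem opt_three : ∀ x : Fin 21, uu x = 3 → ∀ p q : F4 × F4,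
    (∀ k : Fin 5, sec (PL x k) = true →
      fk k p ≠ fk k q ∧ fk k p ≠ fk k (p + q) ∧ fk k q ≠ fk k (p + q)) →
    ∃ a : Fin 6, optS x a.1 = {p, q, p + q} := by
  decide +kernel

theorem cnt_opt : ∀ l : Fin 21, sec l = false → ∀ j : Fin 5, uu (LP l j) = 3 → ∀ a : Fin 6,
    ∀ t : F4, ((optS (LP l j) a.1).filter (fun p => fl l j p = RR l j * tau l t)).card =
      gv (GT l j a.1) t := by
  decide +kernel

theorem E_mem : ∀ l : Fin 21, sec l = false → ∀ j : Fin 5, ∀ a : Fin (nO l j),
    packL (fun p => gv (GT l j a.1) (fk j p)) pts + 2 ^ 96 * (WT l j * a.1) ∈ E l j := by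
  decide +kernel

end PosBE

end Pool.Agent.Lib.MP_4dc748_co.TE
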