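import Pool.Agent.Lib.MP_4dc748_co.TE.PosBE

/-!
# The classes of an arc with vanishing sums, third structure
-/

set_option autoImplicit false

namespace Pool.Agent.Lib.MP_4dc748_co.TE

open F4

namespace PosBF

open PosBA PosBB PosBC PosBD PosBE

theorem dist (A : CArc) (h : ∀ x, (A.K x).card = uu x) (l : Fin 21) (hs : sec l = true)
    (j : Fin 5) (hj : uu (LP l j) = 3) {p q : F4 × F4} (hp : p ∈ A.K (LP l j))
    (hq : q ∈ A.K (LP l j)) (hpq : p ≠ q) : fl l j p ≠ fl l j q := by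
  intro he
  obtain ⟨m, hm⟩ := vec A h l hs j
  obtain ⟨y, hy⟩ : ∃ y, y = (RR l j)⁻¹ * fl l j p := ⟨_, rfl⟩
  obtain ⟨t, ht⟩ := (tau_bij l).2 y
  have hfp : fl l j p = RR l j * tau l t := by
    rw [ht, hy, ← mul_assoc, mul_inv_cancel₀ (RR_ne l j), one_mul]
  have h1 : A.G l j t ≤ 1 := by
    have h5 := hm t
    have h6 : cc l j = 1 := by
      unfold cc
      rw [hj]
      rfl
    omega
  have h2 : ∀ a ∈ (A.K (LP l j)).filter (fun p => dt (PT l) (DEC (LP l j) p) = RR l j * tau l t),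
      ∀ b ∈ (A.K (LP l j)).filter (fun p => dt (PT l) (DEC (LP l j) p) = RR l j * tau l t),
      a = b := Finset.card_le_one.mp h1
  refine hpq (h2 p ?_ q ?_)
  · exact Finset.mem_filter.mpr ⟨hp, hfp⟩
  · exact Finset.mem_filter.mpr ⟨hq, he.symm.trans hfp⟩

theorem optN (A : CArc) (h : ∀ x, (A.K x).card = uu x) (hb : ∀ x, beta A x = 0) (x : Fin 21)
    (hx : uu x = 3) : ∃ a : Fin 6, A.K x = optS x a.1 := by
  obtain ⟨p, q, r, hpq, hpr, hqr, hK⟩ := Finset.card_eq_three.mp ((h x).trans hx)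
  have hs := hb x
  unfold beta at hs
  rw [hK, Finset.sum_insert (by simp [hpq, hpr]), Finset.sum_insert (by simp [hqr]),
    Finset.sum_singleton] at hs
  have hr : r = p + q := by
    have : ∀ (u v : F4 × F4), u + v = 0 → v = u := by decide
    refine this (p + q) r ?_
    rw [add_assoc]
    exact hs
  have hp : p ∈ A.K x := by rw [hK]; simp
  have hq : q ∈ A.K x := by rw [hK]; simp
  have hr' : p + q ∈ A.K x := by rw [hK, hr]; simp
  have hd : ∀ k : Fin 5, sec (PL x k) = true → ∀ u v : F4 × F4, u ∈ A.K x → v ∈ A.K x → u ≠ v →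
      fk k u ≠ fk k v := by
    intro k hk u v hu hv huv he
    have hl := (LP_PL x k).1
    refine dist A h (PL x k) hk (JJ x k) (by rw [hl]; exact hx) (p := u) (q := v)
      (by rw [hl]; exact hu) (by rw [hl]; exact hv) huv ?_
    rw [fl_dir, fl_dir, he]
  obtain ⟨a, ha⟩ := opt_three x hx p q (fun k hk =>
    ⟨hd k hk _ _ hp hq hpq, hd k hk _ _ hp hr' (hr ▸ hpr), hd k hk _ _ hq hr' (hr ▸ hqr)⟩)
  exact ⟨a, by rw [ha, hK, hr]⟩

theorem pat_aux : ∀ a b c d : Fin 5, vid a.1 b.1 c.1 d.1 = 21 → ∃ s t : F4, s ≠ t ∧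
    (a.1 = if o = s then 3 else if o = t then 4 else 0) ∧
    (b.1 = if i = s then 3 else if i = t then 4 else 0) ∧
    (c.1 = if w = s then 3 else if w = t then 4 else 0) ∧
    (d.1 = if z = s then 3 else if z = t then 4 else 0) := by
  decide +kernel

theorem pat (g : F4 → ℕ) (h4 : ∀ t, g t ≤ 4) (h : vecOf g = 21) :
    ∃ s t : F4, s ≠ t ∧ ∀ u, g u = if u = s then 3 else if u = t then 4 else 0 := by
  have h0 := h4 o
  have h1 := h4 i
  have h2 := h4 w
  have h3 := h4 z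
  obtain ⟨s, t, hst, e0, e1, e2, e3⟩ := pat_aux ⟨g o, by omega⟩ ⟨g i, by omega⟩ ⟨g w, by omega⟩
    ⟨g z, by omega⟩ h
  refine ⟨s, t, hst, fun u => ?_⟩
  cases u
  · exact e0
  · exact e1
  · exact e2
  · exact e3

theorem type7 : ∀ t ∈ TYL, t.1 = 7 → t.2 = [13, 13, 13, 13, 21] := by decide

theorem one_tan : ∀ x : Fin 21, uu x = 7 → ∀ k k' : Fin 5, sec (PL x k) = false →
    sec (PL x k') = false → k = k' := by decide

theorem vec13 : ∀ m : F4, ∀ g : Fin 3 × Fin 3 × Fin 3 × Fin 3,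
    (g.1.1 + (if o = m then 1 else 0) = 2 ∧ g.2.1.1 + (if i = m then 1 else 0) = 2 ∧
      g.2.2.1.1 + (if w = m then 1 else 0) = 2 ∧ g.2.2.2.1 + (if z = m then 1 else 0) = 2) →
    vid g.1.1 g.2.1.1 g.2.2.1.1 g.2.2.2.1 ≠ 21 := by
  decide +kernel

theorem vec_ne (g : F4 → ℕ) (m : F4) (hg : ∀ t, g t + (if t = m then 1 else 0) = 2) :
    vecOf g ≠ 21 := by
  have h0 := hg o
  have h1 := hg i
  have h2 := hg w
  have h3 := hg z
  exact vec13 m (⟨g o, by omega⟩, ⟨g i, by omega⟩, ⟨g w, by omega⟩, ⟨g z, by omega⟩)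
    ⟨h0, h1, h2, h3⟩

theorem tan_H (l : Fin 21) (hl : sec l = false) (j : Fin 5) (hj : uu (LP l j) = 7)
    (A : CArc) (h : ∀ x, (A.K x).card = uu x) : vecOf (A.G l j) = 21 := by
  obtain ⟨t, ht, h1, h2⟩ := type_of A (LP l j)
  have h3 := type7 t ht (by rw [h1, h, hj])
  rw [h3] at h2
  have h4 : (21 : ℕ) ∈ (Finset.univ.val.map (A.V' (LP l j)) : Multiset ℕ) := by
    rw [h2]; decide
  obtain ⟨k, _, hk⟩ := Multiset.mem_map.mp h4
  rw [V'_eq] at hk
  have h5 : sec (PL (LP l j) k) = false := by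
    by_contra hc
    rw [Bool.not_eq_false] at hc
    obtain ⟨m, hm⟩ := vec A h _ hc (JJ (LP l j) k)
    unfold cc at hm
    rw [(LP_PL (LP l j) k).1, if_pos hj] at hm
    exact vec_ne _ m hm hk
  obtain ⟨e1, e2⟩ := PL_LP l j
  have h6 : k = KK l j := one_tan _ hj _ _ h5 (by rw [e1]; exact hl)
  rw [h6, e1, e2] at hk
  exact hk

theorem tau_zero (l : Fin 21) : tau l o = o := by
  rcases tau_cases l with h | h <;> rw [h] <;> rfl

theorem gvH : ∀ l : Fin 21, sec l = false → ∀ j : Fin 5, uu (LP l j) = 7 → ∀ t : F4,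
    gv (GT l j 0) t = (if t = o then 3 else if t = i then 4 else 0) ∧
    gv (GT l j 1) t = (if t = o then 3 else if t = w then 4 else 0) ∧
    gv (GT l j 2) t = (if t = o then 3 else if t = z then 4 else 0) := by
  decide +kernel

theorem optH (A : CArc) (h : ∀ x, (A.K x).card = uu x) (hb : ∀ x, beta A x = 0) (l : Fin 21)
    (hl : sec l = false) (j : Fin 5) (hj : uu (LP l j) = 7) :
    ∃ a < 3, ∀ t, A.G l j t = gv (GT l j a) t := by
  obtain ⟨s, t, hst, hg⟩ := pat (A.G l j) (G_le A l j) (tan_H l hl j hj A h)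
  have h1 := fl_beta A l j
  rw [hb, fl_zero] at h1
  have h2 : ∑ u : F4, A.G l j u • (RR l j * tau l u) = RR l j * tau l s := by
    rw [Finset.sum_eq_single s]
    · rw [nsmul_eq, hg, if_pos rfl]
      simp
    · intro u _ hu
      rw [nsmul_eq, hg, if_neg hu]
      by_cases hut : u = t
      · simp [hut]
      · simp [hut]
    · intro hc
      exact absurd (Finset.mem_univ s) hc
  rw [h2] at h1
  have h3 : tau l s = 0 := (mul_eq_zero.mp h1.symm).resolve_left (RR_ne l j)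
  have h4 : s = o := (tau_bij l).1 (h3.trans (tau_zero l).symm)
  subst h4
  have hv := gvH l hl j hj
  cases t with
  | o => exact absurd rfl hst
  | i => exact ⟨0, by norm_num, fun u => by rw [hg, (hv u).1]⟩
  | w => exact ⟨1, by norm_num, fun u => by rw [hg, (hv u).2.1]⟩
  | z => exact ⟨2, by norm_num, fun u => by rw [hg, (hv u).2.2]⟩

theorem WT_zero : ∀ l : Fin 21, sec l = false → ∀ j : Fin 5, uu (LP l j) = 7 → WT l j = 0 := by
  decide

theorem line_tb (A : CArc) (h : ∀ x, (A.K x).card = uu x) (hb : ∀ x, beta A x = 0)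
    (O : Fin 21 → ℕ) (hO : ∀ x, uu x = 3 → O x < 6 ∧ A.K x = optS x (O x)) (l : Fin 21)
    (hl : sec l = false) : tb (TT l) (∑ j : Fin 5, WT l j * O (LP l j)) = true := by
  have h1 : ∀ j, ∃ a : Fin (nO l j), (∀ t, A.G l j t = gv (GT l j a.1) t) ∧
      WT l j * a.1 = WT l j * O (LP l j) := by
    intro j
    rcases uu_cases (LP l j) with hu | hu
    · obtain ⟨a, ha, hg⟩ := optH A h hb l hl j hu
      refine ⟨⟨a, by unfold nO; rw [if_pos hu]; exact ha⟩, hg, ?_⟩
      rw [WT_zero l hl j hu, zero_mul, zero_mul]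
    · obtain ⟨ha, hK⟩ := hO _ hu
      refine ⟨⟨O (LP l j), by unfold nO; rw [if_neg (by omega)]; exact ha⟩, fun t => ?_, rfl⟩
      rw [← cnt_opt l hl j hu ⟨O (LP l j), ha⟩ t, ← hK]
      rfl
  choose a ha hw using h1
  have hph := ph1_true l hl
  unfold ph1 at hph
  have p0 := allL_spec hph (E_mem l hl 0 (a 0))
  have p1 := allL_spec p0 (E_mem l hl 1 (a 1))
  have p2 := allL_spec p1 (E_mem l hl 2 (a 2))
  have p3 := allL_spec p2 (E_mem l hl 3 (a 3))
  have p4 := allL_spec p3 (E_mem l hl 4 (a 4))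
  simp only [Nat.add_eq, hw, ← ha] at p4
  obtain ⟨F, hF⟩ : ∃ F : F4 × F4 → ℕ, F = fun p => ∑ j : Fin 5, A.G l j (fk j p) := ⟨_, rfl⟩
  have hF7 : ∀ p, F p ≤ 7 := by
    intro p
    rw [hF]
    exact A.strip l p.1 p.2
  have hs : packL (fun p => A.G l 0 (fk 0 p)) pts + 2 ^ 96 * (WT l 0 * O (LP l 0)) +
      (packL (fun p => A.G l 1 (fk 1 p)) pts + 2 ^ 96 * (WT l 1 * O (LP l 1))) +
      (packL (fun p => A.G l 2 (fk 2 p)) pts + 2 ^ 96 * (WT l 2 * O (LP l 2))) +
      (packL (fun p => A.G l 3 (fk 3 p)) pts + 2 ^ 96 * (WT l 3 * O (LP l 3))) +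
      (packL (fun p => A.G l 4 (fk 4 p)) pts + 2 ^ 96 * (WT l 4 * O (LP l 4))) =
      packL F pts + 32 ^ pts.length * (2 ^ 16 * ∑ j : Fin 5, WT l j * O (LP l j)) := by
    have hFe : F = fun p => A.G l 0 (fk 0 p) + A.G l 1 (fk 1 p) + A.G l 2 (fk 2 p) +
        A.G l 3 (fk 3 p) + A.G l 4 (fk 4 p) := by
      rw [hF]
      funext p
      rw [Fin.sum_univ_five]
    rw [hFe, ← packL_add, ← packL_add, ← packL_add, ← packL_add, Fin.sum_univ_five]
    have hl : pts.length = 16 := rfl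
    rw [hl]
    ring
  rw [hs] at p4
  have hland := packL_land F hF7 pts (2 ^ 16 * ∑ j : Fin 5, WT l j * O (LP l j))
  have hm : maskN pts.length = MASK := mask_eq
  rw [hm] at hland
  rw [hland] at p4
  have hlt := packL_lt F hF7 pts
  have hdiv : Nat.div (packL F pts + 32 ^ pts.length * (2 ^ 16 * ∑ j : Fin 5, WT l j * O (LP l j)))
      (2 ^ 96) = ∑ j : Fin 5, WT l j * O (LP l j) := by
    have e1 : packL F pts + 32 ^ pts.length * (2 ^ 16 * ∑ j : Fin 5, WT l j * O (LP l j)) =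
        packL F pts + 2 ^ 96 * ∑ j : Fin 5, WT l j * O (LP l j) := by
      have hl : pts.length = 16 := rfl
      rw [hl]
      ring
    rw [e1]
    have hlt2 : packL F pts < 2 ^ 96 := lt_of_lt_of_le hlt (by
      have hl : pts.length = 16 := rfl
      rw [hl]
      norm_num)
    have e2 : (packL F pts + 2 ^ 96 * ∑ j : Fin 5, WT l j * O (LP l j)) / 2 ^ 96 =
        ∑ j : Fin 5, WT l j * O (LP l j) := by
      rw [Nat.add_mul_div_left _ _ (by positivity), Nat.div_eq_of_lt hlt2, zero_add]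
    exact e2
  rw [hdiv] at p4
  simpa using p4

theorem orr {a b : Bool} (h : (!a || b) = true) (ha : a = true) : b = true := by
  rw [ha] at h
  simpa using h

end PosBF

end Pool.Agent.Lib.MP_4dc748_co.TE
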