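import Pool.Agent.Lib.MP_4dc748_co.TE.PosCD

/-!
# The first two exceptional structures have no arc

Plan (z = class 0, m = line 0 with the points LP 0 = 1, 5, 7, 12, 17; e = the exceptional class: 1 for uC1, on m, with
one point, and 2 for uC2, not on m, with 5 points; xi-lines = the 5 lines through z, their position of z is j = 0;
lambda-lines = the 15 other lines different from m).
Functional: for a class x let beta x = sum over p in K x of p (in F4 x F4, characteristic 2) and S l x =
dt (PT l) (DEC x (beta x)) = sum over p in K x of dt (PT l) (DEC x p) = RR l j * tau l (X (G l j)) where X g = the sum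
of the t with g t odd.
(1) Strip lemma 1 (kernel search over the orderings of the vectors, 16 sums at most 7; checked by computer, 96
solutions for each j0): if G : Fin 5 -> F4 -> Nat has vector 1100 or 2000 at position j0, vectors 2211, 2220 or 3300 at
the four other positions and all sums (sum over j of G j (fk j (a, b))) are at most 7, then the vector at j0 is
1100, exactly one of the others is 2220 and none is 3300, and there are a, b with X (G j) = fk j (a, b) for all j.
Hence, on a lambda-line l without e: S l x_j = dt c (frob o PT x_j), j = 0..4, for some c (namely c = CV l a b).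
(2) Strip lemma 2: with 1000 at j0 and 2211, 2220, 3300 at the other four positions at most one 2220 and no 3300 occur;
with 1100 or 2000 at j0, the vector of a class with 5 points (2111, 2210, 3200, 3110) at j1, and 2211, 2220, 3300 at
the three other positions at most one 2220 and no 3300 occur (20 pairs j0, j1).
(3) Hence each of the 15 lambda-lines has at most one 2220 among its classes with 6 points and no 3300. A class with 6
points has the vectors 2211, 2211, 2211, 2220, 3300 or five times 2220 (type_of), is on 4 lambda-lines and on one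
xi-line; in the first case its 3300 is in the direction of z and it contributes 1 to the number of 2220 on the
lambda-lines, in the second case it contributes 4. There are 15 (uC1) or 14 (uC2) such classes and the number of 2220
is at most 15, so the second case does not occur: all classes with 6 points have 3300 in the direction of z.
(4) Strip lemma 3: if G has 0000 at position 0, three vectors 3300 and at the remaining position j a vector 1100 or
2000 and all sums are at most 7 then the vector at j is 1100 and for the three positions i1, i2, i3 of the 3300 and the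
(unique up to a factor) d1, d2, d3 with d1 fk i1 p + d2 fk i2 p + d3 fk i3 p = 0 for all p: d1 X (G i1) = d2 X (G i2)
= d3 X (G i3). (j = 1: d = 1, 1, 1; j = 2: 1, 1, w; j = 3: 1, 1, z; j = 4: 1, w, z; the positions in increasing
order.) It applies to the xi-lines without e.
(5) A class y with two points on m, y not e, is on 3 lambda-lines and one xi-line; where (1) or (4) applies its vector is
1100. Its vectors are 1100 (four times) and 2000 once. For uC1 (uC2: use the caps, 2000 is impossible on a strip with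
W l = 25 or 26) the vector of y on all the lambda-lines and on its xi-line is 1100 (for the xi-line through e of uC2 not
needed), so it is 2000 in the direction of m: S 0 y = 0.
(6) Linear algebra over F4 (the unknowns are the 42 coordinates of beta): the equations of (1) (parity checks on the
lambda-lines without e), of (4) (xi-lines without e: d_i S l x_i equal for the three classes with 6 points, where
d1 (frob o PT x1) + d2 (frob o PT x2) + d3 (frob o PT x3) = 0) and S 0 y = 0 (y on m, y not e, y not on the xi-line of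
e) imply S l y = 0 for the xi-line l through y: for uC1 take y = 7, l = 7 (a combination of 12 equations), for uC2 take
y = 5, l = 1 (15 equations), see linC.py (function solve gives the coefficients). But the vector of y in the direction l
is 1100, so S l y is the sum of two different elements, a contradiction.
Scripts: /team-store/h49_pos.tgz (geo.py: tables, chk.py and chk2.py: the strip lemmas, linC.py: (6)).
-/

set_option autoImplicit false

namespace Pool.Agent.Lib.MP_4dc748_co.TE

open F4 PC

/-- The numbers of points of the classes of the first structure. -/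
def uC1 : Fin 21 → ℕ := ![0, 1, 6, 6, 6, 2, 6, 2, 6, 6, 6, 6, 2, 6, 6, 6, 6, 2, 6, 6, 6]

/-- The numbers of points of the classes of the second structure. -/
def uC2 : Fin 21 → ℕ := ![0, 2, 5, 6, 6, 2, 6, 2, 6, 6, 6, 6, 2, 6, 6, 6, 6, 2, 6, 6, 6]

/-- The lines of type 2, 6, 6, 6, 6 of the first structure with the position of the class with 2 points. -/
private def lA1 : List (Fin 21 × Fin 5) :=
  [(2, 1), (3, 1), (4, 1), (8, 2), (9, 2), (10, 3), (13, 4), (14, 1), (15, 2), (18, 3), (19, 3), (20, 1)]

/-- The lines of type 2, 6, 6, 6, 6 of the second structure. -/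
private def lA2 : List (Fin 21 × Fin 5) :=
  [(3, 1), (4, 1), (9, 2), (10, 3), (14, 1), (15, 2), (19, 3), (20, 1), (6, 0), (11, 0), (16, 0)]

/-- The lines of type 5, 2, 6, 6, 6 of the second structure. -/
private def lV2 : List (Fin 21 × Fin 5) := [(2, 1), (8, 2), (13, 4), (18, 3)]

private theorem linesA (A : CArc) (u : Fin 21 → ℕ) (h : ∀ x, (A.K x).card = u x)
    (L : List (Fin 21 × Fin 5)) (hL : ∀ q ∈ L, ∀ j, u (LP q.1 j) = if j = q.2 then 2 else 6) :
    ∀ q ∈ L, LamOK (fun j => vecOf (A.G q.1 j)) ∧ Par (fun j => X (A.G q.1 j)) := by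
  intro q hq
  have h1 := stripA (A.G q.1) (fun j t => G_le A q.1 j t) (A.strip q.1) q.2 (by
    intro j
    rw [← hL q hq j]
    exact al_V A u h q.1 j)
  exact ⟨h1.1.2, h1.2⟩

private theorem Rl_zero (A : CArc) (l : Fin 21) (q : Fin 5 → F4) (hq : ∀ j, q j = 0) : Rl A l q := by
  apply Rl_eq
  rw [hq, hq, hq, hq, hq]
  simp only [zero_mul, add_zero]

/-- The xi-line 7 (first structure) or 1 (second structure), both with the class with 2 points at position 1. -/
private theorem lineZ (A : CArc) (u : Fin 21 → ℕ) (h : ∀ x, (A.K x).card = u x)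
    (hd : ∀ x, u x = 6 → A.V' x (xk x) = 19) (l : Fin 21) (h0 : u (LP l 0) = 0)
    (h1 : u (LP l 1) = 2) (h6 : ∀ j, j ≠ 0 → j ≠ 1 → u (LP l j) = 6 ∧ KK l j = xk (LP l j)) :
    vecOf (A.G l 1) = 2 ∧ X (A.G l 2) = X (A.G l 4) ∧ X (A.G l 3) = X (A.G l 4) := by
  have e0 : al 0 (vecOf (A.G l 0)) := by
    rw [← h0]
    exact al_V A u h l 0
  have e1 : al 2 (vecOf (A.G l 1)) := by
    rw [← h1]
    exact al_V A u h l 1
  have e2 : ∀ j, j ≠ 0 → j ≠ 1 → vecOf (A.G l j) = 19 := by
    intro j hj0 hj1
    obtain ⟨h2, h3⟩ := h6 j hj0 hj1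
    have h4 := hd _ h2
    rw [← h3, ← V_eq] at h4
    exact h4
  obtain ⟨h5, h6⟩ := stripZ (A.G l) (fun j t => G_le A l j t) (A.strip l) 1 (Or.inl rfl) e0 e1 e2
  refine ⟨h5, ?_, ?_⟩
  · exact (h6 2 (by decide) (by decide)).trans (one_mul _)
  · exact (h6 3 (by decide) (by decide)).trans (one_mul _)

private theorem Rl_Z (A : CArc) (l : Fin 21) (q : Fin 5 → F4)
    (h2 : X (A.G l 2) = X (A.G l 4)) (h3 : X (A.G l 3) = X (A.G l 4))
    (hq : ∀ a b c : F4, q 0 * (RR l 0 * tau l a) + (q 1 * (RR l 1 * tau l b) +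
      (q 2 * (RR l 2 * tau l c) + (q 3 * (RR l 3 * tau l c) +
      q 4 * (RR l 4 * tau l c)))) = 0) : Rl A l q := by
  apply Rl_eq
  rw [h2, h3]
  exact hq _ _ _

/-- The coefficients for the first structure. -/
private def Q1 : List (List ℕ) :=
  [[0, 0, 0, 0, 0], [0, 0, 0, 0, 0], [3, 3, 3, 0, 0], [3, 1, 0, 0, 3], [3, 2, 0, 3, 0], [0, 0, 0, 0, 0],
   [0, 0, 0, 0, 0], [0, 0, 1, 2, 3], [2, 2, 2, 0, 0], [2, 3, 0, 1, 0], [2, 1, 0, 0, 3], [0, 0, 0, 0, 0],
   [0, 0, 0, 0, 0], [1, 0, 2, 3, 0], [1, 2, 0, 0, 1], [1, 3, 0, 0, 2], [0, 0, 0, 0, 0], [0, 0, 0, 0, 0],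
   [0, 0, 0, 0, 0], [0, 0, 0, 0, 0], [0, 0, 0, 0, 0]]

/-- The coefficients for the second structure. -/
private def Q2 : List (List ℕ) :=
  [[0, 0, 0, 0, 0], [0, 0, 1, 2, 3], [0, 0, 0, 0, 0], [2, 1, 0, 2, 0], [0, 1, 3, 3, 0], [0, 0, 0, 0, 0],
   [0, 3, 1, 2, 0], [0, 0, 0, 0, 0], [0, 0, 0, 0, 0], [2, 3, 0, 1, 0], [0, 0, 0, 0, 0], [0, 0, 0, 0, 0],
   [0, 0, 0, 0, 0], [0, 0, 0, 0, 0], [2, 0, 1, 0, 3], [0, 2, 0, 1, 3], [0, 1, 0, 2, 3], [0, 0, 0, 0, 0],
   [0, 0, 0, 0, 0], [2, 3, 1, 0, 0], [0, 0, 0, 0, 0]]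

theorem noC1 (A : CArc) (h : ∀ x, (A.K x).card = uC1 x) : False := by
  have hA := linesA A uC1 h lA1 (by decide +kernel)
  have hB : ∀ l ∈ ([6, 11, 16] : List (Fin 21)), LamOK (fun j => vecOf (A.G l j)) := by
    intro l hl
    have hp : ∀ l ∈ ([6, 11, 16] : List (Fin 21)), ∀ j, uC1 (LP l j) = if j = 0 then 1 else 6 := by
      decide +kernel
    exact stripB (A.G l) (fun j t => G_le A l j t) (A.strip l) (by
      intro j
      rw [← hp l hl j]
      exact al_V A uC1 h l j)
  have hL : ∀ l ∈ lamS, LamOK (fun j => vecOf (A.G l j)) := by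
    intro l hl
    have hc : ∀ l ∈ lamS, (∃ j, (l, j) ∈ lA1) ∨ l ∈ ([6, 11, 16] : List (Fin 21)) := by decide +kernel
    rcases hc l hl with ⟨j, hj⟩ | hj
    · exact (hA _ hj).1
    · exact hB l hj
  have hd := count_dir A uC1 h (by decide +kernel) (by decide +kernel) hL
  obtain ⟨hv, hz2, hz3⟩ := lineZ A uC1 h hd 7 (by decide +kernel) (by decide +kernel) (by decide +kernel)
  have hR : ∀ l, Rl A l (tq Q1 l) := by
    intro l
    have hc : ∀ l, (∃ j, (l, j) ∈ lA1 ∧ ∀ a b : F4, tq Q1 l 0 * (RR l 0 * tau l b) +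
      (tq Q1 l 1 * (RR l 1 * tau l (b + a)) +
      (tq Q1 l 2 * (RR l 2 * tau l (b + w * a)) + (tq Q1 l 3 * (RR l 3 * tau l (b + z * a)) +
      tq Q1 l 4 * (RR l 4 * tau l a)))) = 0) ∨ l = 7 ∨ ∀ j, tq Q1 l j = 0 := by
      decide +kernel
    rcases hc l with ⟨j, hj, hq⟩ | hl | hq
    · exact Rl_par A l _ (hA _ hj).2 hq
    · rw [hl]
      exact Rl_Z A 7 _ hz2 hz3 (by decide +kernel)
    · exact Rl_zero A l _ hq
  have hS := cert A (tq Q1) 7 7 hR (by decide +kernel)
  exact SS_ne A 7 1 hv hS

theorem noC2 (A : CArc) (h : ∀ x, (A.K x).card = uC2 x) : False := by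
  have hA := linesA A uC2 h lA2 (by decide +kernel)
  have hB : ∀ q ∈ lV2, LamOK (fun j => vecOf (A.G q.1 j)) := by
    intro q hq
    have hp : ∀ q ∈ lV2, (∀ j, uC2 (LP q.1 j) = if j = q.2 then 2 else if j = 0 then 5 else 6) ∧
        q.2 ≠ 0 := by
      decide +kernel
    exact (stripV (A.G q.1) (fun j t => G_le A q.1 j t) (A.strip q.1) q.2 (hp q hq).2 (by
      intro j
      rw [← (hp q hq).1 j]
      exact al_V A uC2 h q.1 j)).2
  have hL : ∀ l ∈ lamS, LamOK (fun j => vecOf (A.G l j)) := by
    intro l hl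
    have hc : ∀ l ∈ lamS, (∃ j, (l, j) ∈ lA2) ∨ (∃ j, (l, j) ∈ lV2) := by decide +kernel
    rcases hc l hl with ⟨j, hj⟩ | ⟨j, hj⟩
    · exact (hA _ hj).1
    · exact hB (l, j) hj
  have hd := count_dir A uC2 h (by decide +kernel) (by decide +kernel) hL
  obtain ⟨hv, hz2, hz3⟩ := lineZ A uC2 h hd 1 (by decide +kernel) (by decide +kernel) (by decide +kernel)
  have hR : ∀ l, Rl A l (tq Q2 l) := by
    intro l
    have hc : ∀ l, (∃ j, (l, j) ∈ lA2 ∧ ∀ a b : F4, tq Q2 l 0 * (RR l 0 * tau l b) +
      (tq Q2 l 1 * (RR l 1 * tau l (b + a)) +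
      (tq Q2 l 2 * (RR l 2 * tau l (b + w * a)) + (tq Q2 l 3 * (RR l 3 * tau l (b + z * a)) +
      tq Q2 l 4 * (RR l 4 * tau l a)))) = 0) ∨ l = 1 ∨ ∀ j, tq Q2 l j = 0 := by
      decide +kernel
    rcases hc l with ⟨j, hj, hq⟩ | hl | hq
    · exact Rl_par A l _ (hA _ hj).2 hq
    · rw [hl]
      exact Rl_Z A 1 _ hz2 hz3 (by decide +kernel)
    · exact Rl_zero A l _ hq
  have hS := cert A (tq Q2) 5 1 hR (by decide +kernel)
  exact SS_ne A 1 1 hv hS

end Pool.Agent.Lib.MP_4dc748_co.TE
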