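import Pool.Agent.Lib.MP_4dc748_co.TE.Geo

/-!
# Kernel searches on a strip

A function g : F4 → ℕ with values at most 4 has the code g(0) + 8 g(1) + 64 g(w) + 512 g(z). The sums of a strip are
packed: 16 cells of four bits, and the mask 0x8888888888888888 tests that all sums are at most 7.
-/

set_option autoImplicit false

namespace Pool.Agent.Lib.MP_4dc748_co.TE

namespace PC

open F4

/-- Packing a list of digits. -/
def pkl : List ℕ → ℕ
  | [] => 0
  | d :: l => d + 16 * pkl l

/-- The mask of n digits. -/
def mkl : ℕ → ℕ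
  | 0 => 0
  | n + 1 => 8 + 16 * mkl n

theorem land_step (d s m : ℕ) (hd : d ≤ 7) (h : Nat.land s m = 0) :
    Nat.land (d + 16 * s) (8 + 16 * m) = 0 := by
  have h' : s &&& m = 0 := h
  show (d + 16 * s) &&& (8 + 16 * m) = 0
  have e1 : d + 16 * s = 2 ^ 4 * s + d := by ring
  have e2 : 8 + 16 * m = 2 ^ 4 * m + 8 := by ring
  rw [e1, e2]
  apply Nat.eq_of_testBit_eq
  intro k
  rw [Nat.testBit_and, Nat.zero_testBit, Nat.testBit_two_pow_mul_add _ (by omega),
    Nat.testBit_two_pow_mul_add _ (by omega)]
  by_cases hk : k < 4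
  · rw [if_pos hk, if_pos hk]
    interval_cases k <;> interval_cases d <;> rfl
  · rw [if_neg hk, if_neg hk, ← Nat.testBit_and, h', Nat.zero_testBit]

theorem land_pkl (l : List ℕ) (h : ∀ d ∈ l, d ≤ 7) : Nat.land (pkl l) (mkl l.length) = 0 := by
  induction l with
  | nil => rfl
  | cons d l ih =>
    exact land_step d (pkl l) (mkl l.length) (h d (by simp))
      (ih (fun x hx => h x (List.mem_cons_of_mem _ hx)))

/-- The cells. -/
def cells : List (F4 × F4) :=
  [(o, o), (o, i), (o, w), (o, z), (i, o), (i, i), (i, w), (i, z), (w, o), (w, i), (w, w), (w, z),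
   (z, o), (z, i), (z, w), (z, z)]

/-- The packed values of a function on the cells. -/
def pkf (f : F4 × F4 → ℕ) : ℕ := pkl (cells.map f)

theorem land_pkf (f : F4 × F4 → ℕ) (h : ∀ p, f p ≤ 7) :
    Nat.land (pkf f) 0x8888888888888888 = 0 := by
  have h1 := land_pkl (cells.map f) (by
    intro d hd
    rw [List.mem_map] at hd
    obtain ⟨p, _, rfl⟩ := hd
    exact h p)
  have h2 : mkl (cells.map f).length = 0x8888888888888888 := by
    rw [List.length_map]
    simp [cells, mkl]
  rw [h2] at h1
  exact h1

theorem pkl_add {α : Type} (l : List α) (f g : α → ℕ) :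
    pkl (l.map (fun p => f p + g p)) = pkl (l.map f) + pkl (l.map g) := by
  induction l with
  | nil => rfl
  | cons p l ih =>
    show f p + g p + 16 * pkl (l.map (fun p => f p + g p)) =
      f p + 16 * pkl (l.map f) + (g p + 16 * pkl (l.map g))
    rw [ih]; ring

theorem pkf_add (f g : F4 × F4 → ℕ) : pkf (fun p => f p + g p) = pkf f + pkf g :=
  pkl_add cells f g

/-- The packed indicator of a value. -/
def ind (t : F4) (l : List F4) : ℕ := pkl (l.map (fun u => if u = t then 1 else 0))

theorem pkl_ind (g : F4 → ℕ) (l : List F4) :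
    pkl (l.map g) = g o * ind o l + g i * ind i l + g w * ind w l + g z * ind z l := by
  induction l with
  | nil => rfl
  | cons u l ih =>
    have e : ∀ t, ind t (u :: l) = (if u = t then 1 else 0) + 16 * ind t l := fun t => rfl
    show g u + 16 * pkl (l.map g) = _
    rw [ih, e o, e i, e w, e z]
    cases u <;> simp <;> ring

/-- Masks. -/
def MSL : List (List ℕ) :=
  [[0x1000100010001, 0x10001000100010, 0x100010001000100, 0x1000100010001000],
   [0x1000010000100001, 0x100100000010010, 0x10000110000100, 0x1001001001000],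
   [0x10100001000001, 0x1010010000010, 0x1000001000010100, 0x100000100101000],
   [0x100001010000001, 0x1000000101000010, 0x1100000100100, 0x10010000011000],
   [0x1111, 0x11110000, 0x111100000000, 0x1111000000000000]]

/-- The packed values of the class j with the values a, b, c, d. -/
def pkv (j : Fin 5) (a b c d : ℕ) : ℕ :=
  let r := MSL.getD j.1 []
  a * r.getD 0 0 + b * r.getD 1 0 + c * r.getD 2 0 + d * r.getD 3 0

theorem ind_eq : ∀ j : Fin 5,
    [ind o (cells.map (fk j)), ind i (cells.map (fk j)), ind w (cells.map (fk j)),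
      ind z (cells.map (fk j))] = MSL.getD j.1 [] := by
  decide

theorem pkf_fk (j : Fin 5) (g : F4 → ℕ) :
    pkf (fun p => g (fk j p)) = pkv j (g o) (g i) (g w) (g z) := by
  have h1 : pkf (fun p => g (fk j p)) = pkl ((cells.map (fk j)).map g) := by
    rw [List.map_map]; rfl
  have h2 := ind_eq j
  rw [h1, pkl_ind]
  unfold pkv
  rw [← h2]
  rfl

/-- The code of a function. -/
def cd (a b c d : ℕ) : ℕ := Nat.add a (Nat.add (Nat.mul 8 b) (Nat.add (Nat.mul 64 c) (Nat.mul 512 d)))

/-- The vector of a code. -/
def vc (c : ℕ) : ℕ := Nat.mod (Nat.shiftRight VT (Nat.mul 5 c)) 32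

theorem vid_eq (a b c d : ℕ) : vid a b c d = vc (cd a b c d) := rfl

/-- The element el n if n is odd and 0 otherwise. -/
def od (n : ℕ) (t : F4) : F4 := if n % 2 = 1 then t else o

/-- The sum of the t with g t odd. -/
def X (g : F4 → ℕ) : F4 := od (g i) i + (od (g w) w + od (g z) z)

/-- The same for a code. -/
def xc (c : ℕ) : F4 := od (c / 8 % 8) i + (od (c / 64 % 8) w + od (c / 512 % 8) z)

theorem X_eq (g : F4 → ℕ) (hg : ∀ t, g t ≤ 4) : X g = xc (cd (g o) (g i) (g w) (g z)) := by
  have h1 := hg o
  have h2 := hg i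
  have h3 := hg w
  have h4 := hg z
  have e : cd (g o) (g i) (g w) (g z) = g o + (8 * g i + (64 * g w + 512 * g z)) := rfl
  unfold xc X
  rw [e]
  have e1 : (g o + (8 * g i + (64 * g w + 512 * g z))) / 8 % 8 = g i := by omega
  have e2 : (g o + (8 * g i + (64 * g w + 512 * g z))) / 64 % 8 = g w := by omega
  have e3 : (g o + (8 * g i + (64 * g w + 512 * g z))) / 512 % 8 = g z := by omega
  rw [e1, e2, e3]

/-- The search. -/
def srch (P : List ℕ → Bool) : List (List (ℕ × ℕ)) → ℕ → List ℕ → Bool
  | [], _, ch => P ch
  | L :: Ls, s, ch => L.all (fun q =>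
      cond (Nat.beq (Nat.land (Nat.add s q.2) 0x8888888888888888) 0)
        (srch P Ls (Nat.add s q.2) (q.1 :: ch)) true)

/-- The code of a function. -/
def cg (g : F4 → ℕ) : ℕ := cd (g o) (g i) (g w) (g z)

/-- The packed values of a function. -/
def pg (j : Fin 5) (g : F4 → ℕ) : ℕ := pkv j (g o) (g i) (g w) (g z)

theorem sum_pre (G : Fin 5 → F4 → ℕ) (hs : ∀ a b, ∑ j : Fin 5, G j (fk j (a, b)) ≤ 7)
    (pre : List (Fin 5)) (hn : pre.Nodup) (p : F4 × F4) :
    (pre.map (fun j => G j (fk j p))).sum ≤ 7 := by
  have h1 : (pre.map (fun j => G j (fk j p))).sum = ∑ j ∈ pre.toFinset, G j (fk j p) :=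
    (List.sum_toFinset _ hn).symm
  rw [h1]
  exact le_trans (Finset.sum_le_sum_of_subset (Finset.subset_univ _)) (hs p.1 p.2)

theorem srch_aux (P : List ℕ → Bool) (G : Fin 5 → F4 → ℕ)
    (hs : ∀ a b, ∑ j : Fin 5, G j (fk j (a, b)) ≤ 7) :
    ∀ (ord pre : List (Fin 5)) (Ls : List (List (ℕ × ℕ))), (pre ++ ord).Nodup →
      srch P Ls (pkf (fun p => (pre.map (fun j => G j (fk j p))).sum))
        ((pre.map (fun j => cg (G j))).reverse) = true →
      List.Forall₂ (fun j L => (cg (G j), pg j (G j)) ∈ L) ord Ls →
      P (((pre ++ ord).map (fun j => cg (G j))).reverse) = true := by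
  intro ord
  induction ord with
  | nil =>
    intro pre Ls _ h hf
    cases hf
    rw [List.append_nil]
    exact h
  | cons j ord ih =>
    intro pre Ls hn h hf
    cases hf with
    | cons hj hf =>
      rename_i L Ls
      have hn1 : ((pre ++ [j]) ++ ord).Nodup := by
        rw [List.append_assoc]; exact hn
      have h1 := (List.all_eq_true.mp h) _ hj
      have e1 : Nat.add (pkf (fun p => (pre.map (fun j => G j (fk j p))).sum)) (pg j (G j)) =
          pkf (fun p => ((pre ++ [j]).map (fun j => G j (fk j p))).sum) := by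
        have e2 : (fun p : F4 × F4 => ((pre ++ [j]).map (fun j => G j (fk j p))).sum) =
            fun p => (pre.map (fun j => G j (fk j p))).sum + G j (fk j p) := by
          funext p
          simp
        rw [e2, pkf_add, pkf_fk]
        rfl
      have e3 : Nat.land (Nat.add (pkf (fun p => (pre.map (fun j => G j (fk j p))).sum))
          (pg j (G j))) 0x8888888888888888 = 0 := by
        rw [e1]
        exact land_pkf _ (fun p => sum_pre G hs _ (hn1.of_append_left) p)
      have e4 : cg (G j) :: (pre.map (fun j => cg (G j))).reverse =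
          ((pre ++ [j]).map (fun j => cg (G j))).reverse := by
        simp
      have h2 : srch P Ls (pkf (fun p => ((pre ++ [j]).map (fun j => G j (fk j p))).sum))
          (((pre ++ [j]).map (fun j => cg (G j))).reverse) = true := by
        rw [← e1, ← e4]
        simpa only [e3, Nat.beq_refl, cond_true] using h1
      have h3 := ih (pre ++ [j]) Ls hn1 h2 hf
      rw [List.append_assoc] at h3
      exact h3

theorem srch_run (P : List ℕ → Bool) (G : Fin 5 → F4 → ℕ)
    (hs : ∀ a b, ∑ j : Fin 5, G j (fk j (a, b)) ≤ 7)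
    (ord : List (Fin 5)) (Ls : List (List (ℕ × ℕ))) (hn : ord.Nodup)
    (h : srch P Ls 0 [] = true)
    (hf : List.Forall₂ (fun j L => (cg (G j), pg j (G j)) ∈ L) ord Ls) :
    P ((ord.map (fun j => cg (G j))).reverse) = true := by
  have h0 : pkf (fun p => (([] : List (Fin 5)).map (fun j => G j (fk j p))).sum) = 0 := by
    simp [pkf, cells, pkl]
  exact srch_aux P G hs ord [] Ls hn (by rw [h0]; exact h) hf

/-- Table. -/
def tVI0 : List (ℕ × ℕ) :=
   [(1161, 0x2211221122112211), (1105, 0x2121212121212121), (657, 0x1221122112211221), (1098, 0x2112211221122112),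
    (650, 0x1212121212121212), (594, 0x1122112211221122), (1168, 0x2220222022202220), (1154, 0x2202220222022202),
    (1042, 0x2022202220222022), (146, 0x222022202220222), (1728, 0x3300330033003300), (1560, 0x3030303030303030),
    (216, 0x330033003300330), (1539, 0x3003300330033003), (195, 0x303030303030303), (27, 0x33003300330033)]

/-- Table. -/
def tVI1 : List (ℕ × ℕ) :=
   [(1161, 0x1122112222112211), (1105, 0x1212212112122121), (657, 0x1221211221121221), (1098, 0x2112122112212112),
    (650, 0x2121121221211212), (594, 0x2211221111221122), (1168, 0x222202222022220), (1154, 0x2022022222202202),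
    (1042, 0x2202222002222022), (146, 0x2220220220220222), (1728, 0x33003333003300), (1560, 0x303303003033030),
    (216, 0x330300330030330), (1539, 0x3003033003303003), (195, 0x3030030330300303), (27, 0x3300330000330033)]

/-- Table. -/
def tVI2 : List (ℕ × ℕ) :=
   [(1161, 0x2211112211222211), (1105, 0x1212121221212121), (657, 0x2112122121121221), (1098, 0x1221211212212112),
    (650, 0x2121212112121212), (594, 0x1122221122111122), (1168, 0x2202022220222220), (1154, 0x2220202202222202),
    (1042, 0x222220222202022), (146, 0x2022222022020222), (1728, 0x3300003300333300), (1560, 0x303030330303030),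
    (216, 0x3003033030030330), (1539, 0x330300303303003), (195, 0x3030303003030303), (27, 0x33330033000033)]

/-- Table. -/
def tVI3 : List (ℕ × ℕ) :=
   [(1161, 0x1122221111222211), (1105, 0x2121121212122121), (657, 0x2112211212211221), (1098, 0x1221122121122112),
    (650, 0x1212212121211212), (594, 0x2211112222111122), (1168, 0x2022220202222220), (1154, 0x222222020222202),
    (1042, 0x2220022222022022), (146, 0x2202202222200222), (1728, 0x33330000333300), (1560, 0x3030030303033030),
    (216, 0x3003300303300330), (1539, 0x330033030033003), (195, 0x303303030300303), (27, 0x3300003333000033)]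

/-- Table. -/
def tVI4 : List (ℕ × ℕ) :=
   [(1161, 0x2222222211111111), (1105, 0x2222111122221111), (657, 0x1111222222221111), (1098, 0x2222111111112222),
    (650, 0x1111222211112222), (594, 0x1111111122222222), (1168, 0x2222222222220000), (1154, 0x2222222200002222),
    (1042, 0x2222000022222222), (146, 0x222222222222), (1728, 0x3333333300000000), (1560, 0x3333000033330000),
    (216, 0x333333330000), (1539, 0x3333000000003333), (195, 0x333300003333), (27, 0x33333333)]

/-- Table. -/
def tII0 : List (ℕ × ℕ) :=
   [(576, 0x1100110011001100), (520, 0x1010101010101010), (72, 0x110011001100110), (513, 0x1001100110011001),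
    (65, 0x101010101010101), (9, 0x11001100110011), (1024, 0x2000200020002000), (128, 0x200020002000200),
    (16, 0x20002000200020), (2, 0x2000200020002)]

/-- Table. -/
def tII1 : List (ℕ × ℕ) :=
   [(576, 0x11001111001100), (520, 0x101101001011010), (72, 0x110100110010110), (513, 0x1001011001101001),
    (65, 0x1010010110100101), (9, 0x1100110000110011), (1024, 0x2002002002000), (128, 0x20000220000200),
    (16, 0x200200000020020), (2, 0x2000020000200002)]

/-- Table. -/
def tII2 : List (ℕ × ℕ) :=
   [(576, 0x1100001100111100), (520, 0x101010110101010), (72, 0x1001011010010110), (513, 0x110100101101001),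
    (65, 0x1010101001010101), (9, 0x11110011000011), (1024, 0x200000200202000), (128, 0x2000002000020200),
    (16, 0x2020020000020), (2, 0x20200002000002)]

/-- Table. -/
def tII3 : List (ℕ × ℕ) :=
   [(576, 0x11110000111100), (520, 0x1010010101011010), (72, 0x1001100101100110), (513, 0x110011010011001),
    (65, 0x101101010100101), (9, 0x1100001111000011), (1024, 0x20020000022000), (128, 0x2200000200200),
    (16, 0x2000000202000020), (2, 0x200002020000002)]

/-- Table. -/
def tII4 : List (ℕ × ℕ) :=
   [(576, 0x1111111100000000), (520, 0x1111000011110000), (72, 0x111111110000), (513, 0x1111000000001111),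
    (65, 0x111100001111), (9, 0x11111111), (1024, 0x2222000000000000), (128, 0x222200000000), (16, 0x22220000),
    (2, 0x2222)]

/-- Table. -/
def tI0 : List (ℕ × ℕ) :=
   [(512, 0x1000100010001000), (64, 0x100010001000100), (8, 0x10001000100010), (1, 0x1000100010001)]

/-- Table. -/
def tV0 : List (ℕ × ℕ) :=
   [(1097, 0x2111211121112111), (649, 0x1211121112111211), (593, 0x1121112111211121), (586, 0x1112111211121112),
    (1160, 0x2210221022102210), (1104, 0x2120212021202120), (656, 0x1220122012201220), (1153, 0x2201220122012201),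
    (1041, 0x2021202120212021), (145, 0x221022102210221), (1090, 0x2102210221022102), (642, 0x1202120212021202),
    (1034, 0x2012201220122012), (138, 0x212021202120212), (530, 0x1022102210221022), (82, 0x122012201220122),
    (1664, 0x3200320032003200), (1216, 0x2300230023002300), (1552, 0x3020302030203020), (208, 0x320032003200320),
    (1048, 0x2030203020302030), (152, 0x230023002300230), (1538, 0x3002300230023002), (194, 0x302030203020302),
    (26, 0x32003200320032), (1027, 0x2003200320032003), (131, 0x203020302030203), (19, 0x23002300230023),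
    (1608, 0x3110311031103110), (712, 0x1310131013101310), (600, 0x1130113011301130), (1601, 0x3101310131013101),
    (705, 0x1301130113011301), (1545, 0x3011301130113011), (201, 0x311031103110311), (537, 0x1031103110311031),
    (89, 0x131013101310131), (579, 0x1103110311031103), (523, 0x1013101310131013), (75, 0x113011301130113)]

/-- The code of the position j in the list of codes of the order ord (reversed). -/
def lk (ord : List (Fin 5)) (ch : List ℕ) (j : Fin 5) : ℕ := ch.reverse.getD (ord.idxOf j) 0

/-- The vectors 3300 do not occur, 2220 occurs at most once. -/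
def LamOK (v : Fin 5 → ℕ) : Prop :=
  (v 0 ≠ 19 ∧ v 1 ≠ 19 ∧ v 2 ≠ 19 ∧ v 3 ≠ 19 ∧ v 4 ≠ 19) ∧
  (if v 0 = 12 then 1 else 0) + ((if v 1 = 12 then 1 else 0) + ((if v 2 = 12 then 1 else 0) +
    ((if v 3 = 12 then 1 else 0) + (if v 4 = 12 then 1 else 0)))) ≤ 1

instance (v : Fin 5 → ℕ) : Decidable (LamOK v) := by unfold LamOK; infer_instance

/-- The parity checks. -/
def Par (x : Fin 5 → F4) : Prop :=
  x 1 = x 0 + x 4 ∧ x 2 = x 0 + w * x 4 ∧ x 3 = x 0 + z * x 4

instance (x : Fin 5 → F4) : Decidable (Par x) := by unfold Par; infer_instance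

/-- The leaf test of the first search. -/
def PA (j0 : Fin 5) (ord : List (Fin 5)) (ch : List ℕ) : Bool :=
  let c := lk ord ch
  decide ((vc (c j0) = 2 ∧ LamOK (fun j => vc (c j))) ∧ Par (fun j => xc (c j)))

/-- The leaf test of the second search. -/
def PB (ord : List (Fin 5)) (ch : List ℕ) : Bool :=
  let c := lk ord ch
  decide (LamOK (fun j => vc (c j)))

/-- The leaf test of the third search. -/
def PV (j0 : Fin 5) (ord : List (Fin 5)) (ch : List ℕ) : Bool :=
  let c := lk ord ch
  decide (vc (c j0) = 2 ∧ LamOK (fun j => vc (c j)))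

theorem sA0 : srch (PA 0 [1, 2, 3, 4, 0]) [tVI1, tVI2, tVI3, tVI4, tII0] 0 [] = true := by
  decide +kernel

theorem sA1 : srch (PA 1 [0, 2, 3, 4, 1]) [tVI0, tVI2, tVI3, tVI4, tII1] 0 [] = true := by
  decide +kernel

theorem sA2 : srch (PA 2 [0, 1, 3, 4, 2]) [tVI0, tVI1, tVI3, tVI4, tII2] 0 [] = true := by
  decide +kernel

theorem sA3 : srch (PA 3 [0, 1, 2, 4, 3]) [tVI0, tVI1, tVI2, tVI4, tII3] 0 [] = true := by
  decide +kernel

theorem sA4 : srch (PA 4 [0, 1, 2, 3, 4]) [tVI0, tVI1, tVI2, tVI3, tII4] 0 [] = true := by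
  decide +kernel

theorem sB0 : srch (PB [1, 2, 3, 4, 0]) [tVI1, tVI2, tVI3, tVI4, tI0] 0 [] = true := by
  decide +kernel

theorem sV1 : srch (PV 1 [2, 3, 4, 0, 1]) [tVI2, tVI3, tVI4, tV0, tII1] 0 [] = true := by
  decide +kernel

theorem sV2 : srch (PV 2 [1, 3, 4, 0, 2]) [tVI1, tVI3, tVI4, tV0, tII2] 0 [] = true := by
  decide +kernel

theorem sV3 : srch (PV 3 [1, 2, 4, 0, 3]) [tVI1, tVI2, tVI4, tV0, tII3] 0 [] = true := by
  decide +kernel

theorem sV4 : srch (PV 4 [1, 2, 3, 0, 4]) [tVI1, tVI2, tVI3, tV0, tII4] 0 [] = true := by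
  decide +kernel

end PC

end Pool.Agent.Lib.MP_4dc748_co.TE
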