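import Pool.Agent.Lib.MP_4dc748_co.TE.PosCA

/-!
# The strip lemmas
-/

set_option autoImplicit false

namespace Pool.Agent.Lib.MP_4dc748_co.TE

namespace PC

open F4

/-- Table. -/
def tT1 : List (ℕ × ℕ) :=
   [(1728, 0x33003333003300), (1560, 0x303303003033030), (216, 0x330300330030330), (1539, 0x3003033003303003),
    (195, 0x3030030330300303), (27, 0x3300330000330033)]

/-- Table. -/
def tT2 : List (ℕ × ℕ) :=
   [(1728, 0x3300003300333300), (1560, 0x303030330303030), (216, 0x3003033030030330), (1539, 0x330300303303003),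
    (195, 0x3030303003030303), (27, 0x33330033000033)]

/-- Table. -/
def tT3 : List (ℕ × ℕ) :=
   [(1728, 0x33330000333300), (1560, 0x3030030303033030), (216, 0x3003300303300330), (1539, 0x330033030033003),
    (195, 0x303303030300303), (27, 0x3300003333000033)]

/-- Table. -/
def tT4 : List (ℕ × ℕ) :=
   [(1728, 0x3333333300000000), (1560, 0x3333000033330000), (216, 0x333333330000), (1539, 0x3333000000003333),
    (195, 0x333300003333), (27, 0x33333333)]

/-- Coefficients of the strips through the class without points. -/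
def dz (j0 j : Fin 5) : F4 :=
  if j0 = 2 then (if j = 4 then i else w)
  else if j0 = 3 then (if j = 4 then i else z) else i

/-- The relation on the strips through the class without points. -/
def Zel (j0 : Fin 5) (x : Fin 5 → F4) : Prop :=
  ∀ j, j ≠ 0 → j ≠ j0 → x j = dz j0 j * x 4

instance (j0 : Fin 5) (x : Fin 5 → F4) : Decidable (Zel j0 x) := by unfold Zel; infer_instance

/-- The leaf test. -/
def PZ (j0 : Fin 5) (ord : List (Fin 5)) (ch : List ℕ) : Bool :=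
  let c := lk ord ch
  decide (vc (c j0) = 2 ∧ Zel j0 (fun j => xc (c j)))

theorem sZ1 : srch (PZ 1 [0, 2, 3, 4, 1]) [[(0, 0)], tT2, tT3, tT4, tII1] 0 [] = true := by
  decide +kernel

theorem sZ2 : srch (PZ 2 [0, 1, 3, 4, 2]) [[(0, 0)], tT1, tT3, tT4, tII2] 0 [] = true := by
  decide +kernel

theorem sZ3 : srch (PZ 3 [0, 1, 2, 4, 3]) [[(0, 0)], tT1, tT2, tT4, tII3] 0 [] = true := by
  decide +kernel

theorem lk_eq (ord : List (Fin 5)) (hm : ∀ j, j ∈ ord) (f : Fin 5 → ℕ) :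
    lk ord ((ord.map f).reverse) = f := by
  funext j
  have h1 : ord.idxOf j < ord.length := List.idxOf_lt_length_iff.mpr (hm j)
  unfold lk
  rw [List.reverse_reverse, List.getD_eq_getElem _ _ (by rw [List.length_map]; exact h1),
    List.getElem_map, List.getElem_idxOf]

/-- The vector v is possible for a class with n points. -/
def al (n v : ℕ) : Prop := ∃ t ∈ TYL, t.1 = n ∧ v ∈ t.2

theorem al6 (v : ℕ) (h : al 6 v) : v = 11 ∨ v = 12 ∨ v = 19 := by
  obtain ⟨t, ht, h1, h2⟩ := h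
  simp only [TYL, List.mem_cons, List.not_mem_nil, or_false] at ht
  rcases ht with rfl | rfl | rfl | rfl | rfl | rfl | rfl | rfl | rfl | rfl | rfl | rfl | rfl | rfl |
    rfl | rfl <;> simp at h1 h2 <;> tauto

theorem al2 (v : ℕ) (h : al 2 v) : v = 2 ∨ v = 5 := by
  obtain ⟨t, ht, h1, h2⟩ := h
  simp only [TYL, List.mem_cons, List.not_mem_nil, or_false] at ht
  rcases ht with rfl | rfl | rfl | rfl | rfl | rfl | rfl | rfl | rfl | rfl | rfl | rfl | rfl | rfl |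
    rfl | rfl <;> simp at h1 h2 <;> tauto

theorem al1 (v : ℕ) (h : al 1 v) : v = 1 := by
  obtain ⟨t, ht, h1, h2⟩ := h
  simp only [TYL, List.mem_cons, List.not_mem_nil, or_false] at ht
  rcases ht with rfl | rfl | rfl | rfl | rfl | rfl | rfl | rfl | rfl | rfl | rfl | rfl | rfl | rfl |
    rfl | rfl <;> simp at h1 h2 <;> tauto

theorem al0 (v : ℕ) (h : al 0 v) : v = 0 := by
  obtain ⟨t, ht, h1, h2⟩ := h
  simp only [TYL, List.mem_cons, List.not_mem_nil, or_false] at ht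
  rcases ht with rfl | rfl | rfl | rfl | rfl | rfl | rfl | rfl | rfl | rfl | rfl | rfl | rfl | rfl |
    rfl | rfl <;> simp at h1 h2 <;> tauto

theorem al5 (v : ℕ) (h : al 5 v) : v = 8 ∨ v = 10 ∨ v = 17 ∨ v = 18 := by
  obtain ⟨t, ht, h1, h2⟩ := h
  simp only [TYL, List.mem_cons, List.not_mem_nil, or_false] at ht
  rcases ht with rfl | rfl | rfl | rfl | rfl | rfl | rfl | rfl | rfl | rfl | rfl | rfl | rfl | rfl |
    rfl | rfl <;> simp at h1 h2 <;> tauto

/-- The test of a table. -/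
def chk (S : List ℕ) (j : Fin 5) (t : List (ℕ × ℕ)) (a b c d : ℕ) : Bool :=
  cond (decide (vid a b c d ∈ S)) (decide ((cd a b c d, pkv j a b c d) ∈ t)) true

theorem of_chk (S : List ℕ) (j : Fin 5) (t : List (ℕ × ℕ))
    (h : ∀ a < 5, ∀ b < 5, ∀ c < 5, ∀ d < 5, chk S j t a b c d = true) (g : F4 → ℕ)
    (hg : ∀ t, g t ≤ 4) (hS : vecOf g ∈ S) : (cg g, pg j g) ∈ t := by
  have h1 := h _ (Nat.lt_succ_of_le (hg o)) _ (Nat.lt_succ_of_le (hg i)) _
    (Nat.lt_succ_of_le (hg w)) _ (Nat.lt_succ_of_le (hg z))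
  unfold chk at h1
  have h2 : decide (vid (g o) (g i) (g w) (g z) ∈ S) = true := decide_eq_true hS
  rw [h2] at h1
  exact of_decide_eq_true h1

theorem mVI0 : ∀ a < 5, ∀ b < 5, ∀ c < 5, ∀ d < 5, chk [11, 12, 19] 0 tVI0 a b c d = true := by
  decide +kernel

theorem mVI1 : ∀ a < 5, ∀ b < 5, ∀ c < 5, ∀ d < 5, chk [11, 12, 19] 1 tVI1 a b c d = true := by
  decide +kernel

theorem mVI2 : ∀ a < 5, ∀ b < 5, ∀ c < 5, ∀ d < 5, chk [11, 12, 19] 2 tVI2 a b c d = true := by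
  decide +kernel

theorem mVI3 : ∀ a < 5, ∀ b < 5, ∀ c < 5, ∀ d < 5, chk [11, 12, 19] 3 tVI3 a b c d = true := by
  decide +kernel

theorem mVI4 : ∀ a < 5, ∀ b < 5, ∀ c < 5, ∀ d < 5, chk [11, 12, 19] 4 tVI4 a b c d = true := by
  decide +kernel

theorem mII0 : ∀ a < 5, ∀ b < 5, ∀ c < 5, ∀ d < 5, chk [2, 5] 0 tII0 a b c d = true := by
  decide +kernel

theorem mII1 : ∀ a < 5, ∀ b < 5, ∀ c < 5, ∀ d < 5, chk [2, 5] 1 tII1 a b c d = true := by
  decide +kernel

theorem mII2 : ∀ a < 5, ∀ b < 5, ∀ c < 5, ∀ d < 5, chk [2, 5] 2 tII2 a b c d = true := by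
  decide +kernel

theorem mII3 : ∀ a < 5, ∀ b < 5, ∀ c < 5, ∀ d < 5, chk [2, 5] 3 tII3 a b c d = true := by
  decide +kernel

theorem mII4 : ∀ a < 5, ∀ b < 5, ∀ c < 5, ∀ d < 5, chk [2, 5] 4 tII4 a b c d = true := by
  decide +kernel

theorem mT1 : ∀ a < 5, ∀ b < 5, ∀ c < 5, ∀ d < 5, chk [19] 1 tT1 a b c d = true := by
  decide +kernel

theorem mT2 : ∀ a < 5, ∀ b < 5, ∀ c < 5, ∀ d < 5, chk [19] 2 tT2 a b c d = true := by
  decide +kernel

theorem mT3 : ∀ a < 5, ∀ b < 5, ∀ c < 5, ∀ d < 5, chk [19] 3 tT3 a b c d = true := by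
  decide +kernel

theorem mT4 : ∀ a < 5, ∀ b < 5, ∀ c < 5, ∀ d < 5, chk [19] 4 tT4 a b c d = true := by
  decide +kernel

theorem mI0 : ∀ a < 5, ∀ b < 5, ∀ c < 5, ∀ d < 5, chk [1] 0 tI0 a b c d = true := by
  decide +kernel

theorem mV0 : ∀ a < 5, ∀ b < 5, ∀ c < 5, ∀ d < 5, chk [8, 10, 17, 18] 0 tV0 a b c d = true := by
  decide +kernel

theorem mZ0 : ∀ a < 5, ∀ b < 5, ∀ c < 5, ∀ d < 5, chk [0] 0 [((0 : ℕ), (0 : ℕ))] a b c d = true := by
  decide +kernel

section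

variable (g : F4 → ℕ) (hg : ∀ t, g t ≤ 4)

include hg

theorem nVI (h : al 6 (vecOf g)) :
    (cg g, pg 0 g) ∈ tVI0 ∧
    (cg g, pg 1 g) ∈ tVI1 ∧
    (cg g, pg 2 g) ∈ tVI2 ∧
    (cg g, pg 3 g) ∈ tVI3 ∧
    (cg g, pg 4 g) ∈ tVI4 := by
  have h1 := al6 _ h
  have h2 : vecOf g ∈ [11, 12, 19] := by
    rcases h1 with h1 | h1 | h1 <;> simp [h1]
  exact ⟨of_chk _ _ _ mVI0 g hg h2,
    of_chk _ _ _ mVI1 g hg h2,
    of_chk _ _ _ mVI2 g hg h2,
    of_chk _ _ _ mVI3 g hg h2,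
    of_chk _ _ _ mVI4 g hg h2⟩

theorem nII (h : al 2 (vecOf g)) :
    (cg g, pg 0 g) ∈ tII0 ∧
    (cg g, pg 1 g) ∈ tII1 ∧
    (cg g, pg 2 g) ∈ tII2 ∧
    (cg g, pg 3 g) ∈ tII3 ∧
    (cg g, pg 4 g) ∈ tII4 := by
  have h1 := al2 _ h
  have h2 : vecOf g ∈ [2, 5] := by
    rcases h1 with h1 | h1 <;> simp [h1]
  exact ⟨of_chk _ _ _ mII0 g hg h2,
    of_chk _ _ _ mII1 g hg h2,
    of_chk _ _ _ mII2 g hg h2,
    of_chk _ _ _ mII3 g hg h2,
    of_chk _ _ _ mII4 g hg h2⟩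

theorem nT (h : vecOf g = 19) :
    (cg g, pg 1 g) ∈ tT1 ∧
    (cg g, pg 2 g) ∈ tT2 ∧
    (cg g, pg 3 g) ∈ tT3 ∧
    (cg g, pg 4 g) ∈ tT4 := by
  have h2 : vecOf g ∈ [19] := by simp [h]
  exact ⟨of_chk _ _ _ mT1 g hg h2,
    of_chk _ _ _ mT2 g hg h2,
    of_chk _ _ _ mT3 g hg h2,
    of_chk _ _ _ mT4 g hg h2⟩

theorem nI (h : al 1 (vecOf g)) : (cg g, pg 0 g) ∈ tI0 := by
  have h2 : vecOf g ∈ [1] := by simp [al1 _ h]
  exact of_chk _ _ _ mI0 g hg h2

theorem nZ (h : al 0 (vecOf g)) : (cg g, pg 0 g) ∈ [((0 : ℕ), (0 : ℕ))] := by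
  have h2 : vecOf g ∈ [0] := by simp [al0 _ h]
  exact of_chk _ _ _ mZ0 g hg h2

theorem nV (h : al 5 (vecOf g)) : (cg g, pg 0 g) ∈ tV0 := by
  have h1 := al5 _ h
  have h2 : vecOf g ∈ [8, 10, 17, 18] := by
    rcases h1 with h1 | h1 | h1 | h1 <;> simp [h1]
  exact of_chk _ _ _ mV0 g hg h2

end

section

variable (G : Fin 5 → F4 → ℕ) (hG : ∀ j t, G j t ≤ 4)
  (hs : ∀ a b, ∑ j : Fin 5, G j (fk j (a, b)) ≤ 7)

include hG

theorem funX : (fun j => xc (cg (G j))) = fun j => X (G j) := by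
  funext j
  exact (X_eq _ (hG j)).symm

include hs

theorem stripA (j0 : Fin 5) (hv : ∀ j, al (if j = j0 then 2 else 6) (vecOf (G j))) :
    (vecOf (G j0) = 2 ∧ LamOK (fun j => vecOf (G j))) ∧ Par (fun j => X (G j)) := by
  have key : ∀ (ord : List (Fin 5)) (Ls : List (List (ℕ × ℕ))), ord.Nodup → (∀ j, j ∈ ord) →
      srch (PA j0 ord) Ls 0 [] = true →
      List.Forall₂ (fun j L => (cg (G j), pg j (G j)) ∈ L) ord Ls →
      (vecOf (G j0) = 2 ∧ LamOK (fun j => vecOf (G j))) ∧ Par (fun j => X (G j)) := by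
    intro ord Ls hn hm h1 h2
    have h3 := srch_run _ G hs ord Ls hn h1 h2
    unfold PA at h3
    simp only [lk_eq ord hm] at h3
    have h4 := of_decide_eq_true h3
    rw [funX G hG] at h4
    exact h4
  have h6 : ∀ j, j ≠ j0 → al 6 (vecOf (G j)) := by
    intro j hj
    have h := hv j
    rw [if_neg hj] at h
    exact h
  have h2 : al 2 (vecOf (G j0)) := by
    have h := hv j0
    rw [if_pos rfl] at h
    exact h
  fin_cases j0
  · exact key [1, 2, 3, 4, 0] _ (by decide) (by decide) sA0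
      (.cons (nVI _ (hG 1) (h6 1 (by decide))).2.1 (.cons (nVI _ (hG 2) (h6 2 (by decide))).2.2.1
      (.cons (nVI _ (hG 3) (h6 3 (by decide))).2.2.2.1 (.cons (nVI _ (hG 4) (h6 4 (by decide))).2.2.2.2
      (.cons (nII _ (hG 0) h2).1 .nil)))))
  · exact key [0, 2, 3, 4, 1] _ (by decide) (by decide) sA1
      (.cons (nVI _ (hG 0) (h6 0 (by decide))).1 (.cons (nVI _ (hG 2) (h6 2 (by decide))).2.2.1
      (.cons (nVI _ (hG 3) (h6 3 (by decide))).2.2.2.1 (.cons (nVI _ (hG 4) (h6 4 (by decide))).2.2.2.2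
      (.cons (nII _ (hG 1) h2).2.1 .nil)))))
  · exact key [0, 1, 3, 4, 2] _ (by decide) (by decide) sA2
      (.cons (nVI _ (hG 0) (h6 0 (by decide))).1 (.cons (nVI _ (hG 1) (h6 1 (by decide))).2.1
      (.cons (nVI _ (hG 3) (h6 3 (by decide))).2.2.2.1 (.cons (nVI _ (hG 4) (h6 4 (by decide))).2.2.2.2
      (.cons (nII _ (hG 2) h2).2.2.1 .nil)))))
  · exact key [0, 1, 2, 4, 3] _ (by decide) (by decide) sA3
      (.cons (nVI _ (hG 0) (h6 0 (by decide))).1 (.cons (nVI _ (hG 1) (h6 1 (by decide))).2.1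
      (.cons (nVI _ (hG 2) (h6 2 (by decide))).2.2.1 (.cons (nVI _ (hG 4) (h6 4 (by decide))).2.2.2.2
      (.cons (nII _ (hG 3) h2).2.2.2.1 .nil)))))
  · exact key [0, 1, 2, 3, 4] _ (by decide) (by decide) sA4
      (.cons (nVI _ (hG 0) (h6 0 (by decide))).1 (.cons (nVI _ (hG 1) (h6 1 (by decide))).2.1
      (.cons (nVI _ (hG 2) (h6 2 (by decide))).2.2.1 (.cons (nVI _ (hG 3) (h6 3 (by decide))).2.2.2.1
      (.cons (nII _ (hG 4) h2).2.2.2.2 .nil)))))

theorem stripB (hv : ∀ j, al (if j = 0 then 1 else 6) (vecOf (G j))) :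
    LamOK (fun j => vecOf (G j)) := by
  have key : ∀ (ord : List (Fin 5)) (Ls : List (List (ℕ × ℕ))), ord.Nodup → (∀ j, j ∈ ord) →
      srch (PB ord) Ls 0 [] = true →
      List.Forall₂ (fun j L => (cg (G j), pg j (G j)) ∈ L) ord Ls →
      LamOK (fun j => vecOf (G j)) := by
    intro ord Ls hn hm h1 h2
    have h3 := srch_run _ G hs ord Ls hn h1 h2
    unfold PB at h3
    simp only [lk_eq ord hm] at h3
    exact of_decide_eq_true h3
  have h6 : ∀ j, j ≠ 0 → al 6 (vecOf (G j)) := by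
    intro j hj
    have h := hv j
    rw [if_neg hj] at h
    exact h
  have h2 : al 1 (vecOf (G 0)) := by
    have h := hv 0
    rw [if_pos rfl] at h
    exact h
  exact key [1, 2, 3, 4, 0] _ (by decide) (by decide) sB0
      (.cons (nVI _ (hG 1) (h6 1 (by decide))).2.1 (.cons (nVI _ (hG 2) (h6 2 (by decide))).2.2.1
      (.cons (nVI _ (hG 3) (h6 3 (by decide))).2.2.2.1 (.cons (nVI _ (hG 4) (h6 4 (by decide))).2.2.2.2
      (.cons (nI _ (hG 0) h2) .nil)))))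

theorem stripV (j0 : Fin 5) (hj0 : j0 ≠ 0)
    (hv : ∀ j, al (if j = j0 then 2 else if j = 0 then 5 else 6) (vecOf (G j))) :
    vecOf (G j0) = 2 ∧ LamOK (fun j => vecOf (G j)) := by
  have key : ∀ (ord : List (Fin 5)) (Ls : List (List (ℕ × ℕ))), ord.Nodup → (∀ j, j ∈ ord) →
      srch (PV j0 ord) Ls 0 [] = true →
      List.Forall₂ (fun j L => (cg (G j), pg j (G j)) ∈ L) ord Ls →
      vecOf (G j0) = 2 ∧ LamOK (fun j => vecOf (G j)) := by
    intro ord Ls hn hm h1 h2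
    have h3 := srch_run _ G hs ord Ls hn h1 h2
    unfold PV at h3
    simp only [lk_eq ord hm] at h3
    exact of_decide_eq_true h3
  have h6 : ∀ j, j ≠ j0 → j ≠ 0 → al 6 (vecOf (G j)) := by
    intro j hj hj1
    have h := hv j
    rw [if_neg hj, if_neg hj1] at h
    exact h
  have h5 : al 5 (vecOf (G 0)) := by
    have h := hv 0
    rw [if_neg (fun h => hj0 h.symm), if_pos rfl] at h
    exact h
  have h2 : al 2 (vecOf (G j0)) := by
    have h := hv j0
    rw [if_pos rfl] at h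
    exact h
  fin_cases j0
  · exact absurd rfl hj0
  · exact key [2, 3, 4, 0, 1] _ (by decide) (by decide) sV1
      (.cons (nVI _ (hG 2) (h6 2 (by decide) (by decide))).2.2.1
      (.cons (nVI _ (hG 3) (h6 3 (by decide) (by decide))).2.2.2.1
      (.cons (nVI _ (hG 4) (h6 4 (by decide) (by decide))).2.2.2.2
      (.cons (nV _ (hG 0) h5) (.cons (nII _ (hG 1) h2).2.1 .nil)))))
  · exact key [1, 3, 4, 0, 2] _ (by decide) (by decide) sV2
      (.cons (nVI _ (hG 1) (h6 1 (by decide) (by decide))).2.1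
      (.cons (nVI _ (hG 3) (h6 3 (by decide) (by decide))).2.2.2.1
      (.cons (nVI _ (hG 4) (h6 4 (by decide) (by decide))).2.2.2.2
      (.cons (nV _ (hG 0) h5) (.cons (nII _ (hG 2) h2).2.2.1 .nil)))))
  · exact key [1, 2, 4, 0, 3] _ (by decide) (by decide) sV3
      (.cons (nVI _ (hG 1) (h6 1 (by decide) (by decide))).2.1
      (.cons (nVI _ (hG 2) (h6 2 (by decide) (by decide))).2.2.1
      (.cons (nVI _ (hG 4) (h6 4 (by decide) (by decide))).2.2.2.2
      (.cons (nV _ (hG 0) h5) (.cons (nII _ (hG 3) h2).2.2.2.1 .nil)))))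
  · exact key [1, 2, 3, 0, 4] _ (by decide) (by decide) sV4
      (.cons (nVI _ (hG 1) (h6 1 (by decide) (by decide))).2.1
      (.cons (nVI _ (hG 2) (h6 2 (by decide) (by decide))).2.2.1
      (.cons (nVI _ (hG 3) (h6 3 (by decide) (by decide))).2.2.2.1
      (.cons (nV _ (hG 0) h5) (.cons (nII _ (hG 4) h2).2.2.2.2 .nil)))))

theorem stripZ (j0 : Fin 5) (hj0 : j0 = 1 ∨ j0 = 2 ∨ j0 = 3)
    (h0 : al 0 (vecOf (G 0))) (h2 : al 2 (vecOf (G j0)))
    (hT : ∀ j, j ≠ 0 → j ≠ j0 → vecOf (G j) = 19) :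
    vecOf (G j0) = 2 ∧ Zel j0 (fun j => X (G j)) := by
  have key : ∀ (ord : List (Fin 5)) (Ls : List (List (ℕ × ℕ))), ord.Nodup → (∀ j, j ∈ ord) →
      srch (PZ j0 ord) Ls 0 [] = true →
      List.Forall₂ (fun j L => (cg (G j), pg j (G j)) ∈ L) ord Ls →
      vecOf (G j0) = 2 ∧ Zel j0 (fun j => X (G j)) := by
    intro ord Ls hn hm h1 h2
    have h3 := srch_run _ G hs ord Ls hn h1 h2
    unfold PZ at h3
    simp only [lk_eq ord hm] at h3
    have h4 := of_decide_eq_true h3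
    rw [funX G hG] at h4
    exact h4
  rcases hj0 with rfl | rfl | rfl
  · exact key [0, 2, 3, 4, 1] _ (by decide) (by decide) sZ1
      (.cons (nZ _ (hG 0) h0) (.cons (nT _ (hG 2) (hT 2 (by decide) (by decide))).2.1
      (.cons (nT _ (hG 3) (hT 3 (by decide) (by decide))).2.2.1
      (.cons (nT _ (hG 4) (hT 4 (by decide) (by decide))).2.2.2
      (.cons (nII _ (hG 1) h2).2.1 .nil)))))
  · exact key [0, 1, 3, 4, 2] _ (by decide) (by decide) sZ2
      (.cons (nZ _ (hG 0) h0) (.cons (nT _ (hG 1) (hT 1 (by decide) (by decide))).1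
      (.cons (nT _ (hG 3) (hT 3 (by decide) (by decide))).2.2.1
      (.cons (nT _ (hG 4) (hT 4 (by decide) (by decide))).2.2.2
      (.cons (nII _ (hG 2) h2).2.2.1 .nil)))))
  · exact key [0, 1, 2, 4, 3] _ (by decide) (by decide) sZ3
      (.cons (nZ _ (hG 0) h0) (.cons (nT _ (hG 1) (hT 1 (by decide) (by decide))).1
      (.cons (nT _ (hG 2) (hT 2 (by decide) (by decide))).2.1
      (.cons (nT _ (hG 4) (hT 4 (by decide) (by decide))).2.2.2
      (.cons (nII _ (hG 3) h2).2.2.2.1 .nil)))))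

end

end PC

end Pool.Agent.Lib.MP_4dc748_co.TE
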