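import Pool.Agent.Lib.MP_4dc748_co.TE.Cls
import Pool.Agent.Lib.MP_4dc748_co.TE.PosCB

/-!
# The sums over the classes
-/

set_option autoImplicit false

namespace Pool.Agent.Lib.MP_4dc748_co.TE

namespace PC

open F4

/-- The sum of the points of a class. -/
def bt (A : CArc) (x : Fin 21) : F4 × F4 := ∑ p ∈ A.K x, p

/-- The sum of the values of the functional l on the class x. -/
def SS (A : CArc) (l x : Fin 21) : F4 := dt (PT l) (DEC x (bt A x))

theorem fk_add : ∀ (k : Fin 5) (p q : F4 × F4), fk k (p + q) = fk k p + fk k q := by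
  intro k p q
  unfold fk
  split_ifs
  · rfl
  · show p.2 + q.2 + el k.1 * (p.1 + q.1) = p.2 + el k.1 * p.1 + (q.2 + el k.1 * q.1)
    ring

/-- The standard functional as an additive map. -/
def fkh (k : Fin 5) : F4 × F4 →+ F4 where
  toFun := fk k
  map_zero' := by
    show fk k (0, 0) = 0
    unfold fk
    split_ifs
    · rfl
    · show (0 : F4) + el k.1 * 0 = 0
      ring
  map_add' := fk_add k

theorem dtl (l : Fin 21) (j : Fin 5) (p : F4 × F4) :
    dt (PT l) (DEC (LP l j) p) = SC (LP l j) (KK l j) * fk (KK l j) p := by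
  have h := dir_eq (LP l j) (KK l j) p.1 p.2
  rw [(PL_LP l j).1] at h
  exact h

/-- The functional as an additive map. -/
def dth (l : Fin 21) (j : Fin 5) : F4 × F4 →+ F4 where
  toFun := fun p => dt (PT l) (DEC (LP l j) p)
  map_zero' := by
    rw [dtl]
    have h : fk (KK l j) 0 = 0 := (fkh (KK l j)).map_zero
    rw [h, mul_zero]
  map_add' := by
    intro p q
    rw [dtl, dtl, dtl, fk_add, mul_add]

theorem tau_bij : ∀ (l : Fin 21) (j : Fin 5) (u : F4), ∃ t, RR l j * tau l t = u := by
  decide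

theorem tau_inj : ∀ (l : Fin 21) (j : Fin 5) (t u : F4), RR l j * tau l t = RR l j * tau l u → t = u := by
  decide

theorem natc (n : ℕ) (t : F4) : n • t = od n t := by
  unfold od
  have h2 : (2 : ℕ) • t = 0 := by
    rw [two_nsmul]
    cases t <;> rfl
  have h3 : n • t = (n % 2) • t := by
    conv_lhs => rw [← Nat.div_add_mod n 2, add_nsmul, mul_nsmul, h2]
    rw [smul_zero, zero_add]
  rw [h3]
  rcases Nat.mod_two_eq_zero_or_one n with h | h
  · rw [h, if_neg (by norm_num), zero_smul]
    rfl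
  · rw [h, if_pos rfl, one_smul]

theorem tau_add : ∀ (l : Fin 21) (t u : F4), tau l (t + u) = tau l t + tau l u := by
  decide

theorem tau_od : ∀ (l : Fin 21) (n : ℕ) (t : F4), tau l (od n t) = od n (tau l t) := by
  intro l n t
  unfold od
  split_ifs
  · rfl
  · unfold tau
    split_ifs <;> rfl

theorem tau_o (l : Fin 21) : tau l o = o := by
  unfold tau
  split_ifs <;> rfl

theorem SS_eq (A : CArc) (l : Fin 21) (j : Fin 5) :
    SS A l (LP l j) = RR l j * tau l (X (A.G l j)) := by
  have h1 : SS A l (LP l j) = ∑ p ∈ A.K (LP l j), dt (PT l) (DEC (LP l j) p) := by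
    show dth l j (bt A (LP l j)) = ∑ p ∈ A.K (LP l j), dth l j p
    unfold bt
    rw [map_sum]
  have h2 : ∀ p : F4 × F4, dt (PT l) (DEC (LP l j) p) =
      ∑ t : F4, if dt (PT l) (DEC (LP l j) p) = RR l j * tau l t then RR l j * tau l t else 0 := by
    intro p
    obtain ⟨t0, ht0⟩ := tau_bij l j (dt (PT l) (DEC (LP l j) p))
    rw [← ht0]
    rw [Finset.sum_eq_single t0]
    · rw [if_pos rfl]
    · intro b _ hb
      rw [if_neg]
      intro h
      exact hb (tau_inj l j _ _ h).symm
    · intro h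
      exact absurd (Finset.mem_univ _) h
  have h3 : SS A l (LP l j) = ∑ t : F4, (A.G l j t) • (RR l j * tau l t) := by
    rw [h1, Finset.sum_congr rfl (fun p _ => h2 p), Finset.sum_comm]
    refine Finset.sum_congr rfl (fun t _ => ?_)
    rw [← Finset.sum_filter, Finset.sum_const]
    rfl
  rw [h3]
  have h4 : ∀ f : F4 → F4, ∑ t : F4, f t = f o + (f i + (f w + f z)) := by
    intro f
    have hu : (Finset.univ : Finset F4) = {o, i, w, z} := by decide
    rw [hu, Finset.sum_insert (by decide), Finset.sum_insert (by decide),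
      Finset.sum_insert (by decide), Finset.sum_singleton]
  have h5 : ∀ t, (A.G l j t) • (RR l j * tau l t) = RR l j * tau l (od (A.G l j t) t) := by
    intro t
    rw [tau_od, ← natc, mul_smul_comm]
  rw [h4, h5, h5, h5, h5]
  have h6 : od (A.G l j o) o = o := by
    unfold od
    split_ifs <;> rfl
  rw [h6, tau_o, X, tau_add, tau_add]
  have h7 : RR l j * (o : F4) = 0 := mul_zero _
  rw [h7, zero_add, mul_add, mul_add]

/-- A linear relation between the values on a line. -/
def Rl (A : CArc) (l : Fin 21) (q : Fin 5 → F4) : Prop :=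
  q 0 * SS A l (LP l 0) + (q 1 * SS A l (LP l 1) + (q 2 * SS A l (LP l 2) +
    (q 3 * SS A l (LP l 3) + q 4 * SS A l (LP l 4)))) = 0

theorem Rl_eq (A : CArc) (l : Fin 21) (q : Fin 5 → F4) (h : q 0 * (RR l 0 * tau l (X (A.G l 0))) +
    (q 1 * (RR l 1 * tau l (X (A.G l 1))) + (q 2 * (RR l 2 * tau l (X (A.G l 2))) +
    (q 3 * (RR l 3 * tau l (X (A.G l 3))) + q 4 * (RR l 4 * tau l (X (A.G l 4)))))) = 0) :
    Rl A l q := by
  unfold Rl
  rw [SS_eq, SS_eq, SS_eq, SS_eq, SS_eq]
  exact h

end PC

end Pool.Agent.Lib.MP_4dc748_co.TE
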