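import Pool.Agent.Lib.MP_4dc748_co.TE.PosCC

/-!
# The counting argument and the certificate
-/

set_option autoImplicit false

namespace Pool.Agent.Lib.MP_4dc748_co.TE

namespace PC

open F4

theorem al_V' (A : CArc) (x : Fin 21) (k : Fin 5) : al (A.K x).card (A.V' x k) := by
  obtain ⟨t, ht, h1, h2⟩ := type_of A x
  refine ⟨t, ht, h1, ?_⟩
  have h3 : A.V' x k ∈ (Finset.univ.val.map (A.V' x) : Multiset ℕ) :=
    Multiset.mem_map_of_mem _ (Finset.mem_univ k)
  rw [h2] at h3
  exact Multiset.mem_coe.mp h3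

theorem al_V (A : CArc) (u : Fin 21 → ℕ) (h : ∀ x, (A.K x).card = u x) (l : Fin 21) (j : Fin 5) :
    al (u (LP l j)) (vecOf (A.G l j)) := by
  have h1 := al_V' A (LP l j) (KK l j)
  rw [← V_eq, h] at h1
  exact h1

/-- The lines which meet neither the class 0 nor are equal to the line 0. -/
def lamS : Finset (Fin 21) := {2, 3, 4, 6, 8, 9, 10, 11, 13, 14, 15, 16, 18, 19, 20}

/-- The direction of the line through the class 0. -/
def xk : Fin 21 → Fin 5 := ![0, 0, 0, 0, 0, 0, 4, 0, 1, 3, 2, 4, 0, 2, 1, 3, 4, 0, 3, 2, 1]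

theorem lam_ok (v : Fin 5 → ℕ) (h : LamOK v) :
    (∀ j, v j ≠ 19) ∧ (∑ j : Fin 5, (if v j = 12 then (1 : ℤ) else 0)) ≤ 1 := by
  obtain ⟨⟨h0, h1, h2, h3, h4⟩, h5⟩ := h
  constructor
  · intro j
    fin_cases j
    · exact h0
    · exact h1
    · exact h2
    · exact h3
    · exact h4
  · rw [Fin.sum_univ_five]
    have e : ∀ j, (if v j = 12 then (1 : ℤ) else 0) = ((if v j = 12 then 1 else 0 : ℕ) : ℤ) := by
      intro j
      split_ifs <;> rfl
    rw [e, e, e, e, e]
    omega

/-- Sums over the flags. -/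
theorem sum_flags' {M : Type} [AddCommMonoid M] (φ : Fin 21 → Fin 5 → M) :
    ∑ x, ∑ k, φ x k = ∑ l, ∑ j, φ (LP l j) (KK l j) := by
  rw [← Finset.sum_product', ← Finset.sum_product']
  refine (Finset.sum_nbij' (fun q : Fin 21 × Fin 5 => (PL q.1 q.2, JJ q.1 q.2))
    (fun q : Fin 21 × Fin 5 => (LP q.1 q.2, KK q.1 q.2)) ?_ ?_ ?_ ?_ ?_)
  · intro q _; simp
  · intro q _; simp
  · intro q _
    exact Prod.ext (LP_PL q.1 q.2).1 (LP_PL q.1 q.2).2
  · intro q _
    exact Prod.ext (PL_LP q.1 q.2).1 (PL_LP q.1 q.2).2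
  · intro q _
    show φ q.1 q.2 = φ (LP (PL q.1 q.2) (JJ q.1 q.2)) (KK (PL q.1 q.2) (JJ q.1 q.2))
    rw [(LP_PL q.1 q.2).1, (LP_PL q.1 q.2).2]

theorem card_filter_eq (f : Fin 5 → ℕ) (T : List ℕ)
    (h : (Finset.univ.val.map f : Multiset ℕ) = (T : Multiset ℕ)) (a : ℕ) :
    ∑ k : Fin 5, (if f k = a then (1 : ℤ) else 0) = (T.count a : ℤ) := by
  have h1 : (Finset.univ.val.map f).count a = T.count a := by
    rw [h, Multiset.coe_count]
  rw [Multiset.count_map] at h1
  rw [← h1, Finset.sum_boole]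
  congr 1
  have e : (fun k => f k = a) = fun k => a = f k := by
    funext k
    exact propext eq_comm
  simp only [e]
  rfl

theorem count_dir (A : CArc) (u : Fin 21 → ℕ) (h : ∀ x, (A.K x).card = u x)
    (h6 : ∀ x, u x = 6 → ∀ k, k ≠ xk x → PL x k ∈ lamS)
    (h13 : 13 ≤ ∑ x, if u x = 6 then (1 : ℤ) else 0)
    (hL : ∀ l ∈ lamS, LamOK (fun j => vecOf (A.G l j))) :
    ∀ x, u x = 6 → A.V' x (xk x) = 19 := by
  -- no 3300 in the other directions
  have hno : ∀ x, u x = 6 → ∀ k, k ≠ xk x → A.V' x k ≠ 19 := by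
    intro x hx k hk
    rw [V'_eq]
    exact (lam_ok _ (hL _ (h6 x hx k hk))).1 (JJ x k)
  -- the two types
  have hty : ∀ x, u x = 6 → (A.V' x (xk x) = 19 ∧
      ∑ k : Fin 5, (if A.V' x k = 12 then (1 : ℤ) else 0) = 1) ∨ (∀ k, A.V' x k = 12) := by
    intro x hx
    obtain ⟨t, ht, h1, h2⟩ := type_of A x
    rw [h x, hx] at h1
    have h3 : t.2 = [11, 11, 11, 12, 19] ∨ t.2 = [12, 12, 12, 12, 12] := by
      simp only [TYL, List.mem_cons, List.not_mem_nil, or_false] at ht
      rcases ht with rfl | rfl | rfl | rfl | rfl | rfl | rfl | rfl | rfl | rfl | rfl | rfl | rfl |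
        rfl | rfl | rfl <;> simp at h1 ⊢
    rcases h3 with h3 | h3
    · left
      rw [h3] at h2
      constructor
      · have h4 : 19 ∈ (Finset.univ.val.map (A.V' x) : Multiset ℕ) := by
          rw [h2]; decide
        rw [Multiset.mem_map] at h4
        obtain ⟨k, _, hk⟩ := h4
        by_cases hkx : k = xk x
        · rw [← hkx]; exact hk
        · exact absurd hk (hno x hx k hkx)
      · rw [card_filter_eq _ _ h2]
        decide
    · right
      rw [h3] at h2
      intro k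
      have h4 : A.V' x k ∈ (Finset.univ.val.map (A.V' x) : Multiset ℕ) :=
        Multiset.mem_map_of_mem _ (Finset.mem_univ k)
      rw [h2] at h4
      have h5 := Multiset.mem_coe.mp h4
      simp at h5
      exact h5
  by_contra hcon
  push Not at hcon
  obtain ⟨x0, hx0, hbad⟩ := hcon
  -- double counting
  have hflag := sum_flags' (fun x k => if u x = 6 ∧ k ≠ xk x ∧ A.V' x k = 12 then (1 : ℤ) else 0)
  have hR : ∑ l, ∑ j, (fun x k => if u x = 6 ∧ k ≠ xk x ∧ A.V' x k = 12 then (1 : ℤ) else 0)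
      (LP l j) (KK l j) ≤ 15 := by
    have h15 : ∑ l : Fin 21, (if l ∈ lamS then (1 : ℤ) else 0) = 15 := by decide
    rw [← h15]
    refine Finset.sum_le_sum (fun l _ => ?_)
    by_cases hl : l ∈ lamS
    · rw [if_pos hl]
      refine le_trans (Finset.sum_le_sum (fun j _ => ?_)) (lam_ok _ (hL l hl)).2
      show (if u (LP l j) = 6 ∧ KK l j ≠ xk (LP l j) ∧ A.V' (LP l j) (KK l j) = 12 then (1 : ℤ)
        else 0) ≤ if vecOf (A.G l j) = 12 then (1 : ℤ) else 0
      by_cases hj : vecOf (A.G l j) = 12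
      · rw [if_pos hj]
        split_ifs <;> norm_num
      · rw [if_neg hj, if_neg]
        intro hc
        apply hj
        have h7 : A.V l j = 12 := by rw [V_eq]; exact hc.2.2
        exact h7
    · rw [if_neg hl]
      refine le_of_eq (Finset.sum_eq_zero (fun j _ => ?_))
      show (if u (LP l j) = 6 ∧ KK l j ≠ xk (LP l j) ∧ A.V' (LP l j) (KK l j) = 12 then (1 : ℤ)
        else 0) = 0
      rw [if_neg]
      intro hc
      apply hl
      have h7 := h6 (LP l j) hc.1 (KK l j) hc.2.1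
      rw [(PL_LP l j).1] at h7
      exact h7
  have hLx : ∀ x, (if u x = 6 then (1 : ℤ) else 0) + (if x = x0 then 3 else 0) ≤
      ∑ k, (fun x k => if u x = 6 ∧ k ≠ xk x ∧ A.V' x k = 12 then (1 : ℤ) else 0) x k := by
    intro x
    show _ ≤ ∑ k : Fin 5, (if u x = 6 ∧ k ≠ xk x ∧ A.V' x k = 12 then (1 : ℤ) else 0)
    by_cases hx : u x = 6
    · rw [if_pos hx]
      rcases hty x hx with ⟨h1, h2⟩ | h1
      · have hxx : x ≠ x0 := by
          intro hx'
          apply hbad
          rw [← hx']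
          exact h1
        rw [if_neg hxx, add_zero]
        refine le_trans (le_of_eq h2.symm) ?_
        refine Finset.sum_le_sum (fun k _ => ?_)
        by_cases hk : A.V' x k = 12
        · have hk2 : k ≠ xk x := by
            intro hk2
            rw [hk2, h1] at hk
            omega
          rw [if_pos hk, if_pos ⟨hx, hk2, hk⟩]
        · rw [if_neg hk]
          split_ifs <;> norm_num
      · have h3 : ∀ k : Fin 5, (if u x = 6 ∧ k ≠ xk x ∧ A.V' x k = 12 then (1 : ℤ) else 0) =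
            if k ≠ xk x then 1 else 0 := by
          intro k
          by_cases hk : k ≠ xk x
          · rw [if_pos hk, if_pos ⟨hx, hk, h1 k⟩]
          · rw [if_neg hk, if_neg (fun hc => hk hc.2.1)]
        rw [Finset.sum_congr rfl (fun k _ => h3 k)]
        have h4 : ∀ a : Fin 5, ∑ k : Fin 5, (if k ≠ a then (1 : ℤ) else 0) = 4 := by decide
        rw [h4]
        split_ifs <;> norm_num
    · have hxx : x ≠ x0 := by
        intro hx'
        rw [hx'] at hx
        exact hx hx0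
      rw [if_neg hx, if_neg hxx]
      refine Finset.sum_nonneg (fun k _ => ?_)
      split_ifs <;> norm_num
  have hsum := Finset.sum_le_sum (fun x (_ : x ∈ (Finset.univ : Finset (Fin 21))) => hLx x)
  rw [Finset.sum_add_distrib, hflag, Finset.sum_ite_eq' Finset.univ x0, if_pos (Finset.mem_univ _)]
    at hsum
  linarith

/-- The contradiction from a table of coefficients. -/
theorem cert (A : CArc) (Q : Fin 21 → Fin 5 → F4) (y l0 : Fin 21)
    (hR : ∀ l, Rl A l (Q l))
    (hQ : ∀ (x : Fin 21) (a b : F4), Q (PL x 0) (JJ x 0) * dt (PT (PL x 0)) (DEC x (a, b)) +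
      (Q (PL x 1) (JJ x 1) * dt (PT (PL x 1)) (DEC x (a, b)) +
      (Q (PL x 2) (JJ x 2) * dt (PT (PL x 2)) (DEC x (a, b)) +
      (Q (PL x 3) (JJ x 3) * dt (PT (PL x 3)) (DEC x (a, b)) +
      Q (PL x 4) (JJ x 4) * dt (PT (PL x 4)) (DEC x (a, b))))) =
      if x = y then dt (PT l0) (DEC x (a, b)) else 0) : SS A l0 y = 0 := by
  have h1 := sum_flags' (fun x k => Q (PL x k) (JJ x k) * SS A (PL x k) x)
  have h2 : ∀ x, ∑ k, Q (PL x k) (JJ x k) * SS A (PL x k) x = if x = y then SS A l0 x else 0 := by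
    intro x
    rw [Fin.sum_univ_five]
    have h3 := hQ x (bt A x).1 (bt A x).2
    rw [← add_assoc, ← add_assoc, ← add_assoc] at h3
    exact h3
  have h4 : ∀ l, ∑ j, Q (PL (LP l j) (KK l j)) (JJ (LP l j) (KK l j)) *
      SS A (PL (LP l j) (KK l j)) (LP l j) = 0 := by
    intro l
    have h5 : ∀ j, Q (PL (LP l j) (KK l j)) (JJ (LP l j) (KK l j)) *
      SS A (PL (LP l j) (KK l j)) (LP l j) = Q l j * SS A l (LP l j) := by
      intro j
      rw [(PL_LP l j).1, (PL_LP l j).2]
    rw [Finset.sum_congr rfl (fun j _ => h5 j), Fin.sum_univ_five]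
    have h6 := hR l
    unfold Rl at h6
    rw [← add_assoc, ← add_assoc, ← add_assoc] at h6
    exact h6
  rw [Finset.sum_congr rfl (fun x _ => h2 x), Finset.sum_congr rfl (fun l _ => h4 l),
    Finset.sum_ite_eq' Finset.univ y, if_pos (Finset.mem_univ _), Finset.sum_const_zero] at h1
  exact h1

/-- A table as a function. -/
def tq (T : List (List ℕ)) (l : Fin 21) (j : Fin 5) : F4 := el ((T.getD l.1 []).getD j.1 0)

/-- The relation of a line with the parity checks. -/
theorem Rl_par (A : CArc) (l : Fin 21) (q : Fin 5 → F4) (h : Par (fun j => X (A.G l j)))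
    (hq : ∀ a b : F4, q 0 * (RR l 0 * tau l b) + (q 1 * (RR l 1 * tau l (b + a)) +
      (q 2 * (RR l 2 * tau l (b + w * a)) + (q 3 * (RR l 3 * tau l (b + z * a)) +
      q 4 * (RR l 4 * tau l a)))) = 0) : Rl A l q := by
  apply Rl_eq
  have h1 : X (A.G l 1) = X (A.G l 0) + X (A.G l 4) := h.1
  have h2 : X (A.G l 2) = X (A.G l 0) + w * X (A.G l 4) := h.2.1
  have h3 : X (A.G l 3) = X (A.G l 0) + z * X (A.G l 4) := h.2.2
  rw [h1, h2, h3]
  exact hq (X (A.G l 4)) (X (A.G l 0))

/-- A function with the vector 1100 has X g ≠ 0. -/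
theorem v2_ne : ∀ a < 5, ∀ b < 5, ∀ c < 5, ∀ d < 5, vid a b c d = 2 →
    od b i + (od c w + od d z) ≠ o := by
  decide +kernel

theorem SS_ne (A : CArc) (l : Fin 21) (j : Fin 5) (h : vecOf (A.G l j) = 2) :
    SS A l (LP l j) ≠ 0 := by
  rw [SS_eq]
  intro h1
  have hle := G_le A l j
  have h2 : X (A.G l j) ≠ o := v2_ne _ (Nat.lt_succ_of_le (hle o)) _ (Nat.lt_succ_of_le (hle i)) _
    (Nat.lt_succ_of_le (hle w)) _ (Nat.lt_succ_of_le (hle z)) h
  apply h2
  apply tau_inj l j
  rw [h1, tau_o]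
  exact (mul_zero _).symm

end PC

end Pool.Agent.Lib.MP_4dc748_co.TE
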