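import Pool.Agent.Lib.MP_4dc748_co.TE.CtxA
import Pool.Agent.Lib.MP_4dc748_co.TE.Fam

/-!
# Certificates: definitions

A state is a natural number s. The field x < 21 of 4 bits is 0 or 1 + u x, the fields after these, 21 fields of 5 bits,
are 0 or 1 + (number of points over the line l). A certificate is a list of tokens; each token closes the first state of
the stack or replaces it by some states.
-/

set_option autoImplicit false

namespace Pool.Agent.Lib.MP_4dc748_co.TE

/-- The points of the lines, 25 bits for each line. -/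
def LPN : ℕ :=
  0x125a8e39c5682518b48a6d6280f7356183d881c1a939230728528bd20a4e500d22d30e4e6189379cc2a3907029283048310413724a3a3d45249a828a0b3141161ca1

/-- The lines through the points, 25 bits for each point. -/
def PLN : ℕ :=
  0x3548eb24e2858989a2c0d9a9816bdcb1b1e8811a93c04a8ba007c9310ce5480db1a188c938c29bce603a883854941803208239a5c5229f4289b24140b818a1644e5

/-- The point number j of the line l. -/
def lp (l j : ℕ) : ℕ := Nat.mod (Nat.shiftRight LPN (Nat.add (Nat.mul 25 l) (Nat.mul 5 j))) 32

/-- The line number k through the point x. -/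
def pln (x k : ℕ) : ℕ := Nat.mod (Nat.shiftRight PLN (Nat.add (Nat.mul 25 x) (Nat.mul 5 k))) 32

/-- The sum of f 0, ..., f 4. -/
def sum5 (f : ℕ → ℕ) : ℕ := Nat.add (Nat.add (Nat.add (Nat.add (f 0) (f 1)) (f 2)) (f 3)) (f 4)

/-- All of f 0, ..., f 4. -/
def all5 (f : ℕ → Bool) : Bool := f 0 && f 1 && f 2 && f 3 && f 4

/-- One of f 0, ..., f 4. -/
def any5 (f : ℕ → Bool) : Bool := f 0 || f 1 || f 2 || f 3 || f 4

/-- The sum of f 0, ..., f n. -/
def sumTo (f : ℕ → ℕ) : ℕ → ℕ
  | 0 => f 0
  | n + 1 => Nat.add (f (n + 1)) (sumTo f n)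

/-- Evaluate n first. -/
def frc {α : Type} (n : ℕ) (f : ℕ → α) : α :=
  match n with
  | 0 => f 0
  | k + 1 => f (k + 1)

/-- The field of the point x. -/
def fU (s x : ℕ) : ℕ := Nat.mod (Nat.shiftRight s (Nat.mul 4 x)) 16

/-- The field of the line l. -/
def fW (s l : ℕ) : ℕ := Nat.mod (Nat.shiftRight s (Nat.add 84 (Nat.mul 5 l))) 32

/-- Set u x = v. -/
def stU (s x v : ℕ) : ℕ := Nat.add s (Nat.shiftLeft (Nat.succ v) (Nat.mul 4 x))

/-- Set the number of points over l to w. -/
def stW (s l w : ℕ) : ℕ := Nat.add s (Nat.shiftLeft (Nat.succ w) (Nat.add 84 (Nat.mul 5 l)))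

/-- The code of the known numbers on the line l. -/
def cdl (s l : ℕ) : ℕ := sum5 fun j => Nat.shiftRight (Nat.pow 8 (fU s (lp l j))) 3

/-- The range of the number of points over the line l, as lo + 1024 hi. -/
def rgl (c : Ctx) (s l : ℕ) : ℕ :=
  match fW s l with
  | 0 => frc (c.RB.get (cdl s l)) fun g => Nat.add (Nat.mod g 32) (Nat.mul 1024 (Nat.div g 32))
  | w + 1 => Nat.mul 1025 w

/-- The bound for the class with the field f. -/
def pA (p : Pot) (f : ℕ) : ℕ :=
  match f with
  | 0 => p.As
  | v + 1 => p.A.getD v 0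

/-- The number of points or 31, from the field. -/
def kw (f : ℕ) : ℕ :=
  match f with
  | 0 => 31
  | w + 1 => w

/-- The weight function p closes the state s. -/
def closeP (c : Ctx) (s : ℕ) (p : Pot) : Bool :=
  Nat.blt (sumTo (fun x => pA p (fU s x)) 20)
    (Nat.add (Nat.mul p.lam 99) (sumTo (fun l =>
      f24 p.m (c.KB.get (Nat.add (cdl s l) (Nat.mul 134217728 (kw (fW s l)))))) 20))

/-- The element number n of the list. -/
def nth {α : Type} : List α → ℕ → Option α
  | [], _ => none
  | a :: _, 0 => some a
  | _ :: L, n + 1 => nth L n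

/-- Close the state if b holds. -/
def clo (b : Bool) : Option (List ℕ) := cond b (some []) none

/-- Close with the weight function number k. -/
def opP (c : Ctx) (k s : ℕ) : Option (List ℕ) :=
  match nth c.pots k with
  | none => none
  | some p => clo (closeP c s p)

/-- Close with the sum over the lines through x. -/
def opWS (c : Ctx) (x s : ℕ) : Option (List ℕ) :=
  match fU s x with
  | 0 => none
  | u + 1 => frc (sum5 fun k => rgl c s (pln x k)) fun t =>
      clo (Nat.blt x 21 && (Nat.blt (Nat.div t 1024) (Nat.add 99 (Nat.mul 4 u)) ||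
        Nat.blt (Nat.add 99 (Nat.mul 4 u)) (Nat.mod t 1024)))

/-- Close with the range for the line l. -/
def opLI (c : Ctx) (l s : ℕ) : Option (List ℕ) :=
  frc (c.RB.get (cdl s l)) fun g => frc (Nat.mod g 32) fun lo => frc (Nat.div g 32) fun hi =>
    clo (Nat.blt l 21 && (Nat.blt hi lo || Nat.blt hi (sum5 fun j => Nat.pred (fU s (lp l j))) ||
      (match fW s l with
        | 0 => false
        | w + 1 => Nat.blt w lo || Nat.blt hi w)))

/-- All five numbers on the line l are known. -/
def opFW (l s : ℕ) : Option (List ℕ) :=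
  cond (Nat.blt l 21 && all5 fun j => Nat.blt 0 (fU s (lp l j)))
    (frc (sum5 fun j => Nat.pred (fU s (lp l j))) fun n =>
      match fW s l with
      | 0 => cond (Nat.blt 28 n) (some []) (some [stW s l n])
      | w + 1 => clo (!(Nat.beq n w)))
    none

/-- Four numbers on the line l and their sum are known, x is the fifth point. -/
def opFU (c : Ctx) (l x s : ℕ) : Option (List ℕ) :=
  cond (Nat.blt l 21 && Nat.beq (fU s x) 0 && Nat.blt 0 (fW s l) && (any5 fun j => Nat.beq (lp l j) x) &&
      all5 fun j => Nat.beq (lp l j) x || Nat.blt 0 (fU s (lp l j)))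
    (frc (sum5 fun j => fU s (lp l j)) fun t => frc (Nat.add (fW s l) 3) fun n =>
      cond (Nat.blt n t || Nat.blt c.um (Nat.sub n t)) (some []) (some [stU s x (Nat.sub n t)]))
    none

/-- Four of the numbers of points over the lines through x are known, l is the fifth line. -/
def opFX (x l s : ℕ) : Option (List ℕ) :=
  cond (Nat.blt x 21 && Nat.beq (fW s l) 0 && Nat.blt 0 (fU s x) && (any5 fun k => Nat.beq (pln x k) l) &&
      all5 fun k => Nat.beq (pln x k) l || Nat.blt 0 (fW s (pln x k)))
    (frc (sum5 fun k => fW s (pln x k)) fun t => frc (Nat.add 99 (Nat.mul 4 (fU s x))) fun n =>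
      cond (Nat.blt n t || Nat.blt 28 (Nat.sub n t)) (some []) (some [stW s l (Nat.sub n t)]))
    none

/-- Branch on u x. -/
def opBU (c : Ctx) (x s : ℕ) : Option (List ℕ) :=
  cond (Nat.blt x 21 && Nat.beq (fU s x) 0) (some ((List.range (c.um + 1)).map fun v => stU s x v)) none

/-- Branch on the number of points over l. -/
def opBW (c : Ctx) (l s : ℕ) : Option (List ℕ) :=
  frc (c.RB.get (cdl s l)) fun g => frc (Nat.mod g 32) fun lo => frc (Nat.div g 32) fun hi =>
    cond (Nat.blt l 21 && Nat.beq (fW s l) 0 && Nat.ble hi 28)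
      (some ((List.range (Nat.sub (Nat.succ hi) lo)).map fun n => stW s l (Nat.add lo n))) none

/-- The image of the point x. -/
def gp (g x : ℕ) : ℕ := Nat.mod (Nat.shiftRight g (Nat.mul 5 x)) 32

/-- The image of the line l. -/
def gl (g l : ℕ) : ℕ := Nat.mod (Nat.shiftRight g (Nat.add 105 (Nat.mul 5 l))) 32

/-- The state s, moved by g, is stronger than the state t. -/
def inst (g t s : ℕ) : Bool :=
  allLe (fun x => match fU t x with
    | 0 => true
    | v + 1 => Nat.beq (fU s (gp g x)) (v + 1)) 20 &&
  allLe (fun l => match fW t l with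
    | 0 => true
    | v + 1 => Nat.beq (fW s (gl g l)) (v + 1)) 20

/-- Close with the closed state number j, moved by the element number g. -/
def opCI (cl gs : List ℕ) (j g s : ℕ) : Option (List ℕ) :=
  match nth cl j, nth gs g with
  | some t, some e => clo (inst e t s)
  | _, _ => none

/-- The meaning of a token t = op + 16 (a + 4096 b). -/
def step (c : Ctx) (cl gs : List ℕ) (t s : ℕ) : Option (List ℕ) :=
  frc (Nat.mod t 16) fun op => frc (Nat.mod (Nat.shiftRight t 4) 4096) fun a => frc (Nat.shiftRight t 16) fun b =>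
    match op with
    | 0 => opP c a s
    | 1 => opWS c a s
    | 2 => opLI c a s
    | 3 => opFW a s
    | 4 => opFU c a b s
    | 5 => opFX a b s
    | 6 => opBU c a s
    | 7 => opBW c a s
    | 8 => opCI cl gs a b s
    | _ => none

/-- Run the tokens on a stack of states. -/
def run (c : Ctx) (cl gs : List ℕ) : List ℕ → List ℕ → Bool
  | [], [] => true
  | [], _ :: _ => false
  | _ :: _, [] => false
  | t :: ts, s :: st => frc s fun s => match step c cl gs t s with
    | none => false
    | some L => run c cl gs ts (L ++ st)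

/-- Run the certificates for the states of L; cl are the states which are closed already. -/
def runAll (c : Ctx) (gs : List ℕ) : List (ℕ × List ℕ) → List ℕ → Bool
  | [], _ => true
  | e :: L, cl => run c cl gs e.2 [e.1] && runAll c gs L (e.1 :: cl)

/-- The three exceptional states. -/
def cl0 : List ℕ := [0x777377773777737377631, 0x777377773777737377721, 0x444884448844488488844]

end Pool.Agent.Lib.MP_4dc748_co.TE
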