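import Pool.Agent.Lib.MP_4dc748_co.TE.TreeS

/-!
# Certificates: collineations

A collineation is a natural number g: 21 fields of 5 bits for the images of the points, 21 fields of 5 bits for the
images of the lines, then (at 2^210) a matrix n, 9 fields of 2 bits, (at 2^228) its inverse m, and (at 2^246) the bit for
the Frobenius map.
-/

set_option autoImplicit false

namespace Pool.Agent.Lib.MP_4dc748_co.TE

/-- The product of two elements, by numbers. -/
def mulN (a b : ℕ) : ℕ := Nat.mod (Nat.shiftRight 0x9c78e400 (Nat.add (Nat.mul 8 a) (Nat.mul 2 b))) 4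

/-- The square of an element, by numbers. -/
def frN (a : ℕ) : ℕ := Nat.mod (Nat.shiftRight 180 (Nat.mul 2 a)) 4

/-- The coordinates of the points, 6 bits for each point. -/
def PTN : ℕ := 0x3de75d31b6996485d65551140d245101

/-- The coordinate k of the point x. -/
def ptn (x k : ℕ) : ℕ := Nat.mod (Nat.shiftRight PTN (Nat.add (Nat.mul 6 x) (Nat.mul 2 k))) 4

/-- The entry (r, c) of the matrix at the offset f. -/
def me (g f r c : ℕ) : ℕ := Nat.mod (Nat.shiftRight g (Nat.add f (Nat.mul 2 (Nat.add (Nat.mul 3 r) c)))) 4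

/-- The coordinate r of the image of the point y under the semilinear map of g. -/
def img (g y r : ℕ) : ℕ :=
  frc (Nat.xor (Nat.xor (mulN (me g 210 r 0) (ptn y 0)) (mulN (me g 210 r 1) (ptn y 1)))
    (mulN (me g 210 r 2) (ptn y 2))) fun s => cond (Nat.beq (Nat.shiftRight g 246) 0) s (frN s)

/-- One of f 0, ..., f n. -/
def anyLe (f : ℕ → Bool) : ℕ → Bool
  | 0 => f 0
  | n + 1 => f (n + 1) || anyLe f n

/-- The check of a collineation. -/
def gOK (g : ℕ) : Bool :=
  allLe (fun x => Nat.blt (gp g x) 21 && Nat.blt (gl g x) 21) 20 &&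
  allLe (fun r => allLe (fun c => Nat.beq
    (Nat.xor (Nat.xor (mulN (me g 228 r 0) (me g 210 0 c)) (mulN (me g 228 r 1) (me g 210 1 c)))
      (mulN (me g 228 r 2) (me g 210 2 c))) (cond (Nat.beq r c) 1 0)) 2) 2 &&
  allLe (fun x => anyLe (fun e => allLe (fun r => Nat.beq (img g (gp g x) r) (mulN (Nat.succ e) (ptn x r))) 2) 2) 20 &&
  allLe (fun y => anyLe (fun x => Nat.beq (gp g x) y) 20) 20 &&
  allLe (fun l => all5 fun j => any5 fun k => Nat.beq (gp g (lp l j)) (lp (gl g l) k)) 20

/-- The image of a point. -/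
def gpF (g : ℕ) (x : Fin 21) : Fin 21 := Fin.ofNat 21 (gp g x.1)

/-- The image of a line. -/
def glF (g : ℕ) (l : Fin 21) : Fin 21 := Fin.ofNat 21 (gl g l.1)

/-- The meaning of the check. -/
structure GV (g : ℕ) : Prop where
  pv : ∀ x : Fin 21, gp g x.1 = (gpF g x).1
  lv : ∀ l : Fin 21, gl g l.1 = (glF g l).1
  us : ∀ u : Fin 21 → ℕ, US u → US (fun x => u (gpF g x))
  ln : ∀ (u : Fin 21 → ℕ) (l : Fin 21), lm (fun x => u (gpF g x)) l = lm u (glF g l)

private theorem shr (a b : ℕ) : Nat.shiftRight a b = a / 2 ^ b := by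
  rw [show Nat.shiftRight a b = a >>> b from rfl, Nat.shiftRight_eq_div_pow]

private theorem anyLe_iff (f : ℕ → Bool) (n : ℕ) : anyLe f n = true ↔ ∃ k ≤ n, f k = true := by
  induction n with
  | zero => simp [anyLe]
  | succ n ih =>
    simp only [anyLe, Bool.or_eq_true, ih]
    constructor
    · rintro (h | ⟨k, hk, h⟩)
      · exact ⟨n + 1, le_rfl, h⟩
      · exact ⟨k, by omega, h⟩
    · rintro ⟨k, hk, h⟩
      rcases Nat.lt_or_ge n k with h2 | h2
      · obtain rfl : k = n + 1 := by omega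
        exact Or.inl h
      · exact Or.inr ⟨k, h2, h⟩

private theorem mulN_lt (a b : ℕ) : mulN a b < 4 := Nat.mod_lt _ (by norm_num)

private theorem frN_lt (a : ℕ) : frN a < 4 := Nat.mod_lt _ (by norm_num)

private theorem ptn_lt (x k : ℕ) : ptn x k < 4 := Nat.mod_lt _ (by norm_num)

private theorem me_lt (g f r c : ℕ) : me g f r c < 4 := Nat.mod_lt _ (by norm_num)

private theorem xor_lt {a b : ℕ} (ha : a < 4) (hb : b < 4) : Nat.xor a b < 4 :=
  Nat.xor_lt_two_pow (n := 2) ha hb

private theorem mul_tab : ∀ a b : Fin 4, el (mulN a.1 b.1) = el a.1 * el b.1 := by decide +kernel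

private theorem xor_tab : ∀ a b : Fin 4, el (Nat.xor a.1 b.1) = el a.1 + el b.1 := by decide +kernel

private theorem fr_tab : ∀ a : Fin 4, el (frN a.1) = F4.fr (el a.1) := by decide +kernel

private theorem el_mul {a b : ℕ} (ha : a < 4) (hb : b < 4) : el (mulN a b) = el a * el b :=
  mul_tab ⟨a, ha⟩ ⟨b, hb⟩

private theorem el_xor {a b : ℕ} (ha : a < 4) (hb : b < 4) : el (Nat.xor a b) = el a + el b :=
  xor_tab ⟨a, ha⟩ ⟨b, hb⟩

private theorem el_fr {a : ℕ} (ha : a < 4) : el (frN a) = F4.fr (el a) := fr_tab ⟨a, ha⟩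

private theorem el_ptn : ∀ (x : Fin 21) (k : Fin 3), el (ptn x.1 k.1) = PT x k := by decide +kernel

private theorem el_ne : ∀ e : Fin 3, el (e.1 + 1) ≠ 0 := by decide +kernel

private theorem el_me (g f : ℕ) (r c : Fin 3) : el (me g f r.1 c.1) = mat (g / 2 ^ f) r c := by
  have h : me g f r.1 c.1 = g / 2 ^ f / 4 ^ (3 * r.1 + c.1) % 4 := by
    show Nat.shiftRight g (f + 2 * (3 * r.1 + c.1)) % 4 = _
    rw [shr, pow_add, pow_mul, Nat.div_div_eq_div_mul, show (2 : ℕ) ^ 2 = 4 from rfl]
  rw [h]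
  rfl

private theorem el_three (a b c p q r : ℕ) (ha : a < 4) (hb : b < 4) (hc : c < 4) (hp : p < 4) (hq : q < 4)
    (hr : r < 4) : el (Nat.xor (Nat.xor (mulN a p) (mulN b q)) (mulN c r)) =
      el a * el p + el b * el q + el c * el r := by
  rw [el_xor (xor_lt (mulN_lt _ _) (mulN_lt _ _)) (mulN_lt _ _), el_xor (mulN_lt _ _) (mulN_lt _ _),
    el_mul ha hp, el_mul hb hq, el_mul hc hr]

private theorem el_img (g : ℕ) (y : Fin 21) (r : Fin 3) : el (img g y.1 r.1) =
    phi (!(Nat.beq (Nat.shiftRight g 246) 0)) (∑ k, mat (g / 2 ^ 210) r k * PT y k) := by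
  have h3 : el (Nat.xor (Nat.xor (mulN (me g 210 r.1 0) (ptn y.1 0)) (mulN (me g 210 r.1 1) (ptn y.1 1)))
      (mulN (me g 210 r.1 2) (ptn y.1 2))) = ∑ k, mat (g / 2 ^ 210) r k * PT y k := by
    rw [el_three _ _ _ _ _ _ (me_lt _ _ _ _) (me_lt _ _ _ _) (me_lt _ _ _ _) (ptn_lt _ _) (ptn_lt _ _)
      (ptn_lt _ _), Fin.sum_univ_three]
    have e0 := el_me g 210 r 0
    have e1 := el_me g 210 r 1
    have e2 := el_me g 210 r 2
    have p0 := el_ptn y 0
    have p1 := el_ptn y 1
    have p2 := el_ptn y 2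
    rw [← e0, ← e1, ← e2, ← p0, ← p1, ← p2]
    rfl
  have hlt : Nat.xor (Nat.xor (mulN (me g 210 r.1 0) (ptn y.1 0)) (mulN (me g 210 r.1 1) (ptn y.1 1)))
      (mulN (me g 210 r.1 2) (ptn y.1 2)) < 4 :=
    xor_lt (xor_lt (mulN_lt _ _) (mulN_lt _ _)) (mulN_lt _ _)
  unfold img
  rw [frc_eq]
  show el (cond (Nat.beq (Nat.shiftRight g 246) 0) _ (frN _)) = _
  cases hb : Nat.beq (Nat.shiftRight g 246) 0 with
  | true => simpa [phi] using h3
  | false =>
    show el (frN _) = phi true _
    rw [el_fr hlt, h3]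
    rfl

/-- US_comp with n = g / 2^210, m = g / 2^228. For ln: gpF g is surjective, so it is a bijection; the points
gpF g (LP l j) are five points of the line glF g l, so they are all the points of this line. -/
theorem gOK_sound (g : ℕ) (h : gOK g = true) : GV g := by
  unfold gOK at h
  simp only [Bool.and_eq_true] at h
  obtain ⟨⟨⟨⟨h1, h2⟩, h3⟩, h4⟩, h5⟩ := h
  rw [allLe_iff] at h1 h2 h3 h4 h5
  have pv : ∀ x : Fin 21, gp g x.1 = (gpF g x).1 := fun x => by
    have hx := h1 x.1 (by omega)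
    rw [Bool.and_eq_true, Nat.blt_eq] at hx
    exact (Nat.mod_eq_of_lt hx.1).symm
  have lv : ∀ l : Fin 21, gl g l.1 = (glF g l).1 := fun x => by
    have hx := h1 x.1 (by omega)
    rw [Bool.and_eq_true, Nat.blt_eq, Nat.blt_eq] at hx
    exact (Nat.mod_eq_of_lt hx.2).symm
  have hsurj : Function.Surjective (gpF g) := fun y => by
    have hy := h4 y.1 (by omega)
    rw [anyLe_iff] at hy
    obtain ⟨x, hx, hxy⟩ := hy
    refine ⟨⟨x, by omega⟩, Fin.ext ?_⟩
    rw [← pv]
    exact Nat.eq_of_beq_eq_true hxy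
  have hinj : Function.Injective (gpF g) := Finite.injective_iff_surjective.2 hsurj
  refine ⟨pv, lv, fun u hu => ?_, fun u l => ?_⟩
  · refine US_comp u (gpF g) (g / 2 ^ 210) (g / 2 ^ 228) (!(Nat.beq (Nat.shiftRight g 246) 0)) ?_ ?_ hu
    · intro r c
      have hr := h2 r.1 (by omega)
      rw [allLe_iff] at hr
      have hc := Nat.eq_of_beq_eq_true (hr c.1 (by omega))
      have he := congrArg el hc
      rw [el_three _ _ _ _ _ _ (me_lt _ _ _ _) (me_lt _ _ _ _) (me_lt _ _ _ _) (me_lt _ _ _ _)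
        (me_lt _ _ _ _) (me_lt _ _ _ _)] at he
      rw [Fin.sum_univ_three]
      have a0 := el_me g 228 r 0
      have a1 := el_me g 228 r 1
      have a2 := el_me g 228 r 2
      have b0 := el_me g 210 0 c
      have b1 := el_me g 210 1 c
      have b2 := el_me g 210 2 c
      rw [← a0, ← a1, ← a2, ← b0, ← b1, ← b2]
      refine Eq.trans he ?_
      by_cases hrc : r = c
      · subst hrc
        rw [if_pos rfl, Nat.beq_refl]
        rfl
      · rw [if_neg hrc]
        have hb : Nat.beq r.1 c.1 = false := by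
          rcases hbb : Nat.beq r.1 c.1 with _ | _
          · rfl
          · exact absurd (Fin.ext (Nat.eq_of_beq_eq_true hbb)) hrc
        rw [hb]
        rfl
    · intro x
      have hx := h3 x.1 (by omega)
      rw [anyLe_iff] at hx
      obtain ⟨e, he, hxe⟩ := hx
      rw [allLe_iff] at hxe
      refine ⟨el (e + 1), el_ne ⟨e, by omega⟩, fun r => ?_⟩
      have hr := congrArg el (Nat.eq_of_beq_eq_true (hxe r.1 (by omega)))
      rw [pv x, el_img, el_mul (by show e + 1 < 4; omega) (ptn_lt _ _), el_ptn] at hr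
      exact hr
  · have hex : ∀ j : Fin 5, ∃ k : Fin 5, gpF g (LP l j) = LP (glF g l) k := fun j => by
      have hl := h5 l.1 (by omega)
      rw [all5_eq] at hl
      have hj := hl j
      rw [any5_eq] at hj
      obtain ⟨k, hk⟩ := hj
      refine ⟨k, Fin.ext ?_⟩
      rw [← pv, ← lp_eq, ← lp_eq, ← lv]
      exact Nat.eq_of_beq_eq_true hk
    choose σ hσ using hex
    have hσi : Function.Injective σ := fun a b hab => by
      apply LP_inj l
      apply hinj
      rw [hσ a, hσ b, hab]
    have hσb : Function.Bijective σ := Finite.injective_iff_bijective.1 hσi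
    have hm : Finset.univ.val.map σ = (Finset.univ : Finset (Fin 5)).val := by
      have h0 := Finset.map_univ_equiv (Equiv.ofBijective σ hσb)
      have h00 := congrArg Finset.val h0
      rw [Finset.map_val] at h00
      exact h00
    unfold lm
    have h6 : Finset.univ.val.map (fun j : Fin 5 => u (LP (glF g l) j)) =
        Finset.univ.val.map (fun j : Fin 5 => u (LP (glF g l) (σ j))) := by
      conv_lhs => rw [← hm]
      rw [Multiset.map_map]
      rfl
    rw [h6]
    refine Multiset.map_congr rfl fun j _ => ?_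
    show u (gpF g (LP l j)) = u (LP (glF g l) (σ j))
    rw [hσ j]

end Pool.Agent.Lib.MP_4dc748_co.TE
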