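import Pool.Agent.Lib.MP_4dc748_co.TE.TreeS

/-!
# Certificates: soundness of the tokens which close a state
-/

set_option autoImplicit false

namespace Pool.Agent.Lib.MP_4dc748_co.TE

private theorem nth_mem {α : Type} : ∀ (L : List α) (k : ℕ) (a : α), nth L k = some a → a ∈ L
  | [], k, a, h => by simp [nth] at h
  | b :: L, 0, a, h => by
    simp only [nth, Option.some.injEq] at h
    simp [h]
  | b :: L, k + 1, a, h => by
    simp only [nth] at h
    exact List.mem_cons_of_mem _ (nth_mem L k a h)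

private theorem lt_of_blt {a b : ℕ} (h : Nat.blt a b = true) : a < b := by
  rwa [Nat.blt_eq] at h

private theorem clo_some (b : Bool) (L : List ℕ) (h : clo b = some L) : b = true := by
  cases b
  · simp [clo] at h
  · rfl

/-- The range of a line: from Bnd.rb and cdl_eq if the number is not known. -/
theorem rgl_le (c : Ctx) (u : Fin 21 → ℕ) (hu : Bnd c u) (hm28 : c.mw ≤ 28) (s : ℕ) (hm : Mt s u) (l : Fin 21) :
    ∃ lo hi, rgl c s l.1 = lo + 1024 * hi ∧ lo < 32 ∧ lo ≤ wl u l ∧ wl u l ≤ hi := by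
  have hw := hu.mw l
  rcases hm.2 l with h | h
  · obtain ⟨m, hm1, hm2⟩ := cdl_eq s u hm l
    obtain ⟨h1, h2⟩ := hu.rb l m hm1
    rw [hm2] at h1 h2
    refine ⟨c.RB.get (cdl s l.1) % 32, c.RB.get (cdl s l.1) / 32, ?_, Nat.mod_lt _ (by norm_num), h1, h2⟩
    unfold rgl
    rw [h]
    show frc (c.RB.get (cdl s l.1)) _ = _
    rw [frc_eq]
    rfl
  · refine ⟨wl u l, wl u l, ?_, by omega, le_rfl, le_rfl⟩
    unfold rgl
    rw [h]
    show 1025 * wl u l = _
    omega

/-- Bnd.pt and Bnd.as. -/
theorem opP_sound (c : Ctx) (u : Fin 21 → ℕ) (hu : Bnd c u) (s k : ℕ) (hm : Mt s u) (L : List ℕ)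
    (h : opP c k s = some L) : False := by
  unfold opP at h
  cases hp : nth c.pots k with
  | none => rw [hp] at h; simp at h
  | some p =>
    rw [hp] at h
    have hmem := nth_mem _ _ _ hp
    have hcl : closeP c s p = true := clo_some _ _ h
    unfold closeP at hcl
    have hlt := lt_of_blt hcl
    rw [sumTo_eq, sumTo_eq] at hlt
    choose m hm1 hm2 using cdl_eq s u hm
    have hpt := hu.pt p hmem m hm1 (fun l => decide (fW s l.1 ≠ 0))
    have e1 : ∀ l : Fin 21, f24 p.m (c.KB.get (code (m l) + 134217728 *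
        (cond (decide (fW s l.1 ≠ 0)) (wl u l) 31))) =
        f24 p.m (c.KB.get (Nat.add (cdl s l.1) (Nat.mul 134217728 (kw (fW s l.1))))) := by
      intro l
      rw [hm2 l]
      have : (cond (decide (fW s l.1 ≠ 0)) (wl u l) 31) = kw (fW s l.1) := by
        rcases hm.2 l with h | h
        · rw [h]; rfl
        · rw [h]; simp [kw]
      rw [this]
      rfl
    have e2 : ∑ x, p.A.getD (u x) 0 ≤ ∑ x : Fin 21, pA p (fU s x.1) := by
      refine Finset.sum_le_sum fun x _ => ?_
      rcases hm.1 x with h | h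
      · rw [h]
        exact hu.as p hmem x
      · rw [h]
        exact le_rfl
    rw [Finset.sum_congr rfl fun l _ => e1 l] at hpt
    have hlt' : (∑ x : Fin 21, pA p (fU s x.1)) < p.lam * 99 +
      ∑ l : Fin 21, f24 p.m (c.KB.get (Nat.add (cdl s l.1) (Nat.mul 134217728 (kw (fW s l.1))))) := hlt
    omega

/-- Bnd.ws and rgl_le. -/
theorem opWS_sound (c : Ctx) (u : Fin 21 → ℕ) (hu : Bnd c u) (hm28 : c.mw ≤ 28) (s x : ℕ) (hm : Mt s u) (L : List ℕ)
    (h : opWS c x s = some L) : False := by
  unfold opWS at h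
  cases hf : fU s x with
  | zero => rw [hf] at h; simp at h
  | succ v =>
    rw [hf] at h
    dsimp only at h
    rw [frc_eq] at h
    have hb := clo_some _ _ h
    rw [Bool.and_eq_true, Bool.or_eq_true] at hb
    obtain ⟨hx, hb⟩ := hb
    have hx := lt_of_blt hx
    lift x to Fin 21 using hx
    have hv : v = u x := by
      rcases hm.1 x with h | h
      · omega
      · omega
    subst hv
    rw [sum5_eq] at hb
    choose lo hi h1 h2 h3 h4 using rgl_le c u hu hm28 s hm
    have e : ∑ j : Fin 5, rgl c s (pln x.1 j.1) = (∑ j, lo (PL x j)) + 1024 * ∑ j, hi (PL x j) := by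
      rw [Finset.mul_sum, ← Finset.sum_add_distrib]
      refine Finset.sum_congr rfl fun j _ => ?_
      rw [pln_eq, h1]
    rw [e] at hb
    have hws := hu.ws x
    have hlo : ∑ j, lo (PL x j) ≤ ∑ j, wl u (PL x j) := Finset.sum_le_sum fun j _ => h3 _
    have hhi : ∑ j, wl u (PL x j) ≤ ∑ j, hi (PL x j) := Finset.sum_le_sum fun j _ => h4 _
    have hlt : ∑ j : Fin 5, lo (PL x j) < 1024 := by
      rw [Fin.sum_univ_five]
      have a0 := h2 (PL x 0)
      have a1 := h2 (PL x 1)
      have a2 := h2 (PL x 2)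
      have a3 := h2 (PL x 3)
      have a4 := h2 (PL x 4)
      omega
    set A := ∑ j, lo (PL x j) with hA
    set B := ∑ j, hi (PL x j) with hB
    have d1 : Nat.div (A + 1024 * B) 1024 = B := by
      show (A + 1024 * B) / 1024 = B
      omega
    have d2 : Nat.mod (A + 1024 * B) 1024 = A := by
      show (A + 1024 * B) % 1024 = A
      omega
    rw [d1, d2] at hb
    rcases hb with hb | hb
    · have := lt_of_blt hb
      have h' : B < 99 + 4 * u x := this
      omega
    · have := lt_of_blt hb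
      have h' : 99 + 4 * u x < A := this
      omega

/-- Bnd.rb and cdl_eq; the sum of the known numbers is at most wl u l. -/
theorem opLI_sound (c : Ctx) (u : Fin 21 → ℕ) (hu : Bnd c u) (s l : ℕ) (hm : Mt s u) (L : List ℕ)
    (h : opLI c l s = some L) : False := by
  unfold opLI at h
  rw [frc_eq, frc_eq, frc_eq] at h
  have hb := clo_some _ _ h
  rw [Bool.and_eq_true, Bool.or_eq_true, Bool.or_eq_true] at hb
  obtain ⟨hl, hb⟩ := hb
  have hl := lt_of_blt hl
  lift l to Fin 21 using hl
  obtain ⟨m, hm1, hm2⟩ := cdl_eq s u hm l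
  obtain ⟨h1, h2⟩ := hu.rb l m hm1
  rw [hm2] at h1 h2
  have g1 : Nat.mod (c.RB.get (cdl s l.1)) 32 ≤ wl u l := h1
  have g2 : wl u l ≤ Nat.div (c.RB.get (cdl s l.1)) 32 := h2
  have hs : (sum5 fun j => Nat.pred (fU s (lp l.1 j))) ≤ wl u l := by
    rw [sum5_eq]
    unfold wl
    refine Finset.sum_le_sum fun j _ => ?_
    rw [lp_eq]
    rcases hm.1 (LP l j) with h | h
    · rw [h]; exact Nat.zero_le _
    · rw [h]; exact le_rfl
  rcases hb with (hb | hb) | hb
  · have := lt_of_blt hb
    omega
  · have := lt_of_blt hb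
    omega
  · rcases hm.2 l with h' | h'
    · rw [h'] at hb
      simp at hb
    · rw [h'] at hb
      dsimp only at hb
      rw [Bool.or_eq_true] at hb
      rcases hb with hb | hb
      · have := lt_of_blt hb
        omega
      · have := lt_of_blt hb
        omega

end Pool.Agent.Lib.MP_4dc748_co.TE
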