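import Pool.Agent.Lib.MP_4dc748_co.TE.TreeS

/-!
# Certificates: soundness of the tokens which change a state
-/

set_option autoImplicit false

namespace Pool.Agent.Lib.MP_4dc748_co.TE

private theorem of_cond {α : Type} {b : Bool} {x : Option α} {y : α}
    (h : cond b x none = some y) : b = true ∧ x = some y := by
  cases b
  · exact absurd h (by simp)
  · exact ⟨rfl, h⟩

private theorem blt_iff {a b : ℕ} : Nat.blt a b = true ↔ a < b := by
  rw [Nat.blt_eq]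

private theorem blt_false {a b : ℕ} (h : b ≤ a) : Nat.blt a b = false := by
  cases hb : Nat.blt a b
  · rfl
  · exact absurd (blt_iff.1 hb) (by omega)

private theorem beq_iff {a b : ℕ} : Nat.beq a b = true ↔ a = b := by
  rw [Nat.beq_eq]

private theorem LP_injP : ∀ (l : Fin 21) (i j : Fin 5), LP l i = LP l j → i = j := by
  decide +kernel

private theorem PL_injP : ∀ (x : Fin 21) (i j : Fin 5), PL x i = PL x j → i = j := by
  decide +kernel

private theorem fU_pos {s : ℕ} {u : Fin 21 → ℕ} (hm : Mt s u) {x : Fin 21} (h : 0 < fU s x.1) :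
    fU s x.1 = u x + 1 := by
  rcases hm.1 x with h' | h' <;> omega

private theorem fW_pos {s : ℕ} {u : Fin 21 → ℕ} (hm : Mt s u) {l : Fin 21} (h : 0 < fW s l.1) :
    fW s l.1 = wl u l + 1 := by
  rcases hm.2 l with h' | h' <;> omega

private theorem sum_erase (f g : Fin 5 → ℕ) (j0 : Fin 5) (h0 : f j0 = 0)
    (h : ∀ j, j ≠ j0 → f j = g j + 1) : ∑ j, f j + g j0 = ∑ j, g j + 4 := by
  have h1 : ∑ j, f j + (g j0 + 1) = ∑ j, (g j + 1) := by
    rw [← Finset.add_sum_erase _ f (Finset.mem_univ j0),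
      ← Finset.add_sum_erase _ (fun j => g j + 1) (Finset.mem_univ j0), h0,
      Finset.sum_congr rfl fun j hj => h j (Finset.ne_of_mem_erase hj)]
    omega
  rw [Finset.sum_add_distrib] at h1
  simp at h1
  omega

/-- All five numbers are known, Mt_stW. -/
theorem opFW_sound (c : Ctx) (u : Fin 21 → ℕ) (hu : Bnd c u) (hm28 : c.mw ≤ 28) (s l : ℕ) (hm : Mt s u) (L : List ℕ)
    (h : opFW l s = some L) : ∃ t ∈ L, Mt t u := by
  obtain ⟨h1, h2⟩ := of_cond h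
  rw [Bool.and_eq_true, blt_iff, all5_eq] at h1
  obtain ⟨hl, h1⟩ := h1
  obtain ⟨l', rfl⟩ : ∃ l' : Fin 21, l = l'.1 := ⟨⟨l, hl⟩, rfl⟩
  have hs : (sum5 fun j => Nat.pred (fU s (lp l'.1 j))) = wl u l' := by
    rw [sum5_eq]
    refine Finset.sum_congr rfl fun j _ => ?_
    have h3 := blt_iff.1 (h1 j)
    rw [lp_eq] at h3 ⊢
    rw [fU_pos hm h3]
    rfl
  rw [frc_eq, hs] at h2
  have hw := (hu.mw l').trans hm28
  rcases hf : fW s l'.1 with _ | w
  · rw [hf] at h2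
    have h3 : cond (Nat.blt 28 (wl u l')) (some []) (some [stW s l'.1 (wl u l')]) = some L := h2
    rw [blt_false hw] at h3
    have h4 : L = [stW s l'.1 (wl u l')] := (Option.some.inj h3).symm
    exact ⟨_, by rw [h4]; exact List.mem_singleton_self _, Mt_stW s u hm l' hf (by omega)⟩
  · rw [hf] at h2
    have h3 : clo (!(Nat.beq (wl u l') w)) = some L := h2
    have h4 : fW s l'.1 = wl u l' + 1 := fW_pos hm (by omega)
    have h5 : Nat.beq (wl u l') w = true := beq_iff.2 (by omega)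
    rw [h5] at h3
    exact absurd h3 (by simp [clo])

/-- wl u l is the sum of the five numbers, Mt_stU. -/
theorem opFU_sound (c : Ctx) (u : Fin 21 → ℕ) (hu : Bnd c u) (hu8 : c.um ≤ 8) (s l x : ℕ) (hm : Mt s u) (L : List ℕ)
    (h : opFU c l x s = some L) : ∃ t ∈ L, Mt t u := by
  obtain ⟨h1, h2⟩ := of_cond h
  rw [Bool.and_eq_true, Bool.and_eq_true, Bool.and_eq_true, Bool.and_eq_true, blt_iff, beq_iff,
    blt_iff, any5_eq, all5_eq] at h1
  obtain ⟨⟨⟨⟨hl, hx0⟩, hw0⟩, j0, hj0⟩, h1⟩ := h1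
  obtain ⟨l', rfl⟩ : ∃ l' : Fin 21, l = l'.1 := ⟨⟨l, hl⟩, rfl⟩
  rw [beq_iff, lp_eq] at hj0
  subst hj0
  have hw : fW s l'.1 = wl u l' + 1 := fW_pos hm hw0
  have hsum := sum_erase (fun j => fU s (LP l' j).1) (fun j => u (LP l' j)) j0 hx0 (fun j hj => by
    have h3 := h1 j
    rw [Bool.or_eq_true, beq_iff, blt_iff, lp_eq] at h3
    rcases h3 with h3 | h3
    · exact absurd (LP_injP l' _ _ (Fin.ext h3)) hj
    · exact fU_pos hm h3)
  have hs : (sum5 fun j => fU s (lp l'.1 j)) = ∑ j, fU s (LP l' j).1 := by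
    rw [sum5_eq]
    exact Finset.sum_congr rfl fun j _ => by rw [lp_eq]
  have hwl : wl u l' = ∑ j, u (LP l' j) := rfl
  have hux := (hu.um (LP l' j0)).trans hu8
  rw [frc_eq, frc_eq, hs, hw] at h2
  have hn : Nat.sub (Nat.add (wl u l' + 1) 3) (∑ j, fU s (LP l' j).1) = u (LP l' j0) := by
    show (wl u l' + 1 + 3) - (∑ j, fU s (LP l' j).1) = u (LP l' j0)
    omega
  have hlt : Nat.blt (Nat.add (wl u l' + 1) 3) (∑ j, fU s (LP l' j).1) = false :=
    blt_false (by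
      show (∑ j, fU s (LP l' j).1) ≤ wl u l' + 1 + 3
      omega)
  rw [hn, hlt, Bool.false_or, blt_false (hu.um (LP l' j0))] at h2
  have h4 : L = [stU s (LP l' j0).1 (u (LP l' j0))] := (Option.some.inj h2).symm
  exact ⟨_, by rw [h4]; exact List.mem_singleton_self _, Mt_stU s u hm _ hx0 (by omega)⟩

/-- Bnd.ws, Mt_stW. -/
theorem opFX_sound (c : Ctx) (u : Fin 21 → ℕ) (hu : Bnd c u) (hm28 : c.mw ≤ 28) (s x l : ℕ) (hm : Mt s u) (L : List ℕ)
    (h : opFX x l s = some L) : ∃ t ∈ L, Mt t u := by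
  obtain ⟨h1, h2⟩ := of_cond h
  rw [Bool.and_eq_true, Bool.and_eq_true, Bool.and_eq_true, Bool.and_eq_true, blt_iff, beq_iff,
    blt_iff, any5_eq, all5_eq] at h1
  obtain ⟨⟨⟨⟨hx, hl0⟩, hx0⟩, k0, hk0⟩, h1⟩ := h1
  obtain ⟨x', rfl⟩ : ∃ x' : Fin 21, x = x'.1 := ⟨⟨x, hx⟩, rfl⟩
  rw [beq_iff, pln_eq] at hk0
  subst hk0
  have hxu : fU s x'.1 = u x' + 1 := fU_pos hm hx0
  have hsum := sum_erase (fun k => fW s (PL x' k).1) (fun k => wl u (PL x' k)) k0 hl0
    (fun k hk => by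
      have h3 := h1 k
      rw [Bool.or_eq_true, beq_iff, blt_iff, pln_eq] at h3
      rcases h3 with h3 | h3
      · exact absurd (PL_injP x' _ _ (Fin.ext h3)) hk
      · exact fW_pos hm h3)
  have hs : (sum5 fun k => fW s (pln x'.1 k)) = ∑ k, fW s (PL x' k).1 := by
    rw [sum5_eq]
    exact Finset.sum_congr rfl fun k _ => by rw [pln_eq]
  have hws := hu.ws x'
  have hwl := (hu.mw (PL x' k0)).trans hm28
  rw [frc_eq, frc_eq, hs, hxu] at h2
  have hn : Nat.sub (Nat.add 99 (Nat.mul 4 (u x' + 1))) (∑ k, fW s (PL x' k).1) =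
      wl u (PL x' k0) := by
    show (99 + 4 * (u x' + 1)) - (∑ k, fW s (PL x' k).1) = wl u (PL x' k0)
    omega
  have hlt : Nat.blt (Nat.add 99 (Nat.mul 4 (u x' + 1))) (∑ k, fW s (PL x' k).1) = false :=
    blt_false (by
      show (∑ k, fW s (PL x' k).1) ≤ 99 + 4 * (u x' + 1)
      omega)
  rw [hn, hlt, Bool.false_or, blt_false hwl] at h2
  have h4 : L = [stW s (PL x' k0).1 (wl u (PL x' k0))] := (Option.some.inj h2).symm
  exact ⟨_, by rw [h4]; exact List.mem_singleton_self _, Mt_stW s u hm _ hl0 (by omega)⟩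

/-- Bnd.um, Mt_stU. -/
theorem opBU_sound (c : Ctx) (u : Fin 21 → ℕ) (hu : Bnd c u) (hu8 : c.um ≤ 8) (s x : ℕ) (hm : Mt s u) (L : List ℕ)
    (h : opBU c x s = some L) : ∃ t ∈ L, Mt t u := by
  obtain ⟨h1, h2⟩ := of_cond h
  rw [Bool.and_eq_true, blt_iff, beq_iff] at h1
  obtain ⟨hx, hx0⟩ := h1
  obtain ⟨x', rfl⟩ : ∃ x' : Fin 21, x = x'.1 := ⟨⟨x, hx⟩, rfl⟩
  have h4 := Option.some.inj h2
  have hux := hu.um x'
  exact ⟨stU s x'.1 (u x'), by
    rw [← h4]; exact List.mem_map.2 ⟨u x', List.mem_range.2 (by omega), rfl⟩,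
    Mt_stU s u hm _ hx0 (by omega)⟩

/-- Bnd.rb, cdl_eq, Mt_stW. -/
theorem opBW_sound (c : Ctx) (u : Fin 21 → ℕ) (hu : Bnd c u) (s l : ℕ) (hm : Mt s u) (L : List ℕ)
    (h : opBW c l s = some L) : ∃ t ∈ L, Mt t u := by
  unfold opBW at h
  rw [frc_eq, frc_eq, frc_eq] at h
  obtain ⟨h1, h2⟩ := of_cond h
  rw [Bool.and_eq_true, Bool.and_eq_true, blt_iff, beq_iff, Nat.ble_eq] at h1
  obtain ⟨⟨hl, hl0⟩, hhi⟩ := h1
  obtain ⟨l', rfl⟩ : ∃ l' : Fin 21, l = l'.1 := ⟨⟨l, hl⟩, rfl⟩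
  obtain ⟨m, hml, hmc⟩ := cdl_eq s u hm l'
  obtain ⟨h3, h4⟩ := hu.rb l' m hml
  rw [hmc] at h3 h4
  have hhi' : c.RB.get (cdl s l'.1) / 32 ≤ 28 := hhi
  have h5 := Option.some.inj h2
  refine ⟨stW s l'.1 (wl u l'), ?_, Mt_stW s u hm _ hl0 (by omega)⟩
  rw [← h5]
  refine List.mem_map.2 ⟨wl u l' - c.RB.get (cdl s l'.1) % 32, List.mem_range.2 ?_, ?_⟩
  · show wl u l' - c.RB.get (cdl s l'.1) % 32 <
      (c.RB.get (cdl s l'.1) / 32 + 1) - c.RB.get (cdl s l'.1) % 32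
    omega
  · show stW s l'.1 (c.RB.get (cdl s l'.1) % 32 + (wl u l' - c.RB.get (cdl s l'.1) % 32)) = _
    rw [Nat.add_sub_cancel' h3]

end Pool.Agent.Lib.MP_4dc748_co.TE
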