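import Pool.Agent.Lib.MP_4dc748_co.TE.TreeG
import Pool.Agent.Lib.MP_4dc748_co.TE.TreeO
import Pool.Agent.Lib.MP_4dc748_co.TE.TreeP
import Pool.Agent.Lib.MP_4dc748_co.TE.PosB
import Pool.Agent.Lib.MP_4dc748_co.TE.PosC

/-!
# Certificates: soundness of the run
-/

set_option autoImplicit false

namespace Pool.Agent.Lib.MP_4dc748_co.TE

theorem wl_comp (u : Fin 21 → ℕ) (g : ℕ) (hg : GV g) (l : Fin 21) :
    wl (fun x => u (gpF g x)) l = wl u (glF g l) := by
  rw [← lm_sum, ← lm_sum, hg.ln]

theorem UC_comp (c : Ctx) (u : Fin 21 → ℕ) (g : ℕ) (hg : GV g) (hu : UC c u) : UC c (fun x => u (gpF g x)) := by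
  refine ⟨hg.us u hu.1, fun x => hu.2.um _, fun l => ?_, fun l => ?_⟩
  · rw [wl_comp u g hg]; exact hu.2.mw _
  · rw [hg.ln]; exact hu.2.ex _

/-- If the state s fits u and the moved state is stronger than t, then t fits the moved function. -/
theorem inst_sound (u : Fin 21 → ℕ) (g t s : ℕ) (hg : GV g) (hm : Mt s u) (h : inst g t s = true) :
    Mt t (fun x => u (gpF g x)) := by
  simp only [inst, Bool.and_eq_true, allLe_iff] at h
  refine ⟨fun x => ?_, fun l => ?_⟩
  · have h1 := h.1 x.1 (by omega)
    rw [hg.pv] at h1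
    cases ht : fU t x.1 with
    | zero => exact Or.inl rfl
    | succ v =>
      right
      rw [ht] at h1
      have h2 := Nat.eq_of_beq_eq_true h1
      rcases hm.1 (gpF g x) with h3 | h3
      · rw [h3] at h2; omega
      · rw [← h2, h3]
  · have h1 := h.2 l.1 (by omega)
    rw [hg.lv] at h1
    cases ht : fW t l.1 with
    | zero => exact Or.inl rfl
    | succ v =>
      right
      rw [ht] at h1
      have h2 := Nat.eq_of_beq_eq_true h1
      rw [wl_comp u g hg]
      rcases hm.2 (glF g l) with h3 | h3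
      · rw [h3] at h2; omega
      · rw [← h2, h3]

theorem nth_mem {α : Type} : ∀ (L : List α) (n : ℕ) (a : α), nth L n = some a → a ∈ L
  | [], n, a, h => by simp [nth] at h
  | b :: L, 0, a, h => by
    simp only [nth, Option.some.injEq] at h
    simp [h]
  | b :: L, n + 1, a, h => List.mem_cons_of_mem _ (nth_mem L n a h)

theorem clo_true {b : Bool} {L : List ℕ} (h : clo b = some L) : b = true := by
  cases b
  · simp [clo] at h
  · rfl

theorem opCI_sound (c : Ctx) (cl gs : List ℕ) (hcl : ∀ t ∈ cl, Cl c t) (hgs : ∀ g ∈ gs, GV g) (u : Fin 21 → ℕ)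
    (hu : UC c u) (s j g : ℕ) (hm : Mt s u) (L : List ℕ) (h : opCI cl gs j g s = some L) : False := by
  unfold opCI at h
  cases h1 : nth cl j with
  | none => rw [h1] at h; simp at h
  | some t =>
    cases h2 : nth gs g with
    | none => rw [h1, h2] at h; simp at h
    | some e =>
      rw [h1, h2] at h
      have he := hgs e (nth_mem _ _ _ h2)
      exact hcl t (nth_mem _ _ _ h1) _ (UC_comp c u e he hu) (inst_sound u e t s he hm (clo_true h))

theorem step_sound (c : Ctx) (hc : OKC c) (hu8 : c.um ≤ 8) (hm28 : c.mw ≤ 28) (cl gs : List ℕ)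
    (hcl : ∀ t ∈ cl, Cl c t) (hgs : ∀ g ∈ gs, GV g) (u : Fin 21 → ℕ) (hu : UC c u) (t s : ℕ) (hm : Mt s u)
    (L : List ℕ) (h : step c cl gs t s = some L) : ∃ t ∈ L, Mt t u := by
  have hB := bndU c hc u hu
  simp only [step, frc_eq] at h
  generalize Nat.mod t 16 = op at h
  generalize Nat.mod (Nat.shiftRight t 4) 4096 = a at h
  generalize Nat.shiftRight t 16 = b at h
  split at h
  · exact (opP_sound c u hB s a hm L h).elim
  · exact (opWS_sound c u hB hm28 s a hm L h).elim
  · exact (opLI_sound c u hB s a hm L h).elim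
  · exact opFW_sound c u hB hm28 s a hm L h
  · exact opFU_sound c u hB hu8 s a b hm L h
  · exact opFX_sound c u hB hm28 s a b hm L h
  · exact opBU_sound c u hB hu8 s a hm L h
  · exact opBW_sound c u hB s a hm L h
  · exact (opCI_sound c cl gs hcl hgs u hu s a b hm L h).elim
  · exact absurd h (by simp)

theorem run_sound (c : Ctx) (hc : OKC c) (hu8 : c.um ≤ 8) (hm28 : c.mw ≤ 28) (cl gs : List ℕ)
    (hcl : ∀ t ∈ cl, Cl c t) (hgs : ∀ g ∈ gs, GV g) : ∀ (ts st : List ℕ), run c cl gs ts st = true →
    ∀ s ∈ st, Cl c s := by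
  intro ts
  induction ts with
  | nil =>
    intro st h
    cases st with
    | nil => simp
    | cons s st => simp [run] at h
  | cons t ts ih =>
    intro st h
    cases st with
    | nil => simp
    | cons s st =>
      simp only [run, frc_eq] at h
      cases hs : step c cl gs t s with
      | none => rw [hs] at h; simp at h
      | some L =>
        rw [hs] at h
        have h1 := ih _ h
        intro s' hs'
        rcases List.mem_cons.1 hs' with rfl | hs'
        · intro u hu hm
          obtain ⟨t', ht', hm'⟩ := step_sound c hc hu8 hm28 cl gs hcl hgs u hu t s' hm L hs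
          exact h1 t' (List.mem_append_left _ ht') u hu hm'
        · exact h1 s' (List.mem_append_right _ hs')

theorem runAll_sound (c : Ctx) (hc : OKC c) (hu8 : c.um ≤ 8) (hm28 : c.mw ≤ 28) (gs : List ℕ)
    (hgs : ∀ g ∈ gs, GV g) : ∀ (L : List (ℕ × List ℕ)) (cl : List ℕ), (∀ t ∈ cl, Cl c t) →
    runAll c gs L cl = true → ∀ e ∈ L, Cl c e.1 := by
  intro L
  induction L with
  | nil => simp
  | cons e L ih =>
    intro cl hcl h
    simp only [runAll, Bool.and_eq_true] at h
    have h1 : Cl c e.1 := run_sound c hc hu8 hm28 cl gs hcl hgs _ _ h.1 _ (by simp)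
    intro e' he'
    rcases List.mem_cons.1 he' with rfl | he'
    · exact h1
    · refine ih _ ?_ h.2 e' he'
      intro t ht
      rcases List.mem_cons.1 ht with rfl | ht
      · exact h1
      · exact hcl t ht

/-- A state in which all numbers are known determines them. -/
theorem Mt_eq (s : ℕ) (u v : Fin 21 → ℕ) (hm : Mt s u) (h : ∀ x : Fin 21, fU s x.1 = v x + 1) (x : Fin 21) :
    u x = v x := by
  have h1 := h x
  rcases hm.1 x with h2 | h2 <;> omega

/-- The three exceptional states are closed. -/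
theorem cl0_sound (c : Ctx) : ∀ t ∈ cl0, Cl c t := by
  intro t ht u hu hm
  obtain ⟨A, hA⟩ := exists_CArc u hu.1
  simp only [cl0, List.mem_cons, List.not_mem_nil, or_false] at ht
  rcases ht with rfl | rfl | rfl
  · exact noC2 A fun x => (hA x).trans (Mt_eq _ u uC2 hm (by decide +kernel) x)
  · exact noC1 A fun x => (hA x).trans (Mt_eq _ u uC1 hm (by decide +kernel) x)
  · exact noB A fun x => (hA x).trans (Mt_eq _ u uB hm (by decide +kernel) x)

/-- The certificate of a context closes its states. -/
theorem cert (c : Ctx) (hc : OKC c) (hu8 : c.um ≤ 8) (hm28 : c.mw ≤ 28) (gs : List ℕ) (hgs : gs.all gOK = true)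
    (L : List (ℕ × List ℕ)) (h : runAll c gs L cl0 = true) : ∀ e ∈ L, Cl c e.1 :=
  runAll_sound c hc hu8 hm28 gs (fun g hg => gOK_sound g (List.all_eq_true.1 hgs g hg)) L cl0 (cl0_sound c) h

end Pool.Agent.Lib.MP_4dc748_co.TE
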