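import Pool.Agent.Lib.MP_4dc748_co.TE.TreeD

/-!
# Certificates: the meaning of the states
-/

set_option autoImplicit false

namespace Pool.Agent.Lib.MP_4dc748_co.TE

/-- The numbers u fit the state s. -/
def Mt (s : ℕ) (u : Fin 21 → ℕ) : Prop :=
  (∀ x : Fin 21, fU s x.1 = 0 ∨ fU s x.1 = u x + 1) ∧ ∀ l : Fin 21, fW s l.1 = 0 ∨ fW s l.1 = wl u l + 1

/-- The class of functions of the context c. -/
def UC (c : Ctx) (u : Fin 21 → ℕ) : Prop := US u ∧ InC c u

/-- The state s is closed. -/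
def Cl (c : Ctx) (s : ℕ) : Prop := ∀ u, UC c u → ¬ Mt s u

theorem bndU (c : Ctx) (h : OKC c) (u : Fin 21 → ℕ) (hu : UC c u) : Bnd c u := by
  obtain ⟨A, hA⟩ := exists_CArc u hu.1
  have : A.u = u := funext hA
  subst this
  exact bnd c h A hu.2

theorem lp_eq : ∀ (l : Fin 21) (j : Fin 5), lp l.1 j.1 = (LP l j).1 := by decide +kernel

theorem pln_eq : ∀ (x : Fin 21) (k : Fin 5), pln x.1 k.1 = (PL x k).1 := by decide +kernel

theorem sum5_eq (f : ℕ → ℕ) : sum5 f = ∑ j : Fin 5, f j.1 := by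
  rw [Fin.sum_univ_five]; rfl

theorem all5_eq (f : ℕ → Bool) : all5 f = true ↔ ∀ j : Fin 5, f j.1 = true := by
  simp [all5, Fin.forall_fin_succ, and_assoc]

theorem any5_eq (f : ℕ → Bool) : any5 f = true ↔ ∃ j : Fin 5, f j.1 = true := by
  simp [any5, Fin.exists_fin_succ, or_assoc]

theorem sumTo_eq (f : ℕ → ℕ) : sumTo f 20 = ∑ x : Fin 21, f x.1 := by
  have : ∀ n, sumTo f n = ∑ x ∈ Finset.range (n + 1), f x := by
    intro n
    induction n with
    | zero => simp [sumTo]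
    | succ n ih => rw [Finset.sum_range_succ, ← ih]; exact Nat.add_comm _ _
  rw [this, Finset.sum_range]

theorem frc_eq {α : Type} (n : ℕ) (f : ℕ → α) : frc n f = f n := by
  cases n <;> rfl

theorem allLe_iff (f : ℕ → Bool) (n : ℕ) : allLe f n = true ↔ ∀ k ≤ n, f k = true := by
  induction n with
  | zero => simp [allLe]
  | succ n ih =>
    simp only [allLe, Bool.and_eq_true, ih]
    constructor
    · rintro ⟨h1, h2⟩ k hk
      rcases Nat.lt_or_ge n k with h | h
      · obtain rfl : k = n + 1 := by omega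
        exact h1
      · exact h2 k h
    · intro h
      exact ⟨h _ le_rfl, fun k hk => h k (by omega)⟩

private theorem fld (s p b v : ℕ) (h0 : s / 2 ^ p % 2 ^ b = 0) (hv : v < 2 ^ b) :
    (s + v * 2 ^ p) / 2 ^ p % 2 ^ b = v ∧
      (∀ q c, q + c ≤ p → (s + v * 2 ^ p) / 2 ^ q % 2 ^ c = s / 2 ^ q % 2 ^ c) ∧
      ∀ q, p + b ≤ q → (s + v * 2 ^ p) / 2 ^ q = s / 2 ^ q := by
  refine ⟨?_, fun q c h => ?_, fun q h => ?_⟩
  · rw [Nat.add_mul_div_right _ _ (Nat.two_pow_pos p), Nat.add_mod, h0, Nat.zero_add, Nat.mod_mod]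
    exact Nat.mod_eq_of_lt hv
  · obtain ⟨d, rfl⟩ := Nat.exists_eq_add_of_le h
    have e : v * 2 ^ (q + c + d) = v * 2 ^ d * 2 ^ c * 2 ^ q := by
      rw [pow_add, pow_add]; ring
    rw [e, Nat.add_mul_div_right _ _ (Nat.two_pow_pos q), Nat.add_mul_mod_self_right]
  · obtain ⟨d, rfl⟩ := Nat.exists_eq_add_of_le h
    rw [pow_add, ← Nat.div_div_eq_div_mul, ← Nat.div_div_eq_div_mul, pow_add,
      ← Nat.div_div_eq_div_mul, ← Nat.div_div_eq_div_mul,
      Nat.add_mul_div_right _ _ (Nat.two_pow_pos p)]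
    congr 1
    have h1 : (s / 2 ^ p + v) / 2 ^ b = s / 2 ^ p / 2 ^ b := by
      have h2 : s / 2 ^ p = 2 ^ b * (s / 2 ^ p / 2 ^ b) := by
        have := Nat.div_add_mod (s / 2 ^ p) (2 ^ b)
        omega
      conv_lhs => rw [h2]
      rw [Nat.mul_add_div (Nat.two_pow_pos b), Nat.div_eq_of_lt hv, Nat.add_zero]
    exact h1

private theorem fU_def (s x : ℕ) : fU s x = s / 2 ^ (4 * x) % 2 ^ 4 := by
  show Nat.shiftRight s (4 * x) % 16 = _
  rw [show Nat.shiftRight s (4 * x) = s >>> (4 * x) from rfl, Nat.shiftRight_eq_div_pow]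
  rfl

private theorem fW_def (s l : ℕ) : fW s l = s / 2 ^ (84 + 5 * l) % 2 ^ 5 := by
  show Nat.shiftRight s (84 + 5 * l) % 32 = _
  rw [show Nat.shiftRight s (84 + 5 * l) = s >>> (84 + 5 * l) from rfl,
    Nat.shiftRight_eq_div_pow]
  rfl

private theorem stU_def (s x v : ℕ) : stU s x v = s + (v + 1) * 2 ^ (4 * x) := by
  show s + Nat.shiftLeft (v + 1) (4 * x) = _
  rw [show Nat.shiftLeft (v + 1) (4 * x) = (v + 1) <<< (4 * x) from rfl, Nat.shiftLeft_eq]

private theorem stW_def (s l v : ℕ) : stW s l v = s + (v + 1) * 2 ^ (84 + 5 * l) := by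
  show s + Nat.shiftLeft (v + 1) (84 + 5 * l) = _
  rw [show Nat.shiftLeft (v + 1) (84 + 5 * l) = (v + 1) <<< (84 + 5 * l) from rfl,
    Nat.shiftLeft_eq]

/-- Setting the field of x (arithmetic of the fields: s = a + 16^x (16 b) with a < 16^x, and the part of the lines
starts at 2^84, 4 * 21 = 84). -/
theorem Mt_stU (s : ℕ) (u : Fin 21 → ℕ) (hm : Mt s u) (x : Fin 21) (h0 : fU s x.1 = 0) (hv : u x < 15) :
    Mt (stU s x.1 (u x)) u := by
  rw [fU_def] at h0
  obtain ⟨h1, h2, h3⟩ := fld s (4 * x.1) 4 (u x + 1) h0 (by omega)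
  have hx := x.2
  refine ⟨fun y => ?_, fun l => ?_⟩
  · rw [fU_def, stU_def]
    rcases lt_trichotomy y.1 x.1 with h | h | h
    · rw [h2 _ _ (by omega), ← fU_def]
      exact hm.1 y
    · obtain rfl : y = x := Fin.ext h
      exact Or.inr h1
    · rw [h3 _ (by omega), ← fU_def]
      exact hm.1 y
  · rw [fW_def, stU_def, h3 _ (by omega), ← fW_def]
    exact hm.2 l

/-- Setting the field of l. -/
theorem Mt_stW (s : ℕ) (u : Fin 21 → ℕ) (hm : Mt s u) (l : Fin 21) (h0 : fW s l.1 = 0) (hv : wl u l < 31) :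
    Mt (stW s l.1 (wl u l)) u := by
  rw [fW_def] at h0
  obtain ⟨h1, h2, h3⟩ := fld s (84 + 5 * l.1) 5 (wl u l + 1) h0 (by omega)
  refine ⟨fun y => ?_, fun k => ?_⟩
  · have hy := y.2
    rw [fU_def, stW_def, h2 _ _ (by omega), ← fU_def]
    exact hm.1 y
  · rw [fW_def, stW_def]
    rcases lt_trichotomy k.1 l.1 with h | h | h
    · rw [h2 _ _ (by omega), ← fW_def]
      exact hm.2 k
    · obtain rfl : k = l := Fin.ext h
      exact Or.inr h1
    · rw [h3 _ (by omega), ← fW_def]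
      exact hm.2 k

/-- The code of a state comes from the multiset of the known numbers: m is the multiset of the u (LP l j) over the j
with fU s (LP l j) different from 0. -/
theorem cdl_eq (s : ℕ) (u : Fin 21 → ℕ) (hm : Mt s u) (l : Fin 21) : ∃ m ≤ lm u l, code m = cdl s l.1 := by
  refine ⟨(Finset.univ.filter fun j : Fin 5 => fU s (LP l j).1 ≠ 0).val.map fun j => u (LP l j),
    Multiset.map_le_map (Multiset.filter_le _ _), ?_⟩
  unfold code cdl
  rw [Multiset.map_map, sum5_eq]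
  show ∑ j ∈ Finset.univ.filter (fun j : Fin 5 => fU s (LP l j).1 ≠ 0), 8 ^ u (LP l j) = _
  rw [Finset.sum_filter]
  refine Finset.sum_congr rfl fun j _ => ?_
  rw [lp_eq]
  show _ = Nat.shiftRight (8 ^ fU s (LP l j).1) 3
  rw [show Nat.shiftRight (8 ^ fU s (LP l j).1) 3 = (8 ^ fU s (LP l j).1) >>> 3 from rfl,
    Nat.shiftRight_eq_div_pow]
  rcases hm.1 (LP l j) with h | h
  · rw [h, if_neg (by simp)]
    rfl
  · rw [h, if_pos (by simp), pow_succ]
    show _ = 8 ^ u (LP l j) * 8 / 8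
    rw [Nat.mul_div_cancel _ (by norm_num)]

end Pool.Agent.Lib.MP_4dc748_co.TE
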