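import Pool.Agent.Lib.MP_4dc748_co.TE.TypeLA

/-!
# The types of the classes (a check over all subsets of the affine plane of order 4)
-/

set_option autoImplicit false

namespace Pool.Agent.Lib.MP_4dc748_co.TE

open F4

namespace TL

/-- The code of the counts of a direction. -/
private def cd (K : Finset (F4 × F4)) (k : Fin 5) : ℕ :=
  D K k o + (8 * D K k i + (64 * D K k w + 512 * D K k z))

/-- The weight of an element. -/
private def tn (t : F4) : ℕ :=
  match t with
  | o => 1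
  | i => 8
  | w => 64
  | z => 512

private theorem sum_F4 (f : F4 → ℕ) : ∑ t, f t = f o + (f i + (f w + f z)) := rfl

private theorem cd_eq (K : Finset (F4 × F4)) (k : Fin 5) : ∑ p ∈ K, tn (fk k p) = cd K k := by
  rw [← Finset.sum_fiberwise K (fk k) (fun p => tn (fk k p)), sum_F4]
  have h : ∀ t : F4, (∑ p ∈ K with fk k p = t, tn (fk k p)) = D K k t * tn t := by
    intro t
    rw [Finset.sum_congr rfl (fun p hp => by rw [(Finset.mem_filter.mp hp).2]), Finset.sum_const, smul_eq_mul]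
    rfl
  rw [h, h, h, h]
  simp only [tn, cd]
  ring

/-- The weight of a point. -/
private def Tp (p : F4 × F4) : ℕ :=
  tn (fk 0 p) + 4096 * tn (fk 1 p) + 16777216 * tn (fk 2 p) + 68719476736 * tn (fk 3 p) +
    281474976710656 * tn (fk 4 p) + 1152921504606846976

private theorem st_eq (K : Finset (F4 × F4)) : ∑ p ∈ K, Tp p =
    cd K 0 + 4096 * cd K 1 + 16777216 * cd K 2 + 68719476736 * cd K 3 + 281474976710656 * cd K 4 +
      1152921504606846976 * K.card := by
  simp only [Tp, Finset.sum_add_distrib, ← Finset.mul_sum, cd_eq, Finset.sum_const, smul_eq_mul]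
  ring

private theorem D_le (K : Finset (F4 × F4)) (k : Fin 5) (t : F4) : D K k t ≤ 4 := by
  have h : ∀ (k : Fin 5) (t : F4), D Finset.univ k t = 4 := by decide
  rw [← h k t]
  exact Finset.card_le_card (Finset.filter_subset_filter _ (Finset.subset_univ K))

private theorem cd_lt (K : Finset (F4 × F4)) (k : Fin 5) : cd K k < 4096 := by
  have h1 := D_le K k o
  have h2 := D_le K k i
  have h3 := D_le K k w
  have h4 := D_le K k z
  unfold cd
  omega

private theorem leaf_eq (a b c d e u : ℕ) (ha : a < 4096) (hb : b < 4096) (hc : c < 4096) (hd : d < 4096)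
    (he : e < 4096) : leaf (a + 4096 * b + 16777216 * c + 68719476736 * d + 281474976710656 * e +
      1152921504606846976 * u) = lf a b c d e u := by
  have key : ∀ n : ℕ, leaf n = lf (n % 4096) ((n / 4096) % 4096) ((n / 16777216) % 4096)
      ((n / 68719476736) % 4096) ((n / 281474976710656) % 4096) (n / 1152921504606846976) := by
    intro n
    have h : ∀ m k : ℕ, Nat.shiftRight m k = m / 2 ^ k := fun m k => Nat.shiftRight_eq_div_pow m k
    unfold leaf
    rw [h, h, h, h, h]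
    rfl
  rw [key]
  congr 1 <;> omega

private theorem stp (f : ℕ → Bool) (c t : ℕ) (P : Prop) [Decidable P]
    (h : cond (f c) (f (Nat.add c t)) false = true) : f (c + if P then t else 0) = true := by
  cases hc : f c with
  | false => simp [hc] at h
  | true =>
    rw [hc] at h
    split_ifs with hP
    · exact h
    · exact hc

private theorem sum_16 (f : F4 × F4 → ℕ) : ∑ p, f p =
    0 + f (o, o) + f (o, i) + f (o, w) + f (o, z) + f (i, o)
       + f (i, i) + f (i, w) + f (i, z) + f (w, o) + f (w, i) + f (w, w)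
       + f (w, z) + f (z, o) + f (z, i) + f (z, w) + f (z, z) := by
  have h : ∑ p, f p = ∑ a : F4, ∑ b : F4, f (a, b) := Fintype.sum_prod_type f
  rw [h]
  simp only [sum_F4]
  ring

private theorem leaf_true (K : Finset (F4 × F4)) : leaf (∑ p ∈ K, Tp p) = true := by
  have e : ∑ p ∈ K, Tp p = ∑ p : F4 × F4, if p ∈ K then Tp p else 0 := by
    rw [Finset.sum_ite_mem, Finset.univ_inter]
  rw [e, sum_16]
  have h0 := stp k1 _ 1153203048319815681 ((o, o) ∈ K) k0_true
  have h1 := stp k2 _ 1153203529473622024 ((o, i) ∈ K) h0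
  have h2 := stp k3 _ 1153207378704072768 ((o, w) ∈ K) h1
  have h3 := stp k4 _ 1153238172547678720 ((o, z) ∈ K) h2
  have h4 := stp k5 _ 1155208489866395649 ((i, o) ∈ K) h3
  have h5 := stp k6 _ 1155177711056982024 ((i, i) ∈ K) h4
  have h6 := stp k7 _ 1155173854195220544 ((i, w) ∈ K) h5
  have h7 := stp k8 _ 1155173373274489344 ((i, z) ∈ K) h6
  have h8 := stp k9 _ 1170936461462339585 ((w, o) ∈ K) h7
  have h9 := stp k10 _ 1170935972911644680 ((w, i) ∈ K) h8
  have h10 := stp k11 _ 1170971087622639680 ((w, w) ∈ K) h9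
  have h11 := stp k12 _ 1170940301179650560 ((w, z) ∈ K) h10
  have h12 := stp k13 _ 1297041090865528833 ((z, o) ∈ K) h11
  have h13 := stp k14 _ 1297071877071831048 ((z, i) ∈ K) h12
  have h14 := stp k15 _ 1297036769992147008 ((z, w) ∈ K) h13
  have h15 := stp leaf _ 1297037243512263168 ((z, z) ∈ K) h14
  exact h15

private theorem mxc_eq : ∀ a b c d : Fin 5, mxc (a.1 + (8 * b.1 + (64 * c.1 + 512 * d.1))) =
    max (max a.1 b.1) (max c.1 d.1) := by
  decide +kernel

private theorem mxc_cd (K : Finset (F4 × F4)) (k : Fin 5) : mxc (cd K k) = mx (D K k) :=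
  mxc_eq ⟨D K k o, Nat.lt_succ_of_le (D_le K k o)⟩ ⟨D K k i, Nat.lt_succ_of_le (D_le K k i)⟩
    ⟨D K k w, Nat.lt_succ_of_le (D_le K k w)⟩ ⟨D K k z, Nat.lt_succ_of_le (D_le K k z)⟩

private theorem vic_cd (K : Finset (F4 × F4)) (k : Fin 5) : vic (cd K k) = vecOf (D K k) := rfl

private theorem vec_lt (K : Finset (F4 × F4)) (k : Fin 5) : vecOf (D K k) < 32 :=
  Nat.mod_lt _ (by norm_num)

/-- The code of a list. -/
private def cl (l : List ℕ) : ℕ := (l.map (fun x => 8 ^ x)).sum

private theorem isT_eq (s : ℕ) (h : isT s = true) : ∃ t ∈ TYL, s = cl t.2 + 8 ^ 32 * t.1 := by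
  have h2 : (TYL.any fun t => Nat.beq s (cl t.2 + 8 ^ 32 * t.1)) = true := h
  rw [List.any_eq_true] at h2
  obtain ⟨t, ht, h3⟩ := h2
  exact ⟨t, ht, Nat.eq_of_beq_eq_true h3⟩

private theorem digits_inj : ∀ (N : ℕ) (a b : ℕ → ℕ), (∀ n, a n < 8) → (∀ n, b n < 8) →
    ∑ n ∈ Finset.range N, a n * 8 ^ n = ∑ n ∈ Finset.range N, b n * 8 ^ n → ∀ n < N, a n = b n := by
  intro N
  induction N with
  | zero => intro a b _ _ _ n hn; omega
  | succ N ih =>
    intro a b ha hb h n hn
    have e : ∀ c : ℕ → ℕ, ∑ n ∈ Finset.range (N + 1), c n * 8 ^ n =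
        8 * (∑ n ∈ Finset.range N, c (n + 1) * 8 ^ n) + c 0 := by
      intro c
      rw [Finset.sum_range_succ', Finset.mul_sum]
      congr 1
      · exact Finset.sum_congr rfl (fun n _ => by ring)
      · simp
    rw [e, e] at h
    have h0 := ha 0
    have h1 := hb 0
    cases n with
    | zero => omega
    | succ n =>
      exact ih (fun n => a (n + 1)) (fun n => b (n + 1)) (fun n => ha (n + 1)) (fun n => hb (n + 1))
        (by omega) n (by omega)

private theorem sum_code (s : Multiset ℕ) (N : ℕ) (h : ∀ x ∈ s, x < N) :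
    (s.map (fun x => 8 ^ x)).sum = ∑ n ∈ Finset.range N, s.count n * 8 ^ n := by
  rw [Finset.sum_multiset_map_count]
  simp only [smul_eq_mul]
  refine Finset.sum_subset (fun x hx => Finset.mem_range.mpr (h x (Multiset.mem_toFinset.mp hx))) ?_
  intro x _ hx
  rw [Multiset.count_eq_zero_of_notMem (fun h2 => hx (Multiset.mem_toFinset.mpr h2)), zero_mul]

private theorem code_inj (s t : Multiset ℕ) (hs : s.card < 8) (ht : t.card < 8)
    (h : (s.map (fun x => 8 ^ x)).sum = (t.map (fun x => 8 ^ x)).sum) : s = t := by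
  have h1 : ∀ x ∈ s + t, x < (s + t).sum + 1 := fun x hx =>
    Nat.lt_succ_of_le (Multiset.le_sum_of_mem hx)
  have hs2 : ∀ x ∈ s, x < (s + t).sum + 1 := fun x hx => h1 x (Multiset.mem_add.mpr (Or.inl hx))
  have ht2 : ∀ x ∈ t, x < (s + t).sum + 1 := fun x hx => h1 x (Multiset.mem_add.mpr (Or.inr hx))
  rw [sum_code s _ hs2, sum_code t _ ht2] at h
  have h3 := digits_inj _ (fun n => s.count n) (fun n => t.count n)
    (fun n => lt_of_le_of_lt (Multiset.count_le_card n s) hs)
    (fun n => lt_of_le_of_lt (Multiset.count_le_card n t) ht) h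
  refine Multiset.ext.mpr (fun n => ?_)
  by_cases hn : n < (s + t).sum + 1
  · exact h3 n hn
  · rw [Multiset.count_eq_zero_of_notMem (fun h4 => hn (hs2 n h4)),
      Multiset.count_eq_zero_of_notMem (fun h4 => hn (ht2 n h4))]

private theorem TYL_len : ∀ t ∈ TYL, t.2.length = 5 ∧ cl t.2 < 8 ^ 32 := by
  decide +kernel

private theorem shl (m k : ℕ) : Nat.shiftLeft m k = m * 2 ^ k := Nat.shiftLeft_eq m k

private theorem pw (k : ℕ) : Nat.shiftLeft 1 (Nat.mul 3 k) = 8 ^ k := by
  rw [shl, one_mul]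
  exact pow_mul 2 3 k

end TL

/-- There are 65536 sets K. For those which satisfy h the five vectors form one of the 16 types of TYL.
The check is the kernel computation TL.k0_true. -/
theorem type_lem (K : Finset (F4 × F4)) (h : 4 * ∑ k : Fin 5, mx (D K k) ≤ 41 + K.card) :
    ∃ t ∈ TYL, t.1 = K.card ∧
      (Finset.univ.val.map (fun k : Fin 5 => vecOf (D K k)) : Multiset ℕ) = (t.2 : Multiset ℕ) := by
  have h1 := TL.leaf_true K
  rw [TL.st_eq, TL.leaf_eq _ _ _ _ _ _ (TL.cd_lt K 0) (TL.cd_lt K 1) (TL.cd_lt K 2) (TL.cd_lt K 3)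
    (TL.cd_lt K 4)] at h1
  unfold TL.lf at h1
  rw [TL.mxc_cd, TL.mxc_cd, TL.mxc_cd, TL.mxc_cd, TL.mxc_cd, TL.vic_cd, TL.vic_cd, TL.vic_cd, TL.vic_cd,
    TL.vic_cd] at h1
  have h2 : Nat.ble (Nat.mul 4 (Nat.add (mx (D K 0)) (Nat.add (mx (D K 1)) (Nat.add (mx (D K 2))
      (Nat.add (mx (D K 3)) (mx (D K 4))))))) (Nat.add 41 K.card) = true := by
    rw [Nat.ble_eq]
    have e : ∑ k : Fin 5, mx (D K k) = mx (D K 0) + (mx (D K 1) + (mx (D K 2) + (mx (D K 3) + mx (D K 4)))) := by
      rw [Fin.sum_univ_five]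
      ring
    rw [e] at h
    exact h
  rw [h2, Bool.cond_true] at h1
  have h3 : TL.isT (8 ^ vecOf (D K 0) + 8 ^ vecOf (D K 1) + 8 ^ vecOf (D K 2) + 8 ^ vecOf (D K 3) +
      8 ^ vecOf (D K 4) + K.card * 2 ^ 96) = true := by
    unfold TL.tyc at h1
    rw [TL.pw, TL.pw, TL.pw, TL.pw, TL.pw, TL.shl] at h1
    exact h1
  obtain ⟨t, ht, h5⟩ := TL.isT_eq _ h3
  obtain ⟨hl, hc⟩ := TL.TYL_len t ht
  have hb : ∀ k : Fin 5, 8 ^ vecOf (D K k) ≤ 8 ^ 31 := fun k =>
    Nat.pow_le_pow_right (by norm_num) (Nat.le_of_lt_succ (TL.vec_lt K k))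
  have b0 := hb 0
  have b1 := hb 1
  have b2 := hb 2
  have b3 := hb 3
  have b4 := hb 4
  have h6 : t.1 = K.card ∧ 8 ^ vecOf (D K 0) + 8 ^ vecOf (D K 1) + 8 ^ vecOf (D K 2) + 8 ^ vecOf (D K 3) +
      8 ^ vecOf (D K 4) = TL.cl t.2 := by
    generalize 8 ^ vecOf (D K 0) = x0 at *
    generalize 8 ^ vecOf (D K 1) = x1 at *
    generalize 8 ^ vecOf (D K 2) = x2 at *
    generalize 8 ^ vecOf (D K 3) = x3 at *
    generalize 8 ^ vecOf (D K 4) = x4 at *
    generalize TL.cl t.2 = y at *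
    norm_num at *
    omega
  refine ⟨t, ht, h6.1, TL.code_inj _ _ ?_ ?_ ?_⟩
  · simp
  · rw [Multiset.coe_card, hl]
    norm_num
  · have e1 : ((Finset.univ.val.map (fun k : Fin 5 => vecOf (D K k))).map (fun x => 8 ^ x)).sum =
        ∑ k : Fin 5, 8 ^ vecOf (D K k) := by
      rw [Multiset.map_map]
      rfl
    rw [e1, Fin.sum_univ_five, h6.2, Multiset.map_coe, Multiset.sum_coe]
    rfl

end Pool.Agent.Lib.MP_4dc748_co.TE
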