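import Pool.Agent.Lib.MP_4dc748_co.TE.UniT

/-!
# Every set of 9 points which meets all lines in 0, 1 or 3 points is in the table
-/

set_option autoImplicit false
set_option maxRecDepth 20000
set_option synthInstance.maxSize 4000
set_option synthInstance.maxHeartbeats 400000

namespace Pool.Agent.Lib.MP_4dc748_co.TE

theorem uni_aux :
    ∀ b6 : Bool,
    ∀ b1 : Bool,
    ∀ b10 : Bool,
    ∀ b8 : Bool,
    ∀ b9 : Bool, ok5 b1 b6 b8 b9 b10 = true →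
    ∀ b20 : Bool,
    ∀ b11 : Bool,
    ∀ b12 : Bool,
    ∀ b2 : Bool, ok5 b2 b9 b11 b12 b20 = true →
    ∀ b16 : Bool,
    ∀ b7 : Bool,
    ∀ b13 : Bool,
    ∀ b4 : Bool, ok5 b4 b7 b9 b13 b16 = true →
    ∀ b15 : Bool,
    ∀ b14 : Bool, ok5 b1 b11 b13 b14 b15 = true →
    ∀ b5 : Bool, ok5 b4 b5 b10 b15 b20 = true →
    ∀ b17 : Bool, ok5 b1 b5 b7 b12 b17 = true → ok5 b2 b10 b14 b16 b17 = true →
    ∀ b0 : Bool, ok5 b0 b5 b6 b11 b16 = true → ok5 b0 b7 b8 b14 b20 = true →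
    ∀ b18 : Bool, ok5 b2 b5 b8 b13 b18 = true → ok5 b4 b6 b12 b14 b18 = true → ok5 b0 b9 b15 b17 b18 = true →
    ∀ b19 : Bool, ok5 b2 b6 b7 b15 b19 = true → ok5 b1 b16 b18 b19 b20 = true → ok5 b0 b10 b12 b13 b19 = true → ok5 b4 b8 b11 b17 b19 = true →
    ∀ b3 : Bool, ok5 b3 b5 b9 b14 b19 = true → ok5 b0 b1 b2 b3 b4 = true → ok5 b3 b6 b13 b17 b20 = true → ok5 b3 b8 b12 b15 b16 = true → ok5 b3 b7 b10 b11 b18 = true →
    Nat.beq (Nat.add b0.toNat (Nat.add b1.toNat (Nat.add b2.toNat (Nat.add b3.toNat (Nat.add b4.toNat (Nat.add b5.toNat (Nat.add b6.toNat (Nat.add b7.toNat (Nat.add b8.toNat (Nat.add b9.toNat (Nat.add b10.toNat (Nat.add b11.toNat (Nat.add b12.toNat (Nat.add b13.toNat (Nat.add b14.toNat (Nat.add b15.toNat (Nat.add b16.toNat (Nat.add b17.toNat (Nat.add b18.toNat (Nat.add b19.toNat b20.toNat)))))))))))))))))))) 9 = true →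
    UT.any (fun t => Nat.beq t.1 (Nat.add (Nat.mul 1 b0.toNat) (Nat.add (Nat.mul 2 b1.toNat) (Nat.add (Nat.mul 4 b2.toNat) (Nat.add (Nat.mul 8 b3.toNat) (Nat.add (Nat.mul 16 b4.toNat) (Nat.add (Nat.mul 32 b5.toNat) (Nat.add (Nat.mul 64 b6.toNat) (Nat.add (Nat.mul 128 b7.toNat) (Nat.add (Nat.mul 256 b8.toNat) (Nat.add (Nat.mul 512 b9.toNat) (Nat.add (Nat.mul 1024 b10.toNat) (Nat.add (Nat.mul 2048 b11.toNat) (Nat.add (Nat.mul 4096 b12.toNat) (Nat.add (Nat.mul 8192 b13.toNat) (Nat.add (Nat.mul 16384 b14.toNat) (Nat.add (Nat.mul 32768 b15.toNat) (Nat.add (Nat.mul 65536 b16.toNat) (Nat.add (Nat.mul 131072 b17.toNat) (Nat.add (Nat.mul 262144 b18.toNat) (Nat.add (Nat.mul 524288 b19.toNat) (Nat.mul 1048576 b20.toNat)))))))))))))))))))))) = true := by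
  decide +kernel

end Pool.Agent.Lib.MP_4dc748_co.TE
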